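import Pool.Agent.Stj.Few

open Complex Set Filter MeasureTheory Topology
open scoped Real

namespace Pool.Agent.Stj

lemma S2_lt (d : ℕ) (hd : 1 ≤ d) (ε : ℝ) (hε : 8 / (3 * ((d : ℝ) + 3)) < ε) :
    (S2 d : ℝ) < ε * S1 d := by
  have h1 := S_ratio d
  have h2 : 0 < S2 d := by
    have h3 := S2_eq d
    have h4 : 0 < d * (d + 1) * (d + 2) := by positivity
    omega
  have h5 : (0 : ℝ) < S2 d := by exact_mod_cast h2
  have h6 : (0 : ℝ) < 3 * ((d : ℝ) + 3) := by positivity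
  rw [div_lt_iff₀ h6] at hε
  have h7 : 8 * (S2 d : ℝ) < ε * (3 * ((d : ℝ) + 3)) * S2 d := mul_lt_mul_of_pos_right hε h5
  have h8 : ε * (3 * ((d : ℝ) + 3)) * S2 d = 8 * (ε * S1 d) := by
    linear_combination (-ε) * h1
  linarith

/-- Exceptionally small Stieltjes constants are locally few. -/
theorem short : ∃ γ : ℕ → ℝ,
    (∀ n : ℕ, Tendsto (fun N : ℕ => (∑ k ∈ Finset.Icc 1 N, Real.log k ^ n / k) -
      Real.log N ^ (n + 1) / (n + 1)) atTop (𝓝 (γ n))) ∧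
    ∀ δ : ℝ, 0 < δ → ∀ d : ℕ, 1 ≤ d → ∀ ε : ℝ, 8 / (3 * ((d : ℝ) + 3)) < ε →
      ∃ x0 : ℝ, ∀ x : ℝ, x0 ≤ x →
        2 * {n : ℕ | x ≤ n ∧ (n : ℝ) ≤ x + x ^ (1 - ε) ∧
          |γ n| < Real.exp (n * (Real.log (Real.log n) - δ))}.ncard < (d + 1) * (d + 2) := by
  refine ⟨fun n => -(π / (n + 1)) * (J (n + 1)).re, tendsto_stieltjes,
    fun δ hδ d hd1 ε hε => ?_⟩
  set ε' := min ε 1 with hε'
  have hd3 : (0 : ℝ) < 3 * ((d : ℝ) + 3) := by positivity
  have hε'1 : ε' ≤ 1 := min_le_right _ _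
  have hlt : 8 / (3 * ((d : ℝ) + 3)) < ε' := by
    apply lt_min hε
    rw [div_lt_one hd3]
    have : (1 : ℝ) ≤ d := by exact_mod_cast hd1
    linarith
  have hε'0 : 0 < ε' := lt_trans (by positivity) hlt
  obtain ⟨M0, hM0⟩ := span d ε' hε'0 (S2_lt d hd1 ε' hlt)
  obtain ⟨n0, hn0⟩ := large_of_re' (DD d) δ hδ
  refine ⟨max (max (M0 : ℝ) n0) 1, fun x hx => ?_⟩
  have hxM : (M0 : ℝ) ≤ x := ((le_max_left _ _).trans (le_max_left _ _)).trans hx
  have hxn : (n0 : ℝ) ≤ x := ((le_max_right _ _).trans (le_max_left _ _)).trans hx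
  have hx1 : 1 ≤ x := (le_max_right _ _).trans hx
  set A : Set ℕ := {n : ℕ | x ≤ n ∧ (n : ℝ) ≤ x + x ^ (1 - ε) ∧
    |-(π / (n + 1)) * (J (n + 1)).re| < Real.exp (n * (Real.log (Real.log n) - δ))} with hA
  have hAfin : A.Finite := by
    apply (Set.finite_Iic ⌊x + x ^ (1 - ε)⌋₊).subset
    intro n hn
    exact Nat.le_floor hn.2.1
  by_contra hcon
  push Not at hcon
  have hDD := DD_eq d
  have hcard : DD d ≤ hAfin.toFinset.card := by
    rw [← Set.ncard_eq_toFinset_card A hAfin]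
    change (d + 1) * (d + 2) ≤ 2 * A.ncard at hcon
    omega
  obtain ⟨s, hs, hcs⟩ := Finset.exists_subset_card_eq hcard
  have hDpos : 0 < DD d := by
    have : 0 < (d + 1) * (d + 2) := by positivity
    omega
  set mj : Fin (DD d) → ℕ := fun j => s.orderEmbOfFin hcs j + 1 with hmj
  have hmem : ∀ j, s.orderEmbOfFin hcs j ∈ A := fun j =>
    hAfin.mem_toFinset.1 (hs (Finset.orderEmbOfFin_mem s hcs j))
  have hmono : StrictMono mj := by
    intro i j hij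
    have := (s.orderEmbOfFin hcs).strictMono hij
    simp only [hmj]
    omega
  set j0 : Fin (DD d) := ⟨0, hDpos⟩ with hj0
  have hge : ∀ j, mj j0 ≤ mj j := fun j =>
    hmono.monotone (by rw [hj0]; exact Fin.mk_le_of_le_val (Nat.zero_le _))
  have hxm : x + 1 ≤ (mj j0 : ℝ) := by
    have := (hmem j0).1
    simp only [hmj]
    push_cast
    linarith
  have hMm : M0 ≤ mj j0 := by
    have h1 : (M0 : ℝ) ≤ (mj j0 : ℝ) := by linarith
    exact_mod_cast h1
  refine hM0 (mj j0) hMm mj hmono hge ?_ ?_ j0 rfl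
  · intro j
    have h1 := (hmem j).2.1
    have hm0 : (0 : ℝ) < (mj j0 : ℝ) := by linarith
    have h2 : x ^ (1 - ε) ≤ x ^ (1 - ε') :=
      Real.rpow_le_rpow_of_exponent_le hx1 (by linarith [min_le_left ε 1])
    have h3 : x ^ (1 - ε') ≤ (mj j0 : ℝ) ^ (1 - ε') :=
      Real.rpow_le_rpow (by linarith) (by linarith) (by linarith)
    have e1 : (mj j0 : ℝ) * (mj j0 : ℝ) ^ (-ε') = (mj j0 : ℝ) ^ (1 - ε') := by
      rw [sub_eq_add_neg, Real.rpow_add hm0, Real.rpow_one]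
    rw [mul_add, mul_one, e1]
    have h4 : (mj j : ℝ) = (s.orderEmbOfFin hcs j : ℝ) + 1 := by
      simp only [hmj]
      push_cast
      ring
    rw [h4]
    linarith
  · intro j
    have h1 := (hmem j).1
    have h2 := (hmem j).2.2
    change |(J (mj j)).re| ≤ ‖J (mj j)‖ / ((mj j : ℕ) : ℝ) ^ (DD d)
    by_contra hcon2
    push Not at hcon2
    have h3 : n0 ≤ s.orderEmbOfFin hcs j := by
      have : (n0 : ℝ) ≤ (s.orderEmbOfFin hcs j : ℝ) := by linarith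
      exact_mod_cast this
    have h4 := hn0 (s.orderEmbOfFin hcs j) h3 hcon2.le
    exact absurd h2 (not_lt.2 h4)

end Pool.Agent.Stj
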