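import Pool.Agent.Stj.Few

open Complex Set Filter MeasureTheory Topology
open scoped Real

namespace Pool.Agent.Stj

open Sad

/-- `exists_good` with an arbitrary lower bound for `U`. -/
lemma exists_good' (V : ℝ) : ∃ m0 : ℕ, 2 ≤ m0 ∧ ∀ m : ℕ, m0 ≤ m →
    ∃ S : Sad m, 4 * QQ ≤ S.l ∧ 1736 * QQ * S.U ^ 3 ≤ S.l ∧ V ≤ S.U := by
  obtain ⟨U1, hU1⟩ : ∃ U1 : ℝ, ∀ U, U1 ≤ U → 1736 * QQ * U ^ 3 ≤ Real.exp (U / 4) := by
    have h1 := Real.tendsto_pow_mul_exp_neg_atTop_nhds_zero 3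
    have h2 : Tendsto (fun x : ℝ => (x / 4)) atTop atTop :=
      tendsto_id.atTop_div_const (by norm_num)
    have h3 := (h1.comp h2).const_mul (1736 * QQ * 64)
    rw [mul_zero] at h3
    have h4 := h3.eventually (ge_mem_nhds (show (0 : ℝ) < 1 by norm_num))
    obtain ⟨U1, h5⟩ := eventually_atTop.1 h4
    refine ⟨U1, fun U hU => ?_⟩
    have h6 := h5 U hU
    simp only [Function.comp] at h6
    rw [Real.exp_neg] at h6
    have h7 := Real.exp_pos (U / 4)
    have h8 : 1736 * QQ * 64 * ((U / 4) ^ 3 * (Real.exp (U / 4))⁻¹) =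
        (1736 * QQ * U ^ 3) / Real.exp (U / 4) := by
      field_simp
      ring
    rw [h8, div_le_one h7] at h6
    exact h6
  obtain ⟨m0, hm0⟩ := exists_sad (max (max U1 1) V)
  refine ⟨max m0 2, le_max_right _ _, fun m hm => ?_⟩
  obtain ⟨S, hS⟩ := hm0 m ((le_max_left _ _).trans hm)
  have h1 := hU1 S.U ((le_max_left _ _).trans ((le_max_left _ _).trans hS))
  have hl : Real.exp (S.U / 4) ≤ S.l := by
    unfold Sad.l
    apply Real.le_sqrt_of_sq_le
    rw [← Real.exp_nat_mul]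
    unfold Sad.L
    rw [S.R_eq]
    have h2 : Real.exp (((2 : ℕ) : ℝ) * (S.U / 4)) ≤ Real.exp (S.U * S.e.re) := by
      rw [Real.exp_le_exp]
      push_cast
      have := S.hre
      have := S.U_pos
      nlinarith
    have h3 := Real.pi_gt_three
    have h4 := Real.exp_pos (S.U * S.e.re)
    nlinarith
  have h5 : 1736 * QQ * S.U ^ 3 ≤ S.l := h1.trans hl
  refine ⟨S, ?_, h5, (le_max_right _ _).trans hS⟩
  refine le_trans ?_ h5
  have := QQ_ge
  have h6 : (1 : ℝ) ≤ S.U ^ 3 := one_le_pow₀ (by linarith [S.hU])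
  nlinarith

/-- the angle between consecutive values -/
lemma Sad.arg_step {m : ℕ} (S : Sad m) (hl : 4 * QQ ≤ S.l) (hl2 : 1736 * QQ * S.U ^ 3 ≤ S.l) :
    J m ≠ 0 ∧ 1 / (4 * S.U) ≤ Complex.arg (J (m + 1) / J m) ∧
    Complex.arg (J (m + 1) / J m) ≤ (π / 2 / S.U + 1 / S.U ^ 2) / (1 - 3 / S.U ^ 2) := by
  obtain ⟨h0, h1, h2, _⟩ := S.ratio hl
  have hU := S.U_pos
  have hU4 := S.hU
  have hlp := S.l_pos
  have hl1 := S.l_ge
  have hQ := QQ_ge
  have hUe : (S.U : ℂ) * S.e ≠ 0 := mul_ne_zero S.U_ne S.e_ne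
  have hC := S.C_ne
  have j0 : S.P 0 * S.C = J m := by
    unfold Sad.P
    rw [pow_zero, mul_one, add_zero, div_mul_cancel₀ _ hC]
  have j1 : S.P 1 * (S.C * (S.U * S.e)) = J (m + 1) := by
    unfold Sad.P
    rw [pow_one, div_mul_cancel₀ _ (mul_ne_zero hC hUe)]
  have hP0 : S.P 0 ≠ 0 := by
    intro h
    rw [h, zero_mul] at j0
    exact h0 j0.symm
  set w := (S.P 1 - S.P 0) / S.P 0 with hw
  have hq : J (m + 1) / J m = (S.U : ℂ) * (S.e * (1 + w)) := by
    rw [← j0, ← j1, hw]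
    field_simp
    ring
  have hU31 : (1 : ℝ) ≤ S.U ^ 3 := one_le_pow₀ (by linarith)
  have hwn : ‖w‖ ≤ 1 / S.U ^ 3 := by
    rw [hw, norm_div, div_le_iff₀ (norm_pos_iff.2 hP0)]
    refine S.e1_bound.trans ?_
    have h3 : 1 / S.U ^ 3 * (1 / (2 * S.l)) ≤ 1 / S.U ^ 3 * ‖S.P 0‖ := by gcongr
    refine le_trans ?_ h3
    rw [div_mul_div_comm, div_le_div_iff₀ (by positivity) (by positivity)]
    have h4 : QQ * S.U ^ 3 ≤ S.l := by
      have h5 : 0 ≤ QQ * S.U ^ 3 := by positivity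
      nlinarith
    have h6 : 2 * S.l ≤ S.l ^ 2 := by nlinarith
    calc QQ * (S.U ^ 3 * (2 * S.l)) = (QQ * S.U ^ 3) * (2 * S.l) := by ring
      _ ≤ S.l * S.l ^ 2 := by gcongr
      _ = 1 * 1 * S.l ^ 3 := by ring
  set v := S.e * (1 + w) with hv
  have hv5 : v = S.e + S.e * w := by rw [hv]; ring
  have hew : ‖S.e * w‖ ≤ 1 / S.U ^ 3 := by rw [norm_mul, S.he, one_mul]; exact hwn
  have hsmall : 1 / S.U ^ 3 ≤ 1 / (2 * S.U ^ 2) := by
    apply div_le_div_of_nonneg_left (by norm_num) (by positivity)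
    nlinarith [sq_nonneg S.U]
  have hsmall2 : 1 / (2 * S.U ^ 2) ≤ 1 / (2 * S.U) := by
    apply div_le_div_of_nonneg_left (by norm_num) (by positivity)
    nlinarith
  have hvn : ‖v‖ ≤ 2 := by
    rw [hv5]
    refine (norm_add_le _ _).trans ?_
    rw [S.he]
    have : 1 / (2 * S.U) ≤ 1 := by
      rw [div_le_one (by positivity)]; linarith
    linarith
  have him_le : S.e.im ≤ π / 2 / S.U := by
    rw [le_div_iff₀ hU]
    have := S.him2
    linarith
  have hvim : 1 / (2 * S.U) ≤ v.im := by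
    rw [hv5, Complex.add_im]
    have h6 : |(S.e * w).im| ≤ 1 / (2 * S.U) := by
      refine (Complex.abs_im_le_norm _).trans ?_
      linarith
    rw [abs_le] at h6
    have h7 := S.him
    have h8 : 1 / S.U = 1 / (2 * S.U) + 1 / (2 * S.U) := by field_simp; norm_num
    linarith [h6.1]
  have hvim2 : v.im ≤ π / 2 / S.U + 1 / S.U ^ 2 := by
    rw [hv5, Complex.add_im]
    have h6 : |(S.e * w).im| ≤ 1 / (2 * S.U ^ 2) := by
      refine (Complex.abs_im_le_norm _).trans ?_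
      linarith
    rw [abs_le] at h6
    have h9 : 1 / (2 * S.U ^ 2) ≤ 1 / S.U ^ 2 := by
      apply div_le_div_of_nonneg_left (by norm_num) (by positivity)
      nlinarith [sq_nonneg S.U]
    linarith [h6.2]
  have hvre : 1 - 3 / S.U ^ 2 ≤ v.re := by
    rw [hv5, Complex.add_re]
    have h6 : |(S.e * w).re| ≤ 1 / (2 * S.U ^ 2) := by
      refine (Complex.abs_re_le_norm _).trans ?_
      linarith
    rw [abs_le] at h6
    have hsq : S.e.re ^ 2 + S.e.im ^ 2 = 1 := by
      have := re_sq_add_im_sq S.he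
      nlinarith
    have hi : S.e.im ^ 2 ≤ 5 / 2 / S.U ^ 2 := by
      have hpi := Real.pi_lt_d2
      have h10 : S.e.im ^ 2 ≤ (π / 2 / S.U) ^ 2 := by
        apply pow_le_pow_left₀ S.im_pos.le him_le
      refine h10.trans ?_
      rw [div_pow, div_le_div_iff_of_pos_right (by positivity)]
      nlinarith [Real.pi_pos]
    have hre1 : S.e.re ^ 2 ≤ S.e.re := by
      have := S.re_le_one
      have := S.hre
      nlinarith
    have h11 : 3 / S.U ^ 2 = 5 / 2 / S.U ^ 2 + 1 / (2 * S.U ^ 2) := by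
      field_simp
      norm_num
    rw [h11]
    linarith [h6.1]
  have h3U : 3 / S.U ^ 2 ≤ 1 / 2 := by
    rw [div_le_iff₀ (by positivity)]
    nlinarith
  have hvre0 : 0 < v.re := by linarith
  have harg : Complex.arg (J (m + 1) / J m) = Complex.arg v := by
    rw [hq, Complex.arg_real_mul _ hU]
  have hv0 : v ≠ 0 := by
    intro h
    rw [h] at hvre0
    simp at hvre0
  have hvnp : 0 < ‖v‖ := norm_pos_iff.2 hv0
  have habs : |Complex.arg v| < π / 2 :=
    (Complex.abs_arg_lt_pi_div_two_iff).2 (Or.inl hvre0)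
  have harg0 : 0 ≤ Complex.arg v := by
    rw [Complex.arg_nonneg_iff]
    have : 0 < 1 / (2 * S.U) := by positivity
    linarith
  rw [abs_of_nonneg harg0] at habs
  refine ⟨h0, ?_, ?_⟩
  · rw [harg]
    have h12 := Real.sin_le harg0
    rw [Complex.sin_arg] at h12
    refine le_trans ?_ h12
    rw [le_div_iff₀ hvnp]
    have h13 : 1 / (4 * S.U) * ‖v‖ ≤ 1 / (4 * S.U) * 2 := by gcongr
    have h14 : 1 / (4 * S.U) * 2 = 1 / (2 * S.U) := by field_simp; norm_num
    linarith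
  · rw [harg]
    have h12 := Real.le_tan harg0 habs
    rw [Complex.tan_arg] at h12
    refine h12.trans ?_
    have h15 : 0 < 1 - 3 / S.U ^ 2 := by linarith
    have h16 : 0 ≤ v.im := le_trans (by positivity) hvim
    calc v.im / v.re ≤ v.im / (1 - 3 / S.U ^ 2) := by gcongr
      _ ≤ _ := by gcongr

/-- uniform form of the angle bounds -/
lemma step_bound (η : ℝ) (hη : 0 < η) : ∃ m0 : ℕ, 3 ≤ m0 ∧ ∀ m : ℕ, m0 ≤ m →
    J m ≠ 0 ∧ 1 / (5 * Real.log m) ≤ Complex.arg (J (m + 1) / J m) ∧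
    Complex.arg (J (m + 1) / J m) ≤ π / 2 * (1 + η) / Real.log m := by
  have ht : Tendsto (fun U : ℝ => (1 + Real.log U / U + 2 / U) *
      ((π / 2 + 1 / U) / (1 - 3 / U ^ 2))) atTop (𝓝 ((1 + 0 + 0) * ((π / 2 + 0) / (1 - 0)))) := by
    have h1 : Tendsto (fun x : ℝ => Real.log x / x) atTop (𝓝 0) := by
      have := Real.isLittleO_log_id_atTop
      exact this.tendsto_div_nhds_zero
    have h2 : Tendsto (fun x : ℝ => 2 / x) atTop (𝓝 0) := tendsto_id.const_div_atTop 2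
    have h3 : Tendsto (fun x : ℝ => 1 / x) atTop (𝓝 0) := tendsto_id.const_div_atTop 1
    have h4 : Tendsto (fun x : ℝ => 3 / x ^ 2) atTop (𝓝 0) :=
      (tendsto_pow_atTop (by norm_num)).const_div_atTop 3
    exact ((tendsto_const_nhds.add h1).add h2).mul
      ((tendsto_const_nhds.add h3).div (tendsto_const_nhds.sub h4) (by norm_num))
  have hlim : (1 + 0 + 0) * ((π / 2 + 0) / (1 - 0)) < π / 2 * (1 + η) := by
    have := Real.pi_pos
    norm_num
    nlinarith
  obtain ⟨V, hV⟩ := eventually_atTop.1 (ht.eventually (gt_mem_nhds hlim))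
  obtain ⟨m0, hm02, hm0⟩ := exists_good' V
  refine ⟨max m0 3, le_max_right _ _, fun m hm => ?_⟩
  have hm3 : 3 ≤ m := (le_max_right _ _).trans hm
  obtain ⟨S, h1, h2, h3⟩ := hm0 m ((le_max_left _ _).trans hm)
  obtain ⟨g0, g1, g2⟩ := S.arg_step h1 h2
  have hU := S.U_pos
  have hU4 := S.hU
  have hmr : (3 : ℝ) ≤ m := by exact_mod_cast hm3
  have hlogm : 0 < Real.log m := Real.log_pos (by linarith)
  have hge := S.logm_ge
  have hle := S.logm_le
  refine ⟨g0, le_trans ?_ g1, g2.trans ?_⟩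
  · apply div_le_div_of_nonneg_left (by norm_num) (by positivity)
    linarith
  · have h4 := (hV S.U h3).le
    have h3U : 3 / S.U ^ 2 ≤ 1 / 2 := by
      rw [div_le_iff₀ (by positivity)]
      nlinarith
    have h15 : 0 < 1 - 3 / S.U ^ 2 := by linarith
    have hX0 : 0 ≤ (π / 2 / S.U + 1 / S.U ^ 2) / (1 - 3 / S.U ^ 2) := by
      have := Real.pi_pos
      positivity
    rw [le_div_iff₀ hlogm]
    calc (π / 2 / S.U + 1 / S.U ^ 2) / (1 - 3 / S.U ^ 2) * Real.log m
        ≤ (π / 2 / S.U + 1 / S.U ^ 2) / (1 - 3 / S.U ^ 2) * (S.U + (Real.log S.U + 2)) := by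
          gcongr
      _ = (1 + Real.log S.U / S.U + 2 / S.U) * ((π / 2 + 1 / S.U) / (1 - 3 / S.U ^ 2)) := by
          field_simp
          ring
      _ ≤ _ := h4

lemma sum_arg (m0 a : ℕ) (ha : m0 ≤ a) (hJ : ∀ m, m0 ≤ m → J m ≠ 0) (j : ℕ) :
    J (a + j) / J a = ‖J (a + j) / J a‖ *
      Complex.exp ((∑ i ∈ Finset.range j, Complex.arg (J (a + i + 1) / J (a + i)) : ℝ) * I) := by
  induction j with
  | zero =>
    have := hJ a ha
    simp [this]
  | succ j ih =>
    have h0 := hJ a ha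
    have h1 := hJ (a + j) (by omega)
    have h2 : J (a + (j + 1)) / J a = (J (a + j + 1) / J (a + j)) * (J (a + j) / J a) := by
      rw [← add_assoc]
      field_simp
    rw [h2, norm_mul, Finset.sum_range_succ]
    have h3 := Complex.norm_mul_exp_arg_mul_I (J (a + j + 1) / J (a + j))
    push_cast
    rw [add_mul, Complex.exp_add]
    conv_lhs => rw [← h3, ih]
    push_cast
    ring

/-- two exceptionally small real parts are far apart -/
lemma re_gap (c : ℝ) (hc : c < 2) : ∃ m0 : ℕ, ∀ a : ℕ, m0 ≤ a → ∀ b : ℕ, a < b →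
    (b : ℝ) ≤ a + c * Real.log a →
    ‖J a‖ / ((a : ℕ) : ℝ) ^ 1 ≤ |(J a).re| ∨ ‖J b‖ / ((b : ℕ) : ℝ) ^ 1 ≤ |(J b).re| := by
  -- choose η with c (1+η) / 2 ≤ 1 - θ
  obtain ⟨η, θ, hη, hθ, hcη⟩ : ∃ η θ : ℝ, 0 < η ∧ 0 < θ ∧ max c 0 * (1 + η) / 2 ≤ 1 - θ := by
    set c' := max c 0 with hc'
    have h1 : c' < 2 := max_lt hc (by norm_num)
    have h0 : 0 ≤ c' := le_max_right _ _
    refine ⟨(2 - c') / 4, (2 - c') / 4, by linarith, by linarith, ?_⟩
    nlinarith
  obtain ⟨m1, hm13, hm1⟩ := step_bound η hη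
  have hlog : Tendsto (fun x : ℝ => Real.log x / x) atTop (𝓝 0) := by
    have := Real.isLittleO_log_id_atTop
    exact this.tendsto_div_nhds_zero
  have hinv : Tendsto (fun x : ℝ => 1 / x) atTop (𝓝 0) := tendsto_id.const_div_atTop 1
  have e1 := hlog.eventually (gt_mem_nhds (show (0 : ℝ) < 1 / 20 by norm_num))
  have e2 := hinv.eventually (gt_mem_nhds hθ)
  obtain ⟨X, hX⟩ := eventually_atTop.1 (e1.and (e2.and (eventually_ge_atTop (3 : ℝ))))
  obtain ⟨X', hX'⟩ := exists_nat_ge X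
  refine ⟨max m1 X', fun a ha b hab hb => ?_⟩
  have ham1 : m1 ≤ a := (le_max_left _ _).trans ha
  have haX : X ≤ a := hX'.trans (by exact_mod_cast (le_max_right _ _).trans ha)
  obtain ⟨f1, f2, f3⟩ := hX a haX
  have ha0 : (0 : ℝ) < a := by linarith
  have hloga : 0 < Real.log a := Real.log_pos (by linarith)
  obtain ⟨j, rfl⟩ := Nat.exists_eq_add_of_lt hab
  have hjr : (j : ℝ) + 1 ≤ c * Real.log a := by
    push_cast at hb
    linarith
  have hJ : ∀ m, m1 ≤ m → J m ≠ 0 := fun m hm => (hm1 m hm).1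
  have hsum := sum_arg m1 a ham1 hJ (j + 1)
  set Ψ : ℝ := ∑ i ∈ Finset.range (j + 1), Complex.arg (J (a + i + 1) / J (a + i)) with hΨ
  have hterm : ∀ i, 0 ≤ Complex.arg (J (a + i + 1) / J (a + i)) ∧
      Complex.arg (J (a + i + 1) / J (a + i)) ≤ π / 2 * (1 + η) / Real.log a := by
    intro i
    obtain ⟨_, t1, t2⟩ := hm1 (a + i) (by omega)
    have hai : (a : ℝ) ≤ ((a + i : ℕ) : ℝ) := by push_cast; linarith [(Nat.cast_nonneg i : (0 : ℝ) ≤ i)]
    have hlai : Real.log a ≤ Real.log ((a + i : ℕ) : ℝ) := Real.log_le_log ha0 hai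
    have hlai0 : 0 < Real.log ((a + i : ℕ) : ℝ) := by linarith
    refine ⟨le_trans (by positivity) t1, t2.trans ?_⟩
    apply div_le_div_of_nonneg_left _ hloga hlai
    have := Real.pi_pos
    positivity
  have hΨlow : 1 / (5 * Real.log a) ≤ Ψ := by
    rw [hΨ, Finset.sum_range_succ']
    have h1 := (hm1 a ham1).2.1
    have h2 : 0 ≤ ∑ i ∈ Finset.range j, Complex.arg (J (a + (i + 1) + 1) / J (a + (i + 1))) :=
      Finset.sum_nonneg fun i _ => (hterm (i + 1)).1
    simp only [add_zero]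
    linarith
  have hΨup : Ψ ≤ π * (1 - θ) := by
    have h1 : Ψ ≤ ((j + 1 : ℕ) : ℝ) * (π / 2 * (1 + η) / Real.log a) := by
      rw [hΨ]
      refine (Finset.sum_le_card_nsmul _ _ _ (fun i _ => (hterm i).2)).trans ?_
      rw [Finset.card_range, nsmul_eq_mul]
    have h2 : ((j + 1 : ℕ) : ℝ) * (π / 2 * (1 + η) / Real.log a) ≤
        (max c 0 * Real.log a) * (π / 2 * (1 + η) / Real.log a) := by
      apply mul_le_mul_of_nonneg_right
      · push_cast
        refine hjr.trans ?_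
        apply mul_le_mul_of_nonneg_right (le_max_left _ _) hloga.le
      · have := Real.pi_pos
        positivity
    have h3 : (max c 0 * Real.log a) * (π / 2 * (1 + η) / Real.log a) =
        π * (max c 0 * (1 + η) / 2) := by
      field_simp
    rw [h3] at h2
    have h4 : π * (max c 0 * (1 + η) / 2) ≤ π * (1 - θ) := by
      have := Real.pi_pos
      gcongr
    linarith
  -- lower bound for the sine
  have hsin : 2 / (a : ℝ) < Real.sin Ψ := by
    have hpi := Real.pi_pos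
    have hΨ0 : 0 ≤ Ψ := le_trans (by positivity) hΨlow
    have hA : 2 / (a : ℝ) < 2 / π * (1 / (5 * Real.log a)) := by
      have hpi4 := Real.pi_lt_d2
      rw [div_mul_div_comm, div_lt_div_iff₀ ha0 (by positivity)]
      rw [div_lt_iff₀ ha0] at f1
      nlinarith
    have hB : 2 / (a : ℝ) < 2 * θ := by
      have : 2 / (a : ℝ) = 2 * (1 / a) := by ring
      rw [this]
      linarith
    rcases le_total Ψ (π / 2) with h | h
    · have h1 := Real.mul_le_sin hΨ0 h
      have h2 : 2 / π * (1 / (5 * Real.log a)) ≤ 2 / π * Ψ := by gcongr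
      linarith
    · have h3 : 0 ≤ π - Ψ := by nlinarith
      have h1 := Real.mul_le_sin h3 (by linarith)
      rw [Real.sin_pi_sub] at h1
      have h2 : 2 / π * (π * θ) ≤ 2 / π * (π - Ψ) := by
        gcongr
        linarith
      have h4 : 2 / π * (π * θ) = 2 * θ := by field_simp
      linarith
  -- the determinant
  have hb0 : (0 : ℝ) < ((a + j + 1 : ℕ) : ℝ) := by positivity
  have hna : 0 < ‖J a‖ := norm_pos_iff.2 (hJ a ham1)
  have hnb : 0 < ‖J (a + j + 1)‖ := norm_pos_iff.2 (hJ _ (by omega))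
  have hdet : ‖J a‖ * ‖J (a + j + 1)‖ * Real.sin Ψ =
      (J (a + j + 1)).im * (J a).re - (J (a + j + 1)).re * (J a).im := by
    have h1 : J (a + j + 1) = (‖J (a + j + 1)‖ / ‖J a‖ : ℝ) *
        Complex.exp ((Ψ : ℝ) * I) * J a := by
      have h2 := hsum
      rw [← add_assoc, norm_div] at h2
      rw [div_eq_iff (hJ a ham1)] at h2
      exact h2
    have hexp : Complex.exp ((Ψ : ℝ) * I) = (Real.cos Ψ : ℂ) + (Real.sin Ψ : ℂ) * I := by
      rw [Complex.exp_mul_I, Complex.ofReal_cos, Complex.ofReal_sin]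
    set r : ℝ := ‖J (a + j + 1)‖ / ‖J a‖ with hr
    have him : (J (a + j + 1)).im = r * (Real.cos Ψ * (J a).im + Real.sin Ψ * (J a).re) := by
      rw [h1, hexp]
      simp only [Complex.mul_im, Complex.mul_re, Complex.add_re, Complex.add_im,
        Complex.ofReal_re, Complex.ofReal_im, Complex.I_re, Complex.I_im]
      ring
    have hre : (J (a + j + 1)).re = r * (Real.cos Ψ * (J a).re - Real.sin Ψ * (J a).im) := by
      rw [h1, hexp]
      simp only [Complex.mul_im, Complex.mul_re, Complex.add_re, Complex.add_im,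
        Complex.ofReal_re, Complex.ofReal_im, Complex.I_re, Complex.I_im]
      ring
    have hnsq : (J a).re * (J a).re + (J a).im * (J a).im = ‖J a‖ ^ 2 := by
      rw [Complex.sq_norm, Complex.normSq_apply]
    rw [him, hre]
    have h3 : ‖J (a + j + 1)‖ = r * ‖J a‖ := by rw [hr]; field_simp
    rw [h3]
    linear_combination (-(r * Real.sin Ψ)) * hnsq
  by_contra hcon
  push Not at hcon
  obtain ⟨c1, c2⟩ := hcon
  rw [pow_one] at c1 c2
  have h5 : ‖J a‖ * ‖J (a + j + 1)‖ * Real.sin Ψ ≤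
      |(J a).re| * ‖J (a + j + 1)‖ + |(J (a + j + 1)).re| * ‖J a‖ := by
    rw [hdet]
    have a1 := Complex.abs_im_le_norm (J (a + j + 1))
    have a2 := Complex.abs_im_le_norm (J a)
    calc (J (a + j + 1)).im * (J a).re - (J (a + j + 1)).re * (J a).im
        ≤ |(J (a + j + 1)).im * (J a).re| + |(J (a + j + 1)).re * (J a).im| := by
          have := le_abs_self ((J (a + j + 1)).im * (J a).re)
          have := neg_abs_le ((J (a + j + 1)).re * (J a).im)
          linarith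
      _ = |(J a).re| * |(J (a + j + 1)).im| + |(J (a + j + 1)).re| * |(J a).im| := by
          rw [abs_mul, abs_mul]; ring
      _ ≤ _ := by gcongr
  have h6 : ‖J (a + j + 1)‖ / ((a + j + 1 : ℕ) : ℝ) ≤ ‖J (a + j + 1)‖ / a := by
    apply div_le_div_of_nonneg_left hnb.le ha0
    push_cast
    linarith [(Nat.cast_nonneg j : (0 : ℝ) ≤ j)]
  have h7 : |(J a).re| * ‖J (a + j + 1)‖ + |(J (a + j + 1)).re| * ‖J a‖ ≤
      ‖J a‖ * ‖J (a + j + 1)‖ * (2 / a) := by
    calc _ ≤ (‖J a‖ / a) * ‖J (a + j + 1)‖ + (‖J (a + j + 1)‖ / a) * ‖J a‖ := by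
          gcongr
          exact c2.le.trans h6
      _ = _ := by ring
  have h8 : ‖J a‖ * ‖J (a + j + 1)‖ * (2 / a) < ‖J a‖ * ‖J (a + j + 1)‖ * Real.sin Ψ := by
    gcongr
  linarith

/-- Exceptionally small Stieltjes constants are at distance at least `c log n`, `c < 2`. -/
theorem gap : ∃ γ : ℕ → ℝ,
    (∀ n : ℕ, Tendsto (fun N : ℕ => (∑ k ∈ Finset.Icc 1 N, Real.log k ^ n / k) -
      Real.log N ^ (n + 1) / (n + 1)) atTop (𝓝 (γ n))) ∧
    ∀ δ : ℝ, 0 < δ → ∀ c : ℝ, c < 2 → ∃ n0 : ℕ, ∀ n i j : ℕ, n0 ≤ n → n ≤ i → i < j →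
      (j : ℝ) ≤ n + c * Real.log n →
      Real.exp (i * (Real.log (Real.log i) - δ)) ≤ |γ i| ∨
      Real.exp (j * (Real.log (Real.log j) - δ)) ≤ |γ j| := by
  refine ⟨fun n => -(π / (n + 1)) * (J (n + 1)).re, tendsto_stieltjes, fun δ hδ c hc => ?_⟩
  obtain ⟨m0, hm0⟩ := re_gap (max c 0) (max_lt hc (by norm_num))
  obtain ⟨n1, hn1⟩ := large_of_re' 1 δ hδ
  refine ⟨max (max m0 n1) 2, fun n i j hn hi hij hj => ?_⟩
  have hnm0 : m0 ≤ n := ((le_max_left _ _).trans (le_max_left _ _)).trans hn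
  have hnn1 : n1 ≤ n := ((le_max_right _ _).trans (le_max_left _ _)).trans hn
  have hn2 : 2 ≤ n := (le_max_right _ _).trans hn
  have hnr : (2 : ℝ) ≤ n := by exact_mod_cast hn2
  have hir : (n : ℝ) ≤ i := by exact_mod_cast hi
  have h1 : ((j + 1 : ℕ) : ℝ) ≤ ((i + 1 : ℕ) : ℝ) + max c 0 * Real.log ((i + 1 : ℕ) : ℝ) := by
    have h2 : Real.log n ≤ Real.log ((i + 1 : ℕ) : ℝ) := by
      apply Real.log_le_log (by linarith)
      push_cast
      linarith
    have h3 : 0 ≤ Real.log n := Real.log_nonneg (by linarith)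
    have h4 : c * Real.log n ≤ max c 0 * Real.log ((i + 1 : ℕ) : ℝ) := by
      apply mul_le_mul (le_max_left _ _) h2 h3 (le_max_right _ _)
    push_cast
    push_cast at h4
    linarith
  rcases hm0 (i + 1) (by omega) (j + 1) (by omega) h1 with h | h
  · left
    exact hn1 i (by omega) h
  · right
    exact hn1 j (by omega) h

end Pool.Agent.Stj
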