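import Pool.Agent.Stj.Fin

open Complex Set Filter MeasureTheory Topology
open scoped Real

namespace Pool.Agent.Stj

open Sad

lemma tendsto_small : Tendsto (fun x : ℝ => 2 / √(Real.log x) + 4 * (Real.log x / x)) atTop (𝓝 0) := by
  have h1 : Tendsto (fun x : ℝ => Real.log x / x) atTop (𝓝 0) := by
    have := Real.isLittleO_log_id_atTop
    exact this.tendsto_div_nhds_zero
  have h2 : Tendsto (fun x : ℝ => √(Real.log x)) atTop atTop :=
    Real.tendsto_sqrt_atTop.comp Real.tendsto_log_atTop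
  have h3 : Tendsto (fun x : ℝ => 2 / √(Real.log x)) atTop (𝓝 0) := h2.const_div_atTop 2
  have := h3.add (h1.const_mul 4)
  simpa using this

/-- if the real part is not exceptionally small, the Stieltjes constant is large -/
lemma large_of_re (δ : ℝ) (hδ : 0 < δ) : ∃ n0 : ℕ, ∀ n : ℕ, n0 ≤ n →
    ‖J (n + 1)‖ / ((n + 1 : ℕ) : ℝ) ^ 3 ≤ |(J (n + 1)).re| →
    Real.exp (n * (Real.log (Real.log n) - δ)) ≤ |-(π / (n + 1)) * (J (n + 1)).re| := by
  obtain ⟨m0, hm02, hm0⟩ := exists_good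
  have h1 := tendsto_small.eventually (ge_mem_nhds hδ)
  have h2 : Tendsto (fun x : ℝ => Real.log (Real.log x)) atTop atTop :=
    Real.tendsto_log_atTop.comp Real.tendsto_log_atTop
  have h3 := h2.eventually (eventually_ge_atTop δ)
  obtain ⟨X, hX⟩ := eventually_atTop.1 (h1.and (h3.and (eventually_ge_atTop (Real.exp 1))))
  obtain ⟨X', hX'⟩ := exists_nat_ge X
  refine ⟨max m0 (max X' 3), fun n hn hre => ?_⟩
  have hnm0 : m0 ≤ n + 1 := by
    have := (le_max_left _ _).trans hn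
    omega
  have hnX : X' ≤ n := ((le_max_left _ _).trans (le_max_right _ _)).trans hn
  have hn3 : 3 ≤ n := ((le_max_right _ _).trans (le_max_right _ _)).trans hn
  have hn3r : (3 : ℝ) ≤ n := by exact_mod_cast hn3
  obtain ⟨S, hS, _⟩ := hm0 (n + 1) hnm0
  have hJ := S.J_lower hS
  set m : ℝ := ((n + 1 : ℕ) : ℝ) with hm
  have hmn : m = n + 1 := by rw [hm]; push_cast; ring
  obtain ⟨g1, g2, g3⟩ := hX m (by
    rw [hmn]
    have : (X' : ℝ) ≤ n := by exact_mod_cast hnX
    linarith)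
  have hm0' : 0 < m := by linarith
  have hlogm : 1 ≤ Real.log m := (Real.le_log_iff_exp_le hm0').2 g3
  have hlogn : 1 ≤ Real.log n := by
    rw [Real.le_log_iff_exp_le (by linarith)]
    have := Real.exp_one_lt_d9
    linarith
  rw [← hmn, abs_mul, abs_neg, abs_of_pos (by positivity)]
  -- lower bound chain
  have h5 : Real.exp (m * (Real.log (Real.log m) - 2 / √(Real.log m))) / m ^ 3 ≤ |(J (n + 1)).re| := by
    refine le_trans ?_ hre
    gcongr
  have h6 : Real.exp (m * (Real.log (Real.log m) - δ)) ≤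
      π / m * (Real.exp (m * (Real.log (Real.log m) - 2 / √(Real.log m))) / m ^ 3) := by
    have e1 : π / m * (Real.exp (m * (Real.log (Real.log m) - 2 / √(Real.log m))) / m ^ 3) =
        π * Real.exp (m * (Real.log (Real.log m) - 2 / √(Real.log m)) - 4 * Real.log m) := by
      rw [Real.exp_sub, show 4 * Real.log m = Real.log (m ^ 4) by
        rw [Real.log_pow]; norm_num, Real.exp_log (by positivity)]
      field_simp
    rw [e1]
    have h7 : m * (Real.log (Real.log m) - δ) ≤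
        m * (Real.log (Real.log m) - 2 / √(Real.log m)) - 4 * Real.log m := by
      have h8 : m * (2 / √(Real.log m) + 4 * (Real.log m / m)) ≤ m * δ := by gcongr
      have h9 : m * (2 / √(Real.log m) + 4 * (Real.log m / m)) =
          m * (2 / √(Real.log m)) + 4 * Real.log m := by
        field_simp
      linarith
    have h10 := Real.exp_le_exp.2 h7
    have hpi := Real.pi_gt_three
    have h11 := Real.exp_pos (m * (Real.log (Real.log m) - 2 / √(Real.log m)) - 4 * Real.log m)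
    nlinarith
  have h12 : Real.exp (n * (Real.log (Real.log n) - δ)) ≤
      Real.exp (m * (Real.log (Real.log m) - δ)) := by
    rw [Real.exp_le_exp]
    have h13 : Real.log (Real.log n) ≤ Real.log (Real.log m) := by
      apply Real.log_le_log (by linarith)
      apply Real.log_le_log (by linarith)
      linarith
    calc (n : ℝ) * (Real.log (Real.log n) - δ) ≤ n * (Real.log (Real.log m) - δ) := by gcongr
      _ ≤ m * (Real.log (Real.log m) - δ) := by
          apply mul_le_mul_of_nonneg_right _ (by linarith)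
          linarith
  calc _ ≤ _ := h12
    _ ≤ _ := h6
    _ ≤ _ := by gcongr

lemma Fc_succ (N : ℕ) (hN : 2 ≤ N) : Fc ((N + 1 : ℕ) : ℝ) ≤ 2 * Fc N := by
  have hNr : (2 : ℝ) ≤ N := by exact_mod_cast hN
  have hlog : 0 < Real.log N := Real.log_pos (by linarith)
  have hlog2 : Real.log N ≤ Real.log ((N + 1 : ℕ) : ℝ) := by
    apply Real.log_le_log (by linarith)
    push_cast; linarith
  have h1 : ((N + 1 : ℕ) : ℝ) / Real.log ((N + 1 : ℕ) : ℝ) ≤ 2 * (N / Real.log N) := by
    have h2 : ((N + 1 : ℕ) : ℝ) / Real.log ((N + 1 : ℕ) : ℝ) ≤ ((N + 1 : ℕ) : ℝ) / Real.log N := by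
      gcongr
    refine h2.trans ?_
    rw [← mul_div_assoc]
    gcongr
    push_cast
    linarith
  have h3 : 1 ≤ ((N + 1 : ℕ) : ℝ) := by push_cast; linarith
  have h4 : Fc ((N + 1 : ℕ) : ℝ) ^ 3 ≤ (2 * Fc N) ^ 3 := by
    rw [mul_pow, Fc_cube h3, Fc_cube (by linarith)]
    have h5 : (((N + 1 : ℕ) : ℝ) / Real.log ((N + 1 : ℕ) : ℝ)) ^ 2 ≤ (2 * (N / Real.log N)) ^ 2 := by
      apply pow_le_pow_left₀ _ h1
      have : 0 < Real.log ((N + 1 : ℕ) : ℝ) := by linarith
      positivity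
    have h6 : 0 ≤ ((N : ℝ) / Real.log N) ^ 2 := by positivity
    rw [mul_pow] at h5
    nlinarith
  exact le_of_pow_le_pow_left₀ (by norm_num)
    (mul_nonneg (by norm_num) (Fc_nonneg (by linarith))) h4

theorem sparse : ∃ γ : ℕ → ℝ,
    (∀ n : ℕ, Tendsto (fun N : ℕ => (∑ k ∈ Finset.Icc 1 N, Real.log k ^ n / k) -
      Real.log N ^ (n + 1) / (n + 1)) atTop (𝓝 (γ n))) ∧
    ∀ δ : ℝ, 0 < δ → ∃ C : ℝ, ∀ N : ℕ, 2 ≤ N →
      ({n : ℕ | n ≤ N ∧ |γ n| < Real.exp (n * (Real.log (Real.log n) - δ))}.ncard : ℝ) ≤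
        C * ((N : ℝ) / Real.log N) ^ (2 / 3 : ℝ) := by
  refine ⟨fun n => -(π / (n + 1)) * (J (n + 1)).re, tendsto_stieltjes, fun δ hδ => ?_⟩
  obtain ⟨n0, hn0⟩ := large_of_re δ hδ
  obtain ⟨m0, C, hC⟩ := Ex_count
  refine ⟨(max n0 m0 + 1) + 2 * C, fun N hN => ?_⟩
  have hNr : (2 : ℝ) ≤ N := by exact_mod_cast hN
  set A : Set ℕ := {n : ℕ | n ≤ N ∧ |-(π / (n + 1)) * (J (n + 1)).re| <
    Real.exp (n * (Real.log (Real.log n) - δ))} with hA
  set B : Set ℕ := {n : ℕ | n ∈ {m | m ∈ Ex ∧ m0 ≤ m} ∧ n ≤ N + 1} with hB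
  have hBfin : B.Finite := (Set.finite_Iic (N + 1)).subset fun n hn => hn.2
  have hsub : A ⊆ Set.Iio (max n0 m0 + 1) ∪ (fun n => n - 1) '' B := by
    intro n hn
    by_cases hlt : n < max n0 m0 + 1
    · left; exact hlt
    · right
      push Not at hlt
      have h1 : n0 ≤ n := (le_max_left n0 m0).trans (by omega)
      have h2 : m0 ≤ n := (le_max_right n0 m0).trans (by omega)
      refine ⟨n + 1, ⟨⟨?_, by omega⟩, by have := hn.1; omega⟩, by simp⟩
      change |(J (n + 1)).re| ≤ ‖J (n + 1)‖ / ((n + 1 : ℕ) : ℝ) ^ 3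
      by_contra hcon
      push Not at hcon
      have h3 := hn0 n h1 hcon.le
      exact absurd hn.2 (not_lt.2 h3)
  have h1 : A.ncard ≤ (max n0 m0 + 1) + B.ncard := by
    refine (Set.ncard_le_ncard hsub ((Set.finite_Iio _).union (hBfin.image _))).trans ?_
    refine (Set.ncard_union_le _ _).trans ?_
    apply Nat.add_le_add
    · rw [Set.ncard_eq_toFinset_card' (Set.Iio (max n0 m0 + 1))]
      simp
    · exact Set.ncard_image_le hBfin
  have h2 := hC (N + 1) (by omega)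
  have hF := one_le_Fc hNr
  have hF2 := Fc_succ N hN
  have hC0 : 0 ≤ C := by
    have h3 := hC 2 le_rfl
    have h4 : (0 : ℝ) ≤ ({n : ℕ | n ∈ {m | m ∈ Ex ∧ m0 ≤ m} ∧ n ≤ 2}.ncard : ℝ) := Nat.cast_nonneg _
    have h5 := one_le_Fc (x := ((2 : ℕ) : ℝ)) (by norm_num)
    by_contra hneg
    push Not at hneg
    nlinarith
  have h3 : (A.ncard : ℝ) ≤ ((max n0 m0 : ℕ) + 1) + B.ncard := by exact_mod_cast h1
  have h4 : (B.ncard : ℝ) ≤ C * (2 * Fc N) := by
    refine h2.trans ?_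
    gcongr
  change (A.ncard : ℝ) ≤ ((max n0 m0 : ℕ) + 1 + 2 * C) * Fc N
  have h5 : (0 : ℝ) ≤ ((max n0 m0 : ℕ) : ℝ) := Nat.cast_nonneg _
  nlinarith

end Pool.Agent.Stj
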