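import Pool.Agent.Stj.Span
import Pool.Agent.Stj.Sparse

open Complex Set Filter MeasureTheory Topology
open scoped Real

namespace Pool.Agent.Stj

/-- a finite set in which any `D` elements span at least `T`. -/
lemma card_le_of_D (D : ℕ) (S : Finset ℕ) (M : ℕ) (T : ℝ) (hT : 0 < T)
    (hS : ∀ x ∈ S, M ≤ x ∧ x ≤ 2 * M)
    (h3 : ∀ s ⊆ S, s.card = D → ∃ x ∈ s, ∃ y ∈ s, T ≤ (y : ℝ) - x) :
    (S.card : ℝ) ≤ D * (M / T + 1) := by
  set f : ℕ → ℕ := fun x => ⌊((x : ℝ) - M) / T⌋₊ with hf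
  have h1 : S.card ≤ D * (S.image f).card := by
    apply Finset.card_le_mul_card_image
    intro b hb
    by_contra hcon
    push Not at hcon
    obtain ⟨s, hs, hcard⟩ := Finset.exists_subset_card_eq hcon.le
    have hs2 : ∀ x ∈ s, x ∈ S ∧ f x = b := fun x hx => Finset.mem_filter.1 (hs hx)
    obtain ⟨x, hx, y, hy, hxy⟩ := h3 s (fun x hx => (hs2 x hx).1) hcard
    have key : ∀ p q : ℕ, p ∈ S → q ∈ S → f p = b → f q = b → (q : ℝ) - p < T := by
      intro p q hp hq hpb hqb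
      have hp1 : (M : ℝ) ≤ p := by exact_mod_cast (hS p hp).1
      have hq1 : (M : ℝ) ≤ q := by exact_mod_cast (hS q hq).1
      have a1 : (b : ℝ) ≤ ((p : ℝ) - M) / T := by
        rw [← hpb]
        exact Nat.floor_le (div_nonneg (by linarith) hT.le)
      have a2 : ((q : ℝ) - M) / T < b + 1 := by
        rw [← hqb]
        exact Nat.lt_floor_add_one _
      rw [le_div_iff₀ hT] at a1
      rw [div_lt_iff₀ hT] at a2
      linarith
    have := key x y (hs2 x hx).1 (hs2 y hy).1 (hs2 x hx).2 (hs2 y hy).2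
    linarith
  have h2 : (S.image f).card ≤ ⌊(M : ℝ) / T⌋₊ + 1 := by
    have : S.image f ⊆ Finset.range (⌊(M : ℝ) / T⌋₊ + 1) := by
      intro b hb
      rw [Finset.mem_image] at hb
      obtain ⟨x, hx, rfl⟩ := hb
      rw [Finset.mem_range, Nat.lt_succ_iff]
      apply Nat.floor_le_floor
      have : (x : ℝ) ≤ 2 * M := by exact_mod_cast (hS x hx).2
      gcongr
      linarith
    have := Finset.card_le_card this
    rwa [Finset.card_range] at this
  have h4 : ((S.image f).card : ℝ) ≤ M / T + 1 := by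
    have h5 : ((S.image f).card : ℝ) ≤ (⌊(M : ℝ) / T⌋₊ : ℝ) + 1 := by exact_mod_cast h2
    have h6 := Nat.floor_le (show 0 ≤ (M : ℝ) / T by positivity)
    linarith
  have h5 : (S.card : ℝ) ≤ D * ((S.image f).card : ℝ) := by exact_mod_cast h1
  refine h5.trans ?_
  gcongr

/-- counting from the spacing property -/
lemma count_bound' (E : Set ℕ) (D M0 : ℕ) (δ : ℝ) (hδ0 : 0 < δ)
    (h3 : ∀ M : ℕ, M0 ≤ M → ∀ s : Finset ℕ, (∀ x ∈ s, x ∈ E ∧ M ≤ x ∧ x ≤ 2 * M) → s.card = D →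
      ∃ x ∈ s, ∃ y ∈ s, (M : ℝ) ^ (1 - δ) ≤ (y : ℝ) - x) :
    ∃ C : ℝ, ∀ N : ℕ, 1 ≤ N → ({n : ℕ | n ∈ E ∧ n ≤ N}.ncard : ℝ) ≤ C * (N : ℝ) ^ δ := by
  classical
  set r : ℝ := (2 / 3 : ℝ) ^ δ with hr
  have hr0 : 0 < r := Real.rpow_pos_of_pos (by norm_num) _
  have hr1 : r < 1 := Real.rpow_lt_one (by norm_num) (by norm_num) hδ0
  set N1 := 2 * M0 + 3 with hN1
  set C : ℝ := max (2 * D / (1 - r)) (N1 + 1) with hC
  refine ⟨C, ?_⟩
  have hC16 : 2 * D / (1 - r) ≤ C := le_max_left _ _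
  have hCN : (N1 : ℝ) + 1 ≤ C := le_max_right _ _
  have hC0 : 0 ≤ C := by
    have : (0 : ℝ) ≤ N1 := Nat.cast_nonneg _
    linarith
  have hcnt : ∀ N : ℕ, {n : ℕ | n ∈ E ∧ n ≤ N}.ncard =
      ((Finset.range (N + 1)).filter (fun n => n ∈ E)).card := by
    intro N
    rw [← Set.ncard_coe_finset]
    congr 1
    ext n
    simp [and_comm]
  intro N
  induction N using Nat.strong_induction_on with
  | _ N ih =>
    intro hN
    have hNr : (1 : ℝ) ≤ N := by exact_mod_cast hN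
    have hF1 : 1 ≤ (N : ℝ) ^ δ := Real.one_le_rpow hNr hδ0.le
    by_cases hsmall : N ≤ N1
    · rw [hcnt]
      have h4 : ((Finset.range (N + 1)).filter (fun n => n ∈ E)).card ≤ N + 1 := by
        refine (Finset.card_filter_le _ _).trans ?_
        simp
      have h5 : (((Finset.range (N + 1)).filter (fun n => n ∈ E)).card : ℝ) ≤ N + 1 := by
        exact_mod_cast h4
      have h6 : (N : ℝ) ≤ N1 := by exact_mod_cast hsmall
      nlinarith
    · push Not at hsmall
      set M := (N + 1) / 2 with hM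
      have hM0M : M0 ≤ M := by omega
      have hN2M : N ≤ 2 * M := by omega
      have h2MN : 3 * M ≤ 2 * N := by omega
      have hMN : M < N := by omega
      have hM1 : 1 ≤ M := by omega
      have ihM := ih M hMN hM1
      have hMr : (1 : ℝ) ≤ M := by exact_mod_cast hM1
      have hM0' : (0 : ℝ) < M := by linarith
      have hFM : 1 ≤ (M : ℝ) ^ δ := Real.one_le_rpow hMr hδ0.le
      have hFr : (M : ℝ) ^ δ ≤ r * (N : ℝ) ^ δ := by
        have h7 : 3 * (M : ℝ) ≤ 2 * N := by exact_mod_cast h2MN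
        rw [hr, ← Real.mul_rpow (by norm_num) (by linarith)]
        apply Real.rpow_le_rpow hM0'.le _ hδ0.le
        linarith
      set T : ℝ := (M : ℝ) ^ (1 - δ) with hT
      have hT0 : 0 < T := Real.rpow_pos_of_pos hM0' _
      set S := (Finset.Icc M (2 * M)).filter (fun n => n ∈ E) with hS
      have hcard := card_le_of_D D S M T hT0
        (by
          intro x hx
          rw [hS, Finset.mem_filter, Finset.mem_Icc] at hx
          exact hx.1)
        (by
          intro s hs hcard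
          apply h3 M hM0M s _ hcard
          intro x hx
          have := hs hx
          rw [hS, Finset.mem_filter, Finset.mem_Icc] at this
          exact ⟨this.2, this.1.1, this.1.2⟩)
      have hMT : M / T = (M : ℝ) ^ δ := by
        rw [hT, div_eq_iff (Real.rpow_pos_of_pos hM0' _).ne', ← Real.rpow_add hM0']
        norm_num
      rw [hMT] at hcard
      rw [hcnt] at ihM ⊢
      have hsub : (Finset.range (N + 1)).filter (fun n => n ∈ E) ⊆
          (Finset.range (M + 1)).filter (fun n => n ∈ E) ∪ S := by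
        intro n hn
        rw [Finset.mem_filter, Finset.mem_range] at hn
        rw [Finset.mem_union, Finset.mem_filter, Finset.mem_range, hS, Finset.mem_filter,
          Finset.mem_Icc]
        by_cases hnM : n < M + 1
        · left; exact ⟨hnM, hn.2⟩
        · right; exact ⟨⟨by omega, by omega⟩, hn.2⟩
      have h14 : (((Finset.range (N + 1)).filter (fun n => n ∈ E)).card : ℝ) ≤
          (((Finset.range (M + 1)).filter (fun n => n ∈ E)).card : ℝ) + S.card := by
        have := (Finset.card_le_card hsub).trans (Finset.card_union_le _ _)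
        exact_mod_cast this
      have h15 : (D : ℝ) * ((M : ℝ) ^ δ + 1) ≤ 2 * D * (M : ℝ) ^ δ := by
        have : (0 : ℝ) ≤ D := Nat.cast_nonneg _
        nlinarith
      have h16 : (C + 2 * D) * r ≤ C := by
        have h17 : 2 * (D : ℝ) ≤ C * (1 - r) := by
          rwa [div_le_iff₀ (by linarith)] at hC16
        have h18 : (0 : ℝ) ≤ D := Nat.cast_nonneg _
        nlinarith
      calc _ ≤ C * (M : ℝ) ^ δ + 2 * D * (M : ℝ) ^ δ := by linarith
        _ = (C + 2 * D) * (M : ℝ) ^ δ := by ring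
        _ ≤ (C + 2 * D) * (r * (N : ℝ) ^ δ) := by gcongr
        _ = ((C + 2 * D) * r) * (N : ℝ) ^ δ := by ring
        _ ≤ C * (N : ℝ) ^ δ := by gcongr

theorem ExP_count {δ : ℝ} (hδ : 0 < δ) (hδ1 : δ ≤ 1) : ∃ P m0 : ℕ, ∃ C : ℝ, ∀ N : ℕ, 1 ≤ N →
    ({n : ℕ | n ∈ {m | m ∈ ExP P ∧ m0 ≤ m} ∧ n ≤ N}.ncard : ℝ) ≤ C * (N : ℝ) ^ δ := by
  obtain ⟨d, hd1, hd⟩ := exists_d hδ
  obtain ⟨M0, hM0⟩ := span d δ hδ hd
  refine ⟨DD d, M0, ?_⟩
  apply count_bound' _ (DD d) (M0 + 1) δ hδ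
  intro M hM s hs hcard
  by_contra hcon
  push Not at hcon
  have hM1 : 1 ≤ M := by omega
  have hDpos : 0 < DD d := by
    have := DD_eq d
    have : 0 < (d + 1) * (d + 2) := by positivity
    omega
  set mj : Fin (DD d) → ℕ := fun j => s.orderEmbOfFin hcard j with hmj
  have hmem : ∀ j, mj j ∈ s := fun j => Finset.orderEmbOfFin_mem s hcard j
  have hmono : StrictMono mj := (s.orderEmbOfFin hcard).strictMono
  set j0 : Fin (DD d) := ⟨0, hDpos⟩ with hj0
  have hge : ∀ j, mj j0 ≤ mj j := fun j => hmono.monotone (by rw [hj0]; exact Fin.mk_le_of_le_val (Nat.zero_le _))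
  have hm0 : M ≤ mj j0 := (hs _ (hmem j0)).2.1
  refine hM0 (mj j0) (by omega) mj hmono hge ?_ (fun j => (hs _ (hmem j)).1.1) j0 rfl
  intro j
  have h1 := hcon _ (hmem j0) _ (hmem j)
  have hMr : (0 : ℝ) < M := by
    have : (1 : ℝ) ≤ M := by exact_mod_cast hM1
    linarith
  have hmr : (M : ℝ) ≤ mj j0 := by exact_mod_cast hm0
  have hmr0 : (0 : ℝ) < mj j0 := by linarith
  -- need `M^(1-δ) ≤ m^(1-δ)`
  have h2 : (M : ℝ) ^ (1 - δ) ≤ (mj j0 : ℝ) * (mj j0 : ℝ) ^ (-δ) := by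
    have e1 : (mj j0 : ℝ) * (mj j0 : ℝ) ^ (-δ) = (mj j0 : ℝ) ^ (1 - δ) := by
      rw [sub_eq_add_neg, Real.rpow_add hmr0, Real.rpow_one]
    rw [e1]
    exact Real.rpow_le_rpow hMr.le hmr (by linarith)
  linarith

/-- if the real part is not exceptionally small, the Stieltjes constant is large -/
lemma large_of_re' (P : ℕ) (δ : ℝ) (hδ : 0 < δ) : ∃ n0 : ℕ, ∀ n : ℕ, n0 ≤ n →
    ‖J (n + 1)‖ / ((n + 1 : ℕ) : ℝ) ^ P ≤ |(J (n + 1)).re| →
    Real.exp (n * (Real.log (Real.log n) - δ)) ≤ |-(π / (n + 1)) * (J (n + 1)).re| := by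
  obtain ⟨m0, hm02, hm0⟩ := exists_good
  have hsm : Tendsto (fun x : ℝ => 2 / √(Real.log x) + (P + 1) * (Real.log x / x)) atTop
      (𝓝 0) := by
    have h1 : Tendsto (fun x : ℝ => Real.log x / x) atTop (𝓝 0) := by
      have := Real.isLittleO_log_id_atTop
      exact this.tendsto_div_nhds_zero
    have h2 : Tendsto (fun x : ℝ => √(Real.log x)) atTop atTop :=
      Real.tendsto_sqrt_atTop.comp Real.tendsto_log_atTop
    have h3 : Tendsto (fun x : ℝ => 2 / √(Real.log x)) atTop (𝓝 0) := h2.const_div_atTop 2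
    have := h3.add (h1.const_mul ((P : ℝ) + 1))
    simpa using this
  have h1 := hsm.eventually (ge_mem_nhds hδ)
  have h2 : Tendsto (fun x : ℝ => Real.log (Real.log x)) atTop atTop :=
    Real.tendsto_log_atTop.comp Real.tendsto_log_atTop
  have h3 := h2.eventually (eventually_ge_atTop δ)
  obtain ⟨X, hX⟩ := eventually_atTop.1 (h1.and (h3.and (eventually_ge_atTop (Real.exp 1))))
  obtain ⟨X', hX'⟩ := exists_nat_ge X
  refine ⟨max m0 (max X' 3), fun n hn hre => ?_⟩
  have hnm0 : m0 ≤ n + 1 := by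
    have := (le_max_left _ _).trans hn
    omega
  have hnX : X' ≤ n := ((le_max_left _ _).trans (le_max_right _ _)).trans hn
  have hn3 : 3 ≤ n := ((le_max_right _ _).trans (le_max_right _ _)).trans hn
  have hn3r : (3 : ℝ) ≤ n := by exact_mod_cast hn3
  obtain ⟨S, hS, _⟩ := hm0 (n + 1) hnm0
  have hJ := S.J_lower hS
  set m : ℝ := ((n + 1 : ℕ) : ℝ) with hm
  have hmn : m = n + 1 := by rw [hm]; push_cast; ring
  obtain ⟨g1, g2, g3⟩ := hX m (by
    rw [hmn]
    have : (X' : ℝ) ≤ n := by exact_mod_cast hnX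
    linarith)
  have hm0' : 0 < m := by linarith
  have hlogm : 1 ≤ Real.log m := (Real.le_log_iff_exp_le hm0').2 g3
  have hlogn : 1 ≤ Real.log n := by
    rw [Real.le_log_iff_exp_le (by linarith)]
    have := Real.exp_one_lt_d9
    linarith
  rw [← hmn, abs_mul, abs_neg, abs_of_pos (by positivity)]
  -- lower bound chain
  have h5 : Real.exp (m * (Real.log (Real.log m) - 2 / √(Real.log m))) / m ^ P ≤ |(J (n + 1)).re| := by
    refine le_trans ?_ hre
    gcongr
  have h6 : Real.exp (m * (Real.log (Real.log m) - δ)) ≤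
      π / m * (Real.exp (m * (Real.log (Real.log m) - 2 / √(Real.log m))) / m ^ P) := by
    have e1 : π / m * (Real.exp (m * (Real.log (Real.log m) - 2 / √(Real.log m))) / m ^ P) =
        π * Real.exp (m * (Real.log (Real.log m) - 2 / √(Real.log m)) - (P + 1) * Real.log m) := by
      rw [Real.exp_sub, show ((P : ℝ) + 1) * Real.log m = Real.log (m ^ (P + 1)) by
        rw [Real.log_pow]; push_cast; ring, Real.exp_log (by positivity), pow_succ]
      field_simp
    rw [e1]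
    have h7 : m * (Real.log (Real.log m) - δ) ≤
        m * (Real.log (Real.log m) - 2 / √(Real.log m)) - (P + 1) * Real.log m := by
      have h8 : m * (2 / √(Real.log m) + (P + 1) * (Real.log m / m)) ≤ m * δ := by gcongr
      have h9 : m * (2 / √(Real.log m) + (P + 1) * (Real.log m / m)) =
          m * (2 / √(Real.log m)) + (P + 1) * Real.log m := by
        field_simp
      linarith
    have h10 := Real.exp_le_exp.2 h7
    have hpi := Real.pi_gt_three
    have h11 := Real.exp_pos (m * (Real.log (Real.log m) - 2 / √(Real.log m)) - (P + 1) * Real.log m)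
    nlinarith
  have h12 : Real.exp (n * (Real.log (Real.log n) - δ)) ≤
      Real.exp (m * (Real.log (Real.log m) - δ)) := by
    rw [Real.exp_le_exp]
    have h13 : Real.log (Real.log n) ≤ Real.log (Real.log m) := by
      apply Real.log_le_log (by linarith)
      apply Real.log_le_log (by linarith)
      linarith
    calc (n : ℝ) * (Real.log (Real.log n) - δ) ≤ n * (Real.log (Real.log m) - δ) := by gcongr
      _ ≤ m * (Real.log (Real.log m) - δ) := by
          apply mul_le_mul_of_nonneg_right _ (by linarith)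
          linarith
  calc _ ≤ _ := h12
    _ ≤ _ := h6
    _ ≤ _ := by gcongr

theorem few : ∃ γ : ℕ → ℝ,
    (∀ n : ℕ, Tendsto (fun N : ℕ => (∑ k ∈ Finset.Icc 1 N, Real.log k ^ n / k) -
      Real.log N ^ (n + 1) / (n + 1)) atTop (𝓝 (γ n))) ∧
    ∀ δ : ℝ, 0 < δ → ∀ ε : ℝ, 0 < ε → ∃ C : ℝ, ∀ N : ℕ, 1 ≤ N →
      ({n : ℕ | n ≤ N ∧ |γ n| < Real.exp (n * (Real.log (Real.log n) - δ))}.ncard : ℝ) ≤
        C * (N : ℝ) ^ ε := by
  refine ⟨fun n => -(π / (n + 1)) * (J (n + 1)).re, tendsto_stieltjes, fun δ hδ ε hε => ?_⟩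
  set ε' := min ε 1 with hε'
  have hε'0 : 0 < ε' := lt_min hε one_pos
  have hε'1 : ε' ≤ 1 := min_le_right _ _
  obtain ⟨P, m0, C, hC⟩ := ExP_count hε'0 hε'1
  obtain ⟨n0, hn0⟩ := large_of_re' P δ hδ
  refine ⟨(max n0 m0 + 1) + 2 * C, fun N hN => ?_⟩
  have hNr : (1 : ℝ) ≤ N := by exact_mod_cast hN
  set A : Set ℕ := {n : ℕ | n ≤ N ∧ |-(π / (n + 1)) * (J (n + 1)).re| <
    Real.exp (n * (Real.log (Real.log n) - δ))} with hA
  set B : Set ℕ := {n : ℕ | n ∈ {m | m ∈ ExP P ∧ m0 ≤ m} ∧ n ≤ N + 1} with hB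
  have hBfin : B.Finite := (Set.finite_Iic (N + 1)).subset fun n hn => hn.2
  have hsub : A ⊆ Set.Iio (max n0 m0 + 1) ∪ (fun n => n - 1) '' B := by
    intro n hn
    by_cases hlt : n < max n0 m0 + 1
    · left; exact hlt
    · right
      push Not at hlt
      have h1 : n0 ≤ n := (le_max_left n0 m0).trans (by omega)
      have h2 : m0 ≤ n := (le_max_right n0 m0).trans (by omega)
      refine ⟨n + 1, ⟨⟨?_, by omega⟩, by have := hn.1; omega⟩, by simp⟩
      change |(J (n + 1)).re| ≤ ‖J (n + 1)‖ / ((n + 1 : ℕ) : ℝ) ^ P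
      by_contra hcon
      push Not at hcon
      have h3 := hn0 n h1 hcon.le
      exact absurd hn.2 (not_lt.2 h3)
  have h1 : A.ncard ≤ (max n0 m0 + 1) + B.ncard := by
    refine (Set.ncard_le_ncard hsub ((Set.finite_Iio _).union (hBfin.image _))).trans ?_
    refine (Set.ncard_union_le _ _).trans ?_
    apply Nat.add_le_add
    · rw [Set.ncard_eq_toFinset_card' (Set.Iio (max n0 m0 + 1))]
      simp
    · exact Set.ncard_image_le hBfin
  have h2 := hC (N + 1) (by omega)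
  have hF : 1 ≤ (N : ℝ) ^ ε' := Real.one_le_rpow hNr hε'0.le
  have hF2 : ((N + 1 : ℕ) : ℝ) ^ ε' ≤ 2 * (N : ℝ) ^ ε' := by
    have h3 : ((N + 1 : ℕ) : ℝ) ^ ε' ≤ (2 * (N : ℝ)) ^ ε' := by
      apply Real.rpow_le_rpow (by positivity) _ hε'0.le
      push_cast
      linarith
    refine h3.trans ?_
    rw [Real.mul_rpow (by norm_num) (by linarith)]
    have h4 : (2 : ℝ) ^ ε' ≤ 2 := by
      calc (2 : ℝ) ^ ε' ≤ (2 : ℝ) ^ (1 : ℝ) :=
            Real.rpow_le_rpow_of_exponent_le (by norm_num) hε'1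
        _ = 2 := Real.rpow_one _
    gcongr
  have hC0 : 0 ≤ C := by
    have h3 := hC 1 le_rfl
    have h4 : (0 : ℝ) ≤ ({n : ℕ | n ∈ {m | m ∈ ExP P ∧ m0 ≤ m} ∧ n ≤ 1}.ncard : ℝ) :=
      Nat.cast_nonneg _
    rw [Nat.cast_one, Real.one_rpow, mul_one] at h3
    linarith
  have h3 : (A.ncard : ℝ) ≤ ((max n0 m0 : ℕ) + 1) + B.ncard := by exact_mod_cast h1
  have h4 : (B.ncard : ℝ) ≤ C * (2 * (N : ℝ) ^ ε') := by
    refine h2.trans ?_
    gcongr
  have h5 : (0 : ℝ) ≤ ((max n0 m0 : ℕ) : ℝ) := Nat.cast_nonneg _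
  have h6 : (N : ℝ) ^ ε' ≤ (N : ℝ) ^ ε :=
    Real.rpow_le_rpow_of_exponent_le hNr (min_le_left _ _)
  have h7 : (A.ncard : ℝ) ≤ ((max n0 m0 : ℕ) + 1 + 2 * C) * (N : ℝ) ^ ε' := by nlinarith
  refine h7.trans ?_
  gcongr

end Pool.Agent.Stj
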