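import Pool.Agent.Stj.Conf

open Set Filter Topology MvPolynomial

namespace Pool.Agent.Stj

/-! ### algebra of affine substitutions -/

lemma alg (d : ℕ) (x0 α β γ : ℝ) (hx0 : x0 ≠ 0) (hγ : γ ≠ 0) (v : Fin (DD d) → ℝ) (hv : v ≠ 0) :
    ∃ v' : Fin (DD d) → ℝ, v' ≠ 0 ∧ ∀ e g : PowerSeries ℝ,
      ∑ i, PowerSeries.C (v i) * ((PowerSeries.C x0 * e) ^ aI d i *
        (PowerSeries.C α + PowerSeries.C β * e + PowerSeries.C γ * g) ^ bI d i) =
      ∑ i, PowerSeries.C (v' i) * (e ^ aI d i * g ^ bI d i) := by
  set mon : Fin (DD d) → (Fin 2 →₀ ℕ) := fun i => Finsupp.single 0 (aI d i) + Finsupp.single 1 (bI d i)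
    with hmon
  have hmon0 : ∀ i, mon i 0 = aI d i := fun i => by simp [hmon]
  have hmon1 : ∀ i, mon i 1 = bI d i := fun i => by simp [hmon]
  have hinj : Function.Injective mon := by
    intro i j hij
    have h0 := congrArg (fun s => s 0) hij
    have h1 := congrArg (fun s => s 1) hij
    simp only [hmon0, hmon1] at h0 h1
    have hi := bI_le d i
    have hj := bI_le d j
    have hc : cI d i = cI d j := by
      unfold aI at h0; omega
    apply (en d).injective
    have e1 : (en d i).1 = (en d j).1 := Fin.ext hc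
    rcases hx : en d i with ⟨c, b⟩
    rcases hy : en d j with ⟨c', b'⟩
    unfold bI at h1
    rw [hx, hy] at e1 h1
    simp only at e1 h1
    subst e1
    have : b = b' := Fin.ext h1
    rw [this]
  have hsurj : ∀ s : Fin 2 →₀ ℕ, s 0 + s 1 ≤ d → ∃ i, mon i = s := by
    intro s hs
    obtain ⟨i, hi⟩ := (en d).surjective ⟨⟨s 0 + s 1, by omega⟩, ⟨s 1, by simp only; omega⟩⟩
    have hc : cI d i = s 0 + s 1 := by unfold cI; rw [hi]
    have hb : bI d i = s 1 := by unfold bI; rw [hi]
    refine ⟨i, ?_⟩
    ext q
    fin_cases q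
    · simp only [Fin.zero_eta, hmon0]
      unfold aI
      omega
    · simp only [Fin.mk_one, hmon1]
      exact hb
  set P : MvPolynomial (Fin 2) ℝ := ∑ i, monomial (mon i) (v i) with hP
  have hPcoeff : ∀ i, P.coeff (mon i) = v i := by
    intro i
    rw [hP, coeff_sum]
    simp only [coeff_monomial]
    rw [Finset.sum_eq_single i]
    · simp
    · intro j _ hj
      rw [if_neg]
      intro h
      exact hj (hinj h)
    · simp
  have hP0 : P ≠ 0 := by
    intro h
    apply hv
    ext i
    rw [← hPcoeff i, h]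
    simp
  set σ : MvPolynomial (Fin 2) ℝ →ₐ[ℝ] MvPolynomial (Fin 2) ℝ :=
    aeval ![C x0 * X 0, C α + C β * X 0 + C γ * X 1] with hσ
  set ρ : MvPolynomial (Fin 2) ℝ →ₐ[ℝ] MvPolynomial (Fin 2) ℝ :=
    aeval ![C x0⁻¹ * X 0, C γ⁻¹ * (X 1 - C α - C (β / x0) * X 0)] with hρ
  have hρσ : ρ.comp σ = AlgHom.id ℝ _ := by
    apply MvPolynomial.algHom_ext
    intro q
    fin_cases q
    · simp only [Fin.zero_eta, AlgHom.comp_apply, hσ, aeval_X, Matrix.cons_val_zero, map_mul,
        algHom_C, hρ, AlgHom.id_apply, algebraMap_eq]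
      rw [← mul_assoc, ← map_mul, mul_inv_cancel₀ hx0]
      simp
    · simp only [Fin.mk_one, AlgHom.comp_apply, hσ, aeval_X, Matrix.cons_val_one,
        Matrix.cons_val_zero, map_add, map_mul,
        algHom_C, hρ, AlgHom.id_apply, algebraMap_eq]
      have h1 : C γ * (C γ⁻¹ *
          (X 1 - C α - C (β / x0) * X 0)) =
          (X 1 - C α - C (β / x0) * X 0 : MvPolynomial (Fin 2) ℝ) := by
        rw [← mul_assoc, ← map_mul, mul_inv_cancel₀ hγ]
        simp
      have h2 : C β * (C x0⁻¹ * X 0) =
          (C (β / x0) * X 0 : MvPolynomial (Fin 2) ℝ) := by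
        rw [← mul_assoc, ← map_mul, div_eq_mul_inv]
      rw [h1, h2]
      ring
  set Q := σ P with hQ
  have hQ0 : Q ≠ 0 := by
    intro h
    apply hP0
    have : ρ Q = P := by
      rw [hQ, ← AlgHom.comp_apply, hρσ]; rfl
    rw [← this, h, map_zero]
  have hQdeg : Q.totalDegree ≤ d := by
    rw [hQ, hP, map_sum]
    apply totalDegree_finsetSum_le
    intro i _
    rw [hσ, aeval_monomial, Finsupp.prod_fintype _ _ (by simp), Fin.prod_univ_two, hmon0, hmon1]
    simp only [Matrix.cons_val_zero, Matrix.cons_val_one, algebraMap_eq]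
    refine (totalDegree_mul _ _).trans ?_
    rw [totalDegree_C, zero_add]
    refine (totalDegree_mul _ _).trans ?_
    have t1 : (C x0 * X 0 : MvPolynomial (Fin 2) ℝ).totalDegree ≤ 1 := by
      refine (totalDegree_mul _ _).trans ?_
      rw [totalDegree_C, totalDegree_X]
    have t2 : (C α + C β * X 0 + C γ * X 1 :
        MvPolynomial (Fin 2) ℝ).totalDegree ≤ 1 := by
      refine (totalDegree_add _ _).trans (max_le ?_ ?_)
      · refine (totalDegree_add _ _).trans (max_le ?_ ?_)
        · rw [totalDegree_C]; exact Nat.zero_le _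
        · refine (totalDegree_mul _ _).trans ?_
          rw [totalDegree_C, totalDegree_X]
      · refine (totalDegree_mul _ _).trans ?_
        rw [totalDegree_C, totalDegree_X]
    have t3 := totalDegree_pow (C x0 * X 0 : MvPolynomial (Fin 2) ℝ) (aI d i)
    have t4 := totalDegree_pow (C α + C β * X 0 + C γ * X 1 :
        MvPolynomial (Fin 2) ℝ) (bI d i)
    have hi := bI_le d i
    have hi2 := cI_le d i
    have ha : aI d i = cI d i - bI d i := rfl
    have t5 : aI d i * (C x0 * X 0 : MvPolynomial (Fin 2) ℝ).totalDegree ≤ aI d i := by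
      nlinarith
    have t6 : bI d i * (C α + C β * X 0 + C γ * X 1 :
        MvPolynomial (Fin 2) ℝ).totalDegree ≤ bI d i := by
      nlinarith
    omega
  have hQsum : Q = ∑ i, monomial (mon i) (Q.coeff (mon i)) := by
    apply MvPolynomial.ext
    intro s
    rw [coeff_sum]
    simp only [coeff_monomial]
    by_cases hs : s 0 + s 1 ≤ d
    · obtain ⟨i, rfl⟩ := hsurj s hs
      rw [Finset.sum_eq_single i]
      · simp
      · intro j _ hj
        rw [if_neg]
        intro h
        exact hj (hinj h)
      · simp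
    · rw [Finset.sum_eq_zero]
      · apply coeff_eq_zero_of_totalDegree_lt
        refine lt_of_le_of_lt hQdeg ?_
        push Not at hs
        have : (∑ i ∈ s.support, s i) = s 0 + s 1 := by
          have h1 := Finsupp.sum_fintype s (fun _ k => k) (by simp)
          rw [Fin.sum_univ_two] at h1
          exact h1
        rw [this]
        exact hs
      · intro i _
        rw [if_neg]
        intro h
        apply hs
        rw [← h, hmon0, hmon1]
        have hi := bI_le d i
        have hi2 := cI_le d i
        have ha : aI d i = cI d i - bI d i := rfl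
        omega
  refine ⟨fun i => Q.coeff (mon i), ?_, ?_⟩
  · intro h
    apply hQ0
    rw [hQsum]
    apply Finset.sum_eq_zero
    intro i _
    have := congrFun h i
    simp only [Pi.zero_apply] at this
    rw [this, map_zero]
  · intro e g
    have h1 : aeval ![e, g] Q = aeval ![PowerSeries.C x0 * e,
        PowerSeries.C α + PowerSeries.C β * e + PowerSeries.C γ * g] P := by
      have h2 : (aeval ![e, g]).comp σ = (aeval ![PowerSeries.C x0 * e,
          PowerSeries.C α + PowerSeries.C β * e + PowerSeries.C γ * g] :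
          MvPolynomial (Fin 2) ℝ →ₐ[ℝ] PowerSeries ℝ) := by
        apply MvPolynomial.algHom_ext
        intro q
        fin_cases q
        · simp only [Fin.zero_eta, AlgHom.comp_apply, hσ, aeval_X, Matrix.cons_val_zero, map_mul,
            algHom_C]
          rfl
        · simp only [Fin.mk_one, AlgHom.comp_apply, hσ, aeval_X, Matrix.cons_val_one,
            Matrix.cons_val_zero, map_add, map_mul, algHom_C]
          rfl
      rw [hQ, ← AlgHom.comp_apply, h2]
    rw [hQsum, hP, map_sum, map_sum] at h1
    simp only [aeval_monomial] at h1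
    have h3 : ∀ (f : Fin 2 → PowerSeries ℝ) (i : Fin (DD d)),
        (mon i).prod (fun q k => f q ^ k) = f 0 ^ aI d i * f 1 ^ bI d i := by
      intro f i
      rw [Finsupp.prod_fintype _ _ (by simp), Fin.prod_univ_two, hmon0, hmon1]
    simp only [h3, Matrix.cons_val_zero, Matrix.cons_val_one] at h1
    exact h1.symm

end Pool.Agent.Stj
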