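import Pool.Agent.Stj.Tay
import Pool.Agent.Stj.Alg

open Set Filter Topology

namespace Pool.Agent.Stj

/-- the functions `(x0 e^η)^a φ^b`, as Taylor series -/
noncomputable def Phi (d : ℕ) (x0 : ℝ) (φ : ℕ → ℝ → ℝ) (i : Fin (DD d)) (x : ℝ) : PowerSeries ℝ :=
  PowerSeries.C (x0 ^ aI d i) * (TE (aI d i) (Real.exp x) * TJ (fun k => φ k x) ^ bI d i)

lemma isT_Phi (d : ℕ) (x0 : ℝ) {φ : ℕ → ℝ → ℝ} {u v : ℝ} (h : Chain φ u v) (i : Fin (DD d)) :
    IsT (Phi d x0 φ i) u v :=
  (IsT.const _ u v).mul ((isT_exp _ u v).mul ((isT_chain h).pow _))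

lemma Phi_zero (d : ℕ) (x0 : ℝ) (φ : ℕ → ℝ → ℝ) (i : Fin (DD d)) (x : ℝ) :
    ((0 : ℕ).factorial : ℝ) * PowerSeries.coeff 0 (Phi d x0 φ i x) =
      (x0 * Real.exp x) ^ aI d i * φ 0 x ^ bI d i := by
  unfold Phi
  have h1 : PowerSeries.coeff 0 (TE (aI d i) (Real.exp x)) = Real.exp x ^ aI d i := by
    rw [coeff_TE]; simp
  have h2 : PowerSeries.coeff 0 (TJ (fun k => φ k x)) = φ 0 x := by
    unfold TJ; rw [PowerSeries.coeff_mk]; simp
  rw [PowerSeries.coeff_zero_eq_constantCoeff] at h1 h2 ⊢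
  have h3 : PowerSeries.constantCoeff (TE (aI d i) (Real.exp x)) = Real.exp x ^ aI d i := h1
  have h4 : PowerSeries.constantCoeff (TJ (fun k => φ k x)) = φ 0 x := h2
  have h5 : PowerSeries.constantCoeff (PowerSeries.C (x0 ^ aI d i) *
      (TE (aI d i) (Real.exp x) * TJ (fun k => φ k x) ^ bI d i)) =
      x0 ^ aI d i * (Real.exp x ^ aI d i * φ 0 x ^ bI d i) := by
    rw [map_mul, map_mul, map_pow PowerSeries.constantCoeff (TJ _), h3, h4,
      PowerSeries.constantCoeff_C]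
  have h6 : ((0 : ℕ).factorial : ℝ) = 1 := by simp
  rw [h6, one_mul, mul_pow]
  refine h5.trans ?_
  ring

/-- power bound -/
lemma coeff_pow_bound (T : PowerSeries ℝ) (K : ℕ) (C : ℝ) (hC : 1 ≤ C)
    (hT : ∀ k ≤ K, |PowerSeries.coeff k T| ≤ C) (b : ℕ) :
    ∀ k ≤ K, |PowerSeries.coeff k (T ^ b)| ≤ ((K + 1) * C) ^ b := by
  induction b with
  | zero =>
    intro k _
    rw [pow_zero, pow_zero, PowerSeries.coeff_one]
    split_ifs <;> simp
  | succ b ih =>
    intro k hk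
    rw [pow_succ, PowerSeries.coeff_mul]
    refine (Finset.abs_sum_le_sum_abs _ _).trans ?_
    have h1 : ∀ p ∈ Finset.HasAntidiagonal.antidiagonal k,
        |PowerSeries.coeff p.1 (T ^ b) * PowerSeries.coeff p.2 T| ≤ ((K + 1) * C) ^ b * C := by
      intro p hp
      rw [Finset.HasAntidiagonal.mem_antidiagonal] at hp
      rw [abs_mul]
      have := ih p.1 (by omega)
      have := hT p.2 (by omega)
      gcongr
    refine (Finset.sum_le_sum h1).trans ?_
    rw [Finset.sum_const, Finset.Nat.card_antidiagonal, nsmul_eq_mul, pow_succ]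
    have h2 : (((k + 1 : ℕ)) : ℝ) ≤ K + 1 := by
      push_cast
      have : (k : ℝ) ≤ K := by exact_mod_cast hk
      linarith
    have h3 : 0 ≤ ((K + 1) * C) ^ b * C := by positivity
    calc (((k + 1 : ℕ)) : ℝ) * (((K + 1) * C) ^ b * C) ≤ (K + 1) * (((K + 1) * C) ^ b * C) := by
          gcongr
      _ = _ := by ring

/-- scaling -/
lemma TJ_scale (c : ℝ) (J : ℕ → ℝ) : TJ (fun k => c * J k) = PowerSeries.C c * TJ J := by
  ext k
  rw [PowerSeries.coeff_C_mul]
  unfold TJ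
  rw [PowerSeries.coeff_mk, PowerSeries.coeff_mk]
  ring

/-- The bound for the entries. -/
lemma entry_bound (d : ℕ) (C : ℝ) (hC : 1 ≤ C) : ∃ C' : ℝ, 1 ≤ C' ∧
    ∀ (x0 : ℝ), 1 ≤ x0 → ∀ (φ : ℕ → ℝ → ℝ) (x : ℝ), 0 ≤ x → x ≤ 1 →
      (∀ k ≤ DD d, |φ k x| ≤ C * x0) → ∀ (i : Fin (DD d)) (k : ℕ), k ≤ DD d →
      |(k.factorial : ℝ) * PowerSeries.coeff k (Phi d x0 φ i x)| ≤ C' * x0 ^ cI d i := by
  set K := DD d with hK
  set C2 : ℝ := Real.exp 1 ^ d * (d + 1) ^ K with hC2
  have hC21 : 1 ≤ C2 := by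
    have h1 : 1 ≤ Real.exp 1 ^ d := one_le_pow₀ (Real.one_le_exp (by norm_num))
    have h2 : (1 : ℝ) ≤ ((d : ℝ) + 1) ^ K := one_le_pow₀ (by linarith [Nat.cast_nonneg (α := ℝ) d])
    nlinarith
  set C3 : ℝ := ((K + 1) * C) ^ d with hC3
  have hKC : 1 ≤ ((K : ℝ) + 1) * C := by
    have : (0 : ℝ) ≤ K := Nat.cast_nonneg _
    nlinarith
  have hC31 : 1 ≤ C3 := one_le_pow₀ hKC
  refine ⟨K.factorial * ((K + 1) * (C2 * C3)), ?_, ?_⟩
  · have h1 : (1 : ℝ) ≤ K.factorial := by exact_mod_cast Nat.one_le_iff_ne_zero.2 (Nat.factorial_ne_zero _)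
    have h2 : (0 : ℝ) ≤ K := Nat.cast_nonneg _
    have h3 : 1 ≤ C2 * C3 := by nlinarith
    have h4 : 1 ≤ ((K : ℝ) + 1) * (C2 * C3) := by nlinarith
    nlinarith
  · intro x0 hx0 φ x hx hx1 hφ i k hk
    have hai : aI d i ≤ d := by
      have := cI_le d i
      unfold aI
      omega
    have hbi : bI d i ≤ d := (bI_le d i).trans (cI_le d i)
    have hx0p : 0 < x0 := by linarith
    set J : ℕ → ℝ := fun k => φ k x / x0 with hJ
    have hTJ : TJ (fun k => φ k x) = PowerSeries.C x0 * TJ J := by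
      rw [← TJ_scale]
      congr 1
      ext k
      simp only [hJ]
      field_simp
    have hJb : ∀ k ≤ K, |PowerSeries.coeff k (TJ J)| ≤ C := by
      intro k hk
      unfold TJ
      rw [PowerSeries.coeff_mk, abs_div, hJ]
      have h1 : |φ k x / x0| ≤ C := by
        rw [abs_div, abs_of_pos hx0p, div_le_iff₀ hx0p]
        exact hφ k hk
      have h2 : (1 : ℝ) ≤ |(k.factorial : ℝ)| := by
        rw [abs_of_nonneg (by positivity)]
        exact_mod_cast Nat.one_le_iff_ne_zero.2 (Nat.factorial_ne_zero _)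
      exact (div_le_self (abs_nonneg _) h2).trans h1
    have hpow := coeff_pow_bound (TJ J) K C hC hJb (bI d i)
    have hpow' : ∀ k ≤ K, |PowerSeries.coeff k (TJ J ^ bI d i)| ≤ C3 := by
      intro k hk
      exact (hpow k hk).trans (pow_le_pow_right₀ hKC hbi)
    have hTE : ∀ k ≤ K, |PowerSeries.coeff k (TE (aI d i) (Real.exp x))| ≤ C2 := by
      intro k hk
      rw [coeff_TE, abs_mul, abs_of_pos (by positivity), abs_of_nonneg (by positivity)]
      have h1 : Real.exp x ^ aI d i ≤ Real.exp 1 ^ d := by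
        calc Real.exp x ^ aI d i ≤ Real.exp 1 ^ aI d i := by gcongr
          _ ≤ Real.exp 1 ^ d := pow_le_pow_right₀ (Real.one_le_exp (by norm_num)) hai
      have h2 : ((aI d i : ℕ) : ℝ) ^ k / k.factorial ≤ (d + 1) ^ K := by
        have h3 : (1 : ℝ) ≤ k.factorial := by
          exact_mod_cast Nat.one_le_iff_ne_zero.2 (Nat.factorial_ne_zero _)
        refine (div_le_self (by positivity) h3).trans ?_
        have h4 : ((aI d i : ℕ) : ℝ) ≤ d + 1 := by
          have : ((aI d i : ℕ) : ℝ) ≤ d := by exact_mod_cast hai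
          linarith
        calc ((aI d i : ℕ) : ℝ) ^ k ≤ ((d : ℝ) + 1) ^ k := by gcongr
          _ ≤ ((d : ℝ) + 1) ^ K := pow_le_pow_right₀ (by linarith [Nat.cast_nonneg (α := ℝ) d]) hk
      rw [hC2]
      gcongr
    have hprod : |PowerSeries.coeff k (TE (aI d i) (Real.exp x) * TJ J ^ bI d i)| ≤
        (K + 1) * (C2 * C3) := by
      rw [PowerSeries.coeff_mul]
      refine (Finset.abs_sum_le_sum_abs _ _).trans ?_
      have h1 : ∀ p ∈ Finset.HasAntidiagonal.antidiagonal k,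
          |PowerSeries.coeff p.1 (TE (aI d i) (Real.exp x)) * PowerSeries.coeff p.2 (TJ J ^ bI d i)| ≤
          C2 * C3 := by
        intro p hp
        rw [Finset.HasAntidiagonal.mem_antidiagonal] at hp
        rw [abs_mul]
        have := hTE p.1 (by omega)
        have := hpow' p.2 (by omega)
        gcongr
      refine (Finset.sum_le_sum h1).trans ?_
      rw [Finset.sum_const, Finset.Nat.card_antidiagonal, nsmul_eq_mul]
      have h2 : (((k + 1 : ℕ)) : ℝ) ≤ K + 1 := by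
        push_cast
        have : (k : ℝ) ≤ K := by exact_mod_cast hk
        linarith
      gcongr
    have hsplit : Phi d x0 φ i x = PowerSeries.C (x0 ^ cI d i) *
        (TE (aI d i) (Real.exp x) * TJ J ^ bI d i) := by
      unfold Phi
      rw [hTJ, mul_pow, ← map_pow]
      have hc : x0 ^ cI d i = x0 ^ aI d i * x0 ^ bI d i := by
        rw [← pow_add]; congr 1
        have := bI_le d i
        unfold aI; omega
      rw [hc, map_mul]
      ring
    rw [hsplit, PowerSeries.coeff_C_mul, abs_mul, abs_mul, abs_of_nonneg (by positivity),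
      abs_of_pos (by positivity : (0 : ℝ) < x0 ^ cI d i)]
    have hfac : (k.factorial : ℝ) ≤ K.factorial := by
      exact_mod_cast Nat.factorial_le hk
    calc (k.factorial : ℝ) * (x0 ^ cI d i * |PowerSeries.coeff k
          (TE (aI d i) (Real.exp x) * TJ J ^ bI d i)|)
        ≤ K.factorial * (x0 ^ cI d i * ((K + 1) * (C2 * C3))) := by gcongr
      _ = _ := by ring

lemma det_le_of_rows {n : ℕ} (M : Matrix (Fin n) (Fin n) ℝ) (β : Fin n → ℝ)
    (h : ∀ i j, |M i j| ≤ β i) : |M.det| ≤ n.factorial * ∏ i, β i := by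
  rw [Matrix.det_apply']
  refine (Finset.abs_sum_le_sum_abs _ _).trans ?_
  have h1 : ∀ σ ∈ (Finset.univ : Finset (Equiv.Perm (Fin n))),
      |((Equiv.Perm.sign σ : ℤ) : ℝ) * ∏ i, M (σ i) i| ≤ ∏ i, β i := by
    intro σ _
    rw [abs_mul, Finset.abs_prod]
    have h2 : |((Equiv.Perm.sign σ : ℤ) : ℝ)| = 1 := by
      rcases Int.units_eq_one_or (Equiv.Perm.sign σ) with h | h <;> simp [h]
    rw [h2, one_mul, ← Equiv.prod_comp σ β]
    exact Finset.prod_le_prod (fun i _ => abs_nonneg _) fun i _ => h _ _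
  refine (Finset.sum_le_sum h1).trans ?_
  rw [Finset.sum_const, Finset.card_univ, Fintype.card_perm, Fintype.card_fin, nsmul_eq_mul]

end Pool.Agent.Stj
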