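import Pool.Agent.Stj.BP

open Set Filter Topology

namespace Pool.Agent.Stj

/-- the normalised function `g`. -/
noncomputable def gg (x0 A B : ℝ) (φ : ℕ → ℝ → ℝ) (k : ℕ) (y : ℝ) : ℝ :=
  (φ k y - (if k = 0 then -(x0 * (A - B)) else 0) - x0 * (A - B) * Real.exp y) / (x0 * B)

lemma TJ_gg (x0 A B : ℝ) (hx0 : x0 ≠ 0) (hB : B ≠ 0) (φ : ℕ → ℝ → ℝ) (y : ℝ) :
    TJ (fun k => φ k y) = PowerSeries.C (-(x0 * (A - B))) +
      PowerSeries.C (x0 * (A - B)) * TE 1 (Real.exp y) +
      PowerSeries.C (x0 * B) * TJ (fun k => gg x0 A B φ k y) := by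
  ext k
  rw [map_add, map_add, PowerSeries.coeff_C_mul, PowerSeries.coeff_C_mul, coeff_TE,
    PowerSeries.coeff_C]
  unfold TJ gg
  rw [PowerSeries.coeff_mk, PowerSeries.coeff_mk]
  have hk : (k.factorial : ℝ) ≠ 0 := by positivity
  simp only [pow_one, Nat.cast_one, one_pow]
  by_cases h0 : k = 0
  · subst h0
    simp only [if_true]
    field_simp
    simp
    ring
  · simp only [if_neg h0]
    field_simp
    ring

/-- Main algebraic step: vanishing of the interpolation determinant forces a singular matrix. -/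
lemma bp_singular (d : ℕ) (x0 h A B : ℝ) (hx0 : 1 ≤ x0) (hB : B ≠ 0)
    (φ : ℕ → ℝ → ℝ) (hchain : Chain φ 0 h) (η : Fin (DD d) → ℝ) (hη : StrictMono η)
    (hmem : ∀ j, η j ∈ Icc 0 h)
    (hdet : (Matrix.of fun (i j : Fin (DD d)) =>
      (x0 * Real.exp (η j)) ^ aI d i * φ 0 (η j) ^ bI d i).det = 0) :
    ∃ ζ : Fin (DD d) → ℝ, (∀ k, ζ k ∈ Icc 0 h) ∧
      (Mat d (fun k => Real.exp (ζ k)) (fun k q => gg x0 A B φ q (ζ k))).det = 0 := by
  have hx0' : x0 ≠ 0 := by linarith
  rw [← Matrix.exists_vecMul_eq_zero_iff] at hdet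
  obtain ⟨v, hv0, hv⟩ := hdet
  obtain ⟨v', hv'0, hv'⟩ := alg d x0 (-(x0 * (A - B))) (x0 * (A - B)) (x0 * B) hx0'
    (mul_ne_zero hx0' hB) v hv0
  set F : ℕ → ℝ → ℝ := fun k x => ∑ i, v i * ((k.factorial : ℝ) *
    PowerSeries.coeff k (Phi d x0 φ i x)) with hF
  have hFchain : Chain F 0 h := Chain.sum _ fun i _ => ((isT_Phi d x0 hchain i).chain).const_mul (v i)
  have hF0 : ∀ j, F 0 (η j) = 0 := by
    intro j
    have h1 := congrFun hv j
    simp only [Matrix.vecMul, dotProduct, Matrix.of_apply, Pi.zero_apply] at h1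
    rw [← h1]
    simp only [hF, Phi_zero]
  have hFrep : ∀ k x, F k x = ∑ i, v' i * ent k (aI d i) (bI d i) (Real.exp x)
      (fun q => gg x0 A B φ q x) := by
    intro k x
    have h1 : F k x = (k.factorial : ℝ) * PowerSeries.coeff k
        (∑ i, PowerSeries.C (v i) * Phi d x0 φ i x) := by
      rw [map_sum, Finset.mul_sum]
      simp only [hF]
      apply Finset.sum_congr rfl
      intro i _
      rw [PowerSeries.coeff_C_mul]
      ring
    have h2 : ∑ i, PowerSeries.C (v i) * Phi d x0 φ i x =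
        ∑ i, PowerSeries.C (v i) * ((PowerSeries.C x0 * TE 1 (Real.exp x)) ^ aI d i *
        (PowerSeries.C (-(x0 * (A - B))) + PowerSeries.C (x0 * (A - B)) * TE 1 (Real.exp x) +
          PowerSeries.C (x0 * B) * TJ (fun k => gg x0 A B φ k x)) ^ bI d i) := by
      apply Finset.sum_congr rfl
      intro i _
      unfold Phi
      rw [← TJ_gg x0 A B hx0' hB, mul_pow, ← map_pow, TE_pow (aI d i)]
      ring
    rw [h1, h2, hv', map_sum, Finset.mul_sum]
    apply Finset.sum_congr rfl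
    intro i _
    rw [PowerSeries.coeff_C_mul, ← TE_pow]
    unfold ent
    ring
  have key : ∀ k : Fin (DD d), ∃ ζ ∈ Icc (0 : ℝ) h, F k ζ = 0 := by
    intro k
    apply hFchain.rolle (k : ℕ) (fun j : Fin ((k : ℕ) + 1) => η (Fin.castLE (by omega) j))
    · intro a b hab
      apply hη
      exact hab
    · intro j; exact hmem _
    · intro j; exact hF0 _
  choose ζ hζ hζ0 using key
  refine ⟨ζ, hζ, ?_⟩
  rw [← Matrix.exists_vecMul_eq_zero_iff]
  refine ⟨v', hv'0, ?_⟩
  ext k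
  simp only [Matrix.vecMul, dotProduct, Mat, Matrix.of_apply, Pi.zero_apply]
  rw [← hζ0 k, hFrep]

theorem bp {ι : Type*} (l : Filter ι) (d : ℕ) (x0 h A B : ι → ℝ) (φ : ι → ℕ → ℝ → ℝ)
    (η : ι → Fin (DD d) → ℝ) (mm kk : ι → Fin (DD d) → ℤ)
    (hx0 : ∀ i, 1 ≤ x0 i) (hh0 : ∀ i, 0 ≤ h i)
    (hchain : ∀ i, Chain (φ i) 0 (h i))
    (hη : ∀ i, StrictMono (η i)) (hmem : ∀ i j, η i j ∈ Icc 0 (h i))
    (hm : ∀ i j, x0 i * Real.exp (η i j) = mm i j) (hk : ∀ i j, φ i 0 (η i j) = kk i j)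
    (hφ0 : ∀ i, φ i 0 0 = 0)
    (hA : ∀ i, |A i| ≤ 1) (hB0 : ∀ i, B i ≠ 0) (hB : ∀ i, |B i| ≤ 1)
    (hh : Tendsto (fun i => h i / |B i|) l (𝓝 0))
    (key : ∀ k : ℕ, 1 ≤ k → ∀ ε : ℝ, 0 < ε → ∀ᶠ i in l, ∀ y ∈ Icc 0 (h i),
      |φ i k y - x0 i * (A i + ((k : ℝ) - 1) * B i)| ≤ ε * (x0 i * |B i|))
    (hsmall : ∀ C : ℝ, ∀ᶠ i in l,
      C * ((h i) ^ (∑ j : Fin (DD d), (j : ℕ)) * x0 i ^ (∑ j : Fin (DD d), cI d j)) < 1) :
    ∀ᶠ i in l, False := by
  obtain ⟨C', hC'1, hC'⟩ := entry_bound d (DD d + 2) (by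
    have : (0 : ℝ) ≤ DD d := Nat.cast_nonneg _
    linarith)
  -- first event
  have E1 : ∀ᶠ i in l, ∀ k ∈ Finset.Icc 1 (DD d + 1), ∀ y ∈ Icc 0 (h i),
      |φ i k y - x0 i * (A i + ((k : ℝ) - 1) * B i)| ≤ 1 * (x0 i * |B i|) := by
    rw [Filter.eventually_all_finset]
    intro k hk
    exact key k (Finset.mem_Icc.1 hk).1 1 one_pos
  have hh2 : ∀ i, h i ≤ h i / |B i| := by
    intro i
    rw [le_div_iff₀ (abs_pos.2 (hB0 i))]
    have := hB i
    have := hh0 i
    nlinarith [abs_nonneg (B i)]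
  have hhz : Tendsto h l (𝓝 0) := squeeze_zero hh0 hh2 hh
  have E2 : ∀ᶠ i in l, h i ≤ 1 := hhz.eventually (ge_mem_nhds one_pos)
  have E3 := hsmall ((DD d).factorial * C' ^ (DD d))
  -- bounds for φ
  have hbd : ∀ i, (∀ k ∈ Finset.Icc 1 (DD d + 1), ∀ y ∈ Icc 0 (h i),
      |φ i k y - x0 i * (A i + ((k : ℝ) - 1) * B i)| ≤ 1 * (x0 i * |B i|)) → h i ≤ 1 →
      (∀ k, 1 ≤ k → k ≤ DD d + 1 → ∀ y ∈ Icc 0 (h i), |φ i k y| ≤ (k + 1) * x0 i) ∧
      (∀ y ∈ Icc 0 (h i), |φ i 0 y| ≤ 2 * x0 i * y) := by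
    intro i hi1 hi2
    have hx := hx0 i
    have b1 : ∀ k, 1 ≤ k → k ≤ DD d + 1 → ∀ y ∈ Icc 0 (h i), |φ i k y| ≤ (k + 1) * x0 i := by
      intro k hk1 hk2 y hy
      have h1 := hi1 k (Finset.mem_Icc.2 ⟨hk1, hk2⟩) y hy
      have h2 : |x0 i * (A i + ((k : ℝ) - 1) * B i)| ≤ x0 i * k := by
        rw [abs_mul, abs_of_pos (by linarith)]
        have hk : (1 : ℝ) ≤ k := by exact_mod_cast hk1
        have h3 : |A i + ((k : ℝ) - 1) * B i| ≤ k := by
          refine (abs_add_le _ _).trans ?_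
          rw [abs_mul, abs_of_nonneg (by linarith : (0 : ℝ) ≤ (k : ℝ) - 1)]
          have := hA i
          have := hB i
          nlinarith
        gcongr
      have h4 : |φ i k y| ≤ |φ i k y - x0 i * (A i + ((k : ℝ) - 1) * B i)| +
          |x0 i * (A i + ((k : ℝ) - 1) * B i)| := by
        have := abs_add_le (φ i k y - x0 i * (A i + ((k : ℝ) - 1) * B i))
          (x0 i * (A i + ((k : ℝ) - 1) * B i))
        rwa [sub_add_cancel] at this
      have h5 := hB i
      nlinarith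
    refine ⟨b1, ?_⟩
    intro y hy
    have hs : Convex ℝ (Icc 0 (h i)) := convex_Icc _ _
    have h6 := hs.norm_image_sub_le_of_norm_hasDerivWithin_le (f := φ i 0) (f' := φ i 1)
      (C := 2 * x0 i) (x := 0) (y := y)
      (fun z hz => (hchain i 0 z hz).hasDerivWithinAt)
      (by
        intro z hz
        have := b1 1 le_rfl (by omega) z hz
        rw [Real.norm_eq_abs]
        push_cast at this
        linarith) (left_mem_Icc.2 (hh0 i)) hy
    rw [hφ0 i, sub_zero, sub_zero, Real.norm_eq_abs, Real.norm_eq_abs, abs_of_nonneg hy.1] at h6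
    exact h6
  -- singular matrix
  have hsing : ∀ i, ∃ ζ : Fin (DD d) → ℝ, (∀ k, ζ k ∈ Icc 0 (h i)) ∧
      ((∀ k ∈ Finset.Icc 1 (DD d + 1), ∀ y ∈ Icc 0 (h i),
        |φ i k y - x0 i * (A i + ((k : ℝ) - 1) * B i)| ≤ 1 * (x0 i * |B i|)) → h i ≤ 1 →
        (DD d).factorial * C' ^ (DD d) *
          ((h i) ^ (∑ j : Fin (DD d), (j : ℕ)) * x0 i ^ (∑ j : Fin (DD d), cI d j)) < 1 →
        (Mat d (fun k => Real.exp (ζ k)) (fun k q => gg (x0 i) (A i) (B i) (φ i) q (ζ k))).det = 0) := by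
    intro i
    by_cases hcon : (∀ k ∈ Finset.Icc 1 (DD d + 1), ∀ y ∈ Icc 0 (h i),
        |φ i k y - x0 i * (A i + ((k : ℝ) - 1) * B i)| ≤ 1 * (x0 i * |B i|)) ∧ h i ≤ 1 ∧
        (DD d).factorial * C' ^ (DD d) *
          ((h i) ^ (∑ j : Fin (DD d), (j : ℕ)) * x0 i ^ (∑ j : Fin (DD d), cI d j)) < 1
    · obtain ⟨c1, c2, c3⟩ := hcon
      obtain ⟨b1, b2⟩ := hbd i c1 c2
      have hx := hx0 i
      obtain ⟨ξ, hξ, hξ2⟩ := det_bound
        (fun a k x => (k.factorial : ℝ) * PowerSeries.coeff k (Phi d (x0 i) (φ i) a x)) (hh0 i)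
        (fun a => (isT_Phi d (x0 i) (hchain i) a).chain) (η i) (hη i) (hmem i)
      rw [sub_zero] at hξ2
      have hrow : ∀ a j : Fin (DD d), |(Matrix.of fun (a j : Fin (DD d)) =>
          (((j : ℕ).factorial : ℝ) * PowerSeries.coeff (j : ℕ) (Phi d (x0 i) (φ i) a (ξ j)))) a j| ≤
          C' * x0 i ^ cI d a := by
        intro a j
        rw [Matrix.of_apply]
        apply hC' (x0 i) hx (φ i) (ξ j) (hξ j).1 ((hξ j).2.trans c2) _ a j (by omega)
        intro k hk
        rcases Nat.eq_zero_or_pos k with rfl | hk1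
        · have h1 := b2 (ξ j) (hξ j)
          have h2 : ξ j ≤ 1 := (hξ j).2.trans c2
          have h3 := (hξ j).1
          have h4 : (0 : ℝ) ≤ DD d := Nat.cast_nonneg _
          nlinarith
        · have h1 := b1 k hk1 (by omega) (ξ j) (hξ j)
          have h2 : (k : ℝ) ≤ DD d := by exact_mod_cast hk
          nlinarith
      have hdet2 := det_le_of_rows _ _ hrow
      have hprod : ∏ a, (C' * x0 i ^ cI d a) = C' ^ (DD d) * x0 i ^ (∑ j : Fin (DD d), cI d j) := by
        rw [Finset.prod_mul_distrib, Finset.prod_pow_eq_pow_sum]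
        simp
      rw [hprod] at hdet2
      have hlt : |(Matrix.of fun (a j : Fin (DD d)) => (((0 : ℕ).factorial : ℝ) *
          PowerSeries.coeff 0 (Phi d (x0 i) (φ i) a (η i j)))).det| < 1 := by
        refine lt_of_le_of_lt (hξ2.trans ?_) c3
        have hpos : 0 ≤ h i ^ (∑ j : Fin (DD d), (j : ℕ)) := pow_nonneg (hh0 i) _
        calc _ ≤ h i ^ (∑ j : Fin (DD d), (j : ℕ)) *
              ((DD d).factorial * (C' ^ (DD d) * x0 i ^ (∑ j : Fin (DD d), cI d j))) :=
              mul_le_mul_of_nonneg_left hdet2 hpos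
          _ = _ := by ring
      set N : Matrix (Fin (DD d)) (Fin (DD d)) ℤ :=
        Matrix.of fun a j => mm i j ^ aI d a * kk i j ^ bI d a with hN
      have hNcast : (Matrix.of fun (a j : Fin (DD d)) => (((0 : ℕ).factorial : ℝ) *
          PowerSeries.coeff 0 (Phi d (x0 i) (φ i) a (η i j)))).det = (N.det : ℝ) := by
        have h1 := (Int.castRingHom ℝ).map_det N
        rw [eq_intCast] at h1
        rw [h1]
        congr 1
        ext a j
        rw [Matrix.of_apply, Phi_zero, hm, hk]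
        simp [hN]
      have hN0 : N.det = 0 := by
        rw [hNcast, ← Int.cast_abs] at hlt
        have h2 : |N.det| < 1 := by exact_mod_cast hlt
        exact Int.abs_lt_one_iff.1 h2
      have hdet0 : (Matrix.of fun (a j : Fin (DD d)) =>
          (x0 i * Real.exp (η i j)) ^ aI d a * φ i 0 (η i j) ^ bI d a).det = 0 := by
        have h1 : (Matrix.of fun (a j : Fin (DD d)) =>
          (x0 i * Real.exp (η i j)) ^ aI d a * φ i 0 (η i j) ^ bI d a) =
          (Matrix.of fun (a j : Fin (DD d)) => (((0 : ℕ).factorial : ℝ) *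
          PowerSeries.coeff 0 (Phi d (x0 i) (φ i) a (η i j)))) := by
          ext a j
          rw [Matrix.of_apply, Matrix.of_apply, Phi_zero]
        rw [h1, hNcast, hN0, Int.cast_zero]
      obtain ⟨ζ, hζ, hζ2⟩ := bp_singular d (x0 i) (h i) (A i) (B i) hx (hB0 i) (φ i) (hchain i)
        (η i) (hη i) (hmem i) hdet0
      exact ⟨ζ, hζ, fun _ _ _ => hζ2⟩
    · refine ⟨fun _ => 0, fun _ => left_mem_Icc.2 (hh0 i), fun c1 c2 c3 => ?_⟩
      exact absurd ⟨c1, c2, c3⟩ hcon
  choose ζ hζ hζ2 using hsing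
  have hne := eventually_det_ne (l := l) d (fun i k => Real.exp (ζ i k))
    (fun i k q => gg (x0 i) (A i) (B i) (φ i) q (ζ i k))
    (by
      intro j
      have h1 : Tendsto (fun i => ζ i j) l (𝓝 0) :=
        squeeze_zero (fun i => (hζ i j).1) (fun i => (hζ i j).2) hhz
      have h2 := (Real.continuous_exp.tendsto 0).comp h1
      rwa [Real.exp_zero] at h2)
    (by
      intro j k
      rw [Metric.tendsto_nhds]
      intro ε hε
      have h1 : ∀ᶠ i in l, h i / |B i| < ε / 8 := hh.eventually (gt_mem_nhds (by positivity))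
      have h2 : ∀ᶠ i in l, 1 ≤ k → ∀ y ∈ Icc 0 (h i),
          |φ i k y - x0 i * (A i + ((k : ℝ) - 1) * B i)| ≤ ε / 4 * (x0 i * |B i|) := by
        by_cases hk : 1 ≤ k
        · exact (key k hk (ε / 4) (by positivity)).mono fun i hi _ => hi
        · exact Eventually.of_forall fun i h => absurd h hk
      filter_upwards [h1, h2, E1, E2] with i g1 g2 g3 g4
      obtain ⟨b1, b2⟩ := hbd i g3 g4
      have hx := hx0 i
      have hBp : 0 < |B i| := abs_pos.2 (hB0 i)
      have hz := hζ i j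
      set y := ζ i j with hy
      have hy1 : y ≤ 1 := hz.2.trans g4
      have hexp : |Real.exp y - 1| ≤ 2 * y := by
        have := Real.abs_exp_sub_one_le (x := y) (by rw [abs_of_nonneg hz.1]; exact hy1)
        rwa [abs_of_nonneg hz.1] at this
      have hyB : y ≤ ε / 8 * |B i| := by
        rw [div_lt_iff₀ hBp] at g1
        exact hz.2.trans g1.le
      have hAB : |A i - B i| ≤ 2 := by
        have := abs_sub (A i) (B i)
        have := hA i
        have := hB i
        linarith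
      have hxB : 0 < x0 i * |B i| := by positivity
      have hcross : |(A i - B i) * (Real.exp y - 1)| ≤ ε / 2 * |B i| := by
        rw [abs_mul]
        calc |A i - B i| * |Real.exp y - 1| ≤ 2 * (2 * y) := by gcongr
          _ ≤ 2 * (2 * (ε / 8 * |B i|)) := by gcongr
          _ = ε / 2 * |B i| := by ring
      rw [Real.dist_eq]
      have habs : |x0 i * B i| = x0 i * |B i| := by rw [abs_mul, abs_of_pos (by linarith)]
      have hxB0 : x0 i * B i ≠ 0 := mul_ne_zero (by linarith) (hB0 i)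
      rcases Nat.eq_zero_or_pos k with rfl | hk1
      · have e1 : gg (x0 i) (A i) (B i) (φ i) 0 y - ((0 : ℕ) : ℝ) =
            (φ i 0 y - x0 i * ((A i - B i) * (Real.exp y - 1))) / (x0 i * B i) := by
          unfold gg
          simp only [if_true, Nat.cast_zero, sub_zero]
          congr 1
          ring
        rw [e1, abs_div, habs, div_lt_iff₀ hxB]
        calc |φ i 0 y - x0 i * ((A i - B i) * (Real.exp y - 1))|
            ≤ |φ i 0 y| + |x0 i * ((A i - B i) * (Real.exp y - 1))| := abs_sub _ _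
          _ ≤ 2 * x0 i * y + x0 i * (ε / 2 * |B i|) := by
              rw [abs_mul (x0 i), abs_of_pos (by linarith : 0 < x0 i)]
              have := b2 y hz
              gcongr
          _ ≤ 2 * x0 i * (ε / 8 * |B i|) + x0 i * (ε / 2 * |B i|) := by gcongr
          _ = 3 / 4 * ε * (x0 i * |B i|) := by ring
          _ < ε * (x0 i * |B i|) := by nlinarith
      · have e1 : gg (x0 i) (A i) (B i) (φ i) k y - (k : ℝ) =
            ((φ i k y - x0 i * (A i + ((k : ℝ) - 1) * B i)) -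
              x0 i * ((A i - B i) * (Real.exp y - 1))) / (x0 i * B i) := by
          unfold gg
          rw [if_neg (by omega), eq_div_iff hxB0, sub_mul, div_mul_cancel₀ _ hxB0]
          ring
        rw [e1, abs_div, habs, div_lt_iff₀ hxB]
        calc |(φ i k y - x0 i * (A i + ((k : ℝ) - 1) * B i)) -
              x0 i * ((A i - B i) * (Real.exp y - 1))|
            ≤ |φ i k y - x0 i * (A i + ((k : ℝ) - 1) * B i)| +
              |x0 i * ((A i - B i) * (Real.exp y - 1))| := abs_sub _ _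
          _ ≤ ε / 4 * (x0 i * |B i|) + x0 i * (ε / 2 * |B i|) := by
              rw [abs_mul (x0 i), abs_of_pos (by linarith : 0 < x0 i)]
              have := g2 hk1 y hz
              gcongr
          _ = 3 / 4 * ε * (x0 i * |B i|) := by ring
          _ < ε * (x0 i * |B i|) := by nlinarith)
  filter_upwards [hne, E1, E2, E3] with i g1 g2 g3 g4
  exact g1 (hζ2 i g2 g3 g4)

end Pool.Agent.Stj
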