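import Pool.Agent.Stj.CContour

open Complex Set Filter MeasureTheory Topology
open scoped Real

namespace Pool.Agent.Stj

/-- lower bound for the logarithm on the line `Re z = 1/2`. -/
lemma log_half_lower {t : ℝ} (ht : 0 < t) : 1 / 10 ≤ ‖Complex.log (1 / 2 + t * I)‖ := by
  set z : ℂ := 1 / 2 + t * I with hz
  have hre : z.re = 1 / 2 := by simp [hz]
  have him : z.im = t := by simp [hz]
  have hn0 : 0 < ‖z‖ := by
    have := Complex.re_le_norm z
    rw [hre] at this
    linarith
  rcases le_total ‖z‖ (9 / 10) with h | h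
  · have h1 : |(Complex.log z).re| ≤ ‖Complex.log z‖ := Complex.abs_re_le_norm _
    rw [Complex.log_re] at h1
    have h2 := Real.log_le_sub_one_of_pos hn0
    have h3 : Real.log ‖z‖ ≤ -(1 / 10) := by linarith
    have h4 := neg_le_abs (Real.log ‖z‖)
    linarith
  · have h1 : |(Complex.log z).im| ≤ ‖Complex.log z‖ := Complex.abs_im_le_norm _
    rw [Complex.log_im] at h1
    have h2 : Complex.arg z = Real.arcsin (t / ‖z‖) := by
      rw [Complex.arg_of_re_nonneg (by rw [hre]; norm_num), him]
    have h3 : 1 / 10 ≤ t / ‖z‖ := by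
      rw [le_div_iff₀ hn0]
      have h4 : ‖z‖ ^ 2 = 1 / 4 + t ^ 2 := by
        rw [Complex.sq_norm, Complex.normSq_apply, hre, him]; ring
      nlinarith
    have h5 : t / ‖z‖ ≤ Real.arcsin (t / ‖z‖) := by
      have h6 : t / ‖z‖ ≤ 1 := by
        rw [div_le_one hn0]
        have := Complex.abs_im_le_norm z
        rwa [him, abs_of_pos ht] at this
      have h7 : 0 ≤ Real.arcsin (t / ‖z‖) := Real.arcsin_nonneg.2 (by positivity)
      have h8 := Real.sin_le h7
      rwa [Real.sin_arcsin (by linarith) h6] at h8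
    rw [h2] at h1
    have := le_abs_self (Real.arcsin (t / ‖z‖))
    linarith

lemma loglog_bound {t : ℝ} (ht : 0 < t) :
    ‖Complex.log (Complex.log (1 / 2 + t * I))‖ ≤ 20 * (1 + t) := by
  set z : ℂ := 1 / 2 + t * I with hz
  have hre : z.re = 1 / 2 := by simp [hz]
  have him : z.im = t := by simp [hz]
  have hlow := log_half_lower ht
  have h1 := norm_log_le' (Complex.log z)
  have h2 := Complex.abs_arg_le_pi (Complex.log z)
  have h3 := norm_log_le' z
  have h4 := Complex.abs_arg_le_pi z
  have hn : 1 / 2 ≤ ‖z‖ := by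
    have := Complex.re_le_norm z
    rwa [hre] at this
  have hn2 : ‖z‖ ≤ 1 / 2 + t := by
    refine (Complex.norm_le_abs_re_add_abs_im _).trans ?_
    rw [hre, him, abs_of_pos ht]
    norm_num
  have h5 : |Real.log ‖z‖| ≤ 1 + t := by
    rw [abs_le]
    constructor
    · have := Real.log_le_log (by norm_num) hn
      rw [one_div, Real.log_inv] at this
      have := Real.log_two_lt_d9
      linarith
    · have := Real.log_le_sub_one_of_pos (x := ‖z‖) (by linarith)
      linarith
  have h6 : |Real.log ‖Complex.log z‖| ≤ 10 + ‖Complex.log z‖ := by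
    rw [abs_le]
    constructor
    · have h7 := Real.log_le_log (by norm_num) hlow
      rw [one_div, Real.log_inv] at h7
      have h8 := Real.log_le_sub_one_of_pos (x := 10) (by norm_num)
      have := norm_nonneg (Complex.log z)
      linarith
    · have := Real.log_le_sub_one_of_pos (x := ‖Complex.log z‖) (by linarith)
      linarith
  have hpi := Real.pi_lt_d2
  linarith

lemma Jc_differentiableAt {s₀ : ℂ} (hs₀ : 1 < s₀.re) : DifferentiableAt ℂ Jc s₀ := by
  set K' : ℝ := Real.exp (π * (|s₀.im| + 1)) *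
    ((⌈s₀.re + 1⌉₊).factorial * (Real.exp 1 * Real.exp π)) with hK'
  have hK'0 : 0 < K' := by positivity
  have hball : ∀ s ∈ Metric.ball s₀ 1, 0 ≤ s.re ∧ Kc s ≤ K' := by
    intro s hs
    rw [Metric.mem_ball, dist_eq_norm] at hs
    have h1 := Complex.abs_re_le_norm (s - s₀)
    have h2 := Complex.abs_im_le_norm (s - s₀)
    rw [Complex.sub_re] at h1
    rw [Complex.sub_im] at h2
    have h3 : |s.re - s₀.re| < 1 := lt_of_le_of_lt h1 hs
    have h4 : |s.im - s₀.im| < 1 := lt_of_le_of_lt h2 hs
    rw [abs_lt] at h3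
    refine ⟨by linarith [h3.1], ?_⟩
    unfold Kc
    rw [hK']
    have h5 : |s.im| ≤ |s₀.im| + 1 := by
      have := abs_add_le (s.im - s₀.im) s₀.im
      rw [sub_add_cancel] at this
      linarith
    have h6 : (⌈s.re⌉₊.factorial : ℝ) ≤ (⌈s₀.re + 1⌉₊.factorial : ℝ) := by
      have : ⌈s.re⌉₊ ≤ ⌈s₀.re + 1⌉₊ := Nat.ceil_le_ceil (by linarith [h3.2])
      exact_mod_cast Nat.factorial_le this
    gcongr
  have key := hasDerivAt_integral_of_dominated_loc_of_deriv_le
    (μ := volume.restrict (Ioi (0 : ℝ))) (s := Metric.ball s₀ 1)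
    (F := fun s y => pw s (1 / 2 + (y : ℝ) * I) / (Real.cosh (π * y) : ℂ) ^ 2)
    (F' := fun s y => Complex.log (Complex.log (1 / 2 + (y : ℝ) * I)) *
      (pw s (1 / 2 + (y : ℝ) * I) / (Real.cosh (π * y) : ℂ) ^ 2))
    (bound := fun y => 60 * K' * ((1 + |y|) ^ 2 / Real.cosh (π * y) ^ 2))
    (x₀ := s₀) (Metric.ball_mem_nhds s₀ one_pos)
    ?_ ?_ ?_ ?_ ?_ ?_
  · exact key.2.differentiableAt
  · filter_upwards [Metric.ball_mem_nhds s₀ one_pos] with s hs
    have := (half_line_integrable s (hball s hs).1).aestronglyMeasurable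
    simp_rw [fc_half] at this
    exact this
  · have := half_line_integrable s₀ (hball s₀ (Metric.mem_ball_self one_pos)).1
    unfold IntegrableOn at this
    simp_rw [fc_half] at this
    exact this
  · have h1 := (half_line_integrable s₀ (hball s₀ (Metric.mem_ball_self one_pos)).1).aestronglyMeasurable
    simp_rw [fc_half] at h1
    apply AEStronglyMeasurable.mul _ h1
    apply Measurable.aestronglyMeasurable
    apply Measurable.clog
    apply Measurable.clog
    fun_prop
  · refine (ae_restrict_iff' measurableSet_Ioi).2 (ae_of_all _ fun t ht s hs => ?_)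
    have ht' : (0 : ℝ) < t := ht
    obtain ⟨hb1, hb2⟩ := hball s hs
    have him : ((1 : ℂ) / 2 + t * I).im = t := by simp
    have hre : ((1 : ℂ) / 2 + t * I).re = 1 / 2 := by simp
    have h2 : 1 / 2 ≤ ‖(1 : ℂ) / 2 + t * I‖ := by
      have := Complex.re_le_norm ((1 : ℂ) / 2 + t * I)
      rwa [hre] at this
    have h3 : ‖(1 : ℂ) / 2 + t * I‖ ≤ 1 / 2 + t := by
      refine (Complex.norm_le_abs_re_add_abs_im _).trans ?_
      rw [hre, him, abs_of_pos ht']
      norm_num
    have h4 := norm_pw_le s (1 / 2 + t * I) hb1 (by rw [him]; exact ht') h2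
    have h5 := loglog_bound ht'
    rw [norm_mul, norm_div, norm_pow, Complex.norm_real, Real.norm_of_nonneg (Real.cosh_pos _).le,
      abs_of_pos ht', ← mul_div_assoc, ← mul_div_assoc]
    apply div_le_div_of_nonneg_right _ (by positivity)
    have := Kc_pos s
    calc ‖Complex.log (Complex.log (1 / 2 + t * I))‖ * ‖pw s (1 / 2 + t * I)‖
        ≤ (20 * (1 + t)) * (Kc s * (‖(1 : ℂ) / 2 + t * I‖ + 2)) := by gcongr
      _ ≤ (20 * (1 + t)) * (K' * (3 * (1 + t))) := by
          gcongr
          linarith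
      _ = _ := by ring
  · exact ((integrable_kernel 2).const_mul (60 * K')).integrableOn
  · refine ae_of_all _ fun t s _ => ?_
    unfold pw
    have h1 : HasDerivAt (fun s : ℂ => s * Complex.log (Complex.log (1 / 2 + t * I)))
        (1 * Complex.log (Complex.log (1 / 2 + t * I))) s := (hasDerivAt_id s).mul_const _
    have h2 := h1.cexp.div_const ((Real.cosh (π * t) : ℂ) ^ 2)
    refine h2.congr_deriv ?_
    ring

end Pool.Agent.Stj
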