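import Pool.Agent.Stj.Contour

open Complex Set Filter MeasureTheory Topology
open scoped Real

namespace Pool.Agent.Stj

/-- `(log z)^s` -/
noncomputable def pw (s z : ℂ) : ℂ := Complex.exp (s * Complex.log (Complex.log z))

/-- the integrand -/
noncomputable def fc (s z : ℂ) : ℂ := pw s z / Complex.sin (π * z) ^ 2

/-- the analytic continuation of `J`. -/
noncomputable def Jc (s : ℂ) : ℂ :=
  ∫ y in Ioi (0 : ℝ), pw s (1 / 2 + y * I) / (Real.cosh (π * y) : ℂ) ^ 2

lemma log_im_pos {z : ℂ} (hz : 0 < z.im) : 0 < (Complex.log z).im := by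
  rw [Complex.log_im]
  have h1 : 0 ≤ Complex.arg z := Complex.arg_nonneg_iff.2 hz.le
  rcases h1.lt_or_eq with h | h
  · exact h
  · exfalso
    have := Complex.arg_eq_zero_iff.1 h.symm
    linarith [this.2]

lemma log_slit {z : ℂ} (hz : 0 < z.im) : Complex.log z ∈ Complex.slitPlane := by
  rw [Complex.mem_slitPlane_iff]
  right
  exact (log_im_pos hz).ne'

lemma log_ne {z : ℂ} (hz : 0 < z.im) : Complex.log z ≠ 0 := Complex.slitPlane_ne_zero (log_slit hz)

lemma pw_nat (m : ℕ) {z : ℂ} (hz : 0 < z.im) : pw m z = Complex.log z ^ m := by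
  unfold pw
  rw [Complex.exp_nat_mul, Complex.exp_log (log_ne hz)]

lemma Jc_nat (m : ℕ) : Jc m = J m := by
  unfold Jc J
  apply setIntegral_congr_fun measurableSet_Ioi
  intro y hy
  have hy' : (0 : ℝ) < y := hy
  simp only
  rw [pw_nat m (by simpa using hy')]

lemma norm_pw (s z : ℂ) : ‖pw s z‖ ≤
    Real.exp (s.re * Real.log ‖Complex.log z‖ + π * |s.im|) := by
  unfold pw
  rw [Complex.norm_exp, Real.exp_le_exp, Complex.mul_re, Complex.log_re, Complex.log_im]
  have h1 := Complex.abs_arg_le_pi (Complex.log z)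
  have h2 : -(s.im * Complex.arg (Complex.log z)) ≤ π * |s.im| := by
    calc -(s.im * Complex.arg (Complex.log z)) ≤ |s.im * Complex.arg (Complex.log z)| :=
          neg_le_abs _
      _ = |s.im| * |Complex.arg (Complex.log z)| := abs_mul _ _
      _ ≤ |s.im| * π := by gcongr
      _ = _ := by ring
  linarith

/-- bound with a constant bound of the logarithm -/
lemma norm_pw_le_B (s z : ℂ) (hs : 0 ≤ s.re) (B : ℝ) (hz : 0 < z.im)
    (hB : ‖Complex.log z‖ ≤ B) : ‖pw s z‖ ≤ Real.exp (s.re * Real.log B + π * |s.im|) := by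
  refine (norm_pw s z).trans ?_
  rw [Real.exp_le_exp]
  have h1 : 0 < ‖Complex.log z‖ := norm_pos_iff.2 (log_ne hz)
  have h2 := Real.log_le_log h1 hB
  have := mul_le_mul_of_nonneg_left h2 hs
  linarith

/-- constant for the growth bound -/
noncomputable def Kc (s : ℂ) : ℝ :=
  Real.exp (π * |s.im|) * ((⌈s.re⌉₊).factorial * (Real.exp 1 * Real.exp π))

lemma Kc_pos (s : ℂ) : 0 < Kc s := by unfold Kc; positivity

lemma norm_pw_le (s z : ℂ) (hs : 0 ≤ s.re) (hz : 0 < z.im) (hz2 : 1 / 2 ≤ ‖z‖) :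
    ‖pw s z‖ ≤ Kc s * (‖z‖ + 2) := by
  have h0 : 0 < ‖z‖ := by linarith
  set k := ⌈s.re⌉₊ with hk
  have hk1 : s.re ≤ k := Nat.le_ceil _
  have h1 := norm_pw_le_B s z hs (1 + ‖Complex.log z‖) hz (by linarith)
  have h2 : Real.exp (s.re * Real.log (1 + ‖Complex.log z‖) + π * |s.im|) ≤
      (1 + ‖Complex.log z‖) ^ k * Real.exp (π * |s.im|) := by
    rw [Real.exp_add]
    gcongr
    have h3 : (1 + ‖Complex.log z‖) ^ k = Real.exp (k * Real.log (1 + ‖Complex.log z‖)) := by
      rw [Real.exp_nat_mul, Real.exp_log (by positivity)]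
    rw [h3, Real.exp_le_exp]
    have h4 : 0 ≤ Real.log (1 + ‖Complex.log z‖) := Real.log_nonneg (by linarith [norm_nonneg (Complex.log z)])
    gcongr
  have h5 := Real.pow_div_factorial_le_exp (1 + ‖Complex.log z‖) (by positivity) k
  rw [div_le_iff₀ (by positivity), Real.exp_add] at h5
  have h6 : Real.exp ‖Complex.log z‖ ≤ Real.exp π * (‖z‖ + 2) := by
    have h3 : ‖Complex.log z‖ ≤ |Real.log ‖z‖| + π :=
      (norm_log_le' z).trans (by gcongr; exact Complex.abs_arg_le_pi z)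
    calc Real.exp ‖Complex.log z‖ ≤ Real.exp (|Real.log ‖z‖| + π) := Real.exp_le_exp.2 h3
      _ = Real.exp π * Real.exp |Real.log ‖z‖| := by rw [Real.exp_add]; ring
      _ ≤ Real.exp π * (‖z‖ + 2) := by
          gcongr
          rcases le_total 0 (Real.log ‖z‖) with h | h
          · rw [abs_of_nonneg h, Real.exp_log h0]; linarith
          · rw [abs_of_nonpos h, Real.exp_neg, Real.exp_log h0]
            have : ‖z‖⁻¹ ≤ 2 := by
              rw [inv_le_comm₀ h0 (by norm_num)]; linarith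
            linarith
  calc ‖pw s z‖ ≤ (1 + ‖Complex.log z‖) ^ k * Real.exp (π * |s.im|) := h1.trans h2
    _ ≤ (Real.exp 1 * Real.exp ‖Complex.log z‖ * k.factorial) * Real.exp (π * |s.im|) := by gcongr
    _ ≤ (Real.exp 1 * (Real.exp π * (‖z‖ + 2)) * k.factorial) * Real.exp (π * |s.im|) := by gcongr
    _ = Kc s * (‖z‖ + 2) := by unfold Kc; ring

lemma fc_differentiableAt (s : ℂ) {z : ℂ} (hz : 1 ≤ z.im) : DifferentiableAt ℂ (fc s) z := by
  unfold fc pw
  have hz0 : 0 < z.im := by linarith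
  apply DifferentiableAt.div
  · apply DifferentiableAt.cexp
    apply DifferentiableAt.const_mul
    apply DifferentiableAt.clog _ (log_slit hz0)
    apply DifferentiableAt.clog differentiableAt_id
    rw [Complex.mem_slitPlane_iff]
    right
    exact hz0.ne'
  · fun_prop
  · exact pow_ne_zero 2 (sin_ne_zero' hz)

lemma fc_line_continuousOn (s : ℂ) (X : ℝ) :
    ContinuousOn (fun t : ℝ => fc s (X + t * I)) (Ici 1) := by
  intro t ht
  have h1 : DifferentiableAt ℂ (fc s) (X + t * I) := fc_differentiableAt s (by simpa using ht)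
  have h2 : ContinuousAt (fun t : ℝ => fc s (X + t * I)) t :=
    ContinuousAt.comp (f := fun t : ℝ => (X : ℂ) + t * I) (g := fc s) h1.continuousAt (by fun_prop)
  exact h2.continuousWithinAt

lemma norm_fc_le (s : ℂ) (hs : 0 ≤ s.re) {z : ℂ} (hz : 1 ≤ z.im) :
    ‖fc s z‖ ≤ 2 * (Kc s * (‖z‖ + 2)) / Real.cosh (π * z.im) ^ 2 := by
  have h1 := norm_sin_sq_ge hz
  have h2 := (one_le_sinh hz).2
  have h3 := Real.cosh_sq (π * z.im)
  have h4 : 1 / 2 ≤ ‖z‖ := by
    have := Complex.abs_im_le_norm z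
    rw [abs_of_nonneg (by linarith)] at this
    linarith
  have h5 := norm_pw_le s z hs (by linarith) h4
  unfold fc
  rw [norm_div, norm_pow (Complex.sin _)]
  have h6 : 0 < Real.cosh (π * z.im) ^ 2 := by positivity
  have h7 : Real.cosh (π * z.im) ^ 2 ≤ 2 * ‖Complex.sin (π * z)‖ ^ 2 := by
    nlinarith
  have h8 : 0 < ‖Complex.sin (π * z)‖ ^ 2 := by linarith
  rw [div_le_div_iff₀ h8 h6]
  have := Kc_pos s
  calc ‖pw s z‖ * Real.cosh (π * z.im) ^ 2
      ≤ (Kc s * (‖z‖ + 2)) * (2 * ‖Complex.sin (π * z)‖ ^ 2) := by gcongr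
    _ = _ := by ring

lemma fc_line_integrable (s : ℂ) (hs : 0 ≤ s.re) (X : ℝ) (hX : 0 < X) :
    IntegrableOn (fun t : ℝ => fc s (X + t * I)) (Ioi 1) := by
  refine Integrable.mono' (((integrable_kernel 1).const_mul
    (2 * Kc s * (X + 2))).integrableOn) ?_ ?_
  · exact ((fc_line_continuousOn s X).mono Ioi_subset_Ici_self).aestronglyMeasurable
      measurableSet_Ioi
  · refine (ae_restrict_iff' measurableSet_Ioi).2 (ae_of_all _ fun t ht => ?_)
    have ht' : (1 : ℝ) < t := ht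
    have him : ((X : ℂ) + t * I).im = t := by simp
    have h := norm_fc_le s hs (z := (X : ℂ) + t * I) (by rw [him]; exact ht'.le)
    rw [him] at h
    refine h.trans ?_
    have h1 : ‖(X : ℂ) + t * I‖ ≤ X + t := by
      refine (norm_add_le _ _).trans ?_
      rw [norm_mul, Complex.norm_I, Complex.norm_real, Complex.norm_real,
        Real.norm_of_nonneg hX.le, Real.norm_of_nonneg (by linarith)]
      simp
    rw [pow_one, abs_of_pos (by linarith : (0 : ℝ) < t), ← mul_div_assoc]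
    apply div_le_div_of_nonneg_right _ (by positivity)
    have := Kc_pos s
    calc 2 * (Kc s * (‖(X : ℂ) + t * I‖ + 2))
        ≤ 2 * (Kc s * ((X + 2) * (1 + t))) := by
          gcongr
          nlinarith
      _ = 2 * Kc s * (X + 2) * (1 + t) := by ring

lemma fc_hor_tendsto (s : ℂ) (hs : 0 ≤ s.re) (X : ℝ) (hX : 1 / 2 ≤ X) :
    Tendsto (fun T : ℝ => ∫ x : ℝ in (1 / 2 : ℝ)..X, fc s (x + (T : ℝ) * I)) atTop (𝓝 0) := by
  set K : ℝ := Kc s * (X + 3) with hK
  have hKs := Kc_pos s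
  have hK0 : 0 ≤ K := by positivity
  have hlim0 : Tendsto (fun T : ℝ => K * (1 + T) / T ^ 2 * (X - 1 / 2)) atTop (𝓝 0) := by
    have h1 : Tendsto (fun T : ℝ => K * (T⁻¹ ^ 2 + T⁻¹)) atTop (𝓝 (K * (0 ^ 2 + 0))) :=
      ((tendsto_inv_atTop_zero.pow 2).add tendsto_inv_atTop_zero).const_mul K
    simp only [ne_eq, OfNat.ofNat_ne_zero, not_false_eq_true, zero_pow, add_zero, mul_zero] at h1
    have h2 := h1.mul_const (X - 1 / 2)
    rw [zero_mul] at h2
    refine h2.congr' ?_
    filter_upwards [eventually_gt_atTop 0] with T hT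
    field_simp
  refine squeeze_zero_norm' ?_ hlim0
  filter_upwards [eventually_ge_atTop 1] with T hT
  have hb : ∀ x ∈ Set.uIoc (1 / 2 : ℝ) X, ‖fc s (x + (T : ℝ) * I)‖ ≤ K * (1 + T) / T ^ 2 := by
    intro x hx
    rw [uIoc_of_le hX] at hx
    have him : ((x : ℂ) + T * I).im = T := by simp
    have hre : ((x : ℂ) + T * I).re = x := by simp
    have hs1 := norm_sin_sq_ge (z := (x : ℂ) + T * I) (by rw [him]; exact hT)
    rw [him] at hs1
    have h1 := (one_le_sinh hT).1
    have h2 : T ^ 2 ≤ Real.sinh (π * T) ^ 2 := pow_le_pow_left₀ (by linarith) h1 2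
    have h4 : T ≤ ‖(x : ℂ) + T * I‖ := by
      have := Complex.abs_im_le_norm ((x : ℂ) + T * I)
      rwa [him, abs_of_nonneg (by linarith)] at this
    have h5 := norm_pw_le s ((x : ℂ) + T * I) hs (by rw [him]; linarith) (by linarith)
    have h6 : ‖(x : ℂ) + T * I‖ ≤ X + T := by
      refine (Complex.norm_le_abs_re_add_abs_im _).trans ?_
      rw [hre, him, abs_of_pos (by linarith [hx.1]), abs_of_pos (by linarith)]
      linarith [hx.2]
    unfold fc
    rw [norm_div, norm_pow (Complex.sin _)]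
    have h7 : 0 < T ^ 2 := by positivity
    calc _ ≤ (Kc s * (‖(x : ℂ) + T * I‖ + 2)) /
          ‖Complex.sin (π * (x + T * I))‖ ^ 2 := by gcongr
      _ ≤ (Kc s * (‖(x : ℂ) + T * I‖ + 2)) / T ^ 2 :=
          div_le_div_of_nonneg_left (by positivity) h7 (h2.trans hs1)
      _ ≤ K * (1 + T) / T ^ 2 := by
          apply div_le_div_of_nonneg_right _ (by positivity)
          rw [hK, mul_assoc (Kc s) (X + 3) (1 + T)]
          gcongr
          nlinarith
  have := intervalIntegral.norm_integral_le_of_norm_le_const hb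
  rwa [abs_of_nonneg (by linarith)] at this

lemma fc_rect (s : ℂ) (X T : ℝ) (hX : 1 / 2 ≤ X) (hT : 1 ≤ T) :
    (∫ x : ℝ in (1 / 2 : ℝ)..X, fc s (x + I)) - (∫ x : ℝ in (1 / 2 : ℝ)..X, fc s (x + (T : ℝ) * I)) +
      I • (∫ y : ℝ in (1 : ℝ)..T, fc s (X + y * I)) -
      I • (∫ y : ℝ in (1 : ℝ)..T, fc s (1 / 2 + y * I)) = 0 := by
  have := Complex.integral_boundary_rect_eq_zero_of_differentiableOn (fc s)
      (((1 / 2 : ℝ) : ℂ) + ((1 : ℝ) : ℂ) * I) ((X : ℂ) + (T : ℂ) * I) ?_
  · simp only [Complex.add_re, Complex.ofReal_re, Complex.mul_re, Complex.I_re, mul_zero,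
      Complex.ofReal_im, Complex.I_im, mul_one, sub_self, add_zero, Complex.add_im,
      Complex.mul_im, zero_add, Complex.ofReal_one, one_mul] at this
    have c1 : (((1 / 2 : ℝ)) : ℂ) = 1 / 2 := by push_cast; ring
    rw [c1] at this
    exact this
  · intro z hz
    rw [Complex.mem_reProdIm] at hz
    have h2 := hz.2
    simp only [Complex.add_re, Complex.ofReal_re, Complex.mul_re, Complex.I_re, mul_zero,
      Complex.ofReal_im, Complex.I_im, mul_one, sub_self, add_zero, Complex.add_im,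
      Complex.mul_im, zero_add] at h2
    rw [uIcc_of_le hT] at h2
    exact (fc_differentiableAt s h2.1).differentiableWithinAt

lemma ccontour_tail (s : ℂ) (hs : 0 ≤ s.re) (X : ℝ) (hX : 1 / 2 ≤ X) :
    ∫ t in Ioi (1 : ℝ), fc s (1 / 2 + t * I) =
      (∫ t in Ioi (1 : ℝ), fc s (X + t * I)) - I * ∫ x : ℝ in (1 / 2 : ℝ)..X, fc s (x + I) := by
  have i1 : IntegrableOn (fun t : ℝ => fc s (1 / 2 + t * I)) (Ioi 1) := by
    have := fc_line_integrable s hs (1 / 2) (by norm_num)
    simpa using this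
  have i2 := fc_line_integrable s hs X (by linarith)
  have t1 := intervalIntegral_tendsto_integral_Ioi 1 i1 tendsto_id
  have t2 := intervalIntegral_tendsto_integral_Ioi 1 i2 tendsto_id
  have t3 := fc_hor_tendsto s hs X hX
  have hlim := ((tendsto_const_nhds (x := ∫ x : ℝ in (1 / 2 : ℝ)..X, fc s (x + I))).sub t3).add
    (t2.const_smul I) |>.sub (t1.const_smul I)
  have hzero : (∫ x : ℝ in (1 / 2 : ℝ)..X, fc s (x + I)) - 0 +
      I • (∫ t in Ioi (1 : ℝ), fc s (X + t * I)) -
      I • (∫ t in Ioi (1 : ℝ), fc s (1 / 2 + t * I)) = 0 := by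
    refine tendsto_nhds_unique hlim ?_
    refine Tendsto.congr' ?_ tendsto_const_nhds
    filter_upwards [eventually_ge_atTop 1] with T hT
    exact (fc_rect s X T hX hT).symm
  simp only [smul_eq_mul, sub_zero] at hzero
  have hI : I * I = -1 := Complex.I_mul_I
  linear_combination I * hzero + ((∫ t in Ioi (1 : ℝ), fc s (1 / 2 + t * I)) -
    (∫ t in Ioi (1 : ℝ), fc s (X + t * I))) * hI

lemma fc_half (s : ℂ) (t : ℝ) : fc s (1 / 2 + t * I) =
    pw s (1 / 2 + t * I) / (Real.cosh (π * t) : ℂ) ^ 2 := by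
  unfold fc
  rw [sin_half_add]

lemma half_line_continuousOn (s : ℂ) :
    ContinuousOn (fun t : ℝ => fc s (1 / 2 + t * I)) (Ioi 0) := by
  intro t ht
  have ht' : (0 : ℝ) < t := ht
  have him : 0 < ((1 : ℂ) / 2 + t * I).im := by simpa using ht'
  have h3 : ContinuousAt (fun z : ℂ => pw s z) (1 / 2 + t * I) := by
    unfold pw
    apply ContinuousAt.cexp
    apply ContinuousAt.mul continuousAt_const
    apply ContinuousAt.clog _ (log_slit him)
    apply ContinuousAt.clog continuousAt_id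
    rw [Complex.mem_slitPlane_iff]
    right
    exact him.ne'
  have h4 : ContinuousAt (fun t : ℝ => pw s (1 / 2 + t * I)) t :=
    ContinuousAt.comp (f := fun t : ℝ => (1 : ℂ) / 2 + t * I) (g := pw s) h3 (by fun_prop)
  have h5 : (fun t : ℝ => fc s (1 / 2 + t * I)) = fun t : ℝ =>
      pw s (1 / 2 + t * I) / (Real.cosh (π * t) : ℂ) ^ 2 := by
    ext t; exact fc_half s t
  rw [h5]
  apply ContinuousAt.continuousWithinAt
  apply h4.div (by fun_prop)
  exact pow_ne_zero 2 (by exact_mod_cast (Real.cosh_pos (π * t)).ne')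

lemma half_line_integrable (s : ℂ) (hs : 0 ≤ s.re) :
    IntegrableOn (fun t : ℝ => fc s (1 / 2 + t * I)) (Ioi 0) := by
  refine Integrable.mono' (((integrable_kernel 1).const_mul (3 * Kc s)).integrableOn) ?_ ?_
  · exact (half_line_continuousOn s).aestronglyMeasurable measurableSet_Ioi
  · refine (ae_restrict_iff' measurableSet_Ioi).2 (ae_of_all _ fun t ht => ?_)
    have ht' : (0 : ℝ) < t := ht
    have him : ((1 : ℂ) / 2 + t * I).im = t := by simp
    have hre : ((1 : ℂ) / 2 + t * I).re = 1 / 2 := by simp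
    have h2 : 1 / 2 ≤ ‖(1 : ℂ) / 2 + t * I‖ := by
      have := Complex.re_le_norm ((1 : ℂ) / 2 + t * I)
      rwa [hre] at this
    have h3 : ‖(1 : ℂ) / 2 + t * I‖ ≤ 1 / 2 + t := by
      refine (Complex.norm_le_abs_re_add_abs_im _).trans ?_
      rw [hre, him, abs_of_pos ht']
      norm_num
    have h4 := norm_pw_le s (1 / 2 + t * I) hs (by rw [him]; exact ht') h2
    rw [fc_half, norm_div, norm_pow, Complex.norm_real, Real.norm_of_nonneg (Real.cosh_pos _).le,
      pow_one, abs_of_pos ht', ← mul_div_assoc]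
    apply div_le_div_of_nonneg_right _ (by positivity)
    have := Kc_pos s
    calc ‖pw s (1 / 2 + t * I)‖ ≤ Kc s * (‖(1 : ℂ) / 2 + t * I‖ + 2) := h4
      _ ≤ Kc s * (3 * (1 + t)) := by
          gcongr
          linarith
      _ = _ := by ring

lemma Jc_eq (s : ℂ) (hs : 0 ≤ s.re) (X : ℝ) (hX : 1 / 2 ≤ X) :
    Jc s = (∫ t in Ioc (0 : ℝ) 1, fc s (1 / 2 + t * I)) -
      I * (∫ x : ℝ in (1 / 2 : ℝ)..X, fc s (x + I)) + ∫ t in Ioi (1 : ℝ), fc s (X + t * I) := by
  have hint := half_line_integrable s hs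
  have h1 : Jc s = ∫ t in Ioi (0 : ℝ), fc s (1 / 2 + t * I) := by
    unfold Jc
    simp_rw [← fc_half]
  have h2 : Ioi (0 : ℝ) = Ioc 0 1 ∪ Ioi 1 := by
    rw [Ioc_union_Ioi_eq_Ioi (by norm_num)]
  rw [h1, h2, setIntegral_union (Ioc_disjoint_Ioi_same) measurableSet_Ioi
    (hint.mono_set Ioc_subset_Ioi_self) (hint.mono_set (Ioi_subset_Ioi (by norm_num))),
    ccontour_tail s hs X hX]
  ring

/-- The first two pieces are small. -/
lemma cgarbage_bound (s : ℂ) (hs : 0 ≤ s.re) (X B : ℝ) (hX : 1 / 2 ≤ X)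
    (hB : Real.log (X + 1) + 2 ≤ B) (hB3 : 3 ≤ B) :
    ‖(∫ t in Ioc (0 : ℝ) 1, fc s (1 / 2 + t * I)) -
      I * (∫ x : ℝ in (1 / 2 : ℝ)..X, fc s (x + I))‖ ≤
      (X + 1) * Real.exp (s.re * Real.log B + π * |s.im|) := by
  have hpi := Real.pi_lt_d2
  have hpi0 := Real.pi_pos
  set EB := Real.exp (s.re * Real.log B + π * |s.im|) with hEB
  have hEB0 : 0 < EB := Real.exp_pos _
  have b1 : ‖∫ t in Ioc (0 : ℝ) 1, fc s (1 / 2 + t * I)‖ ≤ EB := by
    have hb : ∀ t ∈ Ioc (0 : ℝ) 1, ‖fc s (1 / 2 + t * I)‖ ≤ EB := by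
      intro t ht
      rw [fc_half, norm_div, norm_pow, Complex.norm_real,
        Real.norm_of_nonneg (Real.cosh_pos _).le]
      have h1 : 1 ≤ Real.cosh (π * t) ^ 2 := one_le_pow₀ (Real.one_le_cosh _)
      have hre : ((1 : ℂ) / 2 + t * I).re = 1 / 2 := by simp
      have him : ((1 : ℂ) / 2 + t * I).im = t := by simp
      have h2 : 1 / 2 ≤ ‖(1 : ℂ) / 2 + t * I‖ := by
        have := Complex.re_le_norm ((1 : ℂ) / 2 + t * I)
        rwa [hre] at this
      have h3 : ‖(1 : ℂ) / 2 + t * I‖ ≤ 2 := by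
        refine (Complex.norm_le_abs_re_add_abs_im _).trans ?_
        rw [hre, him, abs_of_pos ht.1]
        norm_num
        linarith [ht.2]
      have h4 : |Real.log ‖(1 : ℂ) / 2 + t * I‖| ≤ Real.log 2 := by
        rw [abs_le]
        constructor
        · have := Real.log_le_log (by norm_num) h2
          rwa [one_div, Real.log_inv] at this
        · exact Real.log_le_log (by linarith) h3
      have h5 : |Complex.arg ((1 : ℂ) / 2 + t * I)| ≤ π / 2 := by
        rw [Complex.abs_arg_le_pi_div_two_iff, hre]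
        norm_num
      have h6 : ‖Complex.log ((1 : ℂ) / 2 + t * I)‖ ≤ B := by
        have := norm_log_le' ((1 : ℂ) / 2 + t * I)
        have := Real.log_two_lt_d9
        linarith
      calc ‖pw s ((1 : ℂ) / 2 + t * I)‖ / Real.cosh (π * t) ^ 2
          ≤ ‖pw s ((1 : ℂ) / 2 + t * I)‖ := div_le_self (norm_nonneg _) h1
        _ ≤ EB := norm_pw_le_B s _ hs B (by rw [him]; exact ht.1) h6
    have := norm_setIntegral_le_of_norm_le_const (μ := volume) (s := Ioc (0 : ℝ) 1)
      (by simp) hb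
    simpa using this
  have b2 : ‖∫ x : ℝ in (1 / 2 : ℝ)..X, fc s (x + I)‖ ≤ X * EB := by
    have hb : ∀ x ∈ Set.uIoc (1 / 2 : ℝ) X, ‖fc s (x + I)‖ ≤ EB := by
      intro x hx
      rw [uIoc_of_le hX] at hx
      have him : ((x : ℂ) + I).im = 1 := by simp
      have hre : ((x : ℂ) + I).re = x := by simp
      have hs2 := norm_sin_sq_ge (z := (x : ℂ) + I) (by rw [him])
      rw [him] at hs2
      have h1 := (one_le_sinh (le_refl 1)).2
      have h2 : 1 ≤ ‖Complex.sin (π * ((x : ℂ) + I))‖ ^ 2 := by nlinarith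
      have h3 : 1 ≤ ‖(x : ℂ) + I‖ := by
        have := Complex.abs_im_le_norm ((x : ℂ) + I)
        rwa [him, abs_one] at this
      have h4 : ‖(x : ℂ) + I‖ ≤ X + 1 := by
        refine (Complex.norm_le_abs_re_add_abs_im _).trans ?_
        rw [hre, him, abs_of_pos (by linarith [hx.1]), abs_one]
        linarith [hx.2]
      have h5 : |Real.log ‖(x : ℂ) + I‖| ≤ Real.log (X + 1) := by
        rw [abs_of_nonneg (Real.log_nonneg h3)]
        exact Real.log_le_log (by linarith) h4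
      have h6 : |Complex.arg ((x : ℂ) + I)| ≤ π / 2 := by
        rw [Complex.abs_arg_le_pi_div_two_iff, hre]
        linarith [hx.1]
      have h7 : ‖Complex.log ((x : ℂ) + I)‖ ≤ B := by
        have := norm_log_le' ((x : ℂ) + I)
        linarith
      unfold fc
      rw [norm_div, norm_pow]
      calc ‖pw s ((x : ℂ) + I)‖ / ‖Complex.sin (π * ((x : ℂ) + I))‖ ^ 2
          ≤ ‖pw s ((x : ℂ) + I)‖ := div_le_self (norm_nonneg _) h2
        _ ≤ EB := norm_pw_le_B s _ hs B (by rw [him]; norm_num) h7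
    have := intervalIntegral.norm_integral_le_of_norm_le_const hb
    refine this.trans ?_
    rw [abs_of_nonneg (by linarith), mul_comm]
    gcongr
    linarith
  calc _ ≤ ‖∫ t in Ioc (0 : ℝ) 1, fc s (1 / 2 + t * I)‖ +
        ‖I * (∫ x : ℝ in (1 / 2 : ℝ)..X, fc s (x + I))‖ := norm_sub_le _ _
    _ ≤ EB + X * EB := by
        rw [norm_mul, Complex.norm_I, one_mul]
        gcongr
    _ = (X + 1) * EB := by ring

end Pool.Agent.Stj
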