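import Pool.Agent.Stj.Tele

open Complex Set Filter MeasureTheory Topology
open scoped Real

namespace Pool.Agent.Stj

/-- The integrand. -/
noncomputable def ff (k : ℕ) (z : ℂ) : ℂ := Complex.log z ^ k / Complex.sin (π * z) ^ 2

lemma one_le_sinh {y : ℝ} (hy : 1 ≤ y) : y ≤ Real.sinh (π * y) ∧ 1 ≤ Real.sinh (π * y) := by
  have h2 : π * y ≤ Real.sinh (π * y) := by
    rw [Real.self_le_sinh_iff]; positivity
  have := Real.pi_gt_three
  constructor <;> nlinarith

lemma sin_ne_zero' {z : ℂ} (hz : 1 ≤ z.im) : Complex.sin (π * z) ≠ 0 := by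
  intro h
  have h1 := norm_sin_sq z.re z.im
  rw [Complex.re_add_im, h, norm_zero] at h1
  have h2 := (one_le_sinh hz).2
  nlinarith [sq_nonneg (Real.sin (π * z.re))]

lemma norm_sin_sq_ge {z : ℂ} (_hz : 1 ≤ z.im) :
    Real.sinh (π * z.im) ^ 2 ≤ ‖Complex.sin (π * z)‖ ^ 2 := by
  have h1 := norm_sin_sq z.re z.im
  rw [Complex.re_add_im] at h1
  rw [h1]
  nlinarith [sq_nonneg (Real.sin (π * z.re))]

lemma norm_ff_le (k : ℕ) {z : ℂ} (hz : 1 ≤ z.im) :
    ‖ff k z‖ ≤ 2 * ((k.factorial * Real.exp π) * (‖z‖ + 2)) / Real.cosh (π * z.im) ^ 2 := by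
  have h1 := norm_sin_sq_ge hz
  have h2 := (one_le_sinh hz).2
  have h3 := Real.cosh_sq (π * z.im)
  have h4 : 1 / 2 ≤ ‖z‖ := by
    have := Complex.abs_im_le_norm z
    rw [abs_of_nonneg (by linarith)] at this
    linarith
  have h5 := norm_log_pow_le k z h4
  unfold ff
  rw [norm_div, norm_pow (Complex.sin _)]
  have h6 : 0 < Real.cosh (π * z.im) ^ 2 := by positivity
  have h7 : Real.cosh (π * z.im) ^ 2 ≤ 2 * ‖Complex.sin (π * z)‖ ^ 2 := by
    nlinarith
  have h8 : 0 < ‖Complex.sin (π * z)‖ ^ 2 := by linarith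
  rw [div_le_div_iff₀ h8 h6]
  calc ‖Complex.log z ^ k‖ * Real.cosh (π * z.im) ^ 2
      ≤ ((k.factorial * Real.exp π) * (‖z‖ + 2)) * (2 * ‖Complex.sin (π * z)‖ ^ 2) := by gcongr
    _ = _ := by ring

lemma ff_line_continuousOn (k : ℕ) (X : ℝ) (hX : 0 < X) :
    ContinuousOn (fun t : ℝ => ff k (X + t * I)) (Ici 1) := by
  unfold ff
  apply ContinuousOn.div
  · apply ContinuousOn.pow
    apply ContinuousOn.clog
    · fun_prop
    · intro t _
      left
      simpa using hX
  · fun_prop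
  · intro t ht
    apply pow_ne_zero
    apply sin_ne_zero'
    simpa using ht

lemma ff_line_integrable (k : ℕ) (X : ℝ) (hX : 0 < X) :
    IntegrableOn (fun t : ℝ => ff k (X + t * I)) (Ioi 1) := by
  refine Integrable.mono' (((integrable_kernel 1).const_mul
    (2 * (k.factorial * Real.exp π) * (X + 2))).integrableOn) ?_ ?_
  · exact ((ff_line_continuousOn k X hX).mono Ioi_subset_Ici_self).aestronglyMeasurable
      measurableSet_Ioi
  · refine (ae_restrict_iff' measurableSet_Ioi).2 (ae_of_all _ fun t ht => ?_)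
    have ht' : (1 : ℝ) < t := ht
    have him : ((X : ℂ) + t * I).im = t := by simp
    have h := norm_ff_le k (z := (X : ℂ) + t * I) (by rw [him]; exact ht'.le)
    rw [him] at h
    refine h.trans ?_
    have h1 : ‖(X : ℂ) + t * I‖ ≤ X + t := by
      refine (norm_add_le _ _).trans ?_
      rw [norm_mul, Complex.norm_I, Complex.norm_real, Complex.norm_real,
        Real.norm_of_nonneg hX.le, Real.norm_of_nonneg (by linarith)]
      simp
    rw [pow_one, abs_of_pos (by linarith : (0 : ℝ) < t), ← mul_div_assoc]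
    apply div_le_div_of_nonneg_right _ (by positivity)
    calc 2 * (↑k.factorial * Real.exp π * (‖(X : ℂ) + t * I‖ + 2))
        ≤ 2 * (↑k.factorial * Real.exp π * ((X + 2) * (1 + t))) := by
          gcongr
          nlinarith
      _ = 2 * (k.factorial * Real.exp π) * (X + 2) * (1 + t) := by ring

lemma ff_hor_tendsto (k : ℕ) (X : ℝ) (hX : 1 / 2 ≤ X) :
    Tendsto (fun T : ℝ => ∫ x : ℝ in (1 / 2 : ℝ)..X, ff k (x + (T : ℝ) * I)) atTop (𝓝 0) := by
  set K : ℝ := (k.factorial * Real.exp π) * (X + 3) with hK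
  have hK0 : 0 ≤ K := by positivity
  have hlim0 : Tendsto (fun T : ℝ => K * (1 + T) / T ^ 2 * (X - 1 / 2)) atTop (𝓝 0) := by
    have h1 : Tendsto (fun T : ℝ => K * (T⁻¹ ^ 2 + T⁻¹)) atTop (𝓝 (K * (0 ^ 2 + 0))) :=
      ((tendsto_inv_atTop_zero.pow 2).add tendsto_inv_atTop_zero).const_mul K
    simp only [ne_eq, OfNat.ofNat_ne_zero, not_false_eq_true, zero_pow, add_zero, mul_zero] at h1
    have h2 := h1.mul_const (X - 1 / 2)
    rw [zero_mul] at h2
    refine h2.congr' ?_
    filter_upwards [eventually_gt_atTop 0] with T hT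
    field_simp
  refine squeeze_zero_norm' ?_ hlim0
  filter_upwards [eventually_ge_atTop 1] with T hT
  have hb : ∀ x ∈ Set.uIoc (1 / 2 : ℝ) X, ‖ff k (x + (T : ℝ) * I)‖ ≤ K * (1 + T) / T ^ 2 := by
    intro x hx
    rw [uIoc_of_le hX] at hx
    have him : ((x : ℂ) + T * I).im = T := by simp
    have hre : ((x : ℂ) + T * I).re = x := by simp
    have hs := norm_sin_sq_ge (z := (x : ℂ) + T * I) (by rw [him]; exact hT)
    rw [him] at hs
    have h1 := (one_le_sinh hT).1
    have h2 : T ^ 2 ≤ Real.sinh (π * T) ^ 2 := pow_le_pow_left₀ (by linarith) h1 2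
    have h4 : T ≤ ‖(x : ℂ) + T * I‖ := by
      have := Complex.abs_im_le_norm ((x : ℂ) + T * I)
      rwa [him, abs_of_nonneg (by linarith)] at this
    have h5 := norm_log_pow_le k ((x : ℂ) + T * I) (by linarith)
    have h6 : ‖(x : ℂ) + T * I‖ ≤ X + T := by
      refine (Complex.norm_le_abs_re_add_abs_im _).trans ?_
      rw [hre, him, abs_of_pos (by linarith [hx.1]), abs_of_pos (by linarith)]
      linarith [hx.2]
    unfold ff
    rw [norm_div, norm_pow (Complex.sin _)]
    have h7 : 0 < T ^ 2 := by positivity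
    calc _ ≤ ((k.factorial * Real.exp π) * (‖(x : ℂ) + T * I‖ + 2)) /
          ‖Complex.sin (π * (x + T * I))‖ ^ 2 := by gcongr
      _ ≤ ((k.factorial * Real.exp π) * (‖(x : ℂ) + T * I‖ + 2)) / T ^ 2 :=
          div_le_div_of_nonneg_left (by positivity) h7 (h2.trans hs)
      _ ≤ K * (1 + T) / T ^ 2 := by
          apply div_le_div_of_nonneg_right _ (by positivity)
          rw [hK, mul_assoc (k.factorial * Real.exp π : ℝ) (X + 3) (1 + T)]
          gcongr
          nlinarith
  have := intervalIntegral.norm_integral_le_of_norm_le_const hb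
  rwa [abs_of_nonneg (by linarith)] at this

lemma ff_rect (k : ℕ) (X T : ℝ) (hX : 1 / 2 ≤ X) (hT : 1 ≤ T) :
    (∫ x : ℝ in (1 / 2 : ℝ)..X, ff k (x + I)) - (∫ x : ℝ in (1 / 2 : ℝ)..X, ff k (x + (T : ℝ) * I)) +
      I • (∫ y : ℝ in (1 : ℝ)..T, ff k (X + y * I)) -
      I • (∫ y : ℝ in (1 : ℝ)..T, ff k (1 / 2 + y * I)) = 0 := by
  have := Complex.integral_boundary_rect_eq_zero_of_differentiableOn (ff k)
      (((1 / 2 : ℝ) : ℂ) + ((1 : ℝ) : ℂ) * I) ((X : ℂ) + (T : ℂ) * I) ?_
  · simp only [Complex.add_re, Complex.ofReal_re, Complex.mul_re, Complex.I_re, mul_zero,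
      Complex.ofReal_im, Complex.I_im, mul_one, sub_self, add_zero, Complex.add_im,
      Complex.mul_im, zero_add, Complex.ofReal_one, one_mul] at this
    have c1 : (((1 / 2 : ℝ)) : ℂ) = 1 / 2 := by push_cast; ring
    rw [c1] at this
    exact this
  · intro z hz
    rw [Complex.mem_reProdIm] at hz
    have h1 := hz.1
    have h2 := hz.2
    simp only [Complex.add_re, Complex.ofReal_re, Complex.mul_re, Complex.I_re, mul_zero,
      Complex.ofReal_im, Complex.I_im, mul_one, sub_self, add_zero, Complex.add_im,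
      Complex.mul_im, zero_add] at h1 h2
    rw [uIcc_of_le hX] at h1
    rw [uIcc_of_le hT] at h2
    apply DifferentiableAt.differentiableWithinAt
    unfold ff
    apply DifferentiableAt.div
    · apply DifferentiableAt.pow
      apply DifferentiableAt.clog differentiableAt_id
      left
      have := h1.1
      simp only [id]
      linarith
    · fun_prop
    · exact pow_ne_zero 2 (sin_ne_zero' h2.1)

lemma contour_tail (k : ℕ) (X : ℝ) (hX : 1 / 2 ≤ X) :
    ∫ t in Ioi (1 : ℝ), ff k (1 / 2 + t * I) =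
      (∫ t in Ioi (1 : ℝ), ff k (X + t * I)) - I * ∫ x : ℝ in (1 / 2 : ℝ)..X, ff k (x + I) := by
  have i1 : IntegrableOn (fun t : ℝ => ff k (1 / 2 + t * I)) (Ioi 1) := by
    have := ff_line_integrable k (1 / 2) (by norm_num)
    simpa using this
  have i2 := ff_line_integrable k X (by linarith)
  have t1 := intervalIntegral_tendsto_integral_Ioi 1 i1 tendsto_id
  have t2 := intervalIntegral_tendsto_integral_Ioi 1 i2 tendsto_id
  have t3 := ff_hor_tendsto k X hX
  have hlim := ((tendsto_const_nhds (x := ∫ x : ℝ in (1 / 2 : ℝ)..X, ff k (x + I))).sub t3).add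
    (t2.const_smul I) |>.sub (t1.const_smul I)
  have hzero : (∫ x : ℝ in (1 / 2 : ℝ)..X, ff k (x + I)) - 0 +
      I • (∫ t in Ioi (1 : ℝ), ff k (X + t * I)) -
      I • (∫ t in Ioi (1 : ℝ), ff k (1 / 2 + t * I)) = 0 := by
    refine tendsto_nhds_unique hlim ?_
    refine Tendsto.congr' ?_ tendsto_const_nhds
    filter_upwards [eventually_ge_atTop 1] with T hT
    exact (ff_rect k X T hX hT).symm
  simp only [smul_eq_mul, sub_zero] at hzero
  have hI : I * I = -1 := Complex.I_mul_I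
  linear_combination I * hzero + ((∫ t in Ioi (1 : ℝ), ff k (1 / 2 + t * I)) -
    (∫ t in Ioi (1 : ℝ), ff k (X + t * I))) * hI

lemma ff_half (k : ℕ) (t : ℝ) : ff k (1 / 2 + t * I) =
    Complex.log (1 / 2 + t * I) ^ k / (Real.cosh (π * t) : ℂ) ^ 2 := by
  unfold ff
  rw [sin_half_add]

lemma J_eq (k : ℕ) (X : ℝ) (hX : 1 / 2 ≤ X) :
    J k = (∫ t in Ioc (0 : ℝ) 1, ff k (1 / 2 + t * I)) -
      I * (∫ x : ℝ in (1 / 2 : ℝ)..X, ff k (x + I)) + ∫ t in Ioi (1 : ℝ), ff k (X + t * I) := by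
  have hint : Integrable (fun y : ℝ => Complex.log (1 / 2 + y * I) ^ k /
      (Real.cosh (π * y) : ℂ) ^ 2) := by
    have := (step_A k 0).2.1
    simpa using this
  simp_rw [← ff_half] at hint
  have h1 : J k = ∫ t in Ioi (0 : ℝ), ff k (1 / 2 + t * I) := by
    unfold J
    simp_rw [← ff_half]
  have h2 : Ioi (0 : ℝ) = Ioc 0 1 ∪ Ioi 1 := by
    rw [Ioc_union_Ioi_eq_Ioi (by norm_num)]
  rw [h1, h2, setIntegral_union (Ioc_disjoint_Ioi_same) measurableSet_Ioi hint.integrableOn
    hint.integrableOn, contour_tail k X hX]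
  ring

/-- The first two pieces are small. -/
lemma garbage_bound (k : ℕ) (X B : ℝ) (hX : 1 / 2 ≤ X) (hB : Real.log (X + 1) + 2 ≤ B)
    (hB3 : 3 ≤ B) :
    ‖(∫ t in Ioc (0 : ℝ) 1, ff k (1 / 2 + t * I)) -
      I * (∫ x : ℝ in (1 / 2 : ℝ)..X, ff k (x + I))‖ ≤ (X + 1) * B ^ k := by
  have hpi := Real.pi_lt_d2
  have hpi0 := Real.pi_pos
  have b1 : ‖∫ t in Ioc (0 : ℝ) 1, ff k (1 / 2 + t * I)‖ ≤ B ^ k := by
    have hb : ∀ t ∈ Ioc (0 : ℝ) 1, ‖ff k (1 / 2 + t * I)‖ ≤ B ^ k := by
      intro t ht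
      rw [ff_half, norm_div, norm_pow, norm_pow, Complex.norm_real,
        Real.norm_of_nonneg (Real.cosh_pos _).le]
      have h1 : 1 ≤ Real.cosh (π * t) ^ 2 := one_le_pow₀ (Real.one_le_cosh _)
      have hre : ((1 : ℂ) / 2 + t * I).re = 1 / 2 := by simp
      have him : ((1 : ℂ) / 2 + t * I).im = t := by simp
      have h2 : 1 / 2 ≤ ‖(1 : ℂ) / 2 + t * I‖ := by
        have := Complex.re_le_norm ((1 : ℂ) / 2 + t * I)
        rwa [hre] at this
      have h3 : ‖(1 : ℂ) / 2 + t * I‖ ≤ 2 := by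
        refine (Complex.norm_le_abs_re_add_abs_im _).trans ?_
        rw [hre, him, abs_of_pos ht.1]
        norm_num
        linarith [ht.2]
      have h4 : |Real.log ‖(1 : ℂ) / 2 + t * I‖| ≤ Real.log 2 := by
        rw [abs_le]
        constructor
        · have := Real.log_le_log (by norm_num) h2
          rwa [one_div, Real.log_inv] at this
        · exact Real.log_le_log (by linarith) h3
      have h5 : |Complex.arg ((1 : ℂ) / 2 + t * I)| ≤ π / 2 := by
        rw [Complex.abs_arg_le_pi_div_two_iff, hre]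
        norm_num
      have h6 : ‖Complex.log ((1 : ℂ) / 2 + t * I)‖ ≤ B := by
        have := norm_log_le' ((1 : ℂ) / 2 + t * I)
        have := Real.log_two_lt_d9
        linarith
      calc ‖Complex.log ((1 : ℂ) / 2 + t * I)‖ ^ k / Real.cosh (π * t) ^ 2
          ≤ ‖Complex.log ((1 : ℂ) / 2 + t * I)‖ ^ k := div_le_self (by positivity) h1
        _ ≤ B ^ k := by gcongr
    have := norm_setIntegral_le_of_norm_le_const (μ := volume) (s := Ioc (0 : ℝ) 1)
      (by simp) hb
    simpa using this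
  have b2 : ‖∫ x : ℝ in (1 / 2 : ℝ)..X, ff k (x + I)‖ ≤ X * B ^ k := by
    have hb : ∀ x ∈ Set.uIoc (1 / 2 : ℝ) X, ‖ff k (x + I)‖ ≤ B ^ k := by
      intro x hx
      rw [uIoc_of_le hX] at hx
      have him : ((x : ℂ) + I).im = 1 := by simp
      have hre : ((x : ℂ) + I).re = x := by simp
      have hs := norm_sin_sq_ge (z := (x : ℂ) + I) (by rw [him])
      rw [him] at hs
      have h1 := (one_le_sinh (le_refl 1)).2
      have h2 : 1 ≤ ‖Complex.sin (π * ((x : ℂ) + I))‖ ^ 2 := by nlinarith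
      have h3 : 1 ≤ ‖(x : ℂ) + I‖ := by
        have := Complex.abs_im_le_norm ((x : ℂ) + I)
        rwa [him, abs_one] at this
      have h4 : ‖(x : ℂ) + I‖ ≤ X + 1 := by
        refine (Complex.norm_le_abs_re_add_abs_im _).trans ?_
        rw [hre, him, abs_of_pos (by linarith [hx.1]), abs_one]
        linarith [hx.2]
      have h5 : |Real.log ‖(x : ℂ) + I‖| ≤ Real.log (X + 1) := by
        rw [abs_of_nonneg (Real.log_nonneg h3)]
        exact Real.log_le_log (by linarith) h4
      have h6 : |Complex.arg ((x : ℂ) + I)| ≤ π / 2 := by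
        rw [Complex.abs_arg_le_pi_div_two_iff, hre]
        linarith [hx.1]
      have h7 : ‖Complex.log ((x : ℂ) + I)‖ ≤ B := by
        have := norm_log_le' ((x : ℂ) + I)
        linarith
      unfold ff
      rw [norm_div, norm_pow, norm_pow]
      calc ‖Complex.log ((x : ℂ) + I)‖ ^ k / ‖Complex.sin (π * ((x : ℂ) + I))‖ ^ 2
          ≤ ‖Complex.log ((x : ℂ) + I)‖ ^ k := div_le_self (by positivity) h2
        _ ≤ B ^ k := by gcongr
    have := intervalIntegral.norm_integral_le_of_norm_le_const hb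
    refine this.trans ?_
    rw [abs_of_nonneg (by linarith), mul_comm]
    gcongr
    linarith
  calc _ ≤ ‖∫ t in Ioc (0 : ℝ) 1, ff k (1 / 2 + t * I)‖ +
        ‖I * (∫ x : ℝ in (1 / 2 : ℝ)..X, ff k (x + I))‖ := norm_sub_le _ _
    _ ≤ B ^ k + X * B ^ k := by
        rw [norm_mul, Complex.norm_I, one_mul]
        gcongr
    _ = (X + 1) * B ^ k := by ring

end Pool.Agent.Stj
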