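import Pool.Agent.Stj.Point
import Pool.Agent.Stj.Contour

open Complex Set Filter MeasureTheory Topology
open scoped Real

namespace Pool.Agent.Stj

namespace Sad

variable {m : ℕ} (S : Sad m)

lemma measurable_r : Measurable S.r := by
  unfold r ell
  apply Measurable.div_const
  apply Measurable.clog
  fun_prop

lemma measurable_W : Measurable S.W := by
  unfold W
  apply Measurable.mul
  · exact (measurable_const.add S.measurable_r).pow_const m
  · fun_prop

lemma measurable_κ : Measurable S.κ := by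
  unfold κ zz t
  apply Measurable.div measurable_const
  fun_prop

lemma measurable_F (j : ℕ) : Measurable (S.F j) := by
  unfold F
  apply Measurable.indicator _ measurableSet_Ioi
  exact (S.measurable_r.pow_const j).mul (S.measurable_W.mul S.measurable_κ)

lemma integrable_M (j : ℕ) : Integrable (S.M j) := by
  have hl := S.l_pos
  refine Integrable.mono' (g := fun x => (2 * ((j.factorial * 200 ^ j) / S.l ^ j)) *
    Real.exp (-(S.l / 200 * |x|))) ((integrable_exp_abs (by positivity)).const_mul _) ?_ ?_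
  · unfold M G
    exact (by fun_prop : Measurable _).aestronglyMeasurable
  · refine ae_of_all _ fun x => ?_
    refine (S.norm_M_le j x).trans ?_
    have := absorb j hl x
    have e1 : S.l / 200 * |x| = S.l * |x| / 200 := by ring
    rw [e1]
    linarith

lemma integrable_F (j : ℕ) : Integrable (S.F j) := by
  have hl := S.l_pos
  refine Integrable.mono' (g := fun x => (4 * ((j.factorial * 200 ^ j) / S.l ^ j)) *
    Real.exp (-(S.l / 200 * |x|))) ((integrable_exp_abs (by positivity)).const_mul _) ?_ ?_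
  · exact (S.measurable_F j).aestronglyMeasurable
  · refine ae_of_all _ fun x => ?_
    refine (S.norm_F_le j x).trans ?_
    have := absorb j hl x
    have e1 : S.l / 200 * |x| = S.l * |x| / 200 := by ring
    rw [e1]
    linarith

lemma int_F_sub_M (j : ℕ) (hj : j ≤ 2) :
    ‖(∫ x, S.F j x) - ∫ x, S.M j x‖ ≤ 400 * K j / S.l ^ (j + 2) := by
  have hl := S.l_pos
  rw [← integral_sub (S.integrable_F j) (S.integrable_M j)]
  refine (norm_integral_le_integral_norm _).trans ?_
  have h1 : ∫ x, K j / S.l ^ (j + 1) * Real.exp (-(S.l / 200 * |x|)) =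
      400 * K j / S.l ^ (j + 2) := by
    rw [integral_const_mul, integral_exp_abs (by positivity)]
    field_simp
    ring
  rw [← h1]
  apply integral_mono_of_nonneg
  · exact ae_of_all _ fun x => norm_nonneg _
  · exact (integrable_exp_abs (by positivity)).const_mul _
  · refine ae_of_all _ fun x => ?_
    have h2 := S.F_sub_M j hj x
    have e1 : S.l / 200 * |x| = S.l * |x| / 200 := by ring
    simp only [e1]
    exact h2

/-- leading constant -/
noncomputable def D : ℂ := (π / (S.L * S.a / 2)) ^ (1 / 2 : ℂ)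

/-- second-order ratio -/
noncomputable def bb : ℂ := 1 / (m * (S.U * S.e + 1))

lemma int_M0 : ∫ x, S.M 0 x = S.D := by
  unfold M G D
  simp only [pow_zero, one_mul]
  exact integral_gaussian_complex S.b_re

lemma int_M1 : ∫ x, S.M 1 x = 0 := by
  unfold M G
  have h := gauss1 (S.L * S.a / 2)
  have : ∀ x : ℝ, ((x : ℂ) / S.U) ^ 1 * Complex.exp (-(S.L * S.a / 2) * (x : ℂ) ^ 2) =
      (1 / S.U) * ((x : ℂ) * Complex.exp (-(S.L * S.a / 2) * (x : ℂ) ^ 2)) := by
    intro x; ring
  simp_rw [this]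
  rw [integral_const_mul, h, mul_zero]

lemma U_ne : (S.U : ℂ) ≠ 0 := by exact_mod_cast S.U_pos.ne'
lemma L_ne : (S.L : ℂ) ≠ 0 := by exact_mod_cast S.L_pos.ne'

lemma a_ne : S.a ≠ 0 := by
  intro h
  have := S.re_a
  rw [h, Complex.zero_re] at this
  linarith

lemma bb_eq : S.bb = 1 / (S.L * S.a * S.U ^ 2) := by
  unfold bb a
  have hm : (m : ℂ) = S.L * S.U := by exact_mod_cast S.m_eq
  rw [hm]
  congr 1
  have := S.U_ne
  field_simp

lemma int_M2 : ∫ x, S.M 2 x = S.bb * S.D := by
  unfold M G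
  have h := gauss2 S.b_re
  have : ∀ x : ℝ, ((x : ℂ) / S.U) ^ 2 * Complex.exp (-(S.L * S.a / 2) * (x : ℂ) ^ 2) =
      (1 / S.U ^ 2) * ((x : ℂ) ^ 2 * Complex.exp (-(S.L * S.a / 2) * (x : ℂ) ^ 2)) := by
    intro x; ring
  simp_rw [this]
  rw [integral_const_mul, h, S.bb_eq]
  change _ = _ * S.D
  have := S.U_ne
  have := S.L_ne
  have := S.a_ne
  unfold D
  field_simp

lemma zz_eq (x : ℝ) : S.zz x = Complex.exp (S.U * S.e) * (1 + x * S.e) := by
  rw [S.hexp]
  have h := re_sq_add_im_sq S.he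
  apply Complex.ext
  · simp [zz, t]
    ring
  · simp [zz, t]
    linear_combination (-(S.R * x)) * h

lemma log_zz {x : ℝ} (hx : -S.e.re ≤ x) : Complex.log (S.zz x) = S.U * S.e * (1 + S.r x) := by
  have hne : 1 + (x : ℂ) * S.e ≠ 0 := Complex.slitPlane_ne_zero (mem_slit S.im_pos x)
  have h1 : S.zz x = Complex.exp (S.U * S.e + ell S.e x) := by
    rw [zz_eq, Complex.exp_add]
    congr 1
    unfold ell
    rw [Complex.exp_log hne]
  have him : (S.U * S.e + ell S.e x).im = S.U * S.e.im + Complex.arg (1 + x * S.e) := by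
    rw [Complex.add_im, Complex.im_ofReal_mul]
    unfold ell
    rw [Complex.log_im]
  have h2 : |Complex.arg (1 + x * S.e)| ≤ π / 2 := by
    rw [Complex.abs_arg_le_pi_div_two_iff, re_one_add]
    have h := re_sq_add_im_sq S.he
    have := S.hre
    nlinarith [sq_nonneg S.e.im]
  rw [abs_le] at h2
  have h3 : 0 < S.U * S.e.im := mul_pos S.U_pos S.im_pos
  have h4 := S.him2
  have hpi := Real.pi_pos
  rw [h1, Complex.log_exp (by rw [him]; linarith [h2.1]) (by rw [him]; linarith [h2.2])]
  unfold r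
  have := S.U_ne
  have := S.e_ne
  field_simp

lemma sin_sq_zz (z : ℂ) : Complex.sin (π * z) ^ 2 =
    -(1 / 4) * (1 - Complex.exp (2 * π * I * z)) ^ 2 / Complex.exp (2 * π * I * z) := by
  have h1 : Complex.exp (2 * π * I * z) = Complex.exp (π * z * I) ^ 2 := by
    rw [← Complex.exp_nat_mul]; congr 1; push_cast; ring
  have h2 : Complex.exp (-(π * z) * I) = (Complex.exp (π * z * I))⁻¹ := by
    rw [← Complex.exp_neg]; congr 1; ring
  have h3 : Complex.exp (π * z * I) ≠ 0 := Complex.exp_ne_zero _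
  rw [Complex.sin, h2, h1]
  have hI : I ^ 2 = -1 := Complex.I_sq
  field_simp
  linear_combination 4 * (Complex.exp (π * z * I) ^ 2 - 1) ^ 2 * hI

/-- The normalising constant. -/
noncomputable def C : ℂ := -4 * (S.U * S.e) ^ m * Complex.exp (2 * π * I * S.zz 0) * S.R

lemma ff_zz (j : ℕ) {x : ℝ} (hx : 1 < S.t x) :
    ff (m + j) (S.zz x) = -4 * (S.U * S.e) ^ m * Complex.exp (2 * π * I * S.zz 0) *
      (S.U * S.e) ^ j * ((1 + S.r x) ^ j * (S.W x * S.κ x)) := by
  have hx' : -S.e.re ≤ x := by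
    have h := mem_Ioi.1 ((S.mem_iff x).2 hx)
    have : 0 < 1 / S.R := one_div_pos.2 S.R_pos
    linarith
  unfold ff
  rw [S.log_zz hx', sin_sq_zz]
  have h1 : Complex.exp (2 * π * I * S.zz x) =
      Complex.exp (2 * π * I * S.zz 0) * Complex.exp (-((S.L * x : ℝ) : ℂ)) := by
    rw [← Complex.exp_add]
    congr 1
    unfold zz t L
    push_cast
    have hI : I * I = -1 := Complex.I_mul_I
    linear_combination (2 * π * S.R * x) * hI
  have h2 : (1 - Complex.exp (2 * π * I * S.zz x)) ≠ 0 := by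
    intro h
    have h3 := S.norm_p_le hx.le
    have h4 : Complex.exp (2 * π * I * S.zz x) = 1 := by linear_combination -h
    rw [h4, norm_one] at h3
    norm_num at h3
  unfold W κ
  rw [mul_pow, pow_add, pow_add]
  have h5 : Complex.exp (2 * π * I * S.zz x) ≠ 0 := Complex.exp_ne_zero _
  rw [div_eq_iff]
  · field_simp
    rw [h1]
    ring
  · apply div_ne_zero _ h5
    exact mul_ne_zero (by norm_num) (pow_ne_zero 2 h2)

/-- the shifted integrand -/
noncomputable def Fs (j : ℕ) (x : ℝ) : ℂ :=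
  (Ioi (-S.e.re + 1 / S.R)).indicator (fun x => (1 + S.r x) ^ j * (S.W x * S.κ x)) x

lemma line_integral (j : ℕ) :
    ∫ t in Ioi (1 : ℝ), ff (m + j) (((S.R * S.e.im : ℝ) : ℂ) + t * I) =
      S.C * (S.U * S.e) ^ j * ∫ x, S.Fs j x := by
  rw [← integral_indicator measurableSet_Ioi]
  set h : ℝ → ℂ := (Ioi (1 : ℝ)).indicator
    (fun t => ff (m + j) (((S.R * S.e.im : ℝ) : ℂ) + t * I)) with hh
  have h1 : ∫ y, h (S.R * S.e.re + y) = ∫ y, h y := integral_add_left_eq_self h _
  have h2 := Measure.integral_comp_mul_left (fun y => h (S.R * S.e.re + y)) S.R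
  rw [h1, abs_of_pos (inv_pos.2 S.R_pos)] at h2
  have h3 : ∫ y, h y = S.R * ∫ x, h (S.R * S.e.re + S.R * x) := by
    rw [h2, Complex.real_smul]
    have : (S.R : ℂ) ≠ 0 := by exact_mod_cast S.R_pos.ne'
    push_cast
    field_simp
  rw [h3]
  have h4 : ∀ x, h (S.R * S.e.re + S.R * x) =
      (-4 * (S.U * S.e) ^ m * Complex.exp (2 * π * I * S.zz 0) * (S.U * S.e) ^ j) * S.Fs j x := by
    intro x
    by_cases hx : x ∈ Ioi (-S.e.re + 1 / S.R)
    · have ht := (S.mem_iff x).1 hx
      unfold Fs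
      rw [indicator_of_mem hx, hh, indicator_of_mem (show S.R * S.e.re + S.R * x ∈ Ioi 1 from ht)]
      exact S.ff_zz j ht
    · have ht : ¬ (1 < S.t x) := fun h => hx ((S.mem_iff x).2 h)
      unfold Fs
      rw [indicator_of_notMem hx, hh, indicator_of_notMem
        (show S.R * S.e.re + S.R * x ∉ Ioi 1 from ht), mul_zero]
  simp_rw [h4]
  rw [integral_const_mul]
  unfold C
  ring

lemma Fs0 : ∫ x, S.Fs 0 x = ∫ x, S.F 0 x := by
  simp [Fs, F]

lemma Fs1 : ∫ x, S.Fs 1 x = (∫ x, S.F 0 x) + ∫ x, S.F 1 x := by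
  rw [← integral_add (S.integrable_F 0) (S.integrable_F 1)]
  congr 1
  ext x
  unfold Fs F
  by_cases hx : x ∈ Ioi (-S.e.re + 1 / S.R)
  · rw [indicator_of_mem hx, indicator_of_mem hx, indicator_of_mem hx]
    ring
  · rw [indicator_of_notMem hx, indicator_of_notMem hx, indicator_of_notMem hx, add_zero]

lemma Fs2 : ∫ x, S.Fs 2 x = (∫ x, S.F 0 x) + 2 * (∫ x, S.F 1 x) + ∫ x, S.F 2 x := by
  have h1 : Integrable (fun x => S.F 0 x + 2 * S.F 1 x) :=
    (S.integrable_F 0).add ((S.integrable_F 1).const_mul 2)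
  have h2 : (∫ x, S.F 0 x) + 2 * (∫ x, S.F 1 x) = ∫ x, (S.F 0 x + 2 * S.F 1 x) := by
    rw [integral_add (S.integrable_F 0) ((S.integrable_F 1).const_mul 2), integral_const_mul]
  rw [h2, ← integral_add h1 (S.integrable_F 2)]
  congr 1
  ext x
  unfold Fs F
  by_cases hx : x ∈ Ioi (-S.e.re + 1 / S.R)
  · rw [indicator_of_mem hx, indicator_of_mem hx, indicator_of_mem hx, indicator_of_mem hx]
    ring
  · rw [indicator_of_notMem hx, indicator_of_notMem hx, indicator_of_notMem hx,
      indicator_of_notMem hx]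
    ring

end Sad

end Pool.Agent.Stj
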