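import Pool.Agent.Stj.Point
import Pool.Agent.Stj.MainInt
import Pool.Agent.Stj.CAna

open Complex Set Filter MeasureTheory Topology
open scoped Real

namespace Pool.Agent.Stj

/-- Saddle point data for complex parameter. -/
structure CSad (u : ℂ) where
  R : ℝ
  e : ℂ
  he : ‖e‖ = 1
  hre : 4 / 5 ≤ e.re
  him : 1 / ‖u‖ ≤ e.im
  him2 : e.im ≤ 2 / ‖u‖
  hU : 10 ^ 4 ≤ ‖u‖
  hU2 : (Real.log ‖u‖ + 2) ^ 2 ≤ ‖u‖ / 200
  hR : 100 ≤ R
  hexp : Complex.exp u = R * (I * (starRingEnd ℂ) e)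
  hdir : ‖u / ‖u‖ - e‖ ≤ 1 / (100 * ‖u‖)
  hure : 0 < u.re
  huim : 0 < u.im
  huim2 : u.im < π / 2

namespace CSad

variable {u : ℂ} (S : CSad u)

include S in
lemma U_pos : 0 < ‖u‖ := lt_of_lt_of_le (by norm_num) S.hU
lemma R_pos : 0 < S.R := lt_of_lt_of_le (by norm_num) S.hR
lemma im_pos : 0 < S.e.im := lt_of_lt_of_le (one_div_pos.2 S.U_pos) S.him
lemma e_ne : S.e ≠ 0 := e_ne_zero S.he
include S in
lemma u_ne : u ≠ 0 := norm_pos_iff.1 S.U_pos
include S in
lemma U_ne : (‖u‖ : ℂ) ≠ 0 := by exact_mod_cast S.U_pos.ne'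
lemma R_ne : (S.R : ℂ) ≠ 0 := by exact_mod_cast S.R_pos.ne'

lemma R_eq : S.R = Real.exp u.re := by
  have h := congrArg norm S.hexp
  rw [Complex.norm_exp, norm_mul, norm_mul, Complex.norm_I, Complex.norm_conj, S.he,
    Complex.norm_real, Real.norm_of_nonneg S.R_pos.le] at h
  linarith

/-- the ratio `ℓ/u` -/
noncomputable def r (x : ℝ) : ℂ := ell S.e x / u

/-- `Λ` -/
noncomputable def L : ℝ := 2 * π * S.R

lemma L_pos : 0 < S.L := by unfold L; have := S.R_pos; positivity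

lemma L_ge : 600 ≤ S.L := by
  unfold L
  have := S.hR
  have := Real.pi_gt_three
  nlinarith

lemma L_ne : (S.L : ℂ) ≠ 0 := by exact_mod_cast S.L_pos.ne'

/-- the exponent -/
noncomputable def s : ℂ := S.L * (u / S.e)

lemma conj_e : (starRingEnd ℂ) S.e = S.e⁻¹ := by
  rw [Complex.inv_def, Complex.normSq_eq_norm_sq, S.he]
  simp

lemma s_eq : S.s = -(2 * π * I) * u * Complex.exp u := by
  unfold s L
  rw [S.hexp, S.conj_e]
  have hI : I * I = -1 := Complex.I_mul_I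
  push_cast
  linear_combination (2 * π * S.R * u * S.e⁻¹) * hI

lemma norm_r (x : ℝ) : ‖S.r x‖ = ‖ell S.e x‖ / ‖u‖ := by
  unfold r
  rw [norm_div]

lemma cases3 (x : ℝ) : |x| ≤ 1 / 4 ∨ 1 / 4 ≤ x ∨ x ≤ -1 / 4 := by
  rcases le_total |x| (1 / 4) with h | h
  · left; exact h
  · right
    rcases le_total 0 x with h0 | h0
    · left; rwa [abs_of_nonneg h0] at h
    · right; rw [abs_of_nonpos h0] at h; linarith

lemma r_neg {x : ℝ} (hx : -S.e.re ≤ x) (hx0 : x ≤ 0) : ‖S.r x‖ ≤ 1 / 4 := by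
  rw [norm_r, div_le_iff₀ S.U_pos]
  have h1 := ell_far_neg S.he S.U_pos S.him hx0 hx
  have h2 := S.hU2
  have hU := S.hU
  have h4 : (Real.log ‖u‖ + 2) ^ 2 ≤ (1 / 4 * ‖u‖) ^ 2 := by nlinarith
  have h5 : Real.log ‖u‖ + 2 ≤ 1 / 4 * ‖u‖ := le_of_sq_le_sq h4 (by positivity)
  linarith

lemma norm_r_le {x : ℝ} (hx : -S.e.re ≤ x) : ‖S.r x‖ ≤ |x| := by
  have hU := S.hU
  have hU0 := S.U_pos
  rcases cases3 x with h | h | h
  · rw [norm_r, div_le_iff₀ S.U_pos]
    have := ell_near1 S.he h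
    nlinarith [abs_nonneg x]
  · rw [norm_r, div_le_iff₀ S.U_pos, abs_of_nonneg (by linarith)]
    have h1 := ell_far_pos S.he S.hre h
    have h2 : ‖ell S.e x‖ ^ 2 ≤ (x * ‖u‖) ^ 2 := by
      refine h1.trans ?_
      have h3 : 20 * x ≤ x * (x * ‖u‖ ^ 2) := by
        have : 20 ≤ x * ‖u‖ ^ 2 := by nlinarith
        nlinarith
      calc 20 * x ≤ x * (x * ‖u‖ ^ 2) := h3
        _ = _ := by ring
    exact (sq_le_sq₀ (norm_nonneg _) (by positivity)).1 h2
  · have := S.r_neg hx (by linarith)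
    rw [abs_of_neg (by linarith)]
    linarith

lemma re_r_nonneg {x : ℝ} (hx : 0 ≤ x) : 0 ≤ (S.r x).re := by
  unfold r
  have h1 : 0 ≤ (ell S.e x).re := by
    unfold ell
    rw [Complex.log_re]
    apply Real.log_nonneg
    have := Complex.re_le_norm (1 + (x : ℂ) * S.e)
    rw [re_one_add] at this
    have h2 := S.hre
    nlinarith
  have h2 : 0 ≤ (ell S.e x).im := by
    unfold ell
    rw [Complex.log_im, Complex.arg_nonneg_iff, im_one_add]
    exact mul_nonneg hx S.im_pos.le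
  rw [Complex.div_re]
  have := S.hure
  have := S.huim
  have := Complex.normSq_nonneg u
  positivity

lemma one_add_re {x : ℝ} (hx : -S.e.re ≤ x) : 0 < (1 + S.r x).re := by
  rw [Complex.add_re, Complex.one_re]
  rcases le_total 0 x with h | h
  · have := S.re_r_nonneg h
    linarith
  · have h1 := S.r_neg hx h
    have h2 := Complex.abs_re_le_norm (S.r x)
    have h3 := neg_abs_le (S.r x).re
    linarith

lemma log_sub_r {x : ℝ} (hx : -S.e.re ≤ x) : ‖Complex.log (1 + S.r x) - S.r x‖ ≤ 6 * ‖S.r x‖ := by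
  rcases le_total ‖S.r x‖ (1 / 2) with h | h
  · have h1 := log_bound2 h
    have := norm_nonneg (S.r x)
    nlinarith
  · have hpos := S.one_add_re hx
    have h1 := norm_log_le' (1 + S.r x)
    have h2 : |Complex.arg (1 + S.r x)| ≤ π / 2 := by
      rw [Complex.abs_arg_le_pi_div_two_iff]
      exact hpos.le
    have hx0 : 0 ≤ x := by
      by_contra hneg
      push Not at hneg
      have := S.r_neg hx hneg.le
      linarith
    have h3 : 1 ≤ ‖1 + S.r x‖ := by
      have := Complex.re_le_norm (1 + S.r x)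
      rw [Complex.add_re, Complex.one_re] at this
      have := S.re_r_nonneg hx0
      linarith
    have h4 : |Real.log ‖1 + S.r x‖| ≤ ‖S.r x‖ := by
      rw [abs_of_nonneg (Real.log_nonneg h3)]
      have h5 := Real.log_le_sub_one_of_pos (x := ‖1 + S.r x‖) (by linarith)
      have h6 := norm_add_le 1 (S.r x)
      rw [norm_one] at h6
      linarith
    have h7 := norm_sub_le (Complex.log (1 + S.r x)) (S.r x)
    have hpi := Real.pi_lt_d2
    linarith

/-- `q` -/
noncomputable def q (x : ℝ) : ℂ := (u / S.e) * Complex.log (1 + S.r x) - x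

lemma u_div_e_sub : ‖u / S.e - ‖u‖‖ ≤ 1 / 100 := by
  have h1 : u / S.e - ‖u‖ = ‖u‖ * (u / ‖u‖ - S.e) / S.e := by
    have := S.e_ne
    have := S.U_ne
    field_simp
  rw [h1, norm_div, norm_mul, S.he, div_one, Complex.norm_real, norm_norm]
  have h2 := S.hdir
  have hU := S.U_pos
  calc ‖u‖ * ‖u / ‖u‖ - S.e‖ ≤ ‖u‖ * (1 / (100 * ‖u‖)) := by gcongr
    _ = 1 / 100 := by field_simp

lemma re_q_le {x : ℝ} (hx : -S.e.re ≤ x) : (S.q x).re ≤ Ef S.e x + ‖ell S.e x‖ ^ 2 / (2 * ‖u‖) +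
    1 / 100 * ‖Complex.log (1 + S.r x) - S.r x‖ := by
  have hU := S.U_pos
  set d := Complex.log (1 + S.r x) - S.r x with hd
  have h1 : S.q x = ell S.e x / S.e + (‖u‖ : ℂ) * d + (u / S.e - ‖u‖) * d - x := by
    unfold q
    have h2 : ell S.e x / S.e = (u / S.e) * S.r x := by
      unfold r
      have := S.e_ne
      have := S.u_ne
      field_simp
    rw [h2, hd]
    ring
  have h3 : ((‖u‖ : ℂ) * d).re ≤ ‖u‖ * (‖S.r x‖ ^ 2 / 2) := by
    rw [Complex.re_ofReal_mul]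
    gcongr
    rw [hd, Complex.sub_re, Complex.log_re]
    have h0 : 0 < ‖1 + S.r x‖ := by
      have := Complex.re_le_norm (1 + S.r x)
      have := S.one_add_re hx
      linarith
    have h4 := Sad.norm_one_add_le (S.r x)
    have h5 := Real.log_le_log h0 h4
    rw [Real.log_exp] at h5
    linarith
  have h7 : ((u / S.e - ‖u‖) * d).re ≤ 1 / 100 * ‖d‖ := by
    refine (Complex.re_le_norm _).trans ?_
    rw [norm_mul]
    have := S.u_div_e_sub
    gcongr
  rw [h1, Complex.sub_re, Complex.add_re, Complex.add_re, Complex.ofReal_re]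
  unfold Ef
  have h8 : ‖u‖ * (‖S.r x‖ ^ 2 / 2) = ‖ell S.e x‖ ^ 2 / (2 * ‖u‖) := by
    rw [norm_r]
    field_simp
  linarith

end CSad

end Pool.Agent.Stj
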