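import Pool.Agent.Stj.CSad

open Complex Set Filter MeasureTheory Topology
open scoped Real

namespace Pool.Agent.Stj

namespace CSad

variable {u : ℂ} (S : CSad u)

lemma re_bound {x : ℝ} (hx : -S.e.re ≤ x) :
    (S.q x).re ≤ -(1 / 100) * min (x ^ 2) |x| := by
  have hU0 := S.U_pos
  have hU := S.hU
  have hre1 : S.e.re ≤ 1 := by
    have := re_sq_add_im_sq S.he
    nlinarith
  have hq := S.re_q_le hx
  have hlr := S.log_sub_r hx
  rcases cases3 x with h | h | h
  · have h1 := ell_near1 S.he h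
    have h2 : ‖ell S.e x‖ ^ 2 ≤ (3 / 2 * |x|) ^ 2 := pow_le_pow_left₀ (norm_nonneg _) h1 2
    rw [mul_pow, sq_abs] at h2
    have h3 : Ef S.e x ≤ -x ^ 2 / 4 := by
      rw [abs_le] at h
      rcases le_total 0 x with h0 | h0
      · exact Ef_near_pos S.he S.im_pos S.hre h0 h.2
      · exact Ef_near_neg S.he S.im_pos S.hre h0 (by linarith [h.1])
    have h4 : ‖ell S.e x‖ ^ 2 / (2 * ‖u‖) ≤ x ^ 2 / 100 := by
      rw [div_le_iff₀ (by positivity)]
      nlinarith [sq_nonneg x]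
    have hr : ‖S.r x‖ ≤ |x| := S.norm_r_le hx
    have h6 : ‖Complex.log (1 + S.r x) - S.r x‖ ≤ x ^ 2 := by
      have := log_bound2 (z := S.r x) (by linarith)
      refine this.trans ?_
      rw [← sq_abs x]
      exact pow_le_pow_left₀ (norm_nonneg _) hr 2
    have h5 : min (x ^ 2) |x| ≤ x ^ 2 := min_le_left _ _
    nlinarith [sq_nonneg x]
  · have h1 := ell_far_pos S.he S.hre h
    have h2 := Ef_far_pos S.he S.im_pos S.hre h
    have h3 : ‖ell S.e x‖ ^ 2 / (2 * ‖u‖) ≤ x / 1000 := by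
      rw [div_le_iff₀ (by positivity)]
      nlinarith
    have h4 : min (x ^ 2) |x| ≤ |x| := min_le_right _ _
    have h6 : |x| = x := abs_of_nonneg (by linarith)
    have h7 : ‖S.r x‖ ≤ x / 100 := by
      rw [norm_r, div_le_iff₀ hU0]
      have h8 : ‖ell S.e x‖ ^ 2 ≤ (x / 100 * ‖u‖) ^ 2 := by
        refine h1.trans ?_
        have h9 : 20 ≤ x * ((1 / 100) ^ 2 * ‖u‖ ^ 2) := by nlinarith
        calc 20 * x ≤ x * ((1 / 100) ^ 2 * ‖u‖ ^ 2) * x := by gcongr
          _ = _ := by ring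
      exact (sq_le_sq₀ (norm_nonneg _) (by positivity)).1 h8
    linarith
  · have h1 := ell_far_neg S.he hU0 S.him (by linarith) hx
    have h2 := Ef_far_neg S.he S.im_pos S.hre h hx
    have hlog : 0 ≤ Real.log ‖u‖ := Real.log_nonneg (by linarith)
    have h3 : ‖ell S.e x‖ ^ 2 ≤ (Real.log ‖u‖ + 2) ^ 2 := pow_le_pow_left₀ (norm_nonneg _) h1 2
    have h4 := S.hU2
    have h5 : ‖ell S.e x‖ ^ 2 / (2 * ‖u‖) ≤ 1 / 400 := by
      rw [div_le_iff₀ (by positivity)]
      linarith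
    have h6 : min (x ^ 2) |x| ≤ |x| := min_le_right _ _
    rw [abs_of_neg (by linarith)] at h6
    have h7 : min (x ^ 2) |x| ≤ 1 := by
      rw [abs_of_neg (by linarith)]
      linarith
    have h8 := S.r_neg hx (by linarith)
    have h9 : ‖Complex.log (1 + S.r x) - S.r x‖ ≤ 1 / 16 := by
      have := log_bound2 (z := S.r x) (by linarith)
      have := norm_nonneg (S.r x)
      nlinarith
    linarith

/-- `a`. -/
noncomputable def a : ℂ := S.e * (1 + 1 / u)

lemma q_near {x : ℝ} (hx : |x| ≤ 1 / 4) : ‖S.q x + S.a * x ^ 2 / 2‖ ≤ |x| ^ 3 := by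
  have hU0 := S.U_pos
  have hU := S.hU
  have he := S.e_ne
  have hu := S.u_ne
  have h1 := ell_near1 S.he hx
  have h2 := ell_near2 S.he hx
  have h3 := ell_near3 S.he hx
  have hr : ‖S.r x‖ ≤ 3 / 2 * |x| / ‖u‖ := by
    rw [norm_r]
    gcongr
  have hr' : ‖S.r x‖ ≤ 1 / 4 := by
    refine hr.trans ?_
    rw [div_le_iff₀ hU0]
    nlinarith [abs_nonneg x]
  have h4 := log_bound3 hr'
  have key : S.q x + S.a * x ^ 2 / 2 =
      (u / S.e) * (Complex.log (1 + S.r x) - (S.r x - S.r x ^ 2 / 2)) +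
      (ell S.e x - (x * S.e - (x * S.e) ^ 2 / 2)) / S.e -
      (ell S.e x - x * S.e) * (ell S.e x + x * S.e) / (2 * u * S.e) := by
    unfold q a r
    field_simp
    ring
  rw [key]
  have b1 : ‖(u / S.e) * (Complex.log (1 + S.r x) - (S.r x - S.r x ^ 2 / 2))‖ ≤
      1 / 4 * |x| ^ 3 := by
    rw [norm_mul, norm_div, S.he, div_one]
    calc ‖u‖ * ‖Complex.log (1 + S.r x) - (S.r x - S.r x ^ 2 / 2)‖
        ≤ ‖u‖ * (4 / 9 * (3 / 2 * |x| / ‖u‖) ^ 3) := by
          gcongr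
          refine h4.trans ?_
          gcongr
      _ = (3 / 2 / ‖u‖ ^ 2) * |x| ^ 3 := by
          field_simp
          ring
      _ ≤ 1 / 4 * |x| ^ 3 := by
          apply mul_le_mul_of_nonneg_right _ (by positivity)
          rw [div_le_iff₀ (by positivity)]
          nlinarith
  have b2 : ‖(ell S.e x - (x * S.e - (x * S.e) ^ 2 / 2)) / S.e‖ ≤ 4 / 9 * |x| ^ 3 := by
    rw [norm_div, S.he, div_one]
    exact h3
  have b3 : ‖(ell S.e x - x * S.e) * (ell S.e x + x * S.e) / (2 * u * S.e)‖ ≤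
      1 / 4 * |x| ^ 3 := by
    have h5 : ‖ell S.e x + x * S.e‖ ≤ 5 / 2 * |x| := by
      refine (norm_add_le _ _).trans ?_
      rw [norm_xe S.he]
      linarith
    rw [norm_div, norm_mul, norm_mul, S.he, mul_one, norm_mul, Complex.norm_ofNat,
      div_le_iff₀ (by positivity)]
    calc ‖ell S.e x - x * S.e‖ * ‖ell S.e x + x * S.e‖ ≤ x ^ 2 * (5 / 2 * |x|) := by gcongr
      _ = 5 / 2 * |x| ^ 3 := by rw [← sq_abs x]; ring
      _ ≤ 1 / 4 * |x| ^ 3 * (2 * ‖u‖) := by
          have : 0 ≤ |x| ^ 3 := by positivity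
          nlinarith
  calc _ ≤ ‖(u / S.e) * (Complex.log (1 + S.r x) - (S.r x - S.r x ^ 2 / 2))‖ +
        ‖(ell S.e x - (x * S.e - (x * S.e) ^ 2 / 2)) / S.e‖ +
        ‖(ell S.e x - x * S.e) * (ell S.e x + x * S.e) / (2 * u * S.e)‖ := by
          refine (norm_sub_le _ _).trans ?_
          gcongr
          exact norm_add_le _ _
    _ ≤ 1 / 4 * |x| ^ 3 + 4 / 9 * |x| ^ 3 + 1 / 4 * |x| ^ 3 := by gcongr
    _ ≤ |x| ^ 3 := by
        have : 0 ≤ |x| ^ 3 := by positivity
        linarith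

/-- the weight -/
noncomputable def W (x : ℝ) : ℂ := Complex.exp (S.s * Complex.log (1 + S.r x)) *
  Complex.exp (-(S.L * x : ℝ))

lemma W_eq (x : ℝ) : S.W x = Complex.exp (S.L * S.q x) := by
  unfold W q s
  rw [← Complex.exp_add]
  congr 1
  push_cast
  ring

lemma norm_W_le {x : ℝ} (hx : -S.e.re ≤ x) :
    ‖S.W x‖ ≤ Real.exp (-(S.L * (1 / 100 * min (x ^ 2) |x|))) := by
  rw [W_eq, Complex.norm_exp, Complex.re_ofReal_mul, Real.exp_le_exp]
  have := S.re_bound hx
  have := S.L_pos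
  nlinarith

/-- `√Λ` -/
noncomputable def l : ℝ := √S.L

lemma l_sq : S.l ^ 2 = S.L := Real.sq_sqrt S.L_pos.le

lemma l_ge : 1 ≤ S.l := by
  unfold l
  rw [Real.one_le_sqrt]
  linarith [S.L_ge]

lemma l_pos : 0 < S.l := lt_of_lt_of_le one_pos S.l_ge

/-- imaginary part of the point on the line. -/
noncomputable def t (x : ℝ) : ℝ := S.R * S.e.re + S.R * x

/-- the point on the line. -/
noncomputable def zz (x : ℝ) : ℂ := ((S.R * S.e.im : ℝ) : ℂ) + (S.t x : ℂ) * I

/-- `κ` -/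
noncomputable def κ (x : ℝ) : ℂ := 1 / (1 - Complex.exp (2 * π * I * S.zz x)) ^ 2

lemma norm_p (x : ℝ) : ‖Complex.exp (2 * π * I * S.zz x)‖ = Real.exp (-(2 * π * S.t x)) := by
  rw [Complex.norm_exp]
  congr 1
  simp [zz]

lemma norm_p_le {x : ℝ} (hx : 1 ≤ S.t x) : ‖Complex.exp (2 * π * I * S.zz x)‖ ≤ 1 / 100 := by
  rw [norm_p]
  have h1 : Real.exp 6 ≤ Real.exp (2 * π * S.t x) := by
    rw [Real.exp_le_exp]
    have := Real.pi_gt_three
    nlinarith
  have h2 : 100 ≤ Real.exp 6 := by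
    have h3 : Real.exp 6 = Real.exp 1 ^ 6 := by rw [← Real.exp_nat_mul]; norm_num
    rw [h3]
    have := Real.exp_one_gt_d9
    calc (100 : ℝ) ≤ 2.7 ^ 6 := by norm_num
      _ ≤ _ := by gcongr; linarith
  rw [Real.exp_neg, inv_le_comm₀ (Real.exp_pos _) (by norm_num)]
  norm_num
  linarith

lemma norm_κ {x : ℝ} (hx : 1 ≤ S.t x) : ‖S.κ x‖ ≤ 2 := (Sad.norm_κ_aux (S.norm_p_le hx)).1

lemma t_near {x : ℝ} (hx : |x| ≤ 1 / 4) : S.R / 2 ≤ S.t x := by
  unfold t
  have := S.hre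
  have := S.R_pos
  rw [abs_le] at hx
  nlinarith [hx.1]

lemma κ_near {x : ℝ} (hx : |x| ≤ 1 / 4) : ‖S.κ x - 1‖ ≤ 8 / S.l := by
  have h1 := S.t_near hx
  have hR := S.hR
  refine (Sad.norm_κ_aux (S.norm_p_le (by linarith))).2.trans ?_
  rw [norm_p]
  have h2 : Real.exp (-(2 * π * S.t x)) ≤ 2 / S.L := by
    have h3 : S.L / 2 ≤ 2 * π * S.t x := by
      unfold L
      have := Real.pi_pos
      nlinarith
    have h4 : S.L / 2 ≤ Real.exp (2 * π * S.t x) := by
      have := Real.add_one_le_exp (2 * π * S.t x)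
      linarith
    rw [Real.exp_neg]
    have := S.L_pos
    rw [inv_le_comm₀ (Real.exp_pos _) (by positivity)]
    rw [inv_div]
    exact h4
  have h5 : 2 / S.L ≤ 2 / S.l := by
    have := S.l_pos
    have := S.l_ge
    rw [← S.l_sq]
    gcongr
    nlinarith
  calc 4 * Real.exp (-(2 * π * S.t x)) ≤ 4 * (2 / S.l) := by linarith
    _ = 8 / S.l := by ring

include S in
lemma norm_inv_u : ‖1 / u‖ ≤ 1 / 10000 := by
  rw [norm_div, norm_one]
  apply div_le_div_of_nonneg_left (by norm_num) (by norm_num)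
  have := S.hU
  norm_num at this
  exact this

lemma re_a : 3 / 4 ≤ S.a.re := by
  unfold a
  have h1 : S.e * (1 + 1 / u) = S.e + S.e * (1 / u) := by ring
  rw [h1, Complex.add_re]
  have h2 := Complex.abs_re_le_norm (S.e * (1 / u))
  rw [norm_mul, S.he, one_mul] at h2
  have h3 := S.norm_inv_u
  have h4 := neg_abs_le (S.e * (1 / u)).re
  have := S.hre
  linarith

lemma norm_a_le : ‖S.a‖ ≤ 2 := by
  unfold a
  rw [norm_mul, S.he, one_mul]
  refine (norm_add_le _ _).trans ?_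
  rw [norm_one]
  have := S.norm_inv_u
  linarith

lemma a_ne : S.a ≠ 0 := by
  intro h
  have := S.re_a
  rw [h, Complex.zero_re] at this
  linarith

/-- the Gaussian. -/
noncomputable def G (x : ℝ) : ℂ := Complex.exp (-(S.L * S.a / 2) * (x : ℂ) ^ 2)

lemma b_re : 0 < (S.L * S.a / 2 : ℂ).re := by
  have h1 : (S.L * S.a / 2 : ℂ).re = S.L * S.a.re / 2 := by
    rw [show (S.L * S.a / 2 : ℂ) = ((S.L / 2 : ℝ) : ℂ) * S.a by push_cast; ring,
      Complex.re_ofReal_mul]
    ring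
  rw [h1]
  have := S.re_a
  have := S.L_pos
  positivity

lemma G_exponent_re (x : ℝ) : (-(S.L * S.a / 2) * (x : ℂ) ^ 2).re = -(S.L * S.a.re / 2 * x ^ 2) := by
  rw [show (-(S.L * S.a / 2) * (x : ℂ) ^ 2) = ((-(S.L / 2 * x ^ 2) : ℝ) : ℂ) * S.a by
    push_cast; ring, Complex.re_ofReal_mul]
  ring

lemma norm_G_le (x : ℝ) : ‖S.G x‖ ≤ 2 * Real.exp (-(S.l * |x| / 100)) := by
  refine le_trans ?_ (exp_min_le S.l_ge x)
  unfold G
  rw [Complex.norm_exp, G_exponent_re, Real.exp_le_exp, S.l_sq]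
  have h1 := S.re_a
  have h2 := S.L_pos
  have h3 : min (x ^ 2) |x| ≤ x ^ 2 := min_le_left _ _
  have h4 : S.L * (1 / 100 * min (x ^ 2) |x|) ≤ S.L * (1 / 100 * x ^ 2) := by gcongr
  have h5 : 0 ≤ S.L * x ^ 2 := by positivity
  nlinarith

lemma norm_W_le' {x : ℝ} (hx : -S.e.re ≤ x) : ‖S.W x‖ ≤ 2 * Real.exp (-(S.l * |x| / 100)) := by
  refine (S.norm_W_le hx).trans ?_
  rw [← S.l_sq]
  exact exp_min_le S.l_ge x

lemma W_sub_G {x : ℝ} (hx : |x| ≤ 1 / 4) :
    ‖S.W x - S.G x‖ ≤ 2 * Real.exp (-(S.l * |x| / 100)) * (S.L * |x| ^ 3) := by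
  have hx' : -S.e.re ≤ x := by
    have := S.hre
    rw [abs_le] at hx
    linarith [hx.1]
  have h1 := S.norm_W_le' hx'
  have h2 := S.norm_G_le x
  rw [S.W_eq] at h1 ⊢
  unfold G at h2 ⊢
  rw [Complex.norm_exp] at h1 h2
  refine (norm_exp_sub_exp_le h1 h2).trans ?_
  gcongr
  have h3 : S.L * S.q x - -(S.L * S.a / 2) * (x : ℂ) ^ 2 = S.L * (S.q x + S.a * x ^ 2 / 2) := by
    ring
  rw [h3, norm_mul, Complex.norm_real, Real.norm_of_nonneg S.L_pos.le]
  have := S.q_near hx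
  have := S.L_pos
  gcongr

/-- the integrand. -/
noncomputable def F (x : ℝ) : ℂ :=
  (Ioi (-S.e.re + 1 / S.R)).indicator (fun x => S.W x * S.κ x) x

lemma mem_iff (x : ℝ) : x ∈ Ioi (-S.e.re + 1 / S.R) ↔ 1 < S.t x := by
  unfold t
  rw [mem_Ioi]
  have hR := S.R_pos
  have h3 : S.R * (-S.e.re + 1 / S.R) = - (S.R * S.e.re) + 1 := by field_simp
  constructor
  · intro h
    have h2 : S.R * (-S.e.re + 1 / S.R) < S.R * x := by gcongr
    linarith
  · intro h
    have h2 : S.R * (-S.e.re + 1 / S.R) < S.R * x := by linarith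
    exact lt_of_mul_lt_mul_left h2 hR.le

lemma ge_of_mem {x : ℝ} (hx : x ∈ Ioi (-S.e.re + 1 / S.R)) : -S.e.re ≤ x := by
  have h := mem_Ioi.1 hx
  have : 0 < 1 / S.R := one_div_pos.2 S.R_pos
  linarith

lemma norm_F_le (x : ℝ) :
    ‖S.F x‖ ≤ (2 * Real.exp (-(S.l * |x| / 100))) * 2 := by
  unfold F
  by_cases hx : x ∈ Ioi (-S.e.re + 1 / S.R)
  · rw [indicator_of_mem hx]
    have ht := (S.mem_iff x).1 hx
    have hx' := S.ge_of_mem hx
    rw [norm_mul]
    have h2 := S.norm_W_le' hx'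
    have h3 := S.norm_κ ht.le
    gcongr
  · rw [indicator_of_notMem hx, norm_zero]
    positivity

lemma F_sub_G (x : ℝ) :
    ‖S.F x - S.G x‖ ≤ Sad.K 0 / S.l * Real.exp (-(S.l * |x| / 200)) := by
  have hl := S.l_pos
  have a1 := absorb 1 hl x
  have a2 := absorb 3 hl x
  have a3 := absorb 0 hl x
  set E := Real.exp (-(S.l * |x| / 100)) with hE
  have hE0 : 0 < E := Real.exp_pos _
  set E2 := Real.exp (-(S.l * |x| / 200)) with hE2
  have hE20 : 0 < E2 := Real.exp_pos _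
  have hK : Sad.K 0 / S.l * E2 =
      24 * (((1).factorial * 200 ^ 1) / S.l ^ 1 * E2) +
      4 * S.l ^ 2 * (((3).factorial * 200 ^ 3) / S.l ^ 3 * E2) +
      16 / S.l * (((0).factorial * 200 ^ 0) / S.l ^ 0 * E2) := by
    unfold Sad.K
    field_simp
    ring
  rw [hK]
  rcases le_total |x| (1 / 4) with hx | hx
  · have hx' : -S.e.re ≤ x := by
      have := S.hre
      rw [abs_le] at hx
      linarith [hx.1]
    have ht : 1 < S.t x := by
      have := S.t_near hx
      linarith [S.hR]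
    have hmem := (S.mem_iff x).2 ht
    have hG := S.norm_G_le x
    have hWG := S.W_sub_G hx
    have hκ := S.norm_κ ht.le
    have hκ2 := S.κ_near hx
    rw [← hE] at hG hWG
    have key : S.F x - S.G x = (S.W x - S.G x) * S.κ x + S.G x * (S.κ x - 1) := by
      unfold F
      rw [indicator_of_mem hmem]
      ring
    rw [key]
    have hLpos := S.L_pos
    calc _ ≤ ‖(S.W x - S.G x) * S.κ x‖ + ‖S.G x * (S.κ x - 1)‖ := norm_add_le _ _
      _ ≤ (2 * E * (S.L * |x| ^ 3)) * 2 + (2 * E) * (8 / S.l) := by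
          rw [norm_mul, norm_mul]
          gcongr
      _ = 4 * S.l ^ 2 * (|x| ^ 3 * E) + 16 / S.l * (|x| ^ 0 * E) := by
          rw [S.l_sq]
          ring
      _ ≤ 24 * (|x| ^ 1 * E) + 4 * S.l ^ 2 * (|x| ^ 3 * E) + 16 / S.l * (|x| ^ 0 * E) := by
          have : 0 ≤ |x| ^ 1 * E := by positivity
          linarith
      _ ≤ _ := by gcongr
  · have h1 := S.norm_F_le x
    have h2 := S.norm_G_le x
    rw [← hE] at h1 h2
    calc _ ≤ ‖S.F x‖ + ‖S.G x‖ := norm_sub_le _ _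
      _ ≤ (2 * E) * 2 + 2 * E := by gcongr
      _ = 6 * 1 * E := by ring
      _ ≤ 6 * (4 * |x|) * E := by gcongr; linarith
      _ = 24 * (|x| ^ 1 * E) := by ring
      _ ≤ 24 * (((1).factorial * 200 ^ 1) / S.l ^ 1 * E2) := by gcongr
      _ ≤ _ := by
        have p1 : 0 ≤ 4 * S.l ^ 2 * (((3).factorial * 200 ^ 3) / S.l ^ 3 * E2) := by
          positivity
        have p2 : 0 ≤ 16 / S.l * (((0).factorial * 200 ^ 0) / S.l ^ 0 * E2) := by positivity
        linarith

lemma measurable_F : Measurable S.F := by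
  unfold F
  apply Measurable.indicator _ measurableSet_Ioi
  have hr : Measurable S.r := by
    unfold r ell
    apply Measurable.div_const
    apply Measurable.clog
    fun_prop
  apply Measurable.mul
  · unfold W
    apply Measurable.mul
    · apply Measurable.cexp
      apply measurable_const.mul
      apply Measurable.clog
      exact measurable_const.add hr
    · fun_prop
  · unfold κ zz t
    apply Measurable.div measurable_const
    fun_prop

lemma integrable_F : Integrable S.F := by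
  have hl := S.l_pos
  refine Integrable.mono' (g := fun x => 4 *
    Real.exp (-(S.l / 100 * |x|))) ((integrable_exp_abs (by positivity)).const_mul _) ?_ ?_
  · exact S.measurable_F.aestronglyMeasurable
  · refine ae_of_all _ fun x => ?_
    refine (S.norm_F_le x).trans ?_
    have e1 : S.l / 100 * |x| = S.l * |x| / 100 := by ring
    rw [e1]
    linarith

/-- leading constant -/
noncomputable def D : ℂ := (π / (S.L * S.a / 2)) ^ (1 / 2 : ℂ)

lemma int_F_sub : ‖(∫ x, S.F x) - S.D‖ ≤ 400 * Sad.K 0 / S.l ^ 2 := by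
  have hl := S.l_pos
  have hG : ∫ x, S.G x = S.D := integral_gaussian_complex S.b_re
  have hGi : Integrable S.G := gauss0 S.b_re
  rw [← hG, ← integral_sub S.integrable_F hGi]
  refine (norm_integral_le_integral_norm _).trans ?_
  have h1 : ∫ x, Sad.K 0 / S.l * Real.exp (-(S.l / 200 * |x|)) = 400 * Sad.K 0 / S.l ^ 2 := by
    rw [integral_const_mul, integral_exp_abs (by positivity)]
    field_simp
    ring
  rw [← h1]
  apply integral_mono_of_nonneg
  · exact ae_of_all _ fun x => norm_nonneg _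
  · exact (integrable_exp_abs (by positivity)).const_mul _
  · refine ae_of_all _ fun x => ?_
    have h2 := S.F_sub_G x
    have e1 : S.l / 200 * |x| = S.l * |x| / 200 := by ring
    simp only [e1]
    exact h2

lemma norm_D_sq : ‖S.D‖ ^ 2 = 2 * π / (S.L * ‖S.a‖) := by
  rw [← norm_pow]
  unfold D
  rw [half_cpow_sq, norm_div, norm_div, norm_mul, Complex.norm_real, Complex.norm_real,
    Real.norm_of_nonneg S.L_pos.le, Real.norm_of_nonneg Real.pi_pos.le, Complex.norm_ofNat]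
  have := S.L_pos
  have : 0 < ‖S.a‖ := norm_pos_iff.2 S.a_ne
  field_simp

lemma norm_D_ge : 1 / S.l ≤ ‖S.D‖ := by
  have hl := S.l_pos
  have h1 : (1 / S.l) ^ 2 ≤ ‖S.D‖ ^ 2 := by
    rw [S.norm_D_sq, ← S.l_sq, div_pow, one_pow]
    have ha : 0 < ‖S.a‖ := norm_pos_iff.2 S.a_ne
    have ha2 := S.norm_a_le
    have hpi := Real.pi_gt_three
    rw [div_le_div_iff₀ (by positivity) (by positivity)]
    have : 0 < S.l ^ 2 := by positivity
    nlinarith
  exact (sq_le_sq₀ (by positivity) (norm_nonneg _)).1 h1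

end CSad

end Pool.Agent.Stj
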