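import Pool.Agent.Stj.CSad2

open Complex Set Filter MeasureTheory Topology
open scoped Real

namespace Pool.Agent.Stj

namespace CSad

variable {u : ℂ} (S : CSad u)

lemma zz_eq (x : ℝ) : S.zz x = Complex.exp u * (1 + x * S.e) := by
  rw [S.hexp]
  have h := re_sq_add_im_sq S.he
  apply Complex.ext
  · simp [zz, t]
    ring
  · simp [zz, t]
    linear_combination (-(S.R * x)) * h

lemma zz_zero : S.zz 0 = Complex.exp u := by
  rw [S.zz_eq]; simp

lemma log_zz {x : ℝ} (hx : -S.e.re ≤ x) : Complex.log (S.zz x) = u * (1 + S.r x) := by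
  have hne : 1 + (x : ℂ) * S.e ≠ 0 := Complex.slitPlane_ne_zero (mem_slit S.im_pos x)
  have h1 : S.zz x = Complex.exp (u + ell S.e x) := by
    rw [zz_eq, Complex.exp_add]
    congr 1
    unfold ell
    rw [Complex.exp_log hne]
  have him : (u + ell S.e x).im = u.im + Complex.arg (1 + x * S.e) := by
    rw [Complex.add_im]
    unfold ell
    rw [Complex.log_im]
  have h2 : |Complex.arg (1 + x * S.e)| ≤ π / 2 := by
    rw [Complex.abs_arg_le_pi_div_two_iff, re_one_add]
    have h := re_sq_add_im_sq S.he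
    have := S.hre
    nlinarith [sq_nonneg S.e.im]
  rw [abs_le] at h2
  have h3 := S.huim
  have h4 := S.huim2
  have hpi := Real.pi_pos
  rw [h1, Complex.log_exp (by rw [him]; linarith [h2.1]) (by rw [him]; linarith [h2.2])]
  unfold r
  have := S.u_ne
  field_simp

include S in
lemma arg_u : 0 < Complex.arg u ∧ Complex.arg u < π / 2 := by
  have h1 := S.hure
  have h2 := S.huim
  constructor
  · rcases (Complex.arg_nonneg_iff.2 h2.le).lt_or_eq with h | h
    · exact h
    · exfalso
      have := Complex.arg_eq_zero_iff.1 h.symm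
      linarith [this.2]
  · have := Complex.abs_arg_lt_pi_div_two_iff.2 (Or.inl h1)
    rw [abs_lt] at this
    exact this.2

lemma loglog_zz {x : ℝ} (hx : -S.e.re ≤ x) :
    Complex.log (Complex.log (S.zz x)) = Complex.log u + Complex.log (1 + S.r x) := by
  rw [S.log_zz hx]
  have h1 := S.one_add_re hx
  have hne : 1 + S.r x ≠ 0 := by
    intro h
    rw [h, Complex.zero_re] at h1
    exact lt_irrefl _ h1
  have h2 := Complex.abs_arg_lt_pi_div_two_iff.2 (Or.inl h1)
  rw [abs_lt] at h2
  have h3 := S.arg_u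
  have hpi := Real.pi_pos
  apply Complex.log_mul S.u_ne hne
  constructor
  · linarith [h2.1, h3.1]
  · linarith [h2.2, h3.2]

/-- The normalising constant. -/
noncomputable def C : ℂ :=
  -4 * Complex.exp (S.s * Complex.log u) * Complex.exp (2 * π * I * Complex.exp u) * S.R

lemma C_ne : S.C ≠ 0 := by
  unfold C
  have := S.R_ne
  have := Complex.exp_ne_zero (S.s * Complex.log u)
  have := Complex.exp_ne_zero (2 * π * I * Complex.exp u)
  simp_all

lemma fc_zz {x : ℝ} (hx : 1 < S.t x) :
    fc S.s (S.zz x) = -4 * Complex.exp (S.s * Complex.log u) *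
      Complex.exp (2 * π * I * Complex.exp u) * (S.W x * S.κ x) := by
  have hx' : -S.e.re ≤ x := S.ge_of_mem ((S.mem_iff x).2 hx)
  unfold fc pw
  rw [S.loglog_zz hx', Sad.sin_sq_zz, mul_add, Complex.exp_add]
  have h1 : Complex.exp (2 * π * I * S.zz x) =
      Complex.exp (2 * π * I * Complex.exp u) * Complex.exp (-((S.L * x : ℝ) : ℂ)) := by
    rw [← S.zz_zero, ← Complex.exp_add]
    congr 1
    unfold zz t L
    push_cast
    have hI : I * I = -1 := Complex.I_mul_I
    linear_combination (2 * π * S.R * x) * hI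
  have h2 : (1 - Complex.exp (2 * π * I * S.zz x)) ≠ 0 := by
    intro h
    have h3 := S.norm_p_le hx.le
    have h4 : Complex.exp (2 * π * I * S.zz x) = 1 := by linear_combination -h
    rw [h4, norm_one] at h3
    norm_num at h3
  unfold W κ
  have h5 : Complex.exp (2 * π * I * S.zz x) ≠ 0 := Complex.exp_ne_zero _
  rw [div_eq_iff]
  · field_simp
    rw [h1]
  · apply div_ne_zero _ h5
    exact mul_ne_zero (by norm_num) (pow_ne_zero 2 h2)

lemma line_integral :
    ∫ t in Ioi (1 : ℝ), fc S.s (((S.R * S.e.im : ℝ) : ℂ) + t * I) =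
      S.C * ∫ x, S.F x := by
  rw [← integral_indicator measurableSet_Ioi]
  set h : ℝ → ℂ := (Ioi (1 : ℝ)).indicator
    (fun t => fc S.s (((S.R * S.e.im : ℝ) : ℂ) + t * I)) with hh
  have h1 : ∫ y, h (S.R * S.e.re + y) = ∫ y, h y := integral_add_left_eq_self h _
  have h2 := Measure.integral_comp_mul_left (fun y => h (S.R * S.e.re + y)) S.R
  rw [h1, abs_of_pos (inv_pos.2 S.R_pos)] at h2
  have h3 : ∫ y, h y = S.R * ∫ x, h (S.R * S.e.re + S.R * x) := by
    rw [h2, Complex.real_smul]
    have := S.R_ne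
    push_cast
    field_simp
  rw [h3]
  have h4 : ∀ x, h (S.R * S.e.re + S.R * x) =
      (-4 * Complex.exp (S.s * Complex.log u) *
      Complex.exp (2 * π * I * Complex.exp u)) * S.F x := by
    intro x
    by_cases hx : x ∈ Ioi (-S.e.re + 1 / S.R)
    · have ht := (S.mem_iff x).1 hx
      unfold F
      rw [indicator_of_mem hx, hh, indicator_of_mem (show S.R * S.e.re + S.R * x ∈ Ioi 1 from ht)]
      exact S.fc_zz ht
    · have ht : ¬ (1 < S.t x) := fun h => hx ((S.mem_iff x).2 h)
      unfold F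
      rw [indicator_of_notMem hx, hh, indicator_of_notMem
        (show S.R * S.e.re + S.R * x ∉ Ioi 1 from ht), mul_zero]
  simp_rw [h4]
  rw [integral_const_mul]
  unfold C
  ring

lemma re_div_e : ‖u‖ - 1 / 100 ≤ (u / S.e).re := by
  have h1 := S.u_div_e_sub
  have h2 := Complex.abs_re_le_norm (u / S.e - ‖u‖)
  rw [Complex.sub_re, Complex.ofReal_re] at h2
  have h3 := neg_abs_le ((u / S.e).re - ‖u‖)
  linarith

lemma im_div_e : |(u / S.e).im| ≤ 1 / 100 := by
  have h1 := S.u_div_e_sub
  have h2 := Complex.abs_im_le_norm (u / S.e - ‖u‖)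
  rw [Complex.sub_im, Complex.ofReal_im, sub_zero] at h2
  linarith

lemma s_re : S.L * (‖u‖ - 1 / 100) ≤ S.s.re := by
  unfold s
  rw [Complex.re_ofReal_mul]
  have := S.re_div_e
  have := S.L_pos
  gcongr

lemma s_im : |S.s.im| ≤ S.L / 100 := by
  unfold s
  rw [Complex.im_ofReal_mul, abs_mul, abs_of_pos S.L_pos]
  have := S.im_div_e
  have := S.L_pos
  calc S.L * |(u / S.e).im| ≤ S.L * (1 / 100) := by gcongr
    _ = _ := by ring

include S in
lemma logU : 9 ≤ Real.log ‖u‖ := by
  have h1 := S.hU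
  rw [Real.le_log_iff_exp_le S.U_pos]
  refine le_trans ?_ h1
  have h3 : Real.exp 9 = Real.exp 1 ^ 9 := by rw [← Real.exp_nat_mul]; norm_num
  rw [h3]
  have h4 := Real.exp_one_lt_d9
  have h5 := Real.exp_pos 1
  calc Real.exp 1 ^ 9 ≤ (2.7182818286 : ℝ) ^ 9 := by gcongr
    _ ≤ 10 ^ 4 := by norm_num

lemma R_ge_U : ‖u‖ ≤ S.R := by
  rw [S.R_eq]
  have h1 : ‖u‖ ≤ |u.re| + |u.im| := Complex.norm_le_abs_re_add_abs_im u
  rw [abs_of_pos S.hure, abs_of_pos S.huim] at h1
  have h2 := S.huim2
  have h3 := S.hure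
  have h4 := Real.quadratic_le_exp_of_nonneg h3.le
  have hpi := Real.pi_lt_d2
  have h5 := S.hU
  nlinarith


lemma garbage : ∃ g : ℂ, Jc S.s = g + S.C * ∫ x, S.F x ∧ ‖g / S.C‖ ≤ 1 / S.l ^ 2 := by
  have hU := S.U_pos
  have hU4 := S.hU
  have hR := S.R_pos
  have hR100 := S.hR
  have hL := S.L_pos
  have hL6 := S.L_ge
  have hlU := S.logU
  have hRU := S.R_ge_U
  have hsre := S.s_re
  have hsim := S.s_im
  have hs0 : 0 ≤ S.s.re := le_trans (by nlinarith) hsre
  set X := S.R * S.e.im with hX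
  have hX1 : S.R / ‖u‖ ≤ X := by
    rw [hX, div_eq_mul_one_div]
    have := S.him
    gcongr
  have hX2 : X ≤ 2 * (S.R / ‖u‖) := by
    rw [hX]
    have := S.him2
    calc S.R * S.e.im ≤ S.R * (2 / ‖u‖) := by gcongr
      _ = _ := by ring
  have hRdU : 1 ≤ S.R / ‖u‖ := by rw [le_div_iff₀ hU]; linarith
  have hXh : 1 / 2 ≤ X := by linarith
  set B := ‖u‖ + 4 - Real.log ‖u‖ with hB
  have hlogle : Real.log ‖u‖ ≤ ‖u‖ / 4 := by
    have h2 := S.hU2
    have h4 : (Real.log ‖u‖ + 2) ^ 2 ≤ (1 / 4 * ‖u‖) ^ 2 := by nlinarith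
    have h5 : Real.log ‖u‖ + 2 ≤ 1 / 4 * ‖u‖ := le_of_sq_le_sq h4 (by positivity)
    linarith
  have hBpos : 0 < B := by rw [hB]; linarith
  have hB1 : Real.log (X + 1) + 2 ≤ B := by
    have h1 : X + 1 ≤ 3 * (S.R / ‖u‖) := by linarith
    have h2 := Real.log_le_log (by linarith) h1
    rw [Real.log_mul (by norm_num) (by positivity), Real.log_div hR.ne' hU.ne', S.R_eq,
      Real.log_exp] at h2
    have h3 : Real.log 3 ≤ 2 := by
      have := Real.log_le_sub_one_of_pos (x := 3) (by norm_num)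
      linarith
    have h4 := Complex.re_le_norm u
    rw [hB]
    linarith
  have hB3 : 3 ≤ B := by rw [hB]; linarith
  have hg := cgarbage_bound S.s hs0 X B hXh hB1 hB3
  refine ⟨(∫ t in Ioc (0 : ℝ) 1, fc S.s (1 / 2 + t * I)) -
      I * (∫ x : ℝ in (1 / 2 : ℝ)..X, fc S.s (x + I)), ?_, ?_⟩
  · rw [Jc_eq S.s hs0 X hXh, S.line_integral]
  · rw [norm_div]
    have hCn : Real.exp (S.s.re * Real.log ‖u‖ - π / 2 * |S.s.im| - S.L) * (4 * S.R) ≤ ‖S.C‖ := by
      unfold C
      rw [norm_mul, norm_mul, norm_mul, Complex.norm_exp, Complex.norm_exp, Complex.norm_real,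
        Real.norm_of_nonneg hR.le, norm_neg, Complex.norm_ofNat]
      have h1 : (S.s * Complex.log u).re = S.s.re * Real.log ‖u‖ - S.s.im * Complex.arg u := by
        rw [Complex.mul_re, Complex.log_re, Complex.log_im]
      have h2 : (2 * π * I * Complex.exp u).re = -(2 * π * S.R * S.e.re) := by
        rw [S.hexp]
        simp
        ring
      have h3 : S.e.re ≤ 1 := by
        have := re_sq_add_im_sq S.he
        nlinarith
      have h4 : -S.L ≤ (2 * π * I * Complex.exp u).re := by
        rw [h2]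
        unfold L
        have : 0 < 2 * π * S.R := by positivity
        nlinarith
      have h5 : S.s.re * Real.log ‖u‖ - π / 2 * |S.s.im| ≤ (S.s * Complex.log u).re := by
        rw [h1]
        have h6 := S.arg_u
        have h7 : S.s.im * Complex.arg u ≤ |S.s.im| * (π / 2) := by
          calc S.s.im * Complex.arg u ≤ |S.s.im| * Complex.arg u := by
                gcongr
                · exact h6.1.le
                · exact le_abs_self _
            _ ≤ |S.s.im| * (π / 2) := by gcongr; exact h6.2.le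
        linarith
      calc Real.exp (S.s.re * Real.log ‖u‖ - π / 2 * |S.s.im| - S.L) * (4 * S.R)
          = Real.exp (S.s.re * Real.log ‖u‖ - π / 2 * |S.s.im|) * Real.exp (-S.L) * (4 * S.R) := by
            rw [← Real.exp_add]; rfl
        _ ≤ Real.exp (S.s * Complex.log u).re * Real.exp (2 * π * I * Complex.exp u).re *
            (4 * S.R) := by gcongr
        _ = _ := by ring
    have hCpos : 0 < ‖S.C‖ := norm_pos_iff.2 S.C_ne
    have hexp : S.s.re * Real.log B + π * |S.s.im| ≤
        (S.s.re * Real.log ‖u‖ - π / 2 * |S.s.im| - S.L) + -S.L := by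
      have h1 : Real.log B - Real.log ‖u‖ ≤ -(Real.log ‖u‖ - 4) / ‖u‖ := by
        rw [← Real.log_div hBpos.ne' hU.ne']
        have h2 := Real.log_le_sub_one_of_pos (x := B / ‖u‖) (by positivity)
        refine h2.trans (le_of_eq ?_)
        rw [hB]
        field_simp
        ring
      have h3 : S.s.re * (Real.log B - Real.log ‖u‖) ≤ -(4 * S.L) := by
        have h4 : S.s.re * (Real.log B - Real.log ‖u‖) ≤
            S.s.re * (-(Real.log ‖u‖ - 4) / ‖u‖) := by gcongr
        refine h4.trans ?_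
        rw [neg_div, mul_neg, neg_le_neg_iff]
        have h5 : 5 / ‖u‖ ≤ (Real.log ‖u‖ - 4) / ‖u‖ := by gcongr; linarith
        have h6 : S.L * (‖u‖ - 1 / 100) * (5 / ‖u‖) ≤
            S.s.re * ((Real.log ‖u‖ - 4) / ‖u‖) := by gcongr
        refine le_trans ?_ h6
        rw [mul_div_assoc', le_div_iff₀ hU]
        nlinarith
      have hpi := Real.pi_lt_d2
      have hpi0 := Real.pi_pos
      have h7 : π * |S.s.im| ≤ 1 / 2 * S.L := by
        calc π * |S.s.im| ≤ π * (S.L / 100) := by gcongr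
          _ ≤ _ := by nlinarith
      nlinarith
    have hX1R : X + 1 ≤ 4 * S.R := by
      have : S.R / ‖u‖ ≤ S.R := div_le_self hR.le (by linarith)
      linarith
    calc _ ≤ (X + 1) * Real.exp (S.s.re * Real.log B + π * |S.s.im|) / ‖S.C‖ := by gcongr
      _ ≤ (4 * S.R) * Real.exp ((S.s.re * Real.log ‖u‖ - π / 2 * |S.s.im| - S.L) + -S.L) /
          ‖S.C‖ := by gcongr
      _ = (Real.exp (S.s.re * Real.log ‖u‖ - π / 2 * |S.s.im| - S.L) * (4 * S.R)) *
          Real.exp (-S.L) / ‖S.C‖ := by rw [Real.exp_add]; ring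
      _ ≤ ‖S.C‖ * Real.exp (-S.L) / ‖S.C‖ := by gcongr
      _ = Real.exp (-S.L) := by field_simp
      _ ≤ 1 / S.l ^ 2 := by
          rw [S.l_sq, Real.exp_neg, one_div]
          apply inv_anti₀ hL
          have := Real.add_one_le_exp S.L
          linarith

lemma D_sq : (S.R * S.D) ^ 2 = -I * Complex.exp u * (u / (u + 1)) := by
  have hu := S.u_ne
  have hu1 : u + 1 ≠ 0 := by
    intro h
    have h1 := congrArg Complex.re h
    rw [Complex.add_re, Complex.one_re, Complex.zero_re] at h1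
    linarith [S.hure]
  unfold D
  rw [mul_pow, half_cpow_sq, S.hexp, S.conj_e]
  unfold a L
  have := S.R_ne
  have := S.e_ne
  have hpi : (π : ℂ) ≠ 0 := by exact_mod_cast Real.pi_ne_zero
  have hI : I * I = -1 := Complex.I_mul_I
  push_cast
  field_simp
  linear_combination hI

/-- amplitude exponent -/
noncomputable def A (u : ℂ) : ℂ :=
  Complex.exp ((u + Complex.log u - Complex.log (u + 1) - I * (π / 2)) / 2)

include S in
lemma u1_ne : u + 1 ≠ 0 := by
  intro h
  have h1 := congrArg Complex.re h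
  rw [Complex.add_re, Complex.one_re, Complex.zero_re] at h1
  linarith [S.hure]

include S in
lemma A_sq : A u ^ 2 = -I * Complex.exp u * (u / (u + 1)) := by
  unfold A
  rw [← Complex.exp_nat_mul]
  have h1 : ((2 : ℕ) : ℂ) * ((u + Complex.log u - Complex.log (u + 1) - I * (π / 2)) / 2) =
      u + Complex.log u - Complex.log (u + 1) + -(π / 2 * I) := by push_cast; ring
  have h3 : Complex.exp (-(π / 2 * I)) = -I := by
    rw [Complex.exp_neg, Complex.exp_pi_div_two_mul_I, Complex.inv_I]
  rw [h1, Complex.exp_add, Complex.exp_sub, Complex.exp_add, Complex.exp_log S.u_ne,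
    Complex.exp_log S.u1_ne, h3]
  ring

include S in
lemma arg_u1 : 0 ≤ Complex.arg (u + 1) ∧ Complex.arg (u + 1) ≤ π / 2 := by
  have h1 := S.hure
  have h2 := S.huim
  constructor
  · rw [Complex.arg_nonneg_iff]; simp [h2.le]
  · have := Complex.abs_arg_le_pi_div_two_iff.2 (show 0 ≤ (u + 1).re by simp; linarith)
    rw [abs_le] at this
    exact this.2

include S in
lemma A_re : 0 < (A u).re := by
  unfold A
  rw [Complex.exp_re]
  apply mul_pos (Real.exp_pos _)
  apply Real.cos_pos_of_mem_Ioo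
  have h1 : ((u + Complex.log u - Complex.log (u + 1) - I * (π / 2)) / 2).im =
      (u.im + Complex.arg u - Complex.arg (u + 1) - π / 2) / 2 := by
    rw [show ((u + Complex.log u - Complex.log (u + 1) - I * (π / 2)) / 2) =
      ((1 / 2 : ℝ) : ℂ) * (u + Complex.log u - Complex.log (u + 1) - I * ((π / 2 : ℝ) : ℂ)) by
      push_cast; ring, Complex.im_ofReal_mul, Complex.sub_im, Complex.sub_im, Complex.add_im,
      Complex.log_im, Complex.log_im, Complex.I_mul_im, Complex.ofReal_re]
    ring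
  rw [h1]
  have h2 := S.arg_u
  have h3 := S.arg_u1
  have h4 := S.huim
  have h5 := S.huim2
  have hpi := Real.pi_pos
  constructor
  · linarith [h2.1, h3.2]
  · linarith [h2.2, h3.1]

lemma D_re : 0 < (S.R * S.D).re := by
  rw [Complex.re_ofReal_mul]
  apply mul_pos S.R_pos
  unfold D
  set w : ℂ := π / (S.L * S.a / 2) with hw
  have hb := S.b_re
  have hwre : 0 < w.re := by
    rw [hw, Complex.div_re]
    have hn : 0 < Complex.normSq (S.L * S.a / 2) := by
      apply Complex.normSq_pos.2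
      intro h
      rw [h, Complex.zero_re] at hb
      exact lt_irrefl _ hb
    rw [Complex.ofReal_im, Complex.ofReal_re]
    have := Real.pi_pos
    simp only [zero_mul, zero_div, add_zero]
    positivity
  have hw0 : w ≠ 0 := by
    intro h
    rw [h, Complex.zero_re] at hwre
    exact lt_irrefl _ hwre
  rw [Complex.cpow_def_of_ne_zero hw0, Complex.exp_re]
  apply mul_pos (Real.exp_pos _)
  apply Real.cos_pos_of_mem_Ioo
  have h1 : (Complex.log w * (1 / 2)).im = Complex.arg w / 2 := by
    rw [show Complex.log w * (1 / 2) = ((1 / 2 : ℝ) : ℂ) * Complex.log w by push_cast; ring,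
      Complex.im_ofReal_mul, Complex.log_im]
    ring
  rw [h1]
  have h2 := Complex.abs_arg_lt_pi_div_two_iff.2 (Or.inl hwre)
  rw [abs_lt] at h2
  have hpi := Real.pi_pos
  constructor
  · linarith [h2.1]
  · linarith [h2.2]

lemma RD_eq : S.R * S.D = A u := by
  have h1 : (S.R * S.D - A u) * (S.R * S.D + A u) = 0 := by
    have h2 := S.D_sq
    rw [← S.A_sq] at h2
    linear_combination h2
  rcases mul_eq_zero.1 h1 with h | h
  · linear_combination h
  · exfalso
    have h2 := congrArg Complex.re h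
    rw [Complex.add_re, Complex.zero_re] at h2
    linarith [S.D_re, S.A_re]

theorem main (hl : 4 * (400 * Sad.K 0 + 1) ≤ S.l) :
    ∃ w : ℂ, ‖w‖ ≤ 1 / 4 ∧ Jc (-(2 * π * I) * u * Complex.exp u) =
      -4 * Complex.exp (-(2 * π * I) * u * Complex.exp u * Complex.log u +
        2 * π * I * Complex.exp u) * A u * (1 + w) := by
  obtain ⟨g, hg1, hg2⟩ := S.garbage
  have hlp := S.l_pos
  have hDge := S.norm_D_ge
  have hD0 : 0 < ‖S.D‖ := lt_of_lt_of_le (by positivity) hDge
  have hDne : S.D ≠ 0 := norm_pos_iff.1 hD0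
  have hC := S.C_ne
  refine ⟨((∫ x, S.F x) - S.D + g / S.C) / S.D, ?_, ?_⟩
  · rw [norm_div, div_le_iff₀ hD0]
    have h1 := S.int_F_sub
    calc ‖(∫ x, S.F x) - S.D + g / S.C‖ ≤ ‖(∫ x, S.F x) - S.D‖ + ‖g / S.C‖ := norm_add_le _ _
      _ ≤ 400 * Sad.K 0 / S.l ^ 2 + 1 / S.l ^ 2 := by gcongr
      _ = (4 * (400 * Sad.K 0 + 1)) / (4 * S.l ^ 2) := by field_simp
      _ ≤ S.l / (4 * S.l ^ 2) := by gcongr
      _ = 1 / 4 * (1 / S.l) := by field_simp
      _ ≤ 1 / 4 * ‖S.D‖ := by gcongr
  · rw [← S.RD_eq, ← S.s_eq, hg1, Complex.exp_add]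
    have h2 : 1 + ((∫ x, S.F x) - S.D + g / S.C) / S.D = ((∫ x, S.F x) + g / S.C) / S.D := by
      field_simp
      ring
    rw [h2]
    have h3 : g + S.C * ∫ x, S.F x = S.C * ((∫ x, S.F x) + g / S.C) := by
      field_simp
      ring
    rw [h3]
    have h4 : -4 * (Complex.exp (S.s * Complex.log u) * Complex.exp (2 * π * I * Complex.exp u)) *
        (S.R * S.D) = S.C * S.D := by
      unfold C
      ring
    rw [h4]
    field_simp

end CSad

end Pool.Agent.Stj
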