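import Mathlib

open Set Filter Topology PowerSeries

namespace Pool.Agent.Stj

/-- pairs `(c, b)` with `b ≤ c ≤ d`. -/
abbrev Idx (d : ℕ) := Σ c : Fin (d + 1), Fin ((c : ℕ) + 1)

/-- the number of pairs -/
abbrev DD (d : ℕ) : ℕ := Fintype.card (Idx d)

/-- Taylor series with prescribed derivatives. -/
noncomputable def TJ (J : ℕ → ℝ) : PowerSeries ℝ := PowerSeries.mk fun i => J i / (i.factorial : ℝ)

/-- Taylor series of `e^{a η}` where `E = e^η`. -/
noncomputable def TE (a : ℕ) (E : ℝ) : PowerSeries ℝ :=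
  PowerSeries.C (E ^ a) * PowerSeries.rescale (a : ℝ) (PowerSeries.exp ℝ)

/-- `k`-th derivative of `e^{a η} g^b`. -/
noncomputable def ent (k a b : ℕ) (E : ℝ) (J : ℕ → ℝ) : ℝ :=
  (k.factorial : ℝ) * PowerSeries.coeff k (TE a E * TJ J ^ b)

lemma TJ_special : TJ (fun i => (i : ℝ)) = PowerSeries.X * PowerSeries.exp ℝ := by
  ext n
  rw [TJ, coeff_mk]
  cases n with
  | zero => simp
  | succ n =>
    rw [coeff_succ_X_mul, coeff_exp, Nat.factorial_succ]
    push_cast
    have : (n : ℝ) + 1 ≠ 0 := by positivity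
    field_simp

lemma ent_special (k a b : ℕ) :
    ent k a b 1 (fun i => (i : ℝ)) = (k.descFactorial b : ℝ) * ((a + b : ℕ) : ℝ) ^ (k - b) := by
  have h1 : TE a 1 * TJ (fun i => (i : ℝ)) ^ b =
      PowerSeries.X ^ b * PowerSeries.rescale (((a + b : ℕ) : ℝ)) (PowerSeries.exp ℝ) := by
    rw [TJ_special, TE, mul_pow, exp_pow_eq_rescale_exp]
    have := exp_mul_exp_eq_exp_add (a : ℝ) (b : ℝ)
    push_cast
    rw [← this]
    simp only [one_pow, map_one, one_mul]
    ring
  rw [ent, h1, coeff_X_pow_mul']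
  split_ifs with h
  · rw [coeff_rescale, coeff_exp]
    have h2 := Nat.factorial_mul_descFactorial h
    have h3 : ((k - b).factorial : ℝ) * (k.descFactorial b : ℝ) = k.factorial := by
      exact_mod_cast h2
    rw [← h3]
    simp only [map_div₀, map_one, map_natCast]
    have : ((k - b).factorial : ℝ) ≠ 0 := by positivity
    field_simp
  · push Not at h
    rw [Nat.descFactorial_of_lt h]
    simp

lemma card_idx (d : ℕ) : DD d = ∑ c : Fin (d + 1), ((c : ℕ) + 1) := by
  unfold DD
  rw [Fintype.card_sigma]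
  simp

/-- left kernel is trivial -/
lemma conf_kernel (d : ℕ) (v : Fin (DD d) → ℝ)
    (hv : ∀ i : Idx d, ∑ k : Fin (DD d), v k *
      ent k ((i.1 : ℕ) - i.2) i.2 1 (fun i => (i : ℝ)) = 0) : v = 0 := by
  set p : Polynomial ℝ := ∑ k : Fin (DD d), Polynomial.C (v k) * Polynomial.X ^ (k : ℕ) with hp
  have hcoeff : ∀ k : Fin (DD d), p.coeff k = v k := by
    intro k
    rw [hp, Polynomial.finsetSum_coeff]
    simp only [Polynomial.coeff_C_mul, Polynomial.coeff_X_pow]
    rw [Finset.sum_eq_single k]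
    · simp
    · intro j _ hj
      rw [if_neg, mul_zero]
      intro h
      exact hj (Fin.ext h.symm)
    · simp
  have heval : ∀ c b : ℕ, b ≤ c → c ≤ d → (Polynomial.derivative^[b] p).eval (c : ℝ) = 0 := by
    intro c b hb hc
    have h1 := hv ⟨⟨c, by omega⟩, ⟨b, by simpa using Nat.lt_succ_of_le hb⟩⟩
    simp only at h1
    rw [hp, Polynomial.iterate_derivative_sum, Polynomial.eval_finsetSum, ← h1]
    apply Finset.sum_congr rfl
    intro k _
    rw [Polynomial.iterate_derivative_C_mul, Polynomial.iterate_derivative_X_pow_eq_natCast_mul,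
      ent_special, Nat.sub_add_cancel hb]
    simp
  by_contra hne
  have hp0 : p ≠ 0 := by
    intro h
    apply hne
    ext k
    rw [← hcoeff k, h]
    simp
  have hdiv : ∀ c ∈ (Finset.univ : Finset (Fin (d + 1))),
      (Polynomial.X - Polynomial.C ((c : ℕ) : ℝ)) ^ ((c : ℕ) + 1) ∣ p := by
    intro c _
    have h1 : (c : ℕ) < p.rootMultiplicity ((c : ℕ) : ℝ) := by
      rw [Polynomial.lt_rootMultiplicity_iff_isRoot_iterate_derivative hp0]
      intro m hm
      exact heval c m hm (by omega)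
    exact (pow_dvd_pow _ h1).trans (Polynomial.pow_rootMultiplicity_dvd p _)
  have hprod : (∏ c : Fin (d + 1), (Polynomial.X - Polynomial.C ((c : ℕ) : ℝ)) ^ ((c : ℕ) + 1)) ∣ p := by
    apply Finset.prod_dvd_of_coprime _ hdiv
    intro i _ j _ hij
    apply IsCoprime.pow
    apply Polynomial.isCoprime_X_sub_C_of_isUnit_sub
    apply Ne.isUnit
    rw [sub_ne_zero]
    intro h
    apply hij
    exact Fin.ext (by exact_mod_cast h)
  have hdeg := Polynomial.natDegree_le_of_dvd hprod hp0
  rw [Polynomial.natDegree_prod_of_monic _ _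
    (fun i _ => (Polynomial.monic_X_sub_C _).pow _)] at hdeg
  have h3 : (∑ i : Fin (d + 1), ((Polynomial.X - Polynomial.C ((i : ℕ) : ℝ)) ^ ((i : ℕ) + 1)).natDegree) =
      DD d := by
    rw [card_idx]
    apply Finset.sum_congr rfl
    intro i _
    rw [Polynomial.natDegree_pow, Polynomial.natDegree_X_sub_C, mul_one]
  rw [h3] at hdeg
  have hdeg2 : p.degree < DD d := by
    rw [hp]
    refine lt_of_le_of_lt (Polynomial.degree_sum_le _ _) ?_
    rw [Finset.sup_lt_iff]
    · intro k _
      refine lt_of_le_of_lt (Polynomial.degree_C_mul_X_pow_le _ _) ?_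
      exact_mod_cast k.2
    · exact WithBot.bot_lt_coe _
  have hD : 0 < DD d := Fintype.card_pos
  rw [Polynomial.degree_eq_natDegree hp0] at hdeg2
  have : p.natDegree < DD d := by exact_mod_cast hdeg2
  omega

/-- an enumeration of the index set -/
noncomputable def en (d : ℕ) : Fin (DD d) ≃ Idx d := (Fintype.equivFin (Idx d)).symm

/-- exponent of `g` -/
noncomputable def bI (d : ℕ) (i : Fin (DD d)) : ℕ := (en d i).2
/-- total degree -/
noncomputable def cI (d : ℕ) (i : Fin (DD d)) : ℕ := (en d i).1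
/-- exponent of `e^η` -/
noncomputable def aI (d : ℕ) (i : Fin (DD d)) : ℕ := cI d i - bI d i

lemma bI_le (d : ℕ) (i : Fin (DD d)) : bI d i ≤ cI d i := Nat.lt_succ_iff.1 (en d i).2.2
lemma cI_le (d : ℕ) (i : Fin (DD d)) : cI d i ≤ d := Nat.lt_succ_iff.1 (en d i).1.2

/-- The Wronskian type matrix. -/
noncomputable def Mat (d : ℕ) (E : Fin (DD d) → ℝ) (J : Fin (DD d) → ℕ → ℝ) :
    Matrix (Fin (DD d)) (Fin (DD d)) ℝ :=
  Matrix.of fun i j => ent j (aI d i) (bI d i) (E j) (J j)

lemma det_Mat_special (d : ℕ) : (Mat d (fun _ => 1) (fun _ i => (i : ℝ))).det ≠ 0 := by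
  intro h
  rw [← Matrix.exists_mulVec_eq_zero_iff] at h
  obtain ⟨v, hv0, hv⟩ := h
  apply hv0
  apply conf_kernel d v
  intro i
  obtain ⟨j, rfl⟩ := (en d).surjective i
  have h1 := congrFun hv j
  simp only [Matrix.mulVec, dotProduct, Mat, Matrix.of_apply, aI, bI, cI,
    Pi.zero_apply] at h1
  rw [← h1]
  apply Finset.sum_congr rfl
  intro k _
  ring

lemma continuous_coeff_mul {X : Type*} [TopologicalSpace X] {f g : X → PowerSeries ℝ}
    (hf : ∀ k, Continuous fun x => PowerSeries.coeff k (f x))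
    (hg : ∀ k, Continuous fun x => PowerSeries.coeff k (g x)) (k : ℕ) :
    Continuous fun x => PowerSeries.coeff k (f x * g x) := by
  simp only [coeff_mul]
  exact continuous_finsetSum _ fun p _ => (hf p.1).mul (hg p.2)

lemma continuous_coeff_pow {X : Type*} [TopologicalSpace X] {f : X → PowerSeries ℝ}
    (hf : ∀ k, Continuous fun x => PowerSeries.coeff k (f x)) (b k : ℕ) :
    Continuous fun x => PowerSeries.coeff k (f x ^ b) := by
  induction b generalizing k with
  | zero => simp only [pow_zero]; exact continuous_const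
  | succ b ih =>
    simp only [pow_succ]
    exact continuous_coeff_mul ih hf k

lemma continuous_ent (k a b : ℕ) :
    Continuous fun p : ℝ × (ℕ → ℝ) => ent k a b p.1 p.2 := by
  unfold ent
  apply Continuous.mul continuous_const
  apply continuous_coeff_mul
  · intro k
    unfold TE
    simp only [coeff_C_mul]
    fun_prop
  · intro k
    apply continuous_coeff_pow
    intro k
    unfold TJ
    simp only [coeff_mk]
    fun_prop

lemma continuous_det_Mat (d : ℕ) :
    Continuous fun p : Fin (DD d) → ℝ × (ℕ → ℝ) =>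
      (Mat d (fun j => (p j).1) (fun j => (p j).2)).det := by
  apply Continuous.matrix_det
  apply continuous_matrix
  intro i j
  simp only [Mat, Matrix.of_apply]
  exact (continuous_ent j (aI d i) (bI d i)).comp (continuous_apply j)

/-- if the jets tend to the special ones, the determinant is eventually nonzero -/
lemma eventually_det_ne {ι : Type*} {l : Filter ι} (d : ℕ) (E : ι → Fin (DD d) → ℝ)
    (J : ι → Fin (DD d) → ℕ → ℝ) (hE : ∀ j, Tendsto (fun x => E x j) l (𝓝 1))
    (hJ : ∀ j (k : ℕ), Tendsto (fun x => J x j k) l (𝓝 (k : ℝ))) :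
    ∀ᶠ x in l, (Mat d (E x) (J x)).det ≠ 0 := by
  have h1 : Tendsto (fun x => (fun j => (E x j, J x j) : Fin (DD d) → ℝ × (ℕ → ℝ))) l
      (𝓝 (fun _ => (1, fun k => (k : ℝ)))) := by
    rw [tendsto_pi_nhds]
    intro j
    apply (hE j).prodMk_nhds
    rw [tendsto_pi_nhds]
    exact hJ j
  have h2 := ((continuous_det_Mat d).tendsto _).comp h1
  exact h2.eventually_ne (det_Mat_special d)

end Pool.Agent.Stj
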