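import Pool.Agent.Stj.Interp

open Polynomial Set

namespace Pool.Agent.Stj

lemma deriv_prod_bound {ι : Type*} [DecidableEq ι] (a c : ι → ℝ) (K y : ℝ) (hK : 1 ≤ K) (k : ℕ) :
    ∀ s : Finset ι, (∀ i ∈ s, |y - a i| ≤ 1) → (∀ i ∈ s, |c i| ≤ K) →
    |(derivative^[k] (∏ i ∈ s, C (c i) * (X - C (a i)))).eval y| ≤ (s.card : ℝ) ^ k * K ^ s.card := by
  induction k with
  | zero =>
    intro s h1 h2
    simp only [Function.iterate_zero, id, pow_zero, one_mul]
    rw [eval_prod, Finset.abs_prod, ← Finset.prod_const]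
    apply Finset.prod_le_prod (fun i _ => abs_nonneg _)
    intro i hi
    simp only [eval_mul, eval_C, eval_sub, eval_X]
    rw [abs_mul]
    have := h1 i hi
    have := h2 i hi
    calc |c i| * |y - a i| ≤ K * 1 := by gcongr
      _ = K := mul_one K
  | succ k ih =>
    intro s h1 h2
    rw [Function.iterate_succ_apply, derivative_prod_finset, iterate_derivative_sum,
      eval_finsetSum]
    have h3 : ∀ i ∈ s, |(derivative^[k] ((∏ j ∈ s.erase i, C (c j) * (X - C (a j))) *
        derivative (C (c i) * (X - C (a i))))).eval y| ≤ (s.card : ℝ) ^ k * K ^ s.card := by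
      intro i hi
      have e1 : derivative (C (c i) * (X - C (a i))) = C (c i) := by simp
      rw [e1, mul_comm, iterate_derivative_C_mul, eval_C_mul, abs_mul]
      have h4 := ih (s.erase i) (fun j hj => h1 j (Finset.mem_of_mem_erase hj))
        (fun j hj => h2 j (Finset.mem_of_mem_erase hj))
      have h5 := h2 i hi
      have h6 : (s.erase i).card + 1 = s.card := Finset.card_erase_add_one hi
      calc |c i| * |(derivative^[k] (∏ j ∈ s.erase i, C (c j) * (X - C (a j)))).eval y|
          ≤ K * (((s.erase i).card : ℝ) ^ k * K ^ (s.erase i).card) := by gcongr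
        _ = ((s.erase i).card : ℝ) ^ k * K ^ ((s.erase i).card + 1) := by ring
        _ ≤ (s.card : ℝ) ^ k * K ^ s.card := by
            rw [h6]
            gcongr
            exact Finset.erase_subset i s
    calc _ ≤ ∑ i ∈ s, |(derivative^[k] ((∏ j ∈ s.erase i, C (c j) * (X - C (a j))) *
        derivative (C (c i) * (X - C (a i))))).eval y| := Finset.abs_sum_le_sum_abs _ _
      _ ≤ ∑ i ∈ s, ((s.card : ℝ) ^ k * K ^ s.card) := Finset.sum_le_sum h3
      _ = (s.card : ℝ) ^ (k + 1) * K ^ s.card := by
          rw [Finset.sum_const, nsmul_eq_mul]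
          ring

lemma exists_corr (n : ℕ) (η ε : Fin n → ℝ) (K E h : ℝ) (hK : 1 ≤ K) (hh : h ≤ 1)
    (hsep : ∀ i j, i ≠ j → 1 / K ≤ |η i - η j|) (hmem : ∀ j, η j ∈ Icc 0 h)
    (hE : ∀ j, |ε j| ≤ E) :
    ∃ P : ℝ[X], (∀ j, P.eval (η j) = ε j) ∧ ∀ k, ∀ y ∈ Icc 0 h,
      |(derivative^[k] P).eval y| ≤ n * (E * ((n : ℝ) ^ k * K ^ n)) := by
  have hK0 : 0 < K := by linarith
  refine ⟨∑ j, C (ε j) * ∏ i ∈ Finset.univ.erase j, C (η j - η i)⁻¹ * (X - C (η i)), ?_, ?_⟩
  · intro j
    have hne : ∀ i, i ≠ j → η j - η i ≠ 0 := by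
      intro i hi h0
      have := hsep j i hi.symm
      rw [h0, abs_zero] at this
      have : 0 < 1 / K := by positivity
      linarith
    rw [eval_finsetSum, Finset.sum_eq_single j]
    · rw [eval_mul, eval_C, eval_prod]
      rw [Finset.prod_eq_one, mul_one]
      intro i hi
      have h1 := hne i (Finset.ne_of_mem_erase hi)
      simp only [eval_mul, eval_C, eval_sub, eval_X]
      exact inv_mul_cancel₀ h1
    · intro j' _ hj'
      rw [eval_mul, eval_prod, Finset.prod_eq_zero (i := j), mul_zero]
      · exact Finset.mem_erase.2 ⟨hj'.symm, Finset.mem_univ _⟩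
      · simp
    · intro h0
      exact absurd (Finset.mem_univ j) h0
  · intro k y hy
    rw [iterate_derivative_sum, eval_finsetSum]
    have h3 : ∀ j ∈ Finset.univ, |(derivative^[k] (C (ε j) * ∏ i ∈ Finset.univ.erase j,
        C (η j - η i)⁻¹ * (X - C (η i)))).eval y| ≤ E * ((n : ℝ) ^ k * K ^ n) := by
      intro j _
      rw [iterate_derivative_C_mul, eval_C_mul, abs_mul]
      have h4 := deriv_prod_bound η (fun i => (η j - η i)⁻¹) K y hK k (Finset.univ.erase j)
        (by
          intro i _
          have := hmem i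
          rw [abs_le]
          constructor <;> linarith [this.1, this.2, hy.1, hy.2])
        (by
          intro i hi
          have h1 := hsep j i (Finset.ne_of_mem_erase hi).symm
          rw [abs_inv]
          rw [inv_le_comm₀ (lt_of_lt_of_le (by positivity) h1) hK0, ← one_div]
          exact h1)
      have h5 : ((Finset.univ.erase j).card : ℝ) ≤ n := by
        have : (Finset.univ.erase j).card ≤ n := by
          refine Finset.card_erase_le.trans ?_
          simp
        exact_mod_cast this
      have h6 : K ^ (Finset.univ.erase j).card ≤ K ^ n :=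
        pow_le_pow_right₀ hK (by exact_mod_cast h5)
      have h7 := hE j
      have h8 : 0 ≤ E := (abs_nonneg _).trans h7
      calc _ ≤ E * (((Finset.univ.erase j).card : ℝ) ^ k * K ^ (Finset.univ.erase j).card) := by
            gcongr
        _ ≤ _ := by gcongr
    calc _ ≤ ∑ j, |(derivative^[k] (C (ε j) * ∏ i ∈ Finset.univ.erase j,
        C (η j - η i)⁻¹ * (X - C (η i)))).eval y| := Finset.abs_sum_le_sum_abs _ _
      _ ≤ ∑ j : Fin n, (E * ((n : ℝ) ^ k * K ^ n)) := Finset.sum_le_sum h3
      _ = _ := by rw [Finset.sum_const, nsmul_eq_mul, Finset.card_univ, Fintype.card_fin]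

end Pool.Agent.Stj
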