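import Pool.Agent.Stj.Local
import Pool.Agent.Stj.Corr

open Complex Set Filter MeasureTheory Topology Metric
open scoped Real NNReal

namespace Pool.Agent.Stj

/-- Existence of local data for all large `m`. -/
lemma exists_loc : ∃ m0 : ℕ, ∀ m : ℕ, m0 ≤ m → Nonempty (Loc m) := by
  obtain ⟨U2, hU2⟩ : ∃ U2 : ℝ, ∀ U, U2 ≤ U → (Real.log U + 2) ^ 2 ≤ U / 200 := by
    have h1 : Tendsto (fun x : ℝ => (Real.log x + 2) ^ 2 / x) atTop (𝓝 0) := by
      have h2 := Real.isLittleO_pow_log_id_atTop (n := 2)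
      have h3 : Tendsto (fun x : ℝ => Real.log x ^ 2 / x) atTop (𝓝 0) :=
        h2.tendsto_div_nhds_zero
      have h4 : Tendsto (fun x : ℝ => Real.exp 2 * x) atTop atTop :=
        tendsto_id.const_mul_atTop (Real.exp_pos 2)
      have h5 := (h3.comp h4).const_mul (Real.exp 2)
      rw [mul_zero] at h5
      refine h5.congr' ?_
      filter_upwards [eventually_gt_atTop 0] with x hx
      simp only [Function.comp]
      rw [Real.log_mul (Real.exp_pos 2).ne' hx.ne', Real.log_exp]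
      have := (Real.exp_pos 2).ne'
      field_simp
      ring
    have h2 := (h1.eventually (ge_mem_nhds (show (0 : ℝ) < 1 / 200 by norm_num))).and
      (eventually_gt_atTop 0)
    obtain ⟨U2, h⟩ := eventually_atTop.1 h2
    refine ⟨U2, fun U hU => ?_⟩
    obtain ⟨h3, h4⟩ := h U hU
    rw [div_le_iff₀ h4] at h3
    linarith
  set K := (4 * (400 * Sad.K 0 + 1)) ^ 2 with hK
  obtain ⟨m0, hm0⟩ := exists_sad (max (max (U2 + 1) (10 ^ 4 + 1)) (2 * K))
  refine ⟨m0, fun m hm => ?_⟩
  obtain ⟨S, hS⟩ := hm0 m hm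
  have h1 : U2 + 1 ≤ S.U := ((le_max_left _ _).trans (le_max_left _ _)).trans hS
  have h2 : 10 ^ 4 + 1 ≤ S.U := ((le_max_right _ _).trans (le_max_left _ _)).trans hS
  have h3 : 2 * K ≤ S.U := (le_max_right _ _).trans hS
  obtain ⟨Q⟩ := exists_UF S.u1 (by rw [S.norm_u1]; exact S.hU) (by
    rw [S.u1_re]
    have := S.hre
    have := S.hU
    nlinarith)
  refine ⟨⟨S, Q, h2, fun V hV => hU2 V (by linarith), ?_⟩⟩
  have := Real.add_one_le_exp (S.U / 2)
  linarith

/-- exceptional set with polynomial threshold -/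
def ExP (P : ℕ) : Set ℕ := {m | |(J m).re| ≤ ‖J m‖ / (m : ℝ) ^ P}

namespace Loc

variable {m : ℕ} (T : Loc m)

lemma config (hm1 : 1 ≤ m) {h : ℝ} (hh1 : h ≤ 1) (hhρ : h ≤ T.ρ / 2)
    (D : ℕ) (mj : Fin D → ℕ) (hmono : StrictMono mj) (hge : ∀ j, m ≤ mj j)
    (hle : ∀ j, (mj j : ℝ) ≤ m * (1 + h)) (hex : ∀ j, mj j ∈ ExP D) (j0 : Fin D)
    (hj0 : mj j0 = m) :
    ∃ φ : ℕ → ℝ → ℝ, ∃ kk : Fin D → ℤ, Chain φ 0 h ∧
      (∀ j, φ 0 (Real.log (mj j / m)) = kk j) ∧ φ 0 0 = 0 ∧
      ∀ k : ℕ, 1 ≤ k → ∀ y ∈ Icc 0 h,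
        |φ k y - m * (T.A0 / π + ((k : ℝ) - 1) * (T.B0 / π))| ≤
          1 / π * (m * ((2 * k + 4) * y + 4 * k ^ 2 / T.S.U * |T.B0| +
            (k - 1).factorial * (2 / T.S.U ^ 3) / (1 / 4 / 4) ^ (k - 1)) +
            k.factorial * (3 * T.S.U) / (T.ρ / 4) ^ k) + (D : ℝ) ^ (k + 1) * 2 ^ D := by
  have hmR : (1 : ℝ) ≤ m := by exact_mod_cast hm1
  have hm0 : (0 : ℝ) < m := by linarith
  have hpi := Real.pi_pos
  set η : Fin D → ℝ := fun j => Real.log (mj j / m) with hη
  have hq1 : ∀ j, (1 : ℝ) ≤ mj j / m := by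
    intro j
    rw [le_div_iff₀ hm0, one_mul]
    exact_mod_cast hge j
  have hmem : ∀ j, η j ∈ Icc 0 h := by
    intro j
    refine ⟨Real.log_nonneg (hq1 j), ?_⟩
    have h1 := Real.log_le_sub_one_of_pos (x := mj j / m) (by linarith [hq1 j])
    have h2 : (mj j : ℝ) / m ≤ 1 + h := by
      rw [div_le_iff₀ hm0]
      linarith [hle j]
    simp only [hη]
    linarith
  have hmem' : ∀ j, η j ∈ Icc 0 (T.ρ / 2) := fun j => ⟨(hmem j).1, (hmem j).2.trans hhρ⟩
  have hexp : ∀ j, (mj j : ℝ) = m * Real.exp (η j) := by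
    intro j
    simp only [hη]
    rw [Real.exp_log (by linarith [hq1 j])]
    field_simp
  have hcos : ∀ j, |Real.cos (T.th 0 (η j))| ≤ 1 / (m : ℝ) ^ D := by
    intro j
    obtain ⟨h1, h2⟩ := T.J_spec (hmem' j) (mj j) (hexp j)
    have h3 : |(J (mj j)).re| ≤ ‖J (mj j)‖ / (mj j : ℝ) ^ D := hex j
    have hn : 0 < ‖J (mj j)‖ := norm_pos_iff.2 h1
    rw [h2, div_eq_mul_one_div] at h3
    have h4 := le_of_mul_le_mul_left h3 hn
    refine h4.trans ?_
    have h5 : (m : ℝ) ≤ mj j := by exact_mod_cast hge j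
    gcongr
  choose kj hkj using fun j => near_half_pi (T.th 0 (η j))
  set ε : Fin D → ℝ := fun j => T.th 0 (η j) / π - 1 / 2 - kj j with hε
  have hεb : ∀ j, |ε j| ≤ 1 / (m : ℝ) ^ D := by
    intro j
    have h1 := (hkj j).trans (mul_le_mul_of_nonneg_left (hcos j) (by positivity))
    have h2 : ε j = (T.th 0 (η j) - π / 2 - kj j * π) / π := by
      simp only [hε]
      field_simp
    rw [h2, abs_div, abs_of_pos hpi, div_le_iff₀ hpi]
    refine h1.trans ?_
    have : 0 < 1 / (m : ℝ) ^ D := by positivity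
    nlinarith
  obtain ⟨P, hP1, hP2⟩ := exists_corr D η ε (2 * m) (1 / (m : ℝ) ^ D) h (by linarith) hh1
    (by
      intro i j hij
      have key : ∀ i j : Fin D, i < j → 1 / (2 * (m : ℝ)) ≤ |η i - η j| := by
        intro i j hlt
        have h1 : mj i + 1 ≤ mj j := hmono hlt
        have h2 : (mj i : ℝ) + 1 ≤ mj j := by exact_mod_cast h1
        have hi0 : (0 : ℝ) < mj i := by
          have : (m : ℝ) ≤ mj i := by exact_mod_cast hge i
          linarith
        have hj0' : (0 : ℝ) < mj j := by linarith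
        have h3 : η j - η i = Real.log (mj j / mj i) := by
          simp only [hη]
          rw [Real.log_div hj0'.ne' hm0.ne', Real.log_div hi0.ne' hm0.ne',
            Real.log_div hj0'.ne' hi0.ne']
          ring
        have h4 := Real.one_sub_inv_le_log_of_pos (x := mj j / mj i) (by positivity)
        rw [← h3, inv_div] at h4
        have h5 : 1 / (2 * (m : ℝ)) ≤ 1 - (mj i : ℝ) / mj j := by
          have h6 : 1 - (mj i : ℝ) / mj j = (mj j - mj i) / mj j := by field_simp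
          rw [h6, div_le_div_iff₀ (by positivity) hj0']
          have h7 := hle j
          have h8 : (mj j : ℝ) ≤ 2 * m := by nlinarith
          nlinarith
        rw [abs_sub_comm]
        exact h5.trans (h4.trans (le_abs_self _))
      rcases lt_or_gt_of_ne hij with hlt | hlt
      · exact key i j hlt
      · rw [abs_sub_comm]
        exact key j i hlt)
    hmem hεb
  set Pol : Polynomial ℝ := Polynomial.C (1 / 2 + (kj j0 : ℝ)) + P with hPol
  have hchain : Chain (fun k y => 1 / π * T.th k y +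
      -1 * (Polynomial.derivative^[k] Pol).eval y) 0 h := by
    apply Chain.add
    · apply Chain.const_mul
      intro k y hy
      exact T.th_chain k y ⟨hy.1, hy.2.trans hhρ⟩
    · exact (chain_poly Pol 0 h).const_mul (-1)
  have hval : ∀ j, 1 / π * T.th 0 (η j) + -1 * (Polynomial.derivative^[0] Pol).eval (η j) =
      ((kj j - kj j0 : ℤ) : ℝ) := by
    intro j
    rw [Function.iterate_zero, id, hPol, Polynomial.eval_add, Polynomial.eval_C, hP1 j]
    simp only [hε]
    push_cast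
    ring
  refine ⟨_, fun j => kj j - kj j0, hchain, hval, ?_, ?_⟩
  · have h1 := hval j0
    have h2 : η j0 = 0 := by
      simp only [hη]
      rw [hj0, div_self hm0.ne', Real.log_one]
    rw [h2] at h1
    rw [h1]
    simp
  · intro k hk y hy
    obtain ⟨k, rfl⟩ : ∃ k', k = k' + 1 := ⟨k - 1, by omega⟩
    have h1 := T.th_key k (y := y) ⟨hy.1, hy.2.trans hhρ⟩
    have h2 := hP2 (k + 1) y hy
    have h3 : (Polynomial.derivative^[k + 1] Pol).eval y =
        (Polynomial.derivative^[k + 1] P).eval y := by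
      rw [hPol, iterate_map_add Polynomial.derivative, Polynomial.eval_add,
        Polynomial.iterate_derivative_C (Nat.succ_pos k), Polynomial.eval_zero, zero_add]
    rw [h3]
    have h4 : 1 / π * T.th (k + 1) y + -1 * (Polynomial.derivative^[k + 1] P).eval y -
        m * (T.A0 / π + (((k + 1 : ℕ) : ℝ) - 1) * (T.B0 / π)) =
        1 / π * (T.th (k + 1) y - m * (T.A0 + k * T.B0)) -
        (Polynomial.derivative^[k + 1] P).eval y := by
      push_cast
      ring
    rw [h4]
    refine (abs_sub _ _).trans ?_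
    rw [abs_mul, abs_of_pos (by positivity : 0 < 1 / π)]
    have h5 : (D : ℝ) * (1 / (m : ℝ) ^ D * ((D : ℝ) ^ (k + 1) * (2 * m) ^ D)) =
        (D : ℝ) ^ (k + 1 + 1) * 2 ^ D := by
      rw [mul_pow]
      have : (m : ℝ) ^ D ≠ 0 := by positivity
      field_simp
      ring
    rw [h5] at h2
    have h6 : k + 1 - 1 = k := by omega
    rw [h6]
    have h7 : (2 * (((k + 1 : ℕ) : ℝ)) + 4) = 2 * k + 6 := by push_cast; ring
    have h8 : (((k + 1 : ℕ) : ℝ)) ^ 2 = ((k : ℝ) + 1) ^ 2 := by push_cast; ring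
    rw [h7, h8]
    gcongr

end Loc

end Pool.Agent.Stj
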