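import Mathlib

open Set Filter Topology
open scoped Real

namespace Pool.Agent.Stj

lemma concave3 (ψ : ℕ → ℝ) (a h g : ℕ)
    (H : ∀ k, a ≤ k → k + 2 ≤ a + h + g → ψ (k + 2) - 2 * ψ (k + 1) + ψ k ≤ 0) :
    g * ψ a + h * ψ (a + h + g) ≤ (g + h) * ψ (a + h) := by
  rcases Nat.eq_zero_or_pos g with rfl | hg
  · simp
  have hD : ∀ i j, a ≤ i → i ≤ j → j + 1 ≤ a + h + g →
      ψ (j + 1) - ψ j ≤ ψ (i + 1) - ψ i := by
    intro i j hi hij
    induction j, hij using Nat.le_induction with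
    | base => intro _; exact le_rfl
    | succ j hij ih =>
      intro hj
      have h1 := ih (by omega)
      have h2 := H j (by omega) (by omega)
      rw [show j + 1 + 1 = j + 2 by ring]
      linarith
  set d := ψ (a + h + 1) - ψ (a + h) with hd
  have h1 : ψ (a + h + g) - ψ (a + h) ≤ g * d := by
    have e := Finset.sum_range_sub (fun i => ψ (a + h + i)) g
    simp only [add_zero] at e
    rw [← e]
    calc ∑ i ∈ Finset.range g, (ψ (a + h + (i + 1)) - ψ (a + h + i))
        ≤ ∑ i ∈ Finset.range g, d := by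
          apply Finset.sum_le_sum
          intro i hi
          have hi' := Finset.mem_range.1 hi
          exact hD (a + h) (a + h + i) (by omega) (by omega) (by omega)
      _ = g * d := by simp
  have h2 : h * d ≤ ψ (a + h) - ψ a := by
    have e := Finset.sum_range_sub (fun i => ψ (a + i)) h
    simp only [add_zero] at e
    rw [← e]
    calc (h : ℝ) * d = ∑ i ∈ Finset.range h, d := by simp
      _ ≤ ∑ i ∈ Finset.range h, (ψ (a + (i + 1)) - ψ (a + i)) := by
          apply Finset.sum_le_sum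
          intro i hi
          have hi' := Finset.mem_range.1 hi
          exact hD (a + i) (a + h) (by omega) (by omega) (by omega)
  have h3 : (g : ℝ) * (h * d) ≤ g * (ψ (a + h) - ψ a) := by gcongr
  have h4 : (h : ℝ) * (ψ (a + h + g) - ψ (a + h)) ≤ h * (g * d) := by gcongr
  nlinarith

/-- two-sided estimate of the second divided difference. -/
lemma divdiff (θ : ℕ → ℝ) (a h g : ℕ) (A B : ℝ)
    (HA : ∀ k, a ≤ k → k + 2 ≤ a + h + g → -A ≤ θ (k + 2) - 2 * θ (k + 1) + θ k)
    (HB : ∀ k, a ≤ k → k + 2 ≤ a + h + g → θ (k + 2) - 2 * θ (k + 1) + θ k ≤ -B) :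
    -A * (g * h * (g + h)) / 2 ≤ g * θ a + h * θ (a + h + g) - (g + h) * θ (a + h) ∧
    g * θ a + h * θ (a + h + g) - (g + h) * θ (a + h) ≤ -B * (g * h * (g + h)) / 2 := by
  constructor
  · have := concave3 (fun k => -(θ k + A * (k : ℝ) ^ 2 / 2)) a h g (by
      intro k h1 h2
      have := HA k h1 h2
      push_cast
      nlinarith)
    push_cast at this
    nlinarith
  · have := concave3 (fun k => θ k + B * (k : ℝ) ^ 2 / 2) a h g (by
      intro k h1 h2
      have := HB k h1 h2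
      push_cast
      nlinarith)
    push_cast at this
    nlinarith

/-- the three point lemma -/
lemma three_point (θ : ℕ → ℝ) (m0 : ℕ)
    (HA : ∀ k, m0 ≤ k → -4 / (k * Real.log k ^ 2) ≤ θ (k + 2) - 2 * θ (k + 1) + θ k)
    (HB : ∀ k, m0 ≤ k → θ (k + 2) - 2 * θ (k + 1) + θ k ≤ -(1 / 13) / (k * Real.log k ^ 2)) :
    ∃ M0 : ℕ, 2 ≤ M0 ∧ ∀ M : ℕ, M0 ≤ M → ∀ m1 m2 m3 : ℕ, M ≤ m1 → m1 < m2 → m2 < m3 → m3 ≤ 2 * M →
      (∃ k : ℤ, |θ m1 - π / 2 - k * π| ≤ 2 / (m1 : ℝ) ^ 3) →
      (∃ k : ℤ, |θ m2 - π / 2 - k * π| ≤ 2 / (m2 : ℝ) ^ 3) →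
      (∃ k : ℤ, |θ m3 - π / 2 - k * π| ≤ 2 / (m3 : ℝ) ^ 3) →
      4 * M * Real.log M ^ 2 ≤ ((m3 : ℝ) - m1) ^ 3 := by
  -- threshold for 208 log^2 (2M) < M^2
  obtain ⟨X, hX⟩ : ∃ X : ℝ, ∀ x, X ≤ x → 208 * Real.log (2 * x) ^ 2 < x ^ 2 := by
    have h1 : Tendsto (fun x : ℝ => Real.log x / x) atTop (𝓝 0) := by
      have := Real.isLittleO_log_id_atTop
      exact this.tendsto_div_nhds_zero
    have h2 : Tendsto (fun x : ℝ => 2 * x) atTop atTop :=
      tendsto_id.const_mul_atTop (by norm_num)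
    have h3 := (h1.comp h2).eventually (gt_mem_nhds (show (0 : ℝ) < 1 / 60 by norm_num))
    obtain ⟨X, hX⟩ := eventually_atTop.1 (h3.and (eventually_ge_atTop 1))
    refine ⟨X, fun x hx => ?_⟩
    obtain ⟨h4, h5⟩ := hX x hx
    simp only [Function.comp] at h4
    rw [div_lt_iff₀ (by linarith)] at h4
    have h6 : 0 ≤ Real.log (2 * x) := Real.log_nonneg (by linarith)
    nlinarith
  obtain ⟨M1, hM1⟩ := exists_nat_ge X
  refine ⟨max (max m0 M1) 10, le_trans (by norm_num) (le_max_right _ _), ?_⟩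
  intro M hM m1 m2 m3 h1 h12 h23 h3 ⟨k1, hk1⟩ ⟨k2, hk2⟩ ⟨k3, hk3⟩
  have hMm0 : m0 ≤ M := (le_max_left _ _).trans ((le_max_left _ _).trans hM)
  have hMM1 : M1 ≤ M := (le_max_right _ _).trans ((le_max_left _ _).trans hM)
  have hM10 : 10 ≤ M := (le_max_right _ _).trans hM
  have hMr : (10 : ℝ) ≤ M := by exact_mod_cast hM10
  have hXM := hX M (hM1.trans (by exact_mod_cast hMM1))
  obtain ⟨h, rfl⟩ := Nat.exists_eq_add_of_lt h12
  obtain ⟨g, rfl⟩ := Nat.exists_eq_add_of_lt h23
  set H := h + 1 with hH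
  set G := g + 1 with hG
  have e2 : m1 + h + 1 = m1 + H := by omega
  have e3 : m1 + h + 1 + g + 1 = m1 + H + G := by omega
  rw [e3] at h3 h23 hk3 ⊢
  rw [e2] at h12 hk2
  have hlogM : 1 ≤ Real.log M := by
    rw [Real.le_log_iff_exp_le (by linarith)]
    have := Real.exp_one_lt_d9
    linarith
  set A : ℝ := 4 / (M * Real.log M ^ 2) with hA
  set B : ℝ := 1 / 13 / (2 * M * Real.log (2 * M) ^ 2) with hB
  have hlog2M : 1 ≤ Real.log (2 * M) := by
    have := Real.log_le_log (by linarith) (show (M : ℝ) ≤ 2 * M by linarith)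
    linarith
  have hB0 : 0 < B := by positivity
  have hA0 : 0 < A := by positivity
  obtain ⟨d1, d2⟩ := divdiff θ m1 H G A B
    (by
      intro k hk1 hk2
      refine le_trans ?_ (HA k (by omega))
      rw [neg_div, neg_le_neg_iff]
      have hk : (M : ℝ) ≤ k := by exact_mod_cast h1.trans hk1
      have hlogk : Real.log M ≤ Real.log k := Real.log_le_log (by linarith) hk
      apply div_le_div_of_nonneg_left (by norm_num) (by positivity)
      gcongr)
    (by
      intro k hk1 hk2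
      refine le_trans (HB k (by omega)) ?_
      rw [neg_div, neg_le_neg_iff]
      have hk : (M : ℝ) ≤ k := by exact_mod_cast h1.trans hk1
      have hk' : (k : ℝ) ≤ 2 * M := by
        have : k ≤ 2 * M := by omega
        exact_mod_cast this
      have hlogk0 : Real.log M ≤ Real.log k := Real.log_le_log (by linarith) hk
      have hlogk : Real.log k ≤ Real.log (2 * M) := Real.log_le_log (by linarith) hk'
      have p : 0 < (k : ℝ) * Real.log k ^ 2 := by
        have : 0 < Real.log k := by linarith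
        have : (0 : ℝ) < k := by linarith
        positivity
      apply div_le_div_of_nonneg_left (by norm_num) p
      gcongr)
  -- bounds of the errors
  have hm1 : (M : ℝ) ≤ m1 := by exact_mod_cast h1
  have b1 : |θ m1 - π / 2 - k1 * π| ≤ 2 / (M : ℝ) ^ 3 := hk1.trans (by gcongr)
  have b2 : |θ (m1 + H) - π / 2 - k2 * π| ≤ 2 / (M : ℝ) ^ 3 := by
    refine hk2.trans ?_
    have : (M : ℝ) ≤ ((m1 + H : ℕ) : ℝ) := by push_cast; linarith [Nat.cast_nonneg (α := ℝ) H]
    gcongr
  have b3 : |θ (m1 + H + G) - π / 2 - k3 * π| ≤ 2 / (M : ℝ) ^ 3 := by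
    refine hk3.trans ?_
    have : (M : ℝ) ≤ ((m1 + H + G : ℕ) : ℝ) := by
      push_cast; linarith [Nat.cast_nonneg (α := ℝ) H, Nat.cast_nonneg (α := ℝ) G]
    gcongr
  set δ : ℝ := 2 / (M : ℝ) ^ 3 with hδ
  have hH1 : (1 : ℝ) ≤ H := by rw [hH]; push_cast; linarith [Nat.cast_nonneg (α := ℝ) h]
  have hG1 : (1 : ℝ) ≤ G := by rw [hG]; push_cast; linarith [Nat.cast_nonneg (α := ℝ) g]
  set Z : ℤ := G * k1 + H * k3 - (G + H) * k2 with hZ
  set L : ℝ := G * θ m1 + H * θ (m1 + H + G) - (G + H) * θ (m1 + H) with hL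
  have hLZ : |L - Z * π| ≤ 2 * (G + H) * δ := by
    have e : L - Z * π = G * (θ m1 - π / 2 - k1 * π) + H * (θ (m1 + H + G) - π / 2 - k3 * π) -
        (G + H) * (θ (m1 + H) - π / 2 - k2 * π) := by
      rw [hL, hZ]; push_cast; ring
    rw [e]
    calc _ ≤ |G * (θ m1 - π / 2 - k1 * π) + H * (θ (m1 + H + G) - π / 2 - k3 * π)| +
          |(G + H) * (θ (m1 + H) - π / 2 - k2 * π)| := abs_sub _ _
      _ ≤ |G * (θ m1 - π / 2 - k1 * π)| + |H * (θ (m1 + H + G) - π / 2 - k3 * π)| +
          |(G + H) * (θ (m1 + H) - π / 2 - k2 * π)| := by gcongr; exact abs_add_le _ _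
      _ = G * |θ m1 - π / 2 - k1 * π| + H * |θ (m1 + H + G) - π / 2 - k3 * π| +
          (G + H) * |θ (m1 + H) - π / 2 - k2 * π| := by
          rw [abs_mul, abs_mul, abs_mul, abs_of_nonneg (by linarith : (0 : ℝ) ≤ G),
            abs_of_nonneg (by linarith : (0 : ℝ) ≤ H), abs_of_nonneg (by linarith : (0 : ℝ) ≤ G + H)]
      _ ≤ G * δ + H * δ + (G + H) * δ := by gcongr
      _ = 2 * (G + H) * δ := by ring
  have hGH : (G : ℝ) + H ≤ M := by
    have : G + H ≤ M := by omega
    exact_mod_cast this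
  rw [abs_le] at hLZ
  have hGHpos : (1 : ℝ) ≤ G * H := by nlinarith
  by_cases hZ0 : Z = 0
  · exfalso
    rw [hZ0] at hLZ
    simp only [Int.cast_zero, zero_mul, sub_zero] at hLZ
    -- B * G H (G+H) / 2 ≤ 2 (G+H) δ
    have h5 : B * (G * H * (G + H)) / 2 ≤ 2 * (G + H) * δ := by linarith [hLZ.1]
    have h6 : B * (G + H) / 2 ≤ B * (G * H * (G + H)) / 2 := by
      have : (1 : ℝ) * (G + H) ≤ G * H * (G + H) := by gcongr
      have : B * (1 * (G + H)) ≤ B * (G * H * (G + H)) := by gcongr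
      linarith
    have h7 : B / 2 ≤ 2 * δ := by
      have : (G + H) * (B / 2) ≤ ((G : ℝ) + H) * (2 * δ) := by linarith
      exact le_of_mul_le_mul_left this (by linarith)
    have h8 : (M : ℝ) ^ 2 ≤ 208 * Real.log (2 * M) ^ 2 := by
      rw [hB, hδ] at h7
      have e1 : 1 / 13 / (2 * M * Real.log (2 * M) ^ 2) / 2 =
          1 / (52 * M * Real.log (2 * M) ^ 2) := by
        have : Real.log (2 * M) ≠ 0 := by positivity
        field_simp
        norm_num
      have e2 : 2 * (2 / (M : ℝ) ^ 3) = 4 / (M : ℝ) ^ 3 := by ring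
      rw [e1, e2, div_le_div_iff₀ (by positivity) (by positivity)] at h7
      have : (M : ℝ) * M ^ 2 ≤ M * (208 * Real.log (2 * M) ^ 2) := by
        calc (M : ℝ) * M ^ 2 = 1 * M ^ 3 := by ring
          _ ≤ 4 * (52 * M * Real.log (2 * M) ^ 2) := h7
          _ = _ := by ring
      exact le_of_mul_le_mul_left this (by linarith)
    linarith
  · have hZ1 : (1 : ℝ) ≤ |(Z : ℝ)| := by
      have := Int.one_le_abs hZ0
      exact_mod_cast this
    have hpi := Real.pi_gt_three
    have hδ' : 2 * (G + H) * δ ≤ 1 := by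
      rw [hδ]
      have : 2 * ((G : ℝ) + H) * (2 / M ^ 3) ≤ 2 * M * (2 / M ^ 3) := by gcongr
      refine this.trans ?_
      rw [mul_div_assoc', div_le_one (by positivity)]
      nlinarith
    have hL2 : 2 ≤ |L| := by
      have h9 : |(Z : ℝ) * π| ≤ |L| + 1 := by
        have e : (Z : ℝ) * π = L - (L - Z * π) := by ring
        rw [e]
        refine (abs_sub _ _).trans ?_
        gcongr
        rw [abs_le]
        constructor <;> linarith [hLZ.1, hLZ.2]
      rw [abs_mul, abs_of_pos Real.pi_pos] at h9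
      nlinarith
    have hLneg : L ≤ 0 := by
      have : 0 ≤ B * (G * H * (G + H)) / 2 := by positivity
      linarith
    rw [abs_of_nonpos hLneg] at hL2
    have h10 : 4 ≤ A * (G * H * (G + H)) := by linarith
    have h11 : 4 * ((G : ℝ) * H * (G + H)) ≤ (G + H) ^ 3 := by
      have : 4 * ((G : ℝ) * H) ≤ (G + H) ^ 2 := by nlinarith [sq_nonneg ((G : ℝ) - H)]
      calc 4 * ((G : ℝ) * H * (G + H)) = 4 * ((G : ℝ) * H) * (G + H) := by ring
        _ ≤ (G + H) ^ 2 * (G + H) := by gcongr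
        _ = _ := by ring
    have h12 : M * Real.log M ^ 2 ≤ G * H * (G + H) := by
      rw [hA, div_mul_eq_mul_div, le_div_iff₀ (by positivity)] at h10
      linarith
    have e5 : (((m1 + H + G : ℕ) : ℝ) - m1) = G + H := by push_cast; ring
    rw [e5]
    linarith

end Pool.Agent.Stj
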