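import Pool.Agent.Stj.Count

open Set Filter Topology
open scoped Real

namespace Pool.Agent.Stj

/-- the comparison function -/
noncomputable def Fc (x : ℝ) : ℝ := (x / Real.log x) ^ (2 / 3 : ℝ)

lemma Fc_cube {x : ℝ} (hx : 1 ≤ x) : Fc x ^ 3 = (x / Real.log x) ^ 2 := by
  have h0 : 0 ≤ x / Real.log x := div_nonneg (by linarith) (Real.log_nonneg hx)
  unfold Fc
  rw [← Real.rpow_natCast, ← Real.rpow_mul h0, ← Real.rpow_natCast]
  norm_num

lemma Fc_nonneg {x : ℝ} (hx : 1 ≤ x) : 0 ≤ Fc x := by
  unfold Fc
  exact Real.rpow_nonneg (div_nonneg (by linarith) (Real.log_nonneg hx)) _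

lemma one_le_Fc {x : ℝ} (hx : 2 ≤ x) : 1 ≤ Fc x := by
  unfold Fc
  apply Real.one_le_rpow _ (by norm_num)
  rw [le_div_iff₀ (Real.log_pos (by linarith)), one_mul]
  have := Real.log_le_sub_one_of_pos (x := x) (by linarith)
  linarith

/-- a finite set in which any three elements span at least `T`. -/
lemma card_le_of_three (S : Finset ℕ) (M : ℕ) (T : ℝ) (hT : 0 < T)
    (hS : ∀ x ∈ S, M ≤ x ∧ x ≤ 2 * M)
    (h3 : ∀ x ∈ S, ∀ y ∈ S, ∀ z ∈ S, x < y → y < z → T ≤ (z : ℝ) - x) :
    (S.card : ℝ) ≤ 2 * (M / T + 1) := by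
  set f : ℕ → ℕ := fun x => ⌊((x : ℝ) - M) / T⌋₊ with hf
  have h1 : S.card ≤ 2 * (S.image f).card := by
    apply Finset.card_le_mul_card_image
    intro b hb
    by_contra hcon
    push Not at hcon
    obtain ⟨x, y, z, hx, hy, hz, hxy, hxz, hyz⟩ := Finset.two_lt_card_iff.1 hcon
    simp only [Finset.mem_filter] at hx hy hz
    have key : ∀ p q : ℕ, p ∈ S → q ∈ S → f p = b → f q = b → (q : ℝ) - p < T := by
      intro p q hp hq hpb hqb
      have hp1 : (M : ℝ) ≤ p := by exact_mod_cast (hS p hp).1
      have hq1 : (M : ℝ) ≤ q := by exact_mod_cast (hS q hq).1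
      have a1 : (b : ℝ) ≤ ((p : ℝ) - M) / T := by
        rw [← hpb]
        exact Nat.floor_le (div_nonneg (by linarith) hT.le)
      have a2 : ((q : ℝ) - M) / T < b + 1 := by
        rw [← hqb]
        exact Nat.lt_floor_add_one _
      rw [le_div_iff₀ hT] at a1
      rw [div_lt_iff₀ hT] at a2
      linarith
    have main : ∀ p q r : ℕ, (p ∈ S ∧ f p = b) → (q ∈ S ∧ f q = b) → (r ∈ S ∧ f r = b) →
        p < q → q < r → False := by
      intro p q r hp hq hr hpq hqr
      have := h3 p hp.1 q hq.1 r hr.1 hpq hqr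
      have := key p r hp.1 hr.1 hp.2 hr.2
      linarith
    rcases lt_trichotomy x y with h | h | h
    · rcases lt_trichotomy y z with h' | h' | h'
      · exact main x y z hx hy hz h h'
      · exact hyz h'
      · rcases lt_trichotomy x z with h'' | h'' | h''
        · exact main x z y hx hz hy h'' h'
        · exact hxz h''
        · exact main z x y hz hx hy h'' h
    · exact hxy h
    · rcases lt_trichotomy x z with h' | h' | h'
      · exact main y x z hy hx hz h h'
      · exact hxz h'
      · rcases lt_trichotomy y z with h'' | h'' | h''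
        · exact main y z x hy hz hx h'' h'
        · exact hyz h''
        · exact main z y x hz hy hx h'' h
  have h2 : (S.image f).card ≤ ⌊(M : ℝ) / T⌋₊ + 1 := by
    have : S.image f ⊆ Finset.range (⌊(M : ℝ) / T⌋₊ + 1) := by
      intro b hb
      rw [Finset.mem_image] at hb
      obtain ⟨x, hx, rfl⟩ := hb
      rw [Finset.mem_range, Nat.lt_succ_iff]
      apply Nat.floor_le_floor
      have : (x : ℝ) ≤ 2 * M := by exact_mod_cast (hS x hx).2
      gcongr
      linarith
    have := Finset.card_le_card this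
    rwa [Finset.card_range] at this
  have h4 : ((S.image f).card : ℝ) ≤ M / T + 1 := by
    have h5 : ((S.image f).card : ℝ) ≤ (⌊(M : ℝ) / T⌋₊ : ℝ) + 1 := by exact_mod_cast h2
    have h6 := Nat.floor_le (show 0 ≤ (M : ℝ) / T by positivity)
    linarith
  have h5 : (S.card : ℝ) ≤ 2 * ((S.image f).card : ℝ) := by exact_mod_cast h1
  linarith

lemma count_bound (E : Set ℕ) (M0 : ℕ) (hM0 : 2 ≤ M0)
    (h3 : ∀ M : ℕ, M0 ≤ M → ∀ m1 m2 m3 : ℕ, m1 ∈ E → m2 ∈ E → m3 ∈ E → M ≤ m1 → m1 < m2 →
      m2 < m3 → m3 ≤ 2 * M → 4 * M * Real.log M ^ 2 ≤ ((m3 : ℝ) - m1) ^ 3) :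
    ∃ C : ℝ, ∀ N : ℕ, 2 ≤ N → ({n : ℕ | n ∈ E ∧ n ≤ N}.ncard : ℝ) ≤ C * Fc N := by
  classical
  obtain ⟨X, hX⟩ := exists_nat_ge (Real.exp 10)
  set N1 := max (2 * M0) X with hN1
  set C : ℝ := max 16 (N1 + 1) with hC
  refine ⟨C, ?_⟩
  have hC16 : 16 ≤ C := le_max_left _ _
  have hCN : (N1 : ℝ) + 1 ≤ C := le_max_right _ _
  have hcnt : ∀ N : ℕ, {n : ℕ | n ∈ E ∧ n ≤ N}.ncard =
      ((Finset.range (N + 1)).filter (fun n => n ∈ E)).card := by
    intro N
    rw [← Set.ncard_coe_finset]
    congr 1
    ext n
    simp [and_comm]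
  intro N
  induction N using Nat.strong_induction_on with
  | _ N ih =>
    intro hN
    have hNr : (2 : ℝ) ≤ N := by exact_mod_cast hN
    have hF1 := one_le_Fc hNr
    by_cases hsmall : N ≤ N1
    · rw [hcnt]
      have h4 : ((Finset.range (N + 1)).filter (fun n => n ∈ E)).card ≤ N + 1 := by
        refine (Finset.card_filter_le _ _).trans ?_
        simp
      have h5 : (((Finset.range (N + 1)).filter (fun n => n ∈ E)).card : ℝ) ≤ N + 1 := by
        exact_mod_cast h4
      have h6 : (N : ℝ) ≤ N1 := by exact_mod_cast hsmall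
      nlinarith
    · push Not at hsmall
      set M := (N + 1) / 2 with hM
      have hNM0 : 2 * M0 < N := (le_max_left _ _).trans_lt hsmall
      have hNX : X < N := (le_max_right _ _).trans_lt hsmall
      have hM0M : M0 ≤ M := by omega
      have hN2M : N ≤ 2 * M := by omega
      have h2MN : 2 * M ≤ N + 1 := by omega
      have hMN : M < N := by omega
      have hM2 : 2 ≤ M := by omega
      have ihM := ih M hMN hM2
      have hMr : (2 : ℝ) ≤ M := by exact_mod_cast hM2
      have hlogM : 0 < Real.log M := Real.log_pos (by linarith)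
      have hFM := one_le_Fc hMr
      -- logs
      have hlogN : 10 ≤ Real.log N := by
        rw [Real.le_log_iff_exp_le (by linarith)]
        refine hX.trans ?_
        exact_mod_cast hNX.le
      have hlogM2 : Real.log N - 7 / 10 ≤ Real.log M := by
        have h7 : (N : ℝ) ≤ 2 * M := by exact_mod_cast hN2M
        have h8 := Real.log_le_log (by linarith) h7
        rw [Real.log_mul (by norm_num) (by linarith)] at h8
        have := Real.log_two_lt_d9
        linarith
      have hN4 : (20 : ℝ) ≤ N := by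
        have h9 : Real.exp 10 ≤ N := (Real.le_log_iff_exp_le (by linarith)).1 hlogN
        have h10 := Real.add_one_le_exp (10 : ℝ)
        have h11 := Real.quadratic_le_exp_of_nonneg (x := 10) (by norm_num)
        linarith
      have hratio : (M : ℝ) / Real.log M ≤ 7 / 10 * (N / Real.log N) := by
        have h7 : 2 * (M : ℝ) ≤ N + 1 := by exact_mod_cast h2MN
        rw [← mul_div_assoc, div_le_div_iff₀ hlogM (by linarith)]
        nlinarith
      have hFr : Fc M ≤ 4 / 5 * Fc N := by
        have h8 : Fc M ^ 3 ≤ (4 / 5 * Fc N) ^ 3 := by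
          rw [mul_pow, Fc_cube (by linarith), Fc_cube (by linarith)]
          have h9 : ((M : ℝ) / Real.log M) ^ 2 ≤ (7 / 10 * (N / Real.log N)) ^ 2 := by
            gcongr
          have h10 : 0 ≤ ((N : ℝ) / Real.log N) ^ 2 := by positivity
          rw [mul_pow] at h9
          nlinarith
        exact le_of_pow_le_pow_left₀ (by norm_num) (by positivity) h8
      -- the set in [M, 2M]
      set T : ℝ := (4 * M * Real.log M ^ 2) ^ (1 / 3 : ℝ) with hT
      have hT0 : 0 < T := by positivity
      have hT3 : T ^ 3 = 4 * M * Real.log M ^ 2 := by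
        rw [hT, ← Real.rpow_natCast, ← Real.rpow_mul (by positivity)]
        norm_num
      set S := (Finset.Icc M (2 * M)).filter (fun n => n ∈ E) with hS
      have hcard := card_le_of_three S M T hT0
        (by
          intro x hx
          rw [hS, Finset.mem_filter, Finset.mem_Icc] at hx
          exact hx.1)
        (by
          intro x hx y hy z hz hxy hyz
          rw [hS, Finset.mem_filter, Finset.mem_Icc] at hx hy hz
          have h12 := h3 M hM0M x y z hx.2 hy.2 hz.2 hx.1.1 hxy hyz hz.1.2
          rw [← hT3] at h12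
          have hxz : (x : ℝ) ≤ z := by exact_mod_cast (hxy.trans hyz).le
          exact le_of_pow_le_pow_left₀ (by norm_num) (by linarith) h12)
      have hMT : M / T ≤ Fc M := by
        have h13 : (M / T) ^ 3 ≤ Fc M ^ 3 := by
          rw [Fc_cube (by linarith), div_pow, hT3, div_pow,
            div_le_div_iff₀ (by positivity) (by positivity)]
          have : (M : ℝ) ^ 3 * Real.log M ^ 2 ≤ 4 * (M ^ 3 * Real.log M ^ 2) := by
            have : 0 ≤ (M : ℝ) ^ 3 * Real.log M ^ 2 := by positivity
            linarith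
          calc (M : ℝ) ^ 3 * Real.log M ^ 2 ≤ 4 * (M ^ 3 * Real.log M ^ 2) := this
            _ = _ := by ring
        exact le_of_pow_le_pow_left₀ (by norm_num) (by linarith) h13
      rw [hcnt] at ihM ⊢
      have hsub : (Finset.range (N + 1)).filter (fun n => n ∈ E) ⊆
          (Finset.range (M + 1)).filter (fun n => n ∈ E) ∪ S := by
        intro n hn
        rw [Finset.mem_filter, Finset.mem_range] at hn
        rw [Finset.mem_union, Finset.mem_filter, Finset.mem_range, hS, Finset.mem_filter,
          Finset.mem_Icc]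
        by_cases hnM : n < M + 1
        · left; exact ⟨hnM, hn.2⟩
        · right; exact ⟨⟨by omega, by omega⟩, hn.2⟩
      have h14 : (((Finset.range (N + 1)).filter (fun n => n ∈ E)).card : ℝ) ≤
          (((Finset.range (M + 1)).filter (fun n => n ∈ E)).card : ℝ) + S.card := by
        have := (Finset.card_le_card hsub).trans (Finset.card_union_le _ _)
        exact_mod_cast this
      have h15 : 2 * (M / T + 1) ≤ 4 * Fc M := by linarith
      nlinarith

end Pool.Agent.Stj
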