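import Pool.Agent.Stj.Phase
import Pool.Agent.Stj.Count2

open Complex Set Filter MeasureTheory Topology
open scoped Real

namespace Pool.Agent.Stj

open Sad

/-- For all large `m` the saddle data exist with the strong size condition. -/
lemma exists_good : ∃ m0 : ℕ, 2 ≤ m0 ∧ ∀ m : ℕ, m0 ≤ m →
    ∃ S : Sad m, 4 * QQ ≤ S.l ∧ 1736 * QQ * S.U ^ 3 ≤ S.l := by
  -- exp(U/4) ≥ 1736 QQ U^3 for large U
  obtain ⟨U1, hU1⟩ : ∃ U1 : ℝ, ∀ U, U1 ≤ U → 1736 * QQ * U ^ 3 ≤ Real.exp (U / 4) := by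
    have h1 := Real.tendsto_pow_mul_exp_neg_atTop_nhds_zero 3
    have h2 : Tendsto (fun x : ℝ => (x / 4)) atTop atTop :=
      tendsto_id.atTop_div_const (by norm_num)
    have h3 := (h1.comp h2).const_mul (1736 * QQ * 64)
    rw [mul_zero] at h3
    have h4 := h3.eventually (ge_mem_nhds (show (0 : ℝ) < 1 by norm_num))
    obtain ⟨U1, h5⟩ := eventually_atTop.1 h4
    refine ⟨U1, fun U hU => ?_⟩
    have h6 := h5 U hU
    simp only [Function.comp] at h6
    rw [Real.exp_neg] at h6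
    have h7 := Real.exp_pos (U / 4)
    have h8 : 1736 * QQ * 64 * ((U / 4) ^ 3 * (Real.exp (U / 4))⁻¹) =
        (1736 * QQ * U ^ 3) / Real.exp (U / 4) := by
      field_simp
      ring
    rw [h8, div_le_one h7] at h6
    exact h6
  obtain ⟨m0, hm0⟩ := exists_sad (max U1 1)
  refine ⟨max m0 2, le_max_right _ _, fun m hm => ?_⟩
  obtain ⟨S, hS⟩ := hm0 m ((le_max_left _ _).trans hm)
  have h1 := hU1 S.U ((le_max_left _ _).trans hS)
  have hl : Real.exp (S.U / 4) ≤ S.l := by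
    unfold Sad.l
    apply Real.le_sqrt_of_sq_le
    rw [← Real.exp_nat_mul]
    unfold Sad.L
    rw [S.R_eq]
    have h2 : Real.exp (((2 : ℕ) : ℝ) * (S.U / 4)) ≤ Real.exp (S.U * S.e.re) := by
      rw [Real.exp_le_exp]
      push_cast
      have := S.hre
      have := S.U_pos
      nlinarith
    have h3 := Real.pi_gt_three
    have h4 := Real.exp_pos (S.U * S.e.re)
    nlinarith
  have h5 : 1736 * QQ * S.U ^ 3 ≤ S.l := h1.trans hl
  refine ⟨S, ?_, h5⟩
  refine le_trans ?_ h5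
  have := QQ_ge
  have h6 : (1 : ℝ) ≤ S.U ^ 3 := one_le_pow₀ (by linarith [S.hU])
  nlinarith

/-- the phases -/
noncomputable def th (m0 : ℕ) : ℕ → ℝ
  | 0 => Complex.arg (J m0)
  | 1 => Complex.arg (J (m0 + 1))
  | (k + 2) => 2 * th m0 (k + 1) - th m0 k +
      Complex.arg (J (m0 + k + 2) * J (m0 + k) / J (m0 + k + 1) ^ 2)

lemma th_spec (m0 : ℕ) (hJ : ∀ m, m0 ≤ m → J m ≠ 0) (k : ℕ) :
    J (m0 + k) = ‖J (m0 + k)‖ * Complex.exp (th m0 k * I) ∧
    J (m0 + k + 1) = ‖J (m0 + k + 1)‖ * Complex.exp (th m0 (k + 1) * I) := by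
  induction k with
  | zero =>
    refine ⟨?_, ?_⟩
    · simp only [th, add_zero]
      exact (Complex.norm_mul_exp_arg_mul_I _).symm
    · simp only [th, add_zero]
      exact (Complex.norm_mul_exp_arg_mul_I _).symm
  | succ k ih =>
    refine ⟨ih.2, ?_⟩
    set a := J (m0 + k) with ha
    set b := J (m0 + k + 1) with hb
    set c := J (m0 + k + 2) with hc
    have ha0 : a ≠ 0 := hJ _ (by omega)
    have hb0 : b ≠ 0 := hJ _ (by omega)
    have e1 : J (m0 + (k + 1) + 1) = c := by rw [hc]; congr 1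
    have e2 : th m0 (k + 1 + 1) = 2 * th m0 (k + 1) - th m0 k + Complex.arg (c * a / b ^ 2) := by
      rw [show k + 1 + 1 = k + 2 by ring, th]
    rw [e1, e2]
    set R := c * a / b ^ 2 with hR
    have hcR : c = R * b ^ 2 / a := by
      rw [hR]; field_simp
    have hRa := Complex.norm_mul_exp_arg_mul_I R
    have hnorm : ‖c‖ = ‖R‖ * ‖b‖ ^ 2 / ‖a‖ := by
      rw [hcR, norm_div, norm_mul, norm_pow]
    have hexp : Complex.exp (((2 * th m0 (k + 1) - th m0 k + Complex.arg R : ℝ) : ℂ) * I) =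
        Complex.exp (th m0 (k + 1) * I) ^ 2 / Complex.exp (th m0 k * I) *
          Complex.exp (Complex.arg R * I) := by
      rw [← Complex.exp_nat_mul, ← Complex.exp_sub, ← Complex.exp_add]
      congr 1
      push_cast
      ring
    rw [hexp, hnorm]
    have hna : (‖a‖ : ℂ) ≠ 0 := by exact_mod_cast (norm_ne_zero_iff.2 ha0)
    have he := Complex.exp_ne_zero (th m0 k * I)
    push_cast
    calc c = R * b ^ 2 / a := hcR
      _ = (‖R‖ * Complex.exp (Complex.arg R * I)) * (‖b‖ * Complex.exp (th m0 (k + 1) * I)) ^ 2 /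
          (‖a‖ * Complex.exp (th m0 k * I)) := by
          rw [hRa, ← ih.2, ← ih.1]
      _ = _ := by
          field_simp

lemma near_half_pi (t : ℝ) : ∃ k : ℤ, |t - π / 2 - k * π| ≤ π / 2 * |Real.cos t| := by
  have hpi := Real.pi_pos
  refine ⟨round ((t - π / 2) / π), ?_⟩
  set k := round ((t - π / 2) / π) with hk
  have h1 : |(t - π / 2) / π - k| ≤ 1 / 2 := abs_sub_round _
  set y := t - π / 2 - k * π with hy
  have h2 : |y| ≤ π / 2 := by
    have : y = ((t - π / 2) / π - k) * π := by rw [hy]; field_simp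
    rw [this, abs_mul, abs_of_pos hpi]
    nlinarith
  have h3 : |Real.cos t| = |Real.sin y| := by
    have : t = (y + π / 2) + k * π := by rw [hy]; ring
    rw [this, Real.cos_add_int_mul_pi, Real.cos_add_pi_div_two, abs_mul, abs_neg]
    have : |((-1 : ℝ)) ^ k| = 1 := by
      rw [abs_zpow]; simp
    rw [this, one_mul]
  have h4 : |Real.sin y| = Real.sin |y| := by
    rcases abs_cases y with ⟨h, h'⟩ | ⟨h, h'⟩
    · rw [h] at h2 ⊢
      rw [abs_of_nonneg (Real.sin_nonneg_of_nonneg_of_le_pi h' (by linarith))]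
    · rw [h] at h2 ⊢
      rw [Real.sin_neg, abs_of_nonpos]
      have := Real.sin_nonneg_of_nonneg_of_le_pi (x := -y) (by linarith) (by linarith)
      rw [Real.sin_neg] at this
      linarith
  have h5 := Real.mul_le_sin (abs_nonneg y) h2
  rw [h3, h4]
  have : |y| = π / 2 * (2 / π * |y|) := by field_simp
  calc |y| = π / 2 * (2 / π * |y|) := this
    _ ≤ π / 2 * Real.sin |y| := by gcongr

/-- the set of `m` for which the real part is exceptionally small. -/
def Ex : Set ℕ := {m | |(J m).re| ≤ ‖J m‖ / (m : ℝ) ^ 3}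

theorem Ex_count : ∃ m0 : ℕ, ∃ C : ℝ, ∀ N : ℕ, 2 ≤ N →
    ({n : ℕ | n ∈ {m | m ∈ Ex ∧ m0 ≤ m} ∧ n ≤ N}.ncard : ℝ) ≤ C * Fc N := by
  obtain ⟨m0, hm02, hm0⟩ := exists_good
  have hJ : ∀ m, m0 ≤ m → J m ≠ 0 := by
    intro m hm
    obtain ⟨S, h1, _⟩ := hm0 m hm
    exact (S.ratio h1).1
  set θ : ℕ → ℝ := fun m => th m0 (m - m0) with hθ
  have hrec : ∀ m, m0 ≤ m → θ (m + 2) - 2 * θ (m + 1) + θ m =
      Complex.arg (J (m + 2) * J m / J (m + 1) ^ 2) := by
    intro m hm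
    obtain ⟨k, rfl⟩ := Nat.exists_eq_add_of_le hm
    simp only [hθ]
    rw [show m0 + k + 2 - m0 = k + 2 by omega, show m0 + k + 1 - m0 = k + 1 by omega,
      show m0 + k - m0 = k by omega, th]
    ring
  have hspec : ∀ m, m0 ≤ m → J m = ‖J m‖ * Complex.exp (θ m * I) := by
    intro m hm
    obtain ⟨k, rfl⟩ := Nat.exists_eq_add_of_le hm
    simp only [hθ]
    rw [show m0 + k - m0 = k by omega]
    exact (th_spec m0 hJ k).1
  have hre : ∀ m, m0 ≤ m → (J m).re = ‖J m‖ * Real.cos (θ m) := by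
    intro m hm
    have h1 := congrArg Complex.re (hspec m hm)
    rw [Complex.re_ofReal_mul, Complex.exp_ofReal_mul_I_re] at h1
    exact h1
  obtain ⟨M0, hM02, hM0⟩ := three_point θ m0
    (by
      intro k hk
      obtain ⟨S, h1, h2⟩ := hm0 k hk
      rw [hrec k hk]
      exact (S.arg_bounds h1 h2).1)
    (by
      intro k hk
      obtain ⟨S, h1, h2⟩ := hm0 k hk
      rw [hrec k hk]
      exact (S.arg_bounds h1 h2).2)
  have hE : ∀ m, m ∈ {m | m ∈ Ex ∧ m0 ≤ m} → ∃ k : ℤ, |θ m - π / 2 - k * π| ≤ 2 / (m : ℝ) ^ 3 := by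
    rintro m ⟨h1, h2⟩
    obtain ⟨k, hk⟩ := near_half_pi (θ m)
    refine ⟨k, hk.trans ?_⟩
    have h3 : |(J m).re| ≤ ‖J m‖ / (m : ℝ) ^ 3 := h1
    have hn : 0 < ‖J m‖ := norm_pos_iff.2 (hJ m h2)
    have hm1 : (0 : ℝ) < m := by
      have : 0 < m := by omega
      exact_mod_cast this
    rw [hre m h2, abs_mul, abs_of_pos hn, div_eq_mul_one_div] at h3
    have h4 : |Real.cos (θ m)| ≤ 1 / (m : ℝ) ^ 3 := le_of_mul_le_mul_left h3 hn
    have hpi := Real.pi_lt_d2
    calc π / 2 * |Real.cos (θ m)| ≤ 2 * (1 / (m : ℝ) ^ 3) := by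
          gcongr
          linarith
      _ = 2 / (m : ℝ) ^ 3 := by ring
  refine ⟨m0, ?_⟩
  apply count_bound {m | m ∈ Ex ∧ m0 ≤ m} M0 hM02
  intro M hM m1 m2 m3 h1 h2 h3 h4 h5 h6 h7
  exact hM0 M hM m1 m2 m3 h4 h5 h6 h7 (hE m1 h1) (hE m2 h2) (hE m3 h3)

/-- two consecutive values cannot both have small real part -/
lemma Sad.consecutive {m : ℕ} (S : Sad m) (hl : 4 * QQ ≤ S.l) (hl2 : 1736 * QQ * S.U ^ 3 ≤ S.l) :
    1 / (8 * S.U) ≤ max (|(J m).re| / ‖J m‖) (|(J (m + 1)).re| / ‖J (m + 1)‖) := by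
  obtain ⟨h0, h1, h2, _⟩ := S.ratio hl
  have hU := S.U_pos
  have hU4 := S.hU
  have hlp := S.l_pos
  have hl1 := S.l_ge
  have hQ := QQ_ge
  have hUe : (S.U : ℂ) * S.e ≠ 0 := mul_ne_zero S.U_ne S.e_ne
  have hC := S.C_ne
  have j0 : S.P 0 * S.C = J m := by
    unfold Sad.P
    rw [pow_zero, mul_one, add_zero, div_mul_cancel₀ _ hC]
  have j1 : S.P 1 * (S.C * (S.U * S.e)) = J (m + 1) := by
    unfold Sad.P
    rw [pow_one, div_mul_cancel₀ _ (mul_ne_zero hC hUe)]
  have hP0 : S.P 0 ≠ 0 := by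
    intro h
    rw [h, zero_mul] at j0
    exact h0 j0.symm
  -- J(m+1)/J(m) = U e (1 + w)
  set w := (S.P 1 - S.P 0) / S.P 0 with hw
  have hq : J (m + 1) / J m = (S.U : ℂ) * (S.e * (1 + w)) := by
    rw [← j0, ← j1, hw]
    field_simp
    ring
  have hwn : ‖w‖ ≤ 1 / (2 * S.U) := by
    rw [hw, norm_div, div_le_iff₀ (norm_pos_iff.2 hP0)]
    refine S.e1_bound.trans ?_
    have h3 : 1 / (2 * S.U) * (1 / (2 * S.l)) ≤ 1 / (2 * S.U) * ‖S.P 0‖ := by gcongr
    refine le_trans ?_ h3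
    rw [div_mul_div_comm, div_le_div_iff₀ (by positivity) (by positivity)]
    have h4 : QQ * S.U ≤ S.l := by
      have : QQ * S.U ≤ 1736 * QQ * S.U ^ 3 := by
        have h5 : S.U ≤ 1736 * S.U ^ 3 := by
          have : (1 : ℝ) ≤ S.U ^ 2 := one_le_pow₀ (by linarith)
          nlinarith
        nlinarith
      linarith
    have h6 : 4 * S.l ≤ S.l ^ 2 * 1 := by nlinarith
    calc QQ * (2 * S.U * (2 * S.l)) = (QQ * S.U) * (4 * S.l) := by ring
      _ ≤ S.l * (S.l ^ 2 * 1) := by gcongr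
      _ = 1 * 1 * S.l ^ 3 := by ring
  -- imaginary part of e (1 + w)
  set v := S.e * (1 + w) with hv
  have hvn : ‖v‖ ≤ 2 := by
    rw [hv, norm_mul, S.he, one_mul]
    refine (norm_add_le _ _).trans ?_
    have : 1 / (2 * S.U) ≤ 1 := by
      rw [div_le_one (by positivity)]; linarith
    rw [norm_one]
    linarith
  have hvim : 1 / (2 * S.U) ≤ v.im := by
    have h5 : v = S.e + S.e * w := by rw [hv]; ring
    rw [h5, Complex.add_im]
    have h6 : |(S.e * w).im| ≤ 1 / (2 * S.U) := by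
      refine (Complex.abs_im_le_norm _).trans ?_
      rw [norm_mul, S.he, one_mul]
      exact hwn
    rw [abs_le] at h6
    have h7 := S.him
    have h8 : 1 / S.U = 1 / (2 * S.U) + 1 / (2 * S.U) := by field_simp; norm_num
    linarith [h6.1]
  have hn0 : 0 < ‖J m‖ := norm_pos_iff.2 h0
  have hn1 : 0 < ‖J (m + 1)‖ := norm_pos_iff.2 h1
  have hratio : J (m + 1) = (S.U : ℂ) * v * J m := by
    rw [← hq]; field_simp
  have hnorm : ‖J (m + 1)‖ = S.U * ‖v‖ * ‖J m‖ := by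
    rw [hratio, norm_mul, norm_mul, Complex.norm_real, Real.norm_of_nonneg hU.le]
  have hv0 : 0 < ‖v‖ := by
    have h9 := Complex.abs_im_le_norm v
    have : 0 < 1 / (2 * S.U) := by positivity
    have := le_abs_self v.im
    linarith
  -- Im (J(m+1) conj (J m)) = U v.im ‖J m‖^2
  have him : S.U * v.im * ‖J m‖ ^ 2 ≤ |(J m).re| * ‖J (m + 1)‖ + |(J (m + 1)).re| * ‖J m‖ := by
    have h10 : S.U * v.im * ‖J m‖ ^ 2 =
        (J (m + 1)).im * (J m).re - (J (m + 1)).re * (J m).im := by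
      rw [hratio, Complex.sq_norm, Complex.normSq_apply]
      simp only [Complex.mul_im, Complex.mul_re, Complex.ofReal_re, Complex.ofReal_im, zero_mul,
        sub_zero, add_zero]
      ring
    rw [h10]
    have a1 := Complex.abs_im_le_norm (J (m + 1))
    have a2 := Complex.abs_im_le_norm (J m)
    calc (J (m + 1)).im * (J m).re - (J (m + 1)).re * (J m).im
        ≤ |(J (m + 1)).im * (J m).re| + |(J (m + 1)).re * (J m).im| := by
          have := le_abs_self ((J (m + 1)).im * (J m).re)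
          have := neg_abs_le ((J (m + 1)).re * (J m).im)
          linarith
      _ = |(J m).re| * |(J (m + 1)).im| + |(J (m + 1)).re| * |(J m).im| := by
          rw [abs_mul, abs_mul]; ring
      _ ≤ _ := by gcongr
  by_contra hcon
  push Not at hcon
  rw [max_lt_iff, div_lt_iff₀ hn0, div_lt_iff₀ hn1] at hcon
  obtain ⟨c1, c2⟩ := hcon
  have h11 : S.U * v.im * ‖J m‖ ^ 2 < 2 * (1 / (8 * S.U) * ‖J m‖ * ‖J (m + 1)‖) := by
    calc _ ≤ |(J m).re| * ‖J (m + 1)‖ + |(J (m + 1)).re| * ‖J m‖ := him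
      _ < (1 / (8 * S.U) * ‖J m‖) * ‖J (m + 1)‖ + (1 / (8 * S.U) * ‖J (m + 1)‖) * ‖J m‖ := by
          gcongr
      _ = _ := by ring
  rw [hnorm] at h11
  have h12 : 2 * (1 / (8 * S.U) * ‖J m‖ * (S.U * ‖v‖ * ‖J m‖)) = ‖v‖ / 4 * ‖J m‖ ^ 2 := by
    field_simp
    norm_num
  rw [h12] at h11
  have h13 : S.U * v.im < ‖v‖ / 4 := lt_of_mul_lt_mul_right h11 (by positivity)
  have h14 : S.U * (1 / (2 * S.U)) ≤ S.U * v.im := by gcongr
  have h15 : S.U * (1 / (2 * S.U)) = 1 / 2 := by field_simp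
  linarith

end Pool.Agent.Stj
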