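import Mathlib

open Complex Set Filter MeasureTheory Topology
open scoped Real

namespace Pool.Agent.Stj

lemma integral_exp_abs {k : ℝ} (hk : 0 < k) : ∫ x : ℝ, Real.exp (-(k * |x|)) = 2 / k := by
  have h := integral_comp_abs (f := fun t : ℝ => Real.exp (-k * t))
  have h2 := integral_exp_mul_Ioi (a := -k) (by linarith) 0
  rw [h2] at h
  simp only [neg_mul] at h
  rw [h]
  simp only [mul_zero, neg_zero, Real.exp_zero]
  field_simp

lemma integrable_exp_abs {k : ℝ} (hk : 0 < k) :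
    Integrable (fun x : ℝ => Real.exp (-(k * |x|))) := by
  apply Integrable.of_integral_ne_zero
  rw [integral_exp_abs hk]
  positivity

lemma gauss0 {b : ℂ} (hb : 0 < b.re) : Integrable (fun x : ℝ => Complex.exp (-b * (x : ℂ) ^ 2)) :=
  integrable_cexp_neg_mul_sq hb

lemma gauss2_int {b : ℂ} (hb : 0 < b.re) :
    Integrable (fun x : ℝ => (x : ℂ) ^ 2 * Complex.exp (-b * (x : ℂ) ^ 2)) := by
  have h := integrable_rpow_mul_exp_neg_mul_sq hb (s := 2) (by norm_num)
  refine Integrable.mono' h ?_ ?_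
  · exact (by fun_prop : Continuous (fun x : ℝ => (x : ℂ) ^ 2 * Complex.exp (-b * (x : ℂ) ^ 2))).aestronglyMeasurable
  · refine ae_of_all _ fun x => ?_
    rw [norm_mul, norm_pow, Complex.norm_real, Real.norm_eq_abs, sq_abs, norm_cexp_neg_mul_sq,
      Real.rpow_two]

lemma gauss1_int {b : ℂ} (hb : 0 < b.re) :
    Integrable (fun x : ℝ => (x : ℂ) * Complex.exp (-b * (x : ℂ) ^ 2)) :=
  integrable_mul_cexp_neg_mul_sq hb

lemma gauss1 (b : ℂ) :
    ∫ x : ℝ, (x : ℂ) * Complex.exp (-b * (x : ℂ) ^ 2) = 0 := by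
  have h := integral_neg_eq_self (fun x : ℝ => (x : ℂ) * Complex.exp (-b * (x : ℂ) ^ 2)) volume
  simp only [Complex.ofReal_neg, neg_sq, neg_mul, integral_neg] at h
  have h2 : (2 : ℂ) * ∫ x : ℝ, (x : ℂ) * Complex.exp (-(b * (x : ℂ) ^ 2)) = 0 := by
    linear_combination -h
  simpa using h2

lemma gauss2 {b : ℂ} (hb : 0 < b.re) :
    ∫ x : ℝ, (x : ℂ) ^ 2 * Complex.exp (-b * (x : ℂ) ^ 2) = (π / b) ^ (1 / 2 : ℂ) / (2 * b) := by
  have hb0 : b ≠ 0 := by
    rintro rfl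
    simp at hb
  have hd : ∀ x : ℝ, HasDerivAt (fun x : ℝ => (x : ℂ) * Complex.exp (-b * (x : ℂ) ^ 2))
      (Complex.exp (-b * (x : ℂ) ^ 2) - 2 * b * ((x : ℂ) ^ 2 * Complex.exp (-b * (x : ℂ) ^ 2))) x := by
    intro x
    have h1 : HasDerivAt (fun x : ℝ => (x : ℂ)) 1 x := Complex.ofRealCLM.hasDerivAt
    have h2 := (((h1.pow 2).const_mul (-b)).cexp)
    refine (h1.mul h2).congr_deriv ?_
    push_cast
    simp only [pow_one, Pi.pow_apply]
    ring
  have i0 := gauss0 hb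
  have i2 := gauss2_int hb
  have i1 := gauss1_int hb
  have key := integral_eq_zero_of_hasDerivAt_of_integrable hd
    (i0.sub (i2.const_mul (2 * b))) i1
  have key2 : (∫ x : ℝ, Complex.exp (-b * (x : ℂ) ^ 2)) -
      2 * b * ∫ x : ℝ, (x : ℂ) ^ 2 * Complex.exp (-b * (x : ℂ) ^ 2) = 0 := by
    rw [← integral_const_mul, ← integral_sub i0 (i2.const_mul (2 * b))]
    exact key
  rw [integral_gaussian_complex hb] at key2
  rw [eq_div_iff (by simpa using hb0)]
  linear_combination -key2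

lemma half_cpow_sq (w : ℂ) : (w ^ (1 / 2 : ℂ)) ^ 2 = w := by
  have := Complex.cpow_nat_inv_pow w (n := 2) (by norm_num)
  rwa [show (((2 : ℕ) : ℂ)⁻¹) = 1 / 2 by norm_num] at this

end Pool.Agent.Stj
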