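import Mathlib

open Set Filter Topology

namespace Pool.Agent.Stj

/-- `F k` is the `k`-th derivative of `F 0` on `[u, v]`. -/
def Chain (F : ℕ → ℝ → ℝ) (u v : ℝ) : Prop :=
  ∀ k, ∀ x ∈ Icc u v, HasDerivAt (F k) (F (k + 1) x) x

lemma Chain.shift {F : ℕ → ℝ → ℝ} {u v : ℝ} (h : Chain F u v) : Chain (fun k => F (k + 1)) u v :=
  fun k x hx => h (k + 1) x hx

lemma Chain.rolle {F : ℕ → ℝ → ℝ} {u v : ℝ} (h : Chain F u v) (n : ℕ) (z : Fin (n + 1) → ℝ)
    (hz : StrictMono z) (hmem : ∀ i, z i ∈ Icc u v) (h0 : ∀ i, F 0 (z i) = 0) :
    ∃ ξ ∈ Icc u v, F n ξ = 0 := by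
  induction n generalizing F with
  | zero => exact ⟨z 0, hmem 0, h0 0⟩
  | succ n ih =>
    have key : ∀ i : Fin (n + 1), ∃ c ∈ Ioo (z i.castSucc) (z i.succ), F 1 c = 0 := by
      intro i
      have hlt : z i.castSucc < z i.succ := hz (Fin.castSucc_lt_succ)
      have hsub : ∀ x ∈ Icc (z i.castSucc) (z i.succ), x ∈ Icc u v := fun x hx =>
        ⟨(hmem i.castSucc).1.trans hx.1, hx.2.trans (hmem i.succ).2⟩
      obtain ⟨c, hc, hc0⟩ := exists_hasDerivAt_eq_zero hlt
        (fun x hx => (h 0 x (hsub x hx)).continuousAt.continuousWithinAt)
        (by rw [h0, h0]) (f' := F 1) (fun x hx => h 0 x (hsub x (Ioo_subset_Icc_self hx)))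
      exact ⟨c, hc, hc0⟩
    choose w hw hw0 using key
    have hwm : StrictMono w := by
      rw [Fin.strictMono_iff_lt_succ]
      intro i
      have h1 := (hw i.castSucc).2
      have h2 := (hw i.succ).1
      have h3 : z (i.castSucc).succ = z (i.succ).castSucc := by
        congr 1
      rw [h3] at h1
      exact h1.trans h2
    obtain ⟨ξ, hξ, hξ0⟩ := ih h.shift w hwm
      (fun i => ⟨(hmem i.castSucc).1.trans (hw i).1.le, (hw i).2.le.trans (hmem i.succ).2⟩) hw0
    exact ⟨ξ, hξ, hξ0⟩

/-- the chain of a polynomial -/
lemma chain_poly (P : Polynomial ℝ) (u v : ℝ) :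
    Chain (fun k x => (Polynomial.derivative^[k] P).eval x) u v := by
  intro k x _
  have := (Polynomial.derivative^[k] P).hasDerivAt x
  rw [← Function.iterate_succ_apply' Polynomial.derivative k P] at this
  exact this

lemma Chain.add {F G : ℕ → ℝ → ℝ} {u v : ℝ} (hF : Chain F u v) (hG : Chain G u v) :
    Chain (fun k x => F k x + G k x) u v :=
  fun k x hx => (hF k x hx).add (hG k x hx)

lemma Chain.const_mul {F : ℕ → ℝ → ℝ} {u v : ℝ} (hF : Chain F u v) (c : ℝ) :
    Chain (fun k x => c * F k x) u v :=
  fun k x hx => (hF k x hx).const_mul c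

lemma Chain.sum {ι : Type*} (s : Finset ι) {F : ι → ℕ → ℝ → ℝ} {u v : ℝ}
    (hF : ∀ i ∈ s, Chain (F i) u v) : Chain (fun k x => ∑ i ∈ s, F i k x) u v :=
  fun k x hx => HasDerivAt.fun_sum fun i hi => hF i hi k x hx

lemma iterate_derivative_prod (r : ℕ) (z : Fin r → ℝ) :
    Polynomial.derivative^[r] (∏ i, (Polynomial.X - Polynomial.C (z i))) =
      Polynomial.C (r.factorial : ℝ) := by
  set P : Polynomial ℝ := ∏ i, (Polynomial.X - Polynomial.C (z i)) with hP
  have hmon : P.Monic := Polynomial.monic_prod_of_monic _ _ fun i _ => Polynomial.monic_X_sub_C _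
  have hdeg : P.natDegree = r := by
    rw [hP, Polynomial.natDegree_prod_of_monic _ _ fun i _ => Polynomial.monic_X_sub_C _]
    simp
  have h1 : (Polynomial.derivative^[r] P).natDegree = 0 := by
    have := Polynomial.natDegree_iterate_derivative P r
    omega
  rw [Polynomial.eq_C_of_natDegree_eq_zero h1, Polynomial.coeff_iterate_derivative]
  congr 1
  have h2 : P.coeff (0 + r) = 1 := by
    rw [zero_add]
    have := hmon.coeff_natDegree
    rwa [hdeg] at this
  rw [h2, zero_add, Nat.descFactorial_self]
  simp

/-- zero factor lemma -/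
lemma Chain.zero_factor {F : ℕ → ℝ → ℝ} {u v : ℝ} (h : Chain F u v) (r : ℕ) (z : Fin r → ℝ)
    (hz : StrictMono z) (hmem : ∀ i, z i ∈ Icc u v) (h0 : ∀ i, F 0 (z i) = 0) (x : ℝ)
    (hx : x ∈ Icc u v) (hzx : ∀ i, z i < x) :
    ∃ ξ ∈ Icc u v, F 0 x = (∏ i, (x - z i)) * (F r ξ / r.factorial) := by
  set P : Polynomial ℝ := ∏ i, (Polynomial.X - Polynomial.C (z i)) with hP
  have hPx : P.eval x = ∏ i, (x - z i) := by
    rw [hP, Polynomial.eval_prod]; simp
  have hPpos : 0 < ∏ i, (x - z i) := Finset.prod_pos fun i _ => by linarith [hzx i]
  set lam : ℝ := F 0 x / ∏ i, (x - z i) with hlam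
  have hG : Chain (fun k y => F k y + -lam * (Polynomial.derivative^[k] P).eval y) u v :=
    h.add ((chain_poly P u v).const_mul (-lam))
  set w : Fin (r + 1) → ℝ := Fin.snoc z x with hw
  have hwm : StrictMono w := by
    rw [hw]
    intro i j hij
    induction j using Fin.lastCases with
    | last =>
      induction i using Fin.lastCases with
      | last => exact absurd hij (lt_irrefl _)
      | cast i => simp [hzx i]
    | cast j =>
      induction i using Fin.lastCases with
      | last => exact absurd hij (not_lt.2 (Fin.le_last _))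
      | cast i =>
        simp only [Fin.snoc_castSucc]
        exact hz (by simpa using hij)
  obtain ⟨ξ, hξ, hξ0⟩ := hG.rolle r w hwm
    (by
      intro i
      induction i using Fin.lastCases with
      | last => simpa [hw] using hx
      | cast i => simpa [hw] using hmem i)
    (by
      intro i
      induction i using Fin.lastCases with
      | last =>
        simp only [hw, Fin.snoc_last, Function.iterate_zero, id]
        rw [hPx, hlam]
        field_simp
        ring
      | cast i =>
        simp only [hw, Fin.snoc_castSucc, Function.iterate_zero, id]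
        rw [h0 i]
        have : P.eval (z i) = 0 := by
          rw [hP, Polynomial.eval_prod]
          exact Finset.prod_eq_zero (Finset.mem_univ i) (by simp)
        rw [this]
        simp)
  refine ⟨ξ, hξ, ?_⟩
  rw [hP, iterate_derivative_prod, Polynomial.eval_C] at hξ0
  have h2 : F r ξ = lam * r.factorial := by linarith
  rw [h2, hlam]
  have : (r.factorial : ℝ) ≠ 0 := by positivity
  field_simp

/-- Schwarz' mean value theorem for determinants (inequality form). -/
lemma det_bound {n : ℕ} (Φ : Fin n → ℕ → ℝ → ℝ) {u v : ℝ} (huv : u ≤ v)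
    (hΦ : ∀ i, Chain (Φ i) u v) (η : Fin n → ℝ) (hη : StrictMono η) (hmem : ∀ j, η j ∈ Icc u v) :
    ∃ ξ : Fin n → ℝ, (∀ j, ξ j ∈ Icc u v) ∧
      |(Matrix.of fun i j => Φ i 0 (η j)).det| ≤
        (v - u) ^ (∑ j : Fin n, (j : ℕ)) *
          |(Matrix.of fun (i j : Fin n) => Φ i (j : ℕ) (ξ j)).det| := by
  -- intermediate statement: the last `k` columns are replaced
  have key : ∀ k : ℕ, k ≤ n → ∃ ξ : Fin n → ℝ, (∀ j, ξ j ∈ Icc u v) ∧
      |(Matrix.of fun i j => Φ i 0 (η j)).det| ≤
        (v - u) ^ (∑ j : Fin n, if (j : ℕ) < n - k then 0 else (j : ℕ)) *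
        |(Matrix.of fun i (j : Fin n) =>
          if (j : ℕ) < n - k then Φ i 0 (η j) else Φ i (j : ℕ) (ξ j)).det| := by
    intro k
    induction k with
    | zero =>
      intro _
      refine ⟨η, hmem, ?_⟩
      have h1 : (∑ j : Fin n, if (j : ℕ) < n - 0 then 0 else (j : ℕ)) = 0 := by
        apply Finset.sum_eq_zero
        intro j _
        rw [if_pos]
        simp
      rw [h1, pow_zero, one_mul]
      apply le_of_eq
      congr 2
      ext i j
      simp only [Matrix.of_apply]
      rw [if_pos]
      simp
    | succ k ih =>
      intro hk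
      obtain ⟨ξ, hξ, hle⟩ := ih (by omega)
      -- the column to be replaced
      set r : Fin n := ⟨n - (k + 1), by omega⟩ with hr
      have hrval : (r : ℕ) = n - (k + 1) := rfl
      set A : Matrix (Fin n) (Fin n) ℝ := Matrix.of fun i (j : Fin n) =>
          if (j : ℕ) < n - k then Φ i 0 (η j) else Φ i (j : ℕ) (ξ j) with hA
      -- the function of the column
      set G : ℕ → ℝ → ℝ := fun q x => ∑ i, A.cramer (Pi.single i 1) r * Φ i q x with hG
      have hGdet : ∀ q x, G q x = (A.updateCol r (fun i => Φ i q x)).det := by
        intro q x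
        rw [← Matrix.cramer_apply]
        have h2 : (fun i => Φ i q x) = ∑ i, Φ i q x • (Pi.single i (1 : ℝ) : Fin n → ℝ) := by
          ext i
          simp [Finset.sum_apply, Pi.single_apply]
        rw [h2, map_sum, Finset.sum_apply]
        simp only [hG, map_smul, Pi.smul_apply, smul_eq_mul]
        apply Finset.sum_congr rfl
        intro i _
        ring
      have hGc : Chain G u v := Chain.sum _ fun i _ => (hΦ i).const_mul _
      have hG0 : G 0 (η r) = A.det := by
        rw [hGdet]
        congr 1
        ext i j
        rw [Matrix.updateCol_apply]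
        split_ifs with hj
        · rw [hj, hA, Matrix.of_apply, if_pos]
          rw [hrval]; omega
        · rfl
      -- zeros of G 0
      obtain ⟨x, hx, hGx⟩ := hGc.zero_factor (r : ℕ) (fun l : Fin (r : ℕ) => η ⟨l, by omega⟩)
        (by
          intro a b hab
          apply hη
          simpa using hab)
        (fun l => hmem _)
        (by
          intro l
          rw [hGdet]
          apply Matrix.det_zero_of_column_eq (i := r) (j := ⟨l, by omega⟩)
          · intro h
            have := congrArg Fin.val h
            simp only at this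
            have hl := l.2
            omega
          · intro i
            rw [Matrix.updateCol_self, Matrix.updateCol_ne]
            · rw [hA, Matrix.of_apply, if_pos]
              have hl := l.2
              simp only
              omega
            · intro h
              have := congrArg Fin.val h
              simp only at this
              have hl := l.2
              omega)
        (η r) (hmem r)
        (by
          intro l
          apply hη
          rw [Fin.lt_def]
          exact l.2)
      refine ⟨Function.update ξ r x, ?_, ?_⟩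
      · intro j
        by_cases hj : j = r
        · subst hj; rw [Function.update_self]; exact hx
        · rw [Function.update_of_ne hj]; exact hξ j
      · have e1 : (Matrix.of fun i (j : Fin n) =>
            if (j : ℕ) < n - (k + 1) then Φ i 0 (η j)
              else Φ i (j : ℕ) (Function.update ξ r x j)) =
            A.updateCol r (fun i => Φ i (r : ℕ) x) := by
          ext i j
          rw [Matrix.updateCol_apply, Matrix.of_apply]
          by_cases hj : j = r
          · rw [if_pos hj, hj, Function.update_self, if_neg]
            rw [hrval]; omega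
          · rw [if_neg hj, Function.update_of_ne hj, hA, Matrix.of_apply]
            have hjr : (j : ℕ) ≠ n - (k + 1) := by
              intro h
              apply hj
              rw [Fin.ext_iff, hrval]
              exact h
            by_cases hlt : (j : ℕ) < n - (k + 1)
            · rw [if_pos hlt, if_pos (by omega)]
            · rw [if_neg hlt, if_neg (by omega)]
        rw [e1, ← hGdet]
        have e2 : (∑ j : Fin n, if (j : ℕ) < n - (k + 1) then 0 else (j : ℕ)) =
            (r : ℕ) + ∑ j : Fin n, if (j : ℕ) < n - k then 0 else (j : ℕ) := by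
          have h3 : ∀ j : Fin n, (if (j : ℕ) < n - (k + 1) then 0 else (j : ℕ)) =
              (if j = r then (r : ℕ) else 0) + if (j : ℕ) < n - k then 0 else (j : ℕ) := by
            intro j
            by_cases hj : j = r
            · rw [if_pos hj, hj, if_neg (by rw [hrval]; omega), if_pos (by rw [hrval]; omega)]
              simp
            · have hjr : (j : ℕ) ≠ n - (k + 1) := by
                intro h
                apply hj
                rw [Fin.ext_iff, hrval]
                exact h
              rw [if_neg hj]
              by_cases hlt : (j : ℕ) < n - (k + 1)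
              · rw [if_pos hlt, if_pos (by omega)]
              · rw [if_neg hlt, if_neg (by omega)]
                simp
          simp_rw [h3]
          rw [Finset.sum_add_distrib]
          simp
        rw [e2, pow_add]
        rw [← hG0, hGx] at hle
        refine hle.trans ?_
        have hvu : 0 ≤ v - u := by linarith
        have h4 : |(∏ i : Fin (r : ℕ), (η r - η ⟨i, by omega⟩)) * (G (r : ℕ) x / (r : ℕ).factorial)| ≤
            (v - u) ^ (r : ℕ) * |G (r : ℕ) x| := by
          rw [abs_mul, abs_div]
          have h5 : |∏ i : Fin (r : ℕ), (η r - η ⟨i, by omega⟩)| ≤ (v - u) ^ (r : ℕ) := by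
            rw [Finset.abs_prod]
            calc ∏ i : Fin (r : ℕ), |η r - η ⟨i, by omega⟩| ≤ ∏ i : Fin (r : ℕ), (v - u) := by
                  apply Finset.prod_le_prod
                  · intro i _; exact abs_nonneg _
                  · intro i _
                    rw [abs_le]
                    have h6 := hmem r
                    have h7 := hmem ⟨i, by omega⟩
                    constructor <;> linarith [h6.1, h6.2, h7.1, h7.2]
              _ = (v - u) ^ (r : ℕ) := by simp
          have h8 : |G (r : ℕ) x| / |((r : ℕ).factorial : ℝ)| ≤ |G (r : ℕ) x| := by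
            apply div_le_self (abs_nonneg _)
            rw [abs_of_nonneg (by positivity)]
            exact_mod_cast Nat.one_le_iff_ne_zero.2 (Nat.factorial_ne_zero _)
          gcongr
        calc _ ≤ (v - u) ^ (∑ j : Fin n, if (j : ℕ) < n - k then 0 else (j : ℕ)) *
              ((v - u) ^ (r : ℕ) * |G (r : ℕ) x|) := by gcongr
          _ = _ := by ring
  obtain ⟨ξ, hξ, hle⟩ := key n le_rfl
  refine ⟨ξ, hξ, ?_⟩
  simpa using hle

end Pool.Agent.Stj
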