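import Pool.Agent.Stj.Near
import Pool.Agent.Stj.Interp

open Complex Set Filter MeasureTheory Topology Metric
open scoped Real NNReal

namespace Pool.Agent.Stj

lemma iter_hasDerivAt {f : ℂ → ℂ} {r : ℝ} (hf : ∀ z, ‖z‖ < r → DifferentiableAt ℂ f z) (k : ℕ)
    {z : ℂ} (hz : ‖z‖ < r) : HasDerivAt (iteratedDeriv k f) (iteratedDeriv (k + 1) f z) z := by
  have h1 : AnalyticAt ℂ f z := by
    have h2 : DifferentiableOn ℂ f (ball 0 r) := fun w hw =>
      (hf w (mem_ball_zero_iff.1 hw)).differentiableWithinAt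
    exact h2.analyticAt (isOpen_ball.mem_nhds (mem_ball_zero_iff.2 hz))
  have h3 := (h1.iterated_deriv k).differentiableAt.hasDerivAt
  rw [iteratedDeriv_succ, iteratedDeriv_eq_iterate]
  exact h3

lemma iter_bound {f : ℂ → ℂ} {r K : ℝ} (hr : 0 < r)
    (hf : ∀ z, ‖z‖ < r → DifferentiableAt ℂ f z) (hK : ∀ z, ‖z‖ < r → ‖f z‖ ≤ K) (k : ℕ)
    {z : ℂ} (hz : ‖z‖ ≤ r / 2) : ‖iteratedDeriv k f z‖ ≤ k.factorial * K / (r / 4) ^ k := by
  apply Complex.norm_iteratedDeriv_le_of_forall_mem_sphere_norm_le k (by positivity)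
  · apply DifferentiableOn.diffContOnCl_ball (U := ball 0 r)
    · intro w hw
      exact (hf w (mem_ball_zero_iff.1 hw)).differentiableWithinAt
    · intro w hw
      rw [mem_closedBall, dist_eq_norm] at hw
      rw [mem_ball_zero_iff]
      have := norm_sub_norm_le w z
      linarith
  · intro w hw
    apply hK
    rw [mem_sphere, dist_eq_norm] at hw
    have := norm_sub_norm_le w z
    linarith

/-- the derivatives of `e^η p(η)` -/
noncomputable def Fk (u1 : ℂ) (k : ℕ) (η : ℂ) : ℂ :=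
  Complex.exp η * ((Complex.log u1 + (1 / (1 + u1)) * η - (1 / (1 + u1)) ^ 2 / 2 * η ^ 2) +
    k * ((1 / (1 + u1)) - (1 / (1 + u1)) ^ 2 * η) - (k * (k - 1) / 2) * (1 / (1 + u1)) ^ 2)

lemma Fk_zero (u1 η : ℂ) : Fk u1 0 η = Complex.exp η * UF.p u1 η := by
  unfold Fk UF.p
  push_cast
  ring

lemma Fk_hasDerivAt (u1 : ℂ) (k : ℕ) (η : ℂ) : HasDerivAt (Fk u1 k) (Fk u1 (k + 1) η) η := by
  unfold Fk
  set b := 1 / (1 + u1) with hb
  set a := Complex.log u1 with ha
  have e1 : HasDerivAt (fun η : ℂ => a + b * η) (b * 1) η :=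
    ((hasDerivAt_id η).const_mul b).const_add a
  have e2 : HasDerivAt (fun η : ℂ => b ^ 2 / 2 * η ^ 2) (b ^ 2 / 2 * (2 * η)) η := by
    have := (hasDerivAt_pow 2 η).const_mul (b ^ 2 / 2)
    simpa using this
  have e3 : HasDerivAt (fun η : ℂ => (k : ℂ) * (b - b ^ 2 * η)) (k * (-(b ^ 2 * 1))) η :=
    (((hasDerivAt_id η).const_mul (b ^ 2)).const_sub b).const_mul (k : ℂ)
  have e4 := ((e1.fun_sub e2).fun_add e3).sub_const ((k : ℂ) * (k - 1) / 2 * b ^ 2)
  have e5 := (Complex.hasDerivAt_exp η).fun_mul e4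
  refine e5.congr_deriv ?_
  push_cast
  ring

namespace Sad

variable {m : ℕ} (S : Sad m)

/-- the real parameter -/
lemma m_eq_u1 : (m : ℂ) = -(2 * π * I) * S.u1 * Complex.exp S.u1 := by
  have h1 : Complex.exp S.u1 = S.R * (I * (starRingEnd ℂ) S.e) := S.hexp
  have h2 : S.e * (starRingEnd ℂ) S.e = 1 := by
    rw [Complex.mul_conj, Complex.normSq_eq_norm_sq, S.he]
    norm_num
  have h3 : (m : ℂ) = 2 * π * S.R * S.U := by exact_mod_cast S.hm
  rw [h1, h3]
  unfold u1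
  have hI : I * I = -1 := Complex.I_mul_I
  linear_combination (2 * π * S.R * S.U * (I * I)) * h2 + (2 * π * S.R * S.U) * hI

end Sad

/-- Everything needed locally. -/
structure Loc (m : ℕ) where
  S : Sad m
  Q : UF S.u1
  hU5 : 10 ^ 4 + 1 ≤ S.U
  hbig : ∀ V, S.U - 1 ≤ V → (Real.log V + 2) ^ 2 ≤ V / 200
  hl : (4 * (400 * Sad.K 0 + 1)) ^ 2 ≤ Real.exp (S.U / 2)

namespace Loc

variable {m : ℕ} (T : Loc m)

/-- radius -/
noncomputable def ρ : ℝ := 1 / (2000 * T.S.U)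

lemma U_pos : 0 < T.S.U := T.S.U_pos

lemma ρ_pos : 0 < T.ρ := by
  unfold ρ
  have := T.U_pos
  positivity

lemma ρ_lt : T.ρ < 1 / 4 := by
  unfold ρ
  have h1 := T.hU5
  norm_num at h1
  rw [div_lt_div_iff₀ (by linarith) (by norm_num)]
  linarith

lemma lt4 {η : ℂ} (hη : ‖η‖ < T.ρ) : ‖η‖ < 1 / 4 := hη.trans T.ρ_lt

/-- the saddle point function -/
noncomputable def u (η : ℂ) : ℂ := T.Q.uu η

lemma csad {η : ℂ} (hη : ‖η‖ < T.ρ) : Nonempty (CSad (T.u η)) := by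
  apply T.S.near T.hU5 T.hbig
  have h1 := T.Q.hnear η (T.lt4 hη)
  refine h1.trans ?_
  have h2 : 2 * T.ρ = 1 / (1000 * T.S.U) := by
    unfold ρ
    have := T.U_pos
    field_simp
    norm_num
  rw [← h2]
  linarith

lemma norm_u1 : ‖T.S.u1‖ = T.S.U := T.S.norm_u1

lemma s_eq {η : ℂ} (hη : ‖η‖ < 1 / 4) :
    -(2 * π * I) * T.u η * Complex.exp (T.u η) = m * Complex.exp η := by
  have h1 := T.Q.u_exp hη
  rw [T.S.m_eq_u1]
  unfold u
  linear_combination (-(2 * π * I)) * h1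

/-- the main exponent -/
noncomputable def mainE (η : ℂ) : ℂ :=
  m * Complex.exp η * T.Q.g η + 2 * π * I * Complex.exp (T.u η)

lemma mainE_hasDerivAt {η : ℂ} (hη : ‖η‖ < 1 / 4) :
    HasDerivAt T.mainE (m * Complex.exp η * T.Q.g η) η := by
  have h1 : HasDerivAt (fun η : ℂ => (m : ℂ) * Complex.exp η) (m * Complex.exp η) η :=
    (Complex.hasDerivAt_exp η).const_mul _
  have h2 := h1.fun_mul (T.Q.hasDerivAt_g hη)
  have h3 := ((T.Q.hder η hη).cexp).const_mul (2 * π * I)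
  have h4 := h2.fun_add h3
  refine h4.congr_deriv ?_
  have h5 := T.s_eq hη
  unfold u at h5
  have := T.Q.one_add_ne hη
  field_simp
  linear_combination -h5

/-- `1 + w` -/
noncomputable def w1 (η : ℂ) : ℂ :=
  Jc (m * Complex.exp η) / (-4 * Complex.exp (T.mainE η) * CSad.A (T.u η))

lemma w1_spec {η : ℂ} (hη : ‖η‖ < T.ρ) : ‖T.w1 η - 1‖ ≤ 1 / 4 := by
  obtain ⟨C⟩ := T.csad hη
  have h4 := T.lt4 hη
  have hU := T.U_pos
  have hU5 := T.hU5
  norm_num at hU5
  have hl : 4 * (400 * Sad.K 0 + 1) ≤ C.l := by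
    unfold CSad.l
    apply Real.le_sqrt_of_sq_le
    refine T.hl.trans ?_
    unfold CSad.L
    rw [C.R_eq]
    have h1 : T.S.U / 2 ≤ (T.u η).re := by
      have h2 := T.Q.hnear η h4
      have h3 := Complex.abs_re_le_norm (T.Q.uu η - T.S.u1)
      rw [Complex.sub_re, T.S.u1_re] at h3
      have h5 := neg_abs_le ((T.Q.uu η).re - T.S.U * T.S.e.re)
      have h6 := T.S.hre
      unfold u
      nlinarith
    have h2 : Real.exp (T.S.U / 2) ≤ Real.exp (T.u η).re := Real.exp_le_exp.2 h1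
    have h3 := Real.pi_gt_three
    have h5 := Real.exp_pos (T.u η).re
    nlinarith
  obtain ⟨w, hw1, hw2⟩ := C.main hl
  have h5 : T.w1 η = 1 + w := by
    unfold w1
    rw [← T.s_eq h4]
    unfold mainE
    rw [← T.s_eq h4]
    have hA : CSad.A (T.u η) ≠ 0 := Complex.exp_ne_zero _
    rw [hw2, div_eq_iff (mul_ne_zero (mul_ne_zero (by norm_num) (Complex.exp_ne_zero _)) hA)]
    have h6 : -(2 * π * I) * T.u η * Complex.exp (T.u η) * T.Q.g η =
      -(2 * π * I) * T.u η * Complex.exp (T.u η) * Complex.log (T.u η) := rfl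
    rw [h6]
    ring
  rw [h5]
  simpa using hw1

lemma w1_slit {η : ℂ} (hη : ‖η‖ < T.ρ) : T.w1 η ∈ Complex.slitPlane := by
  rw [Complex.mem_slitPlane_iff]
  left
  have h1 := T.w1_spec hη
  have h2 := Complex.abs_re_le_norm (T.w1 η - 1)
  rw [Complex.sub_re, Complex.one_re] at h2
  have h3 := neg_abs_le ((T.w1 η).re - 1)
  linarith

/-- the remainder exponent -/
noncomputable def Rt (η : ℂ) : ℂ :=
  (T.u η + Complex.log (T.u η) - Complex.log (T.u η + 1) - I * (π / 2)) / 2 +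
    Complex.log (T.w1 η)

lemma u_slit {η : ℂ} (hη : ‖η‖ < 1 / 4) : T.u η ∈ Complex.slitPlane := by
  rw [Complex.mem_slitPlane_iff]
  left
  have := T.Q.re_pos hη
  unfold u
  linarith

lemma u1_slit {η : ℂ} (hη : ‖η‖ < 1 / 4) : T.u η + 1 ∈ Complex.slitPlane := by
  rw [Complex.mem_slitPlane_iff]
  left
  have := T.Q.re_pos hη
  unfold u
  rw [Complex.add_re, Complex.one_re]
  linarith

lemma u_diff {η : ℂ} (hη : ‖η‖ < 1 / 4) : DifferentiableAt ℂ T.u η :=
  (T.Q.hder η hη).differentiableAt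

lemma w1_diff {η : ℂ} (hη : ‖η‖ < T.ρ) : DifferentiableAt ℂ T.w1 η := by
  have h4 := T.lt4 hη
  obtain ⟨C⟩ := T.csad hη
  unfold w1
  apply DifferentiableAt.div
  · have h1 : 1 < ((m : ℂ) * Complex.exp η).re := by
      rw [← T.s_eq h4, ← C.s_eq]
      have h2 := C.s_re
      have h3 := C.L_ge
      have h5 := C.hU
      nlinarith
    have h2 := Jc_differentiableAt h1
    have h3 : DifferentiableAt ℂ (fun η : ℂ => (m : ℂ) * Complex.exp η) η := by fun_prop
    exact DifferentiableAt.comp (g := Jc) (f := fun η : ℂ => (m : ℂ) * Complex.exp η) η h2 h3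
  · apply DifferentiableAt.mul
    · apply DifferentiableAt.mul (by fun_prop)
      exact (T.mainE_hasDerivAt h4).differentiableAt.cexp
    · unfold CSad.A
      apply DifferentiableAt.cexp
      apply DifferentiableAt.div_const
      apply DifferentiableAt.sub _ (by fun_prop)
      apply DifferentiableAt.sub
      · exact (T.u_diff h4).add ((T.u_diff h4).clog (T.u_slit h4))
      · exact ((T.u_diff h4).add_const 1).clog (T.u1_slit h4)
  · exact mul_ne_zero (mul_ne_zero (by norm_num) (Complex.exp_ne_zero _)) (Complex.exp_ne_zero _)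

lemma Rt_diff {η : ℂ} (hη : ‖η‖ < T.ρ) : DifferentiableAt ℂ T.Rt η := by
  have h4 := T.lt4 hη
  unfold Rt
  apply DifferentiableAt.add
  · apply DifferentiableAt.div_const
    apply DifferentiableAt.sub _ (by fun_prop)
    apply DifferentiableAt.sub
    · exact (T.u_diff h4).add ((T.u_diff h4).clog (T.u_slit h4))
    · exact ((T.u_diff h4).add_const 1).clog (T.u1_slit h4)
  · exact (T.w1_diff hη).clog (T.w1_slit hη)

lemma norm_log_slit {v : ℂ} (h1 : 1 ≤ ‖v‖) : ‖Complex.log v‖ ≤ ‖v‖ + 3 := by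
  have h2 := norm_log_le' v
  have h3 := Complex.abs_arg_le_pi v
  have h4 : |Real.log ‖v‖| ≤ ‖v‖ - 1 := by
    rw [abs_of_nonneg (Real.log_nonneg h1)]
    exact Real.log_le_sub_one_of_pos (by linarith)
  have := Real.pi_lt_d2
  linarith

lemma Rt_bound {η : ℂ} (hη : ‖η‖ < T.ρ) : ‖T.Rt η‖ ≤ 3 * T.S.U := by
  have h4 := T.lt4 hη
  have hU5 := T.hU5
  norm_num at hU5
  have h1 := T.Q.norm_le h4
  have h2 := T.Q.norm_ge h4
  rw [T.norm_u1] at h1 h2
  have h3 : ‖T.u η + 1‖ ≤ 101 / 100 * T.S.U + 1 := by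
    refine (norm_add_le _ _).trans ?_
    rw [norm_one]
    unfold u
    linarith
  have h5 : 1 ≤ ‖T.u η + 1‖ := by
    have := Complex.re_le_norm (T.u η + 1)
    rw [Complex.add_re, Complex.one_re] at this
    have := T.Q.re_pos h4
    unfold u at *
    linarith
  have h6 := norm_log_slit (v := T.u η) (by unfold u; linarith)
  have h7 := norm_log_slit h5
  have h8 : ‖Complex.log (T.w1 η)‖ ≤ 1 := by
    have h9 := T.w1_spec hη
    have h10 := log_bound2 (z := T.w1 η - 1) (by linarith)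
    rw [add_sub_cancel] at h10
    have h11 := norm_sub_norm_le (Complex.log (T.w1 η)) (T.w1 η - 1)
    have := norm_nonneg (T.w1 η - 1)
    nlinarith
  unfold Rt
  have h9 : ‖I * ((π : ℂ) / 2)‖ ≤ 2 := by
    rw [norm_mul, Complex.norm_I, one_mul, norm_div, Complex.norm_real, Complex.norm_ofNat,
      Real.norm_of_nonneg Real.pi_pos.le]
    have := Real.pi_lt_d2
    linarith
  have h10 : ‖T.u η + Complex.log (T.u η) - Complex.log (T.u η + 1) - I * ((π : ℂ) / 2)‖ ≤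
      ‖T.u η‖ + ‖Complex.log (T.u η)‖ + ‖Complex.log (T.u η + 1)‖ + ‖I * ((π : ℂ) / 2)‖ := by
    refine (norm_sub_le _ _).trans ?_
    gcongr
    refine (norm_sub_le _ _).trans ?_
    gcongr
    exact norm_add_le _ _
  refine (norm_add_le _ _).trans ?_
  rw [norm_div, Complex.norm_ofNat]
  unfold u at *
  linarith

/-- the exponent -/
noncomputable def E0 (η : ℂ) : ℂ := T.mainE η + T.Rt η

lemma exp_E0 {η : ℂ} (hη : ‖η‖ < T.ρ) :
    Jc (m * Complex.exp η) = -4 * Complex.exp (T.E0 η) := by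
  have h1 : T.w1 η ≠ 0 := Complex.slitPlane_ne_zero (T.w1_slit hη)
  unfold E0 Rt
  rw [Complex.exp_add, Complex.exp_add, Complex.exp_log h1]
  have hA : CSad.A (T.u η) ≠ 0 := Complex.exp_ne_zero _
  have h2 : T.w1 η * (-4 * Complex.exp (T.mainE η) * CSad.A (T.u η)) =
      Jc (m * Complex.exp η) := by
    unfold w1
    rw [div_mul_cancel₀]
    exact mul_ne_zero (mul_ne_zero (by norm_num) (Complex.exp_ne_zero _)) hA
  rw [← h2]
  unfold CSad.A
  ring

/-- the error function -/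
noncomputable def er (η : ℂ) : ℂ := Complex.exp η * (T.Q.g η - UF.p T.S.u1 η)

lemma er_diff {η : ℂ} (hη : ‖η‖ < 1 / 4) : DifferentiableAt ℂ T.er η := by
  unfold er
  apply DifferentiableAt.mul (by fun_prop)
  apply DifferentiableAt.sub (T.Q.hasDerivAt_g hη).differentiableAt
  unfold UF.p
  fun_prop

lemma norm_exp_le {η : ℂ} (hη : ‖η‖ < 1 / 4) : ‖Complex.exp η‖ ≤ 2 := by
  rw [Complex.norm_exp]
  have h1 := Complex.re_le_norm η
  have h2 : Real.exp η.re ≤ Real.exp (1 / 4) := Real.exp_le_exp.2 (by linarith)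
  have h3 := Real.exp_one_lt_d9
  have h4 : Real.exp (1 / 4) ^ 4 = Real.exp 1 := by rw [← Real.exp_nat_mul]; norm_num
  by_contra h
  push Not at h
  have h5 : (2 : ℝ) ^ 4 < Real.exp (1 / 4) ^ 4 := by
    apply pow_lt_pow_left₀ _ (by norm_num) (by norm_num)
    linarith
  rw [h4] at h5
  norm_num at h5
  linarith

lemma er_bound {η : ℂ} (hη : ‖η‖ < 1 / 4) : ‖T.er η‖ ≤ 2 / T.S.U ^ 3 := by
  unfold er
  rw [norm_mul]
  have h1 := T.Q.g_sub_p hη
  rw [T.norm_u1] at h1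
  have h2 := norm_exp_le hη
  have := T.U_pos
  calc ‖Complex.exp η‖ * ‖T.Q.g η - UF.p T.S.u1 η‖ ≤ 2 * (1 / T.S.U ^ 3) := by gcongr
    _ = _ := by ring

/-- the chain -/
noncomputable def E : ℕ → ℂ → ℂ
  | 0 => T.E0
  | (k + 1) => fun η => m * Fk T.S.u1 k η + m * iteratedDeriv k T.er η +
      iteratedDeriv (k + 1) T.Rt η

lemma E_hasDerivAt (k : ℕ) {η : ℂ} (hη : ‖η‖ < T.ρ) : HasDerivAt (T.E k) (T.E (k + 1) η) η := by
  have h4 := T.lt4 hη
  rcases k with _ | k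
  · have h1 := (T.mainE_hasDerivAt h4).fun_add (iter_hasDerivAt (fun z hz => T.Rt_diff hz) 0 hη)
    have h2 : (m : ℂ) * Complex.exp η * T.Q.g η =
        m * Fk T.S.u1 0 η + m * iteratedDeriv 0 T.er η := by
      rw [Fk_zero, iteratedDeriv_zero]
      unfold er
      ring
    rw [h2] at h1
    rw [iteratedDeriv_zero] at h1
    exact h1
  · exact (((Fk_hasDerivAt T.S.u1 k η).const_mul _).fun_add
      ((iter_hasDerivAt (fun z hz => T.er_diff hz) k h4).const_mul _)).fun_add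
      (iter_hasDerivAt (fun z hz => T.Rt_diff hz) (k + 1) hη)

/-- the real phase chain -/
noncomputable def th (k : ℕ) (y : ℝ) : ℝ := (T.E k y).im

lemma th_chain : Chain T.th 0 (T.ρ / 2) := by
  intro k y hy
  have h1 : ‖(y : ℂ)‖ < T.ρ := by
    rw [Complex.norm_real, Real.norm_of_nonneg hy.1]
    have := T.ρ_pos
    linarith [hy.2]
  have h2 := (T.E_hasDerivAt k h1).comp_ofReal
  exact (Complex.imCLM.hasFDerivAt.comp_hasDerivAt y h2)

/-- `A0` -/
noncomputable def A0 : ℝ := (Complex.log T.S.u1).im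

/-- `B0` -/
noncomputable def B0 : ℝ := (1 / (1 + T.S.u1)).im

lemma A0_bound : |T.A0| ≤ π / 2 := by
  unfold A0
  rw [Complex.log_im, Complex.abs_arg_le_pi_div_two_iff]
  have := T.Q.hre
  linarith

lemma one_add_u1 : T.S.U ≤ ‖1 + T.S.u1‖ ∧ ‖1 + T.S.u1‖ ≤ 101 / 100 * T.S.U := by
  have h1 := UF.norm_one_add_ge' (v := T.S.u1) (by linarith [T.Q.hre])
  rw [T.norm_u1] at h1
  have h2 := norm_add_le 1 T.S.u1
  rw [norm_one, T.norm_u1] at h2
  have hU5 := T.hU5
  norm_num at hU5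
  exact ⟨h1, by linarith⟩

lemma B0_abs : |T.B0| = T.S.ph / ‖1 + T.S.u1‖ ^ 2 := by
  unfold B0
  rw [one_div, Complex.inv_im, Complex.add_im, Complex.one_im, zero_add, T.S.u1_im,
    Complex.normSq_eq_norm_sq, neg_div, abs_neg, abs_of_nonneg]
  have := T.S.ph_pos
  positivity

lemma B0_lower : 1 / (2 * T.S.U ^ 2) ≤ |T.B0| := by
  rw [B0_abs]
  obtain ⟨h1, h2⟩ := T.one_add_u1
  have hU := T.U_pos
  have hph := T.S.ph_ge
  have h0 : 0 < ‖1 + T.S.u1‖ := by linarith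
  rw [div_le_div_iff₀ (by positivity) (by positivity), one_mul]
  have h3 : ‖1 + T.S.u1‖ ^ 2 ≤ (101 / 100 * T.S.U) ^ 2 := pow_le_pow_left₀ (norm_nonneg _) h2 2
  nlinarith

lemma B0_upper : |T.B0| ≤ 1 := by
  unfold B0
  refine (Complex.abs_im_le_norm _).trans ?_
  rw [norm_div, norm_one]
  obtain ⟨h1, h2⟩ := T.one_add_u1
  have hU5 := T.hU5
  norm_num at hU5
  rw [div_le_one (by linarith)]
  linarith

lemma B0_ne : T.B0 ≠ 0 := by
  have h1 := T.B0_lower
  have hU := T.U_pos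
  have : 0 < |T.B0| := lt_of_lt_of_le (by positivity) h1
  exact abs_pos.1 this

lemma b_norm : ‖1 / (1 + T.S.u1)‖ ≤ 1 / T.S.U := by
  rw [norm_div, norm_one]
  obtain ⟨h1, h2⟩ := T.one_add_u1
  have hU := T.U_pos
  apply div_le_div_of_nonneg_left (by norm_num) hU h1

lemma Fk_im (k : ℕ) {y : ℝ} (hy0 : 0 ≤ y) (hy1 : y ≤ 1 / 4) :
    |(Fk T.S.u1 k y).im - (T.A0 + k * T.B0)| ≤
      (2 * k + 6) * y + 4 * (k + 1) ^ 2 / T.S.U * |T.B0| := by
  have hU := T.U_pos
  have hb := T.b_norm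
  set b := 1 / (1 + T.S.u1) with hbdef
  have hBim : b.im = T.B0 := rfl
  have hAim : (Complex.log T.S.u1).im = T.A0 := rfl
  have hb2 : |(b ^ 2).im| ≤ 2 / T.S.U * |T.B0| := by
    have h1 : (b ^ 2).im = 2 * b.re * T.B0 := by
      rw [sq, Complex.mul_im, ← hBim]; ring
    rw [h1, abs_mul, abs_mul, abs_two]
    have h2 := Complex.abs_re_le_norm b
    have h3 : 2 * |b.re| ≤ 2 / T.S.U := by
      calc 2 * |b.re| ≤ 2 * (1 / T.S.U) := by linarith
        _ = _ := by ring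
    gcongr
  have h1 : (Fk T.S.u1 k y).im = Real.exp y * (T.A0 + T.B0 * y + k * T.B0 -
      (b ^ 2).im * (y ^ 2 / 2 + k * y + k * (k - 1) / 2)) := by
    unfold Fk
    rw [← hbdef, ← Complex.ofReal_exp, Complex.im_ofReal_mul]
    congr 1
    have h2 : (Complex.log T.S.u1 + b * (y : ℂ) - b ^ 2 / 2 * (y : ℂ) ^ 2 +
        (k : ℂ) * (b - b ^ 2 * (y : ℂ)) - (k : ℂ) * (k - 1) / 2 * b ^ 2) =
        Complex.log T.S.u1 + (y : ℂ) * b + ((k : ℝ) : ℂ) * b -
        ((y ^ 2 / 2 + k * y + k * (k - 1) / 2 : ℝ) : ℂ) * b ^ 2 := by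
      push_cast
      ring
    rw [h2, Complex.sub_im, Complex.add_im, Complex.add_im, Complex.im_ofReal_mul,
      Complex.im_ofReal_mul, Complex.im_ofReal_mul, hBim, hAim]
    ring
  rw [h1]
  set c := (b ^ 2).im with hc
  set q := y ^ 2 / 2 + k * y + k * (k - 1) / 2 with hq
  have hk0 : (0 : ℝ) ≤ k := Nat.cast_nonneg k
  have hq0 : 0 ≤ q := by
    rcases Nat.eq_zero_or_pos k with rfl | hk
    · rw [hq]; simp; positivity
    · have : (1 : ℝ) ≤ k := by exact_mod_cast hk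
      rw [hq]
      have : 0 ≤ (k : ℝ) * (k - 1) := mul_nonneg hk0 (by linarith)
      positivity
  have hq1 : q ≤ (k + 1) ^ 2 := by
    rw [hq]
    nlinarith
  have hexp : |Real.exp y - 1| ≤ 2 * y := by
    have := Real.abs_exp_sub_one_le (x := y) (by rw [abs_of_nonneg hy0]; linarith)
    rwa [abs_of_nonneg hy0] at this
  have hexp2 : Real.exp y ≤ 2 := by
    have := le_abs_self (Real.exp y - 1)
    linarith
  have hA := T.A0_bound
  have hB := T.B0_upper
  have hpi := Real.pi_lt_d2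
  have e1 : Real.exp y * (T.A0 + T.B0 * y + k * T.B0 - c * q) - (T.A0 + k * T.B0) =
      (Real.exp y - 1) * (T.A0 + k * T.B0) + Real.exp y * (T.B0 * y) - Real.exp y * (c * q) := by
    ring
  rw [e1]
  have b1 : |(Real.exp y - 1) * (T.A0 + k * T.B0)| ≤ 2 * y * (2 + k) := by
    rw [abs_mul]
    have : |T.A0 + k * T.B0| ≤ 2 + k := by
      refine (abs_add_le _ _).trans ?_
      rw [abs_mul, abs_of_nonneg hk0]
      have : (k : ℝ) * |T.B0| ≤ k * 1 := by gcongr
      linarith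
    gcongr
  have b2 : |Real.exp y * (T.B0 * y)| ≤ 2 * (1 * y) := by
    rw [abs_mul, abs_mul, abs_of_pos (Real.exp_pos y), abs_of_nonneg hy0]
    gcongr
  have b3 : |Real.exp y * (c * q)| ≤ 4 * (k + 1) ^ 2 / T.S.U * |T.B0| := by
    rw [abs_mul, abs_mul, abs_of_pos (Real.exp_pos y), abs_of_nonneg hq0]
    calc Real.exp y * (|c| * q) ≤ 2 * ((2 / T.S.U * |T.B0|) * (k + 1) ^ 2) := by gcongr
      _ = _ := by ring
  calc _ ≤ |(Real.exp y - 1) * (T.A0 + k * T.B0) + Real.exp y * (T.B0 * y)| +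
        |Real.exp y * (c * q)| := abs_sub _ _
    _ ≤ |(Real.exp y - 1) * (T.A0 + k * T.B0)| + |Real.exp y * (T.B0 * y)| +
        |Real.exp y * (c * q)| := by gcongr; exact abs_add_le _ _
    _ ≤ 2 * y * (2 + k) + 2 * (1 * y) + 4 * (k + 1) ^ 2 / T.S.U * |T.B0| := by gcongr
    _ = _ := by ring

lemma th_key (k : ℕ) {y : ℝ} (hy : y ∈ Icc 0 (T.ρ / 2)) :
    |T.th (k + 1) y - m * (T.A0 + k * T.B0)| ≤
      m * ((2 * k + 6) * y + 4 * (k + 1) ^ 2 / T.S.U * |T.B0| +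
        k.factorial * (2 / T.S.U ^ 3) / (1 / 4 / 4) ^ k) +
      (k + 1).factorial * (3 * T.S.U) / (T.ρ / 4) ^ (k + 1) := by
  have hρ := T.ρ_pos
  have hρ4 := T.ρ_lt
  have hm0 : (0 : ℝ) ≤ m := Nat.cast_nonneg m
  have hn : ‖(y : ℂ)‖ = y := by rw [Complex.norm_real, Real.norm_of_nonneg hy.1]
  have h1 := T.Fk_im k hy.1 (by linarith [hy.2])
  have h2 : |(iteratedDeriv k T.er y).im| ≤ k.factorial * (2 / T.S.U ^ 3) / (1 / 4 / 4) ^ k :=
    (Complex.abs_im_le_norm _).trans (iter_bound (by norm_num) (fun z hz => T.er_diff hz)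
      (fun z hz => T.er_bound hz) k (by rw [hn]; linarith [hy.2]))
  have h3 : |(iteratedDeriv (k + 1) T.Rt y).im| ≤
      (k + 1).factorial * (3 * T.S.U) / (T.ρ / 4) ^ (k + 1) :=
    (Complex.abs_im_le_norm _).trans (iter_bound hρ (fun z hz => T.Rt_diff hz)
      (fun z hz => T.Rt_bound hz) (k + 1) (by rw [hn]; exact hy.2))
  have h4 : T.th (k + 1) y - m * (T.A0 + k * T.B0) =
      m * ((Fk T.S.u1 k y).im - (T.A0 + k * T.B0)) + m * (iteratedDeriv k T.er y).im +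
      (iteratedDeriv (k + 1) T.Rt y).im := by
    unfold th E
    rw [Complex.add_im, Complex.add_im]
    have e1 : ((m : ℂ) * Fk T.S.u1 k y).im = m * (Fk T.S.u1 k y).im := by
      rw [← Complex.ofReal_natCast, Complex.im_ofReal_mul]
    have e2 : ((m : ℂ) * iteratedDeriv k T.er y).im = m * (iteratedDeriv k T.er y).im := by
      rw [← Complex.ofReal_natCast, Complex.im_ofReal_mul]
    rw [e1, e2]
    ring
  rw [h4]
  calc _ ≤ |m * ((Fk T.S.u1 k y).im - (T.A0 + k * T.B0))| + |m * (iteratedDeriv k T.er y).im| +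
      |(iteratedDeriv (k + 1) T.Rt y).im| := abs_add_three _ _ _
    _ = m * |(Fk T.S.u1 k y).im - (T.A0 + k * T.B0)| + m * |(iteratedDeriv k T.er y).im| +
      |(iteratedDeriv (k + 1) T.Rt y).im| := by
        rw [abs_mul, abs_mul, abs_of_nonneg hm0]
    _ ≤ m * ((2 * k + 6) * y + 4 * (k + 1) ^ 2 / T.S.U * |T.B0|) +
        m * (k.factorial * (2 / T.S.U ^ 3) / (1 / 4 / 4) ^ k) +
        (k + 1).factorial * (3 * T.S.U) / (T.ρ / 4) ^ (k + 1) := by gcongr
    _ = _ := by ring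

lemma J_spec {y : ℝ} (hy : y ∈ Icc 0 (T.ρ / 2)) (m' : ℕ) (hm' : (m' : ℝ) = m * Real.exp y) :
    J m' ≠ 0 ∧ |(J m').re| = ‖J m'‖ * |Real.cos (T.th 0 y)| := by
  have hρ := T.ρ_pos
  have hn : ‖(y : ℂ)‖ < T.ρ := by
    rw [Complex.norm_real, Real.norm_of_nonneg hy.1]
    linarith [hy.2]
  have h1 := T.exp_E0 hn
  have h2 : (m' : ℂ) = m * Complex.exp y := by
    rw [← Complex.ofReal_exp, ← Complex.ofReal_natCast, hm']
    push_cast
    rfl
  rw [← h2, Jc_nat] at h1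
  constructor
  · rw [h1]
    exact mul_ne_zero (by norm_num) (Complex.exp_ne_zero _)
  · rw [h1]
    have e1 : (-4 * Complex.exp (T.E0 y)).re = -4 * (Real.exp (T.E0 y).re * Real.cos (T.E0 y).im) := by
      rw [show (-4 : ℂ) = ((-4 : ℝ) : ℂ) by push_cast; rfl, Complex.re_ofReal_mul, Complex.exp_re]
    rw [e1, norm_mul, Complex.norm_exp, norm_neg, Complex.norm_ofNat, abs_mul, abs_mul,
      abs_of_pos (Real.exp_pos _)]
    have : T.th 0 y = (T.E0 y).im := rfl
    rw [this]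
    norm_num
    ring

end Loc

end Pool.Agent.Stj
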