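import Pool.Agent.Stj.UFun
import Pool.Agent.Stj.Fin

open Complex Set Filter MeasureTheory Topology Metric
open scoped Real NNReal

namespace Pool.Agent.Stj

namespace Sad

variable {m : ℕ} (S : Sad m)

/-- the saddle point -/
noncomputable def u1 : ℂ := S.U * S.e

/-- the phase of the saddle point -/
noncomputable def ph : ℝ := S.U * S.e.im

lemma u1_re : S.u1.re = S.U * S.e.re := by unfold u1; rw [Complex.re_ofReal_mul]
lemma u1_im : S.u1.im = S.ph := by unfold u1 ph; rw [Complex.im_ofReal_mul]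
lemma norm_u1 : ‖S.u1‖ = S.U := by
  unfold u1
  rw [norm_mul, S.he, mul_one, Complex.norm_real, Real.norm_of_nonneg S.U_pos.le]

lemma exp_ph : Complex.exp (S.ph * I) = I * (starRingEnd ℂ) S.e := by
  have h1 := S.hexp
  have h2 : (S.U * S.e : ℂ) = ((S.U * S.e.re : ℝ) : ℂ) + S.ph * I := by
    apply Complex.ext
    · simp [ph]
    · simp [ph]
  rw [h2, Complex.exp_add, ← Complex.ofReal_exp, ← S.R_eq] at h1
  have hR : (S.R : ℂ) ≠ 0 := by exact_mod_cast S.R_pos.ne'
  exact mul_left_cancel₀ hR h1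

lemma cos_ph : Real.cos S.ph = S.e.im := by
  have h := congrArg Complex.re S.exp_ph
  rw [Complex.exp_ofReal_mul_I_re] at h
  rw [h]
  simp

lemma sin_ph : Real.sin S.ph = S.e.re := by
  have h := congrArg Complex.im S.exp_ph
  rw [Complex.exp_ofReal_mul_I_im] at h
  rw [h]
  simp

lemma im_small : S.e.im ≤ 1 / 1000 := by
  have h1 := S.him2
  have h2 := S.hU
  have hpi := Real.pi_lt_d2
  have hU := S.U_pos
  by_contra h
  push Not at h
  nlinarith

lemma ph_pos : 0 < S.ph := mul_pos S.U_pos S.im_pos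

lemma ph_ge : 141 / 100 ≤ S.ph := by
  have h1 := Real.one_sub_sq_div_two_le_cos (x := S.ph)
  rw [S.cos_ph] at h1
  have h2 := S.im_small
  have h3 := S.ph_pos
  nlinarith

lemma re_ge : 9 / 10 ≤ S.e.re := by
  have h1 := re_sq_add_im_sq S.he
  have h2 := S.im_small
  have h3 := S.im_pos
  have h4 := S.hre
  nlinarith

lemma e_eq : S.e = I * Complex.exp (-(S.ph * I)) := by
  apply Complex.ext
  · rw [Complex.I_mul_re, ← neg_mul, ← Complex.ofReal_neg, Complex.exp_ofReal_mul_I_im,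
      Real.sin_neg, neg_neg, S.sin_ph]
  · rw [Complex.I_mul_im, ← neg_mul, ← Complex.ofReal_neg, Complex.exp_ofReal_mul_I_re,
      Real.cos_neg, S.cos_ph]

lemma near (hU5 : 10 ^ 4 + 1 ≤ S.U) (hbig : ∀ V, S.U - 1 ≤ V → (Real.log V + 2) ^ 2 ≤ V / 200)
    (u : ℂ) (hu : ‖u - S.u1‖ ≤ 1 / (1000 * S.U)) : Nonempty (CSad u) := by
  have hU := S.U_pos
  set ρ := 1 / (1000 * S.U) with hρ
  have hρ0 : 0 < ρ := by positivity
  have hρU : ρ * (1000 * S.U) = 1 := by rw [hρ]; field_simp
  have hρ1 : ρ ≤ 1 / 10000 := by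
    rw [hρ]
    apply div_le_div_of_nonneg_left (by norm_num) (by norm_num)
    nlinarith
  have hpi := Real.pi_lt_d2
  set θ := u.im with hθ
  have h1 : |θ - S.ph| ≤ ρ := by
    have := Complex.abs_im_le_norm (u - S.u1)
    rw [Complex.sub_im, S.u1_im] at this
    exact this.trans hu
  have h2 : |u.re - S.U * S.e.re| ≤ ρ := by
    have := Complex.abs_re_le_norm (u - S.u1)
    rw [Complex.sub_re, S.u1_re] at this
    exact this.trans hu
  have hn1 : ‖u‖ ≤ S.U + ρ := by
    have := norm_sub_norm_le u S.u1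
    rw [S.norm_u1] at this
    linarith
  have hn2 : S.U - ρ ≤ ‖u‖ := by
    have := norm_sub_norm_le S.u1 u
    rw [S.norm_u1, norm_sub_rev] at this
    linarith
  set e' : ℂ := I * Complex.exp (-(θ * I)) with he'
  have he'n : ‖e'‖ = 1 := by
    rw [he', norm_mul, Complex.norm_I, one_mul, ← neg_mul, ← Complex.ofReal_neg,
      Complex.norm_exp_ofReal_mul_I]
  have he're : e'.re = Real.sin θ := by
    rw [he', Complex.I_mul_re, ← neg_mul, ← Complex.ofReal_neg, Complex.exp_ofReal_mul_I_im,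
      Real.sin_neg, neg_neg]
  have he'im : e'.im = Real.cos θ := by
    rw [he', Complex.I_mul_im, ← neg_mul, ← Complex.ofReal_neg, Complex.exp_ofReal_mul_I_re,
      Real.cos_neg]
  have hee : ‖e' - S.e‖ ≤ ρ := by
    rw [S.e_eq, he', ← mul_sub, norm_mul, Complex.norm_I, one_mul]
    have h3 := norm_exp_sub_exp_le (p := -(θ * I)) (q := -(S.ph * I)) (B := 1)
      (by simp) (by simp)
    refine h3.trans ?_
    rw [one_mul]
    have h4 : -((θ : ℂ) * I) - -(S.ph * I) = ((-(θ - S.ph) : ℝ) : ℂ) * I := by push_cast; ring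
    rw [h4, norm_mul, Complex.norm_I, mul_one, Complex.norm_real, Real.norm_eq_abs, abs_neg]
    exact h1
  have him' : |e'.im - S.e.im| ≤ ρ := by
    have := Complex.abs_im_le_norm (e' - S.e)
    rw [Complex.sub_im] at this
    exact this.trans hee
  have hre' : |e'.re - S.e.re| ≤ ρ := by
    have := Complex.abs_re_le_norm (e' - S.e)
    rw [Complex.sub_re] at this
    exact this.trans hee
  rw [abs_le] at h1 h2 him' hre'
  have hph := S.ph_ge
  have hre9 := S.re_ge
  have him1 : 141 / 100 * (1 / S.U) ≤ S.e.im := by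
    rw [mul_one_div, div_le_iff₀ hU]
    have : S.e.im * S.U = S.ph := by unfold ph; ring
    rw [this]; exact hph
  have him2 : S.e.im ≤ 158 / 100 * (1 / S.U) + ρ := by
    have h3 := S.him2
    have h4 : S.e.im = S.U * S.e.im * (1 / S.U) := by field_simp
    rw [h4]
    have : 0 < 1 / S.U := by positivity
    have h5 : S.U * S.e.im ≤ 1.575 := by linarith
    have h6 : ρ = 1 / 1000 * (1 / S.U) := by rw [hρ]; field_simp
    rw [h6]
    nlinarith
  have hρinv : ρ = 1 / 1000 * (1 / S.U) := by rw [hρ]; field_simp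
  have hUn : 0 < ‖u‖ := by linarith
  have hUinv1 : 1 / ‖u‖ ≤ 101 / 100 * (1 / S.U) := by
    rw [mul_one_div, div_le_div_iff₀ hUn hU]
    nlinarith
  have hUinv2 : 99 / 100 * (1 / S.U) ≤ 1 / ‖u‖ := by
    rw [mul_one_div, div_le_div_iff₀ hU hUn]
    nlinarith
  have hinv : 0 < 1 / S.U := by positivity
  have hφ2 : S.ph + S.e.im ≤ π / 2 := by
    have h3 : S.e.im = Real.sin (π / 2 - S.ph) := by rw [Real.sin_pi_div_two_sub, S.cos_ph]
    have h4 : 0 ≤ π / 2 - S.ph := by
      have := S.him2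
      change S.ph < π / 2 at this
      linarith
    have h5 := Real.sin_le h4
    rw [← h3] at h5
    linarith
  refine ⟨⟨Real.exp u.re, e', he'n, ?_, ?_, ?_, ?_, ?_, ?_, ?_, ?_, ?_, ?_, ?_⟩⟩
  · linarith [hre'.1]
  · linarith [him'.1]
  · have : 2 / ‖u‖ = 2 * (1 / ‖u‖) := by ring
    rw [this]
    linarith [him'.2]
  · linarith
  · exact hbig _ (by linarith)
  · have h3 := Real.add_one_le_exp u.re
    have h4 : 9 / 10 * (10 ^ 4 + 1) ≤ S.U * S.e.re := by nlinarith
    norm_num at h4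
    linarith [h2.1]
  · have h3 : u = ((u.re : ℝ) : ℂ) + θ * I := by
      apply Complex.ext
      · simp
      · simp [hθ]
    have h4 : I * (starRingEnd ℂ) e' = Complex.exp (θ * I) := by
      apply Complex.ext
      · rw [Complex.I_mul_re, Complex.conj_im, neg_neg, he'im, Complex.exp_ofReal_mul_I_re]
      · rw [Complex.I_mul_im, Complex.conj_re, he're, Complex.exp_ofReal_mul_I_im]
    rw [h4, Complex.ofReal_exp, ← Complex.exp_add, ← h3]
  · have h3 : u / ‖u‖ - e' = (u - S.u1) / ‖u‖ + ((S.U - ‖u‖ : ℝ) : ℂ) * S.e / ‖u‖ -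
        (e' - S.e) := by
      have : (‖u‖ : ℂ) ≠ 0 := by exact_mod_cast hUn.ne'
      unfold u1
      push_cast
      field_simp
      ring
    rw [h3]
    have h4 : ‖(u - S.u1) / ‖u‖‖ ≤ ρ * (1 / ‖u‖) := by
      rw [norm_div, Complex.norm_real, norm_norm, div_eq_mul_one_div]
      gcongr
    have h5 : ‖((S.U - ‖u‖ : ℝ) : ℂ) * S.e / ‖u‖‖ ≤ ρ * (1 / ‖u‖) := by
      rw [norm_div, norm_mul, S.he, mul_one, Complex.norm_real, Complex.norm_real,
        Real.norm_of_nonneg (norm_nonneg _), div_eq_mul_one_div, Real.norm_eq_abs]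
      gcongr
      rw [abs_le]
      constructor <;> linarith
    calc _ ≤ ‖(u - S.u1) / ‖u‖‖ + ‖((S.U - ‖u‖ : ℝ) : ℂ) * S.e / ‖u‖‖ + ‖e' - S.e‖ := by
          refine (norm_sub_le _ _).trans ?_
          gcongr
          exact norm_add_le _ _
      _ ≤ ρ * (1 / ‖u‖) + ρ * (1 / ‖u‖) + ρ := by gcongr
      _ ≤ 1 / (100 * ‖u‖) := by
          have h6 : 1 / (100 * ‖u‖) = 1 / 100 * (1 / ‖u‖) := by field_simp
          rw [h6]
          have : 0 < 1 / ‖u‖ := by positivity
          nlinarith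
  · have h4 : 9 / 10 * (10 ^ 4 + 1) ≤ S.U * S.e.re := by nlinarith
    norm_num at h4
    linarith [h2.1]
  · linarith [h1.1]
  · linarith [h1.2]

end Sad

end Pool.Agent.Stj
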