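import Pool.Agent.Stj.Ratio

open Complex Set Filter MeasureTheory Topology
open scoped Real

namespace Pool.Agent.Stj

namespace Sad

variable {m : ℕ} (S : Sad m)

include S in
lemma m_pos : (0 : ℝ) < m := by
  rw [S.m_eq]
  exact mul_pos S.L_pos S.U_pos

lemma logU_le : Real.log S.U + 2 ≤ S.U / 1000 := by
  have h1 := S.hU2
  have h2 := S.hU
  have h3 : (Real.log S.U + 2) ^ 2 ≤ (S.U / 1000) ^ 2 := by nlinarith
  exact le_of_sq_le_sq h3 (by linarith)

lemma logm : Real.log m = Real.log (2 * π) + S.U * S.e.re + Real.log S.U := by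
  rw [S.hm, Real.log_mul (by have := S.R_pos; positivity) S.U_pos.ne',
    Real.log_mul (by positivity) S.R_pos.ne', S.R_eq, Real.log_exp]

lemma log2pi : 0 ≤ Real.log (2 * π) ∧ Real.log (2 * π) ≤ 2 := by
  have := Real.pi_gt_three
  have := Real.pi_lt_d2
  constructor
  · exact Real.log_nonneg (by linarith)
  · rw [Real.log_le_iff_le_exp (by positivity)]
    have h3 : Real.exp 2 = Real.exp 1 ^ 2 := by rw [← Real.exp_nat_mul]; norm_num
    rw [h3]
    have := Real.exp_one_gt_d9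
    nlinarith

lemma logm_le : Real.log m ≤ S.U + (Real.log S.U + 2) := by
  rw [S.logm]
  have := log2pi.2
  have := S.re_le_one
  have := S.U_pos
  nlinarith

lemma logm_le' : Real.log m ≤ 1001 / 1000 * S.U := by
  have := S.logm_le
  have := S.logU_le
  linarith

lemma logm_ge : 4 / 5 * S.U ≤ Real.log m := by
  rw [S.logm]
  have := log2pi.1
  have := S.hre
  have := S.U_pos
  have := S.logU_ge
  nlinarith

lemma im_a : S.a.im = S.e.im := by
  unfold a
  have h1 : ((1 : ℂ) / S.U).im = 0 := by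
    rw [← Complex.ofReal_one, ← Complex.ofReal_div, Complex.ofReal_im]
  rw [Complex.add_im, h1, add_zero]

lemma im_bb : S.bb.im = -((S.U * S.e.im) / (m * S.U ^ 2 * ‖S.a‖ ^ 2)) := by
  have h1 : S.bb = ((1 / (S.L * S.U ^ 2) : ℝ) : ℂ) * S.a⁻¹ := by
    rw [S.bb_eq]
    have := S.U_ne
    have := S.L_ne
    have := S.a_ne
    push_cast
    field_simp
  rw [h1, Complex.im_ofReal_mul, Complex.inv_im, Complex.normSq_eq_norm_sq, S.im_a, S.m_eq]
  have := S.U_pos
  have := S.L_pos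
  have := S.norm_a_ge
  field_simp

lemma im_bb_bounds : -(5 / 2) / (m * S.U ^ 2) ≤ S.bb.im ∧ S.bb.im ≤ -(1 / 4) / (m * S.U ^ 2) := by
  have hU := S.U_pos
  have hm := S.m_pos
  have ha := S.norm_a_ge
  have ha2 := S.norm_a_le
  have h1 : 1 ≤ S.U * S.e.im := by
    have := mul_le_mul_of_nonneg_left S.him hU.le
    rwa [mul_one_div_cancel hU.ne'] at this
  have h2 := S.him2
  have hpi := Real.pi_lt_d2
  have hY : 0 < m * S.U ^ 2 := by positivity
  have hX : (16 / 25 : ℝ) ≤ ‖S.a‖ ^ 2 := by nlinarith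
  have hX2 : ‖S.a‖ ^ 2 ≤ 4 := by nlinarith [norm_nonneg S.a]
  rw [S.im_bb]
  constructor
  · rw [neg_div, neg_le_neg_iff, div_le_div_iff₀ (by positivity) hY]
    have : 5 / 2 * (m * S.U ^ 2 * ‖S.a‖ ^ 2) = (5 / 2 * ‖S.a‖ ^ 2) * (m * S.U ^ 2) := by ring
    rw [this]
    apply mul_le_mul_of_nonneg_right _ hY.le
    linarith
  · rw [neg_div, neg_le_neg_iff, div_le_div_iff₀ hY (by positivity)]
    have : 1 / 4 * (m * S.U ^ 2 * ‖S.a‖ ^ 2) = (1 / 4 * ‖S.a‖ ^ 2) * (m * S.U ^ 2) := by ring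
    rw [this]
    apply mul_le_mul_of_nonneg_right _ hY.le
    linarith

lemma arg_bounds (hl : 4 * QQ ≤ S.l) (hl2 : 1736 * QQ * S.U ^ 3 ≤ S.l) :
    -4 / (m * Real.log m ^ 2) ≤ Complex.arg (J (m + 2) * J m / J (m + 1) ^ 2) ∧
    Complex.arg (J (m + 2) * J m / J (m + 1) ^ 2) ≤ -(1 / 13) / (m * Real.log m ^ 2) := by
  obtain ⟨_, _, _, h4⟩ := S.ratio hl
  set R := J (m + 2) * J m / J (m + 1) ^ 2 with hR
  have hQ := QQ_ge
  have hlp := S.l_pos
  have hl1 := S.l_ge
  have hU := S.U_pos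
  have hU4 := S.hU
  have hm := S.m_pos
  have hlL := S.l_sq
  have hL := S.L_ge
  set w := R - 1 with hw
  have hwb : ‖w - S.bb‖ ≤ 48 * QQ / S.l ^ 3 := h4
  have h48 : 48 * QQ / S.l ^ 3 ≤ 12 / S.l ^ 2 := by
    rw [div_le_div_iff₀ (by positivity) (by positivity)]
    have : 0 < S.l ^ 2 := by positivity
    nlinarith
  have hwn : ‖w‖ ≤ 13 / S.l ^ 2 := by
    have h5 : w = (w - S.bb) + S.bb := by ring
    rw [h5]
    refine (norm_add_le _ _).trans ?_
    have := S.norm_bb'
    have e : 13 / S.l ^ 2 = 12 / S.l ^ 2 + 1 / S.l ^ 2 := by ring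
    rw [e]
    linarith
  have hwh : ‖w‖ ≤ 1 / 2 := by
    refine hwn.trans ?_
    rw [hlL, div_le_iff₀ (by linarith)]
    linarith
  have hlog := log_bound2 hwh
  have hRw : 1 + w = R := by rw [hw]; ring
  rw [hRw] at hlog
  have hw2 : ‖w‖ ^ 2 ≤ 169 / S.l ^ 3 := by
    calc ‖w‖ ^ 2 ≤ (13 / S.l ^ 2) ^ 2 := by gcongr
      _ = 169 / S.l ^ 4 := by field_simp; norm_num
      _ ≤ 169 / S.l ^ 3 := by
        apply div_le_div_of_nonneg_left (by norm_num) (by positivity)
        exact pow_le_pow_right₀ hl1 (by norm_num)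
  have herr : |Complex.arg R - S.bb.im| ≤ 1 / 8 / (m * S.U ^ 2) := by
    have h5 : Complex.arg R - S.bb.im = (Complex.log R - S.bb).im := by
      rw [Complex.sub_im, Complex.log_im]
    rw [h5]
    refine (Complex.abs_im_le_norm _).trans ?_
    have h6 : Complex.log R - S.bb = (Complex.log R - w) + (w - S.bb) := by ring
    rw [h6]
    refine (norm_add_le _ _).trans ?_
    have h7 : ‖Complex.log R - w‖ + ‖w - S.bb‖ ≤ 217 * QQ / S.l ^ 3 := by
      calc _ ≤ 169 / S.l ^ 3 + 48 * QQ / S.l ^ 3 := by linarith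
        _ = (169 + 48 * QQ) / S.l ^ 3 := by ring
        _ ≤ 217 * QQ / S.l ^ 3 := by gcongr; linarith
    refine h7.trans ?_
    rw [div_le_div_iff₀ (by positivity) (by positivity), S.m_eq, ← hlL]
    have : 217 * QQ * (S.l ^ 2 * S.U * S.U ^ 2) = (1736 * QQ * S.U ^ 3) * S.l ^ 2 / 8 := by ring
    rw [this]
    have : (1736 * QQ * S.U ^ 3) * S.l ^ 2 ≤ S.l * S.l ^ 2 := by gcongr
    nlinarith
  have hb := S.im_bb_bounds
  rw [abs_le] at herr
  have hY : 0 < m * S.U ^ 2 := by positivity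
  have g1 := S.logm_le'
  have g2 := S.logm_ge
  have hlogm : 0 < Real.log m := by nlinarith
  have u1 : 16 / 25 / (m * Real.log m ^ 2) ≤ 1 / (m * S.U ^ 2) := by
    rw [div_le_div_iff₀ (by positivity) hY, one_mul]
    have : 16 / 25 * (m * S.U ^ 2) = m * (4 / 5 * S.U) ^ 2 := by ring
    rw [this]
    gcongr
  have u2 : 1 / (m * S.U ^ 2) ≤ 11 / 10 / (m * Real.log m ^ 2) := by
    rw [div_le_div_iff₀ hY (by positivity), one_mul]
    calc m * Real.log m ^ 2 ≤ m * (1001 / 1000 * S.U) ^ 2 := by gcongr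
      _ ≤ 11 / 10 * (m * S.U ^ 2) := by nlinarith
  have v1 : (5 : ℝ) / 2 / (m * S.U ^ 2) = 5 / 2 * (1 / (m * S.U ^ 2)) := by ring
  have v2 : (1 : ℝ) / 4 / (m * S.U ^ 2) = 1 / 4 * (1 / (m * S.U ^ 2)) := by ring
  have v3 : (1 : ℝ) / 8 / (m * S.U ^ 2) = 1 / 8 * (1 / (m * S.U ^ 2)) := by ring
  have v4 : (4 : ℝ) / (m * Real.log m ^ 2) = 4 * (1 / (m * Real.log m ^ 2)) := by ring
  have v5 : (1 : ℝ) / 13 / (m * Real.log m ^ 2) = 1 / 13 * (1 / (m * Real.log m ^ 2)) := by ring
  have v6 : (16 : ℝ) / 25 / (m * Real.log m ^ 2) = 16 / 25 * (1 / (m * Real.log m ^ 2)) := by ring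
  have v7 : (11 : ℝ) / 10 / (m * Real.log m ^ 2) = 11 / 10 * (1 / (m * Real.log m ^ 2)) := by ring
  rw [neg_div, v1, neg_div, v2] at hb
  rw [v3] at herr
  rw [v6] at u1
  rw [v7] at u2
  rw [neg_div, v4, neg_div, v5]
  have p1 : 0 < 1 / (m * Real.log m ^ 2) := by positivity
  have p2 : 0 < 1 / (m * S.U ^ 2) := by positivity
  constructor
  · linarith [hb.1, herr.1]
  · linarith [hb.2, herr.2]

/-- Lower bound for the size of `J`. -/
lemma J_lower (hl : 4 * QQ ≤ S.l) :
    Real.exp (m * (Real.log (Real.log m) - 2 / √(Real.log m))) ≤ ‖J m‖ := by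
  obtain ⟨_, _, h3, _⟩ := S.ratio hl
  have hC := S.C_ne
  have hU := S.U_pos
  have hU4 := S.hU
  have hR := S.R_pos
  have hL := S.L_pos
  have hlp := S.l_pos
  have hm := S.m_pos
  have j0 : S.P 0 * S.C = J m := by
    unfold P
    rw [pow_zero, mul_one, add_zero, div_mul_cancel₀ _ hC]
  have h5 : S.U ^ m * Real.exp (-S.L) ≤ ‖J m‖ := by
    rw [← j0, norm_mul]
    have h6 := S.norm_C
    have h7 : 1 ≤ 2 * S.R / S.l := by
      rw [le_div_iff₀ hlp, one_mul]
      have h8 : S.l ^ 2 ≤ (2 * S.R) ^ 2 := by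
        rw [S.l_sq]
        unfold L
        have := S.hR
        have := Real.pi_lt_d2
        nlinarith
      exact le_of_sq_le_sq h8 (by positivity)
    calc S.U ^ m * Real.exp (-S.L) ≤ S.U ^ m * Real.exp (-S.L) * (2 * S.R / S.l) :=
          le_mul_of_one_le_right (by positivity) h7
      _ = 1 / (2 * S.l) * (4 * S.U ^ m * Real.exp (-S.L) * S.R) := by field_simp; ring
      _ ≤ ‖S.P 0‖ * ‖S.C‖ := by gcongr
  refine le_trans ?_ h5
  have h6 : S.U ^ m * Real.exp (-S.L) = Real.exp (m * Real.log S.U - S.L) := by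
    rw [sub_eq_add_neg, Real.exp_add, Real.exp_nat_mul, Real.exp_log hU]
  rw [h6, Real.exp_le_exp]
  have hLm : S.L = m * (1 / S.U) := by rw [S.m_eq]; field_simp
  rw [hLm, ← mul_sub]
  apply mul_le_mul_of_nonneg_left _ hm.le
  -- log log m - 2/√log m ≤ log U - 1/U
  have g1 := S.logm_le
  have g2 := S.logm_ge
  have g3 := S.logm_le'
  have hlogm : 0 < Real.log m := by nlinarith
  set δ := (Real.log S.U + 2) / S.U with hδ
  have hδ0 : 0 ≤ δ := by
    have := S.logU_ge
    positivity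
  have g4 : Real.log m ≤ S.U * (1 + δ) := by
    have : S.U * (1 + δ) = S.U + (Real.log S.U + 2) := by rw [hδ]; field_simp
    rw [this]; exact g1
  have g5 : Real.log (Real.log m) ≤ Real.log S.U + δ := by
    have h7 := Real.log_le_log hlogm g4
    rw [Real.log_mul hU.ne' (by positivity)] at h7
    have h8 := Real.log_le_sub_one_of_pos (x := 1 + δ) (by positivity)
    linarith
  have hs : 0 < √(Real.log m) := Real.sqrt_pos.2 hlogm
  have hsU : 0 < √S.U := Real.sqrt_pos.2 hU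
  have hsU2 : √S.U ^ 2 = S.U := Real.sq_sqrt hU.le
  have g6 : δ ≤ 1 / (10 * √S.U) := by
    rw [hδ, div_le_div_iff₀ hU (by positivity), one_mul]
    have h7 : (Real.log S.U + 2) ^ 2 ≤ (√S.U / 10) ^ 2 := by
      rw [div_pow, hsU2]
      have := S.hU2
      linarith
    have h8 := le_of_sq_le_sq h7 (by positivity)
    calc (Real.log S.U + 2) * (10 * √S.U) ≤ (√S.U / 10) * (10 * √S.U) := by gcongr
      _ = √S.U ^ 2 := by ring
      _ = S.U := hsU2
  have hsge : 1 ≤ √S.U := by rw [Real.one_le_sqrt]; linarith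
  have g7 : 1 / S.U ≤ 1 / √S.U := by
    apply div_le_div_of_nonneg_left (by norm_num) hsU
    nlinarith
  have g8 : √(Real.log m) ≤ 11 / 10 * √S.U := by
    have h7 : √(Real.log m) ≤ √((11 / 10) ^ 2 * S.U) := by
      apply Real.sqrt_le_sqrt
      linarith
    rwa [Real.sqrt_mul (by positivity), Real.sqrt_sq (by norm_num)] at h7
  have g9 : 11 / 10 * (1 / √S.U) ≤ 2 / √(Real.log m) := by
    rw [mul_one_div, div_le_div_iff₀ hsU hs]
    nlinarith
  have g10 : 1 / (10 * √S.U) = 1 / 10 * (1 / √S.U) := by field_simp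
  rw [g10] at g6
  linarith

end Sad

/-- Existence of the saddle point. -/
lemma exists_sad (U1 : ℝ) : ∃ m0 : ℕ, ∀ m : ℕ, m0 ≤ m → ∃ S : Sad m, U1 ≤ S.U := by
  -- a threshold for the inequality (log U + 2)^2 ≤ U/100
  obtain ⟨U2, hU2⟩ : ∃ U2 : ℝ, ∀ U, U2 ≤ U → (Real.log U + 2) ^ 2 ≤ U / 100 := by
    have h1 : Tendsto (fun x : ℝ => (Real.log x + 2) ^ 2 / x) atTop (𝓝 0) := by
      have h2 := Real.isLittleO_pow_log_id_atTop (n := 2)
      have h3 : Tendsto (fun x : ℝ => Real.log x ^ 2 / x) atTop (𝓝 0) :=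
        h2.tendsto_div_nhds_zero
      have h4 : Tendsto (fun x : ℝ => Real.exp 2 * x) atTop atTop :=
        tendsto_id.const_mul_atTop (Real.exp_pos 2)
      have h5 := (h3.comp h4).const_mul (Real.exp 2)
      rw [mul_zero] at h5
      refine h5.congr' ?_
      filter_upwards [eventually_gt_atTop 0] with x hx
      simp only [Function.comp]
      rw [Real.log_mul (Real.exp_pos 2).ne' hx.ne', Real.log_exp]
      have := (Real.exp_pos 2).ne'
      field_simp
      ring
    have h2 := (h1.eventually (ge_mem_nhds (show (0 : ℝ) < 1 / 100 by norm_num))).and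
      (eventually_gt_atTop 0)
    obtain ⟨U2, h⟩ := eventually_atTop.1 h2
    refine ⟨U2, fun U hU => ?_⟩
    obtain ⟨h3, h4⟩ := h U hU
    rw [div_le_iff₀ h4] at h3
    linarith
  set U3 : ℝ := max (max U1 U2) (10 ^ 4) with hU3
  obtain ⟨m0, hm0⟩ := exists_nat_gt (2 * π * U3 * Real.exp U3)
  refine ⟨m0, fun m hm => ?_⟩
  have hU3pos : 0 < U3 := lt_of_lt_of_le (by norm_num) (le_max_right _ _)
  have hmr : 2 * π * U3 * Real.exp U3 < m := hm0.trans_le (by exact_mod_cast hm)
  have hmpos : (0 : ℝ) < m := lt_trans (by positivity) hmr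
  -- IVT
  set y : ℝ := m / (2 * π) with hy
  have hypos : 0 < y := by positivity
  set c1 : ℝ := min (1 / 2) (1 / y) with hc1
  have hc1pos : 0 < c1 := lt_min (by norm_num) (by positivity)
  have hc1le : c1 ≤ 1 / 2 := min_le_left _ _
  set φ1 := Real.arccos c1 with hφ1
  have hcos1 : Real.cos φ1 = c1 := Real.cos_arccos (by linarith) (by linarith)
  have hφ1lt : φ1 < π / 2 := Real.arccos_lt_pi_div_two.2 hc1pos
  have hφ1ge : 1 ≤ φ1 := by
    by_contra h
    push Not at h
    have h1 := Real.one_sub_sq_div_two_le_cos (x := φ1)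
    have h0 : 0 ≤ φ1 := Real.arccos_nonneg _
    rw [hcos1] at h1
    nlinarith
  set f : ℝ → ℝ := fun φ => Real.exp (φ * Real.tan φ) * (φ / Real.cos φ) with hf
  have hcosp : ∀ φ ∈ Icc 0 φ1, 0 < Real.cos φ := by
    intro φ hφ
    exact Real.cos_pos_of_mem_Ioo ⟨by linarith [hφ.1, Real.pi_pos], by linarith [hφ.2]⟩
  have hcont : ContinuousOn f (Icc 0 φ1) := by
    rw [hf]
    apply ContinuousOn.mul
    · apply Real.continuous_exp.comp_continuousOn
      apply continuousOn_id.mul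
      apply Real.continuousOn_tan.mono
      intro φ hφ
      exact (hcosp φ hφ).ne'
    · apply continuousOn_id.div Real.continuous_cos.continuousOn
      intro φ hφ
      exact (hcosp φ hφ).ne'
  have hmem : y ∈ Icc (f 0) (f φ1) := by
    constructor
    · simp only [hf, zero_mul, zero_div, mul_zero]
      exact hypos.le
    · simp only [hf]
      have h1 : 0 ≤ φ1 * Real.tan φ1 :=
        mul_nonneg (by linarith) (Real.tan_nonneg_of_nonneg_of_le_pi_div_two (by linarith) hφ1lt.le)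
      have h2 : 1 ≤ Real.exp (φ1 * Real.tan φ1) := Real.one_le_exp h1
      have h3 : y ≤ φ1 / Real.cos φ1 := by
        rw [hcos1, le_div_iff₀ hc1pos]
        have h4 : c1 ≤ 1 / y := min_le_right _ _
        calc y * c1 ≤ y * (1 / y) := by gcongr
          _ = 1 := by field_simp
          _ ≤ φ1 := hφ1ge
      have h5 : 0 ≤ φ1 / Real.cos φ1 := by linarith
      calc y ≤ 1 * (φ1 / Real.cos φ1) := by rw [one_mul]; exact h3
        _ ≤ _ := by gcongr
  obtain ⟨φ, hφ, hfφ⟩ := intermediate_value_Icc (by linarith : (0 : ℝ) ≤ φ1) hcont hmem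
  have hcos := hcosp φ hφ
  have hφ0 : 0 < φ := by
    rcases hφ.1.lt_or_eq with h | h
    · exact h
    · exfalso
      rw [← h] at hfφ
      simp only [hf, zero_mul, zero_div, mul_zero] at hfφ
      linarith
  have hφlt : φ < π / 2 := lt_of_le_of_lt hφ.2 hφ1lt
  set U := φ / Real.cos φ with hU
  have hUpos : 0 < U := by positivity
  have htan : φ * Real.tan φ = U * Real.sin φ := by
    rw [hU, Real.tan_eq_sin_div_cos]; ring
  set R := Real.exp (U * Real.sin φ) with hR
  have hmRU : (m : ℝ) = 2 * π * R * U := by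
    simp only [hf] at hfφ
    rw [htan, ← hU, ← hR, hy] at hfφ
    have hpi := Real.pi_pos
    field_simp at hfφ
    linarith
  have hUge : U3 ≤ U := by
    by_contra h
    push Not at h
    have h1 : R ≤ Real.exp U3 := by
      rw [hR, Real.exp_le_exp]
      have := Real.sin_le_one φ
      nlinarith
    have h2 : (m : ℝ) ≤ 2 * π * U3 * Real.exp U3 := by
      rw [hmRU]
      have hpi := Real.pi_pos
      calc 2 * π * R * U ≤ 2 * π * Real.exp U3 * U3 := by gcongr
        _ = _ := by ring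
    linarith
  have hU4 : 10 ^ 4 ≤ U := (le_max_right _ _).trans hUge
  have hUcos : U * Real.cos φ = φ := by rw [hU]; field_simp
  have hpi := Real.pi_lt_d2
  have hcosle : Real.cos φ ≤ 1 / 1000 := by
    by_contra h
    push Not at h
    nlinarith
  have hφge : 1 ≤ φ := by
    by_contra h
    push Not at h
    have h1 := Real.one_sub_sq_div_two_le_cos (x := φ)
    nlinarith
  have hsin0 : 0 ≤ Real.sin φ := Real.sin_nonneg_of_nonneg_of_le_pi hφ0.le (by linarith)
  have hsc := Real.sin_sq_add_cos_sq φ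
  have hsin : 4 / 5 ≤ Real.sin φ := by
    by_contra h
    push Not at h
    nlinarith
  refine ⟨⟨U, R, ⟨Real.sin φ, Real.cos φ⟩, ?_, hsin, ?_, hU4,
    hU2 U ((le_max_right _ _).trans ((le_max_left _ _).trans hUge)), ?_, hmRU, ?_, ?_⟩,
    (le_max_left _ _).trans ((le_max_left _ _).trans hUge)⟩
  · have h1 : ‖(⟨Real.sin φ, Real.cos φ⟩ : ℂ)‖ ^ 2 = 1 := by
      rw [Complex.sq_norm, Complex.normSq_mk]
      nlinarith
    have h2 := norm_nonneg (⟨Real.sin φ, Real.cos φ⟩ : ℂ)
    nlinarith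
  · change 1 / U ≤ Real.cos φ
    rw [div_le_iff₀ hUpos]
    linarith
  · have h1 := Real.add_one_le_exp (U * Real.sin φ)
    rw [← hR] at h1
    nlinarith
  · have h1 : (U : ℂ) * (⟨Real.sin φ, Real.cos φ⟩ : ℂ) =
        ((U * Real.sin φ : ℝ) : ℂ) + (φ : ℂ) * I := by
      apply Complex.ext
      · simp [Complex.sin_ofReal_re]
      · simp [hUcos]
    rw [h1, Complex.exp_add, ← Complex.ofReal_exp, ← hR, Complex.exp_mul_I]
    congr 1
    rw [← Complex.ofReal_cos, ← Complex.ofReal_sin]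
    apply Complex.ext
    · simp [Complex.cos_ofReal_re]
    · simp [Complex.sin_ofReal_re]
  · change U * Real.cos φ < π / 2
    rw [hUcos]
    exact hφlt

end Pool.Agent.Stj
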