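import Pool.Agent.Stj.Step

open Complex Set Filter MeasureTheory Topology
open scoped Real

namespace Pool.Agent.Stj

lemma norm_log_le' (w : ℂ) : ‖Complex.log w‖ ≤ |Real.log ‖w‖| + |Complex.arg w| := by
  have := Complex.norm_le_abs_re_add_abs_im (Complex.log w)
  rwa [Complex.log_re, Complex.log_im] at this

lemma norm_log_pow_le (m : ℕ) (w : ℂ) (hw : 1 / 2 ≤ ‖w‖) :
    ‖Complex.log w ^ m‖ ≤ (m.factorial * Real.exp π) * (‖w‖ + 2) := by
  have h0 : 0 < ‖w‖ := by linarith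
  have h1 := Real.pow_div_factorial_le_exp ‖Complex.log w‖ (norm_nonneg _) m
  rw [div_le_iff₀ (by positivity)] at h1
  rw [norm_pow]
  have h2 : Real.exp ‖Complex.log w‖ ≤ Real.exp π * (‖w‖ + 2) := by
    have h3 : ‖Complex.log w‖ ≤ |Real.log ‖w‖| + π :=
      (norm_log_le' w).trans (by gcongr; exact Complex.abs_arg_le_pi w)
    calc Real.exp ‖Complex.log w‖ ≤ Real.exp (|Real.log ‖w‖| + π) := Real.exp_le_exp.2 h3
      _ = Real.exp π * Real.exp |Real.log ‖w‖| := by rw [Real.exp_add]; ring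
      _ ≤ Real.exp π * (‖w‖ + 2) := by
          gcongr
          rcases le_total 0 (Real.log ‖w‖) with h | h
          · rw [abs_of_nonneg h, Real.exp_log h0]; linarith
          · rw [abs_of_nonpos h, Real.exp_neg, Real.exp_log h0]
            have : ‖w‖⁻¹ ≤ 2 := by
              rw [inv_le_comm₀ h0 (by norm_num)]; linarith
            linarith
  calc ‖Complex.log w‖ ^ m ≤ Real.exp ‖Complex.log w‖ * m.factorial := h1
    _ ≤ (Real.exp π * (‖w‖ + 2)) * m.factorial := by gcongr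
    _ = _ := by ring

/-- The integral over the line `Re z = j + 1/2`. -/
noncomputable def A (m j : ℕ) : ℂ :=
  ∫ y : ℝ, Complex.log ((j : ℂ) + (1 / 2 + y * I)) ^ m / (Real.cosh (π * y) : ℂ) ^ 2

lemma step_A (m j : ℕ) :
    Integrable (fun y : ℝ => Complex.log (((j + 1 : ℕ) : ℂ) + (1 / 2 + y * I)) ^ m /
      (Real.cosh (π * y) : ℂ) ^ 2) ∧
    Integrable (fun y : ℝ => Complex.log ((j : ℂ) + (1 / 2 + y * I)) ^ m /
      (Real.cosh (π * y) : ℂ) ^ 2) ∧
    A m (j + 1) - A m j = ((2 / π * (m * Real.log (j + 1) ^ (m - 1) / (j + 1)) : ℝ) : ℂ) := by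
  set H : ℂ → ℂ := fun z => Complex.log (((j + 1 : ℕ) : ℂ) + z) ^ m with hHdef
  have hslit : ∀ z : ℂ, |z.re| < 1 → (((j + 1 : ℕ) : ℂ) + z) ∈ Complex.slitPlane := by
    intro z hz
    left
    rw [abs_lt] at hz
    simp only [Complex.add_re, Complex.natCast_re]
    push_cast
    have : (0 : ℝ) ≤ j := Nat.cast_nonneg j
    linarith [hz.1]
  have hderiv : ∀ z : ℂ, |z.re| < 1 →
      HasDerivAt H (m * Complex.log (((j + 1 : ℕ) : ℂ) + z) ^ (m - 1) *
        (1 / (((j + 1 : ℕ) : ℂ) + z))) z := by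
    intro z hz
    have h1 : HasDerivAt (fun z : ℂ => ((j + 1 : ℕ) : ℂ) + z) 1 z :=
      (hasDerivAt_id z).const_add _
    have h2 := h1.clog (hslit z hz)
    exact h2.pow m
  have hHd : DifferentiableOn ℂ H {z | |z.re| < 1} := fun z hz =>
    (hderiv z hz).differentiableAt.differentiableWithinAt
  set C : ℝ := (m.factorial * Real.exp π) * (j + 4) with hC
  have hbound : ∀ z : ℂ, |z.re| ≤ 1 / 2 → ‖H z‖ ≤ C * (1 + |z.im|) := by
    intro z hz
    rw [abs_le] at hz
    have hj : (0 : ℝ) ≤ j := Nat.cast_nonneg j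
    have hre : (((j + 1 : ℕ) : ℂ) + z).re = j + 1 + z.re := by
      simp
    have him : (((j + 1 : ℕ) : ℂ) + z).im = z.im := by
      simp
    have h1 : 1 / 2 ≤ ‖((j + 1 : ℕ) : ℂ) + z‖ := by
      refine le_trans ?_ (Complex.re_le_norm _)
      rw [hre]; linarith [hz.1]
    have h2 := norm_log_pow_le m _ h1
    have h3 : ‖((j + 1 : ℕ) : ℂ) + z‖ ≤ j + 2 + |z.im| := by
      refine (Complex.norm_le_abs_re_add_abs_im _).trans ?_
      rw [hre, him, abs_of_nonneg (by linarith [hz.1])]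
      linarith [hz.2]
    calc ‖H z‖ ≤ (m.factorial * Real.exp π) * (‖((j + 1 : ℕ) : ℂ) + z‖ + 2) := h2
      _ ≤ (m.factorial * Real.exp π) * ((j + 4) * (1 + |z.im|)) := by
          gcongr
          nlinarith [abs_nonneg z.im]
      _ = C * (1 + |z.im|) := by rw [hC]; ring
  obtain ⟨i1, i2, h⟩ := one_step H hHd C hbound
  have e2 : (fun y : ℝ => H (-1 / 2 + y * I) / (Real.cosh (π * y) : ℂ) ^ 2) =
      fun y : ℝ => Complex.log ((j : ℂ) + (1 / 2 + y * I)) ^ m / (Real.cosh (π * y) : ℂ) ^ 2 := by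
    ext y
    simp only [hHdef]
    congr 3
    push_cast
    ring
  rw [e2] at i2 h
  refine ⟨i1, i2, ?_⟩
  have hd0 : deriv H 0 = ((m * Real.log (j + 1) ^ (m - 1) / (j + 1) : ℝ) : ℂ) := by
    rw [(hderiv 0 (by simp)).deriv]
    push_cast
    rw [Complex.ofReal_log (by positivity)]
    push_cast
    simp only [add_zero]
    ring
  rw [hd0] at h
  unfold A
  rw [Complex.ofReal_mul, ← h]

lemma norm_pow_sub_pow_le' (m : ℕ) (a b : ℂ) (R : ℝ) (ha : ‖a‖ ≤ R) (hb : ‖b‖ ≤ R) :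
    ‖a ^ m - b ^ m‖ ≤ m * R ^ (m - 1) * ‖a - b‖ := by
  rw [← geom_sum₂_mul a b m, norm_mul]
  gcongr
  refine (norm_sum_le _ _).trans ?_
  have hR : 0 ≤ R := (norm_nonneg _).trans ha
  have : ∀ i ∈ Finset.range m, ‖a ^ i * b ^ (m - 1 - i)‖ ≤ R ^ (m - 1) := by
    intro i hi
    have hi' : i < m := Finset.mem_range.1 hi
    rw [norm_mul, norm_pow, norm_pow]
    calc ‖a‖ ^ i * ‖b‖ ^ (m - 1 - i) ≤ R ^ i * R ^ (m - 1 - i) := by gcongr
      _ = R ^ (m - 1) := by rw [← pow_add]; congr 1; omega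
  refine (Finset.sum_le_sum this).trans ?_
  simp

lemma A_eq (m N : ℕ) : A m N = A m 0 +
    ((2 / π * (m * ∑ j ∈ Finset.range N, Real.log (j + 1) ^ (m - 1) / (j + 1)) : ℝ) : ℂ) := by
  induction N with
  | zero => simp
  | succ n ih =>
    have h := (step_A m n).2.2
    rw [Finset.sum_range_succ]
    have : A m (n + 1) = A m n +
        ((2 / π * (m * Real.log (n + 1) ^ (m - 1) / (n + 1)) : ℝ) : ℂ) := by
      rw [← h]; ring
    rw [this, ih]
    push_cast
    ring

lemma A_sub_le (m N : ℕ) (hN : 1 ≤ N) :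
    ‖A m N - ((2 / π * Real.log N ^ m : ℝ) : ℂ)‖ ≤
      m * (Real.log N + 1) ^ (m - 1) / N * ∫ y : ℝ, (1 + |y|) ^ m / (Real.cosh (π * y)) ^ 2 := by
  have hN0 : (0 : ℝ) < N := by exact_mod_cast hN
  have hN1 : (1 : ℝ) ≤ N := by exact_mod_cast hN
  have hlog : 0 ≤ Real.log N := Real.log_nonneg hN1
  have hint : Integrable (fun y : ℝ => Complex.log ((N : ℂ) + (1 / 2 + y * I)) ^ m /
      (Real.cosh (π * y) : ℂ) ^ 2) := (step_A m N).2.1
  have hk0 : Integrable (fun y : ℝ => (1 : ℂ) / (Real.cosh (π * y) : ℂ) ^ 2) := by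
    have := (integrable_kernel 0).ofReal (𝕜 := ℂ)
    simpa using this
  have hki : ∫ y : ℝ, (1 : ℂ) / (Real.cosh (π * y) : ℂ) ^ 2 = ((2 / π : ℝ) : ℂ) := by
    rw [← integral_inv_cosh_sq]
    have : ∀ y : ℝ, (1 : ℂ) / (Real.cosh (π * y) : ℂ) ^ 2 =
        ((1 / (Real.cosh (π * y)) ^ 2 : ℝ) : ℂ) := by
      intro y
      push_cast
      ring
    simp_rw [this]
    exact integral_ofReal
  have e : A m N - ((2 / π * Real.log N ^ m : ℝ) : ℂ) =
      ∫ y : ℝ, (Complex.log ((N : ℂ) + (1 / 2 + y * I)) ^ m - (Real.log N : ℂ) ^ m) /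
        (Real.cosh (π * y) : ℂ) ^ 2 := by
    have h1 : ((2 / π * Real.log N ^ m : ℝ) : ℂ) =
        ∫ y : ℝ, (Real.log N : ℂ) ^ m * ((1 : ℂ) / (Real.cosh (π * y) : ℂ) ^ 2) := by
      rw [integral_const_mul, hki]
      push_cast
      ring
    rw [h1, A, ← integral_sub hint (hk0.const_mul _)]
    congr 1
    ext y
    ring
  rw [e]
  refine (norm_integral_le_integral_norm _).trans ?_
  rw [← integral_const_mul]
  apply integral_mono_of_nonneg
  · exact ae_of_all _ fun y => norm_nonneg _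
  · exact (integrable_kernel m).const_mul _
  · refine ae_of_all _ fun y => ?_
    simp only
    rw [norm_div, norm_pow, Complex.norm_real, Real.norm_of_nonneg (Real.cosh_pos _).le]
    have hc := Real.cosh_pos (π * y)
    rw [← mul_div_assoc]
    gcongr
    have hd : ‖Complex.log ((N : ℂ) + (1 / 2 + y * I)) - (Real.log N : ℂ)‖ ≤
        (1 + |y|) / N := by
      have hs : Convex ℝ {z : ℂ | (N : ℝ) ≤ z.re} := convex_halfSpace_re_ge _
      have h1 : ∀ z ∈ {z : ℂ | (N : ℝ) ≤ z.re},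
          HasDerivWithinAt Complex.log (z⁻¹) {z : ℂ | (N : ℝ) ≤ z.re} z := by
        intro z hz
        have hz' : (N : ℝ) ≤ z.re := hz
        exact (Complex.hasDerivAt_log (Or.inl (by linarith))).hasDerivWithinAt
      have h2 : ∀ z ∈ {z : ℂ | (N : ℝ) ≤ z.re}, ‖z⁻¹‖ ≤ 1 / N := by
        intro z hz
        have hz' : (N : ℝ) ≤ z.re := hz
        rw [norm_inv, ← one_div]
        gcongr
        exact hz'.trans (Complex.re_le_norm z)
      have h3 : (N : ℂ) ∈ {z : ℂ | (N : ℝ) ≤ z.re} := by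
        simp
      have h4 : (N : ℂ) + (1 / 2 + y * I) ∈ {z : ℂ | (N : ℝ) ≤ z.re} := by
        simp
      have := hs.norm_image_sub_le_of_norm_hasDerivWithin_le h1 h2 h3 h4
      rw [show Complex.log (N : ℂ) = (Real.log N : ℂ) by
        rw [← Complex.ofReal_natCast, Complex.ofReal_log hN0.le]] at this
      refine this.trans ?_
      have h5 : ‖(N : ℂ) + (1 / 2 + y * I) - N‖ ≤ 1 + |y| := by
        have : (N : ℂ) + (1 / 2 + y * I) - N = 1 / 2 + y * I := by ring
        rw [this]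
        refine (norm_add_le _ _).trans ?_
        rw [norm_mul, Complex.norm_I, Complex.norm_real, Real.norm_eq_abs]
        norm_num
      calc 1 / (N : ℝ) * ‖(N : ℂ) + (1 / 2 + y * I) - N‖ ≤ 1 / (N : ℝ) * (1 + |y|) := by gcongr
        _ = (1 + |y|) / N := by ring
    have hb : ‖(Real.log N : ℂ)‖ ≤ (Real.log N + 1) * (1 + |y|) := by
      rw [Complex.norm_real, Real.norm_of_nonneg hlog]
      nlinarith [abs_nonneg y]
    have ha : ‖Complex.log ((N : ℂ) + (1 / 2 + y * I))‖ ≤ (Real.log N + 1) * (1 + |y|) := by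
      have h1 : ‖Complex.log ((N : ℂ) + (1 / 2 + y * I))‖ ≤
          ‖(Real.log N : ℂ)‖ + ‖Complex.log ((N : ℂ) + (1 / 2 + y * I)) - (Real.log N : ℂ)‖ := by
        have := norm_add_le (Real.log N : ℂ)
          (Complex.log ((N : ℂ) + (1 / 2 + y * I)) - (Real.log N : ℂ))
        rwa [add_sub_cancel] at this
      rw [Complex.norm_real, Real.norm_of_nonneg hlog] at h1
      have h2 : (1 + |y|) / N ≤ 1 + |y| := div_le_self (by positivity) hN1
      nlinarith [abs_nonneg y]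
    refine (norm_pow_sub_pow_le' m _ _ _ ha hb).trans ?_
    rcases Nat.eq_zero_or_pos m with rfl | hm
    · simp
    · calc (m : ℝ) * ((Real.log N + 1) * (1 + |y|)) ^ (m - 1) *
          ‖Complex.log ((N : ℂ) + (1 / 2 + y * I)) - (Real.log N : ℂ)‖
          ≤ (m : ℝ) * ((Real.log N + 1) * (1 + |y|)) ^ (m - 1) * ((1 + |y|) / N) := by gcongr
        _ = m * (Real.log N + 1) ^ (m - 1) / N * ((1 + |y|) ^ (m - 1) * (1 + |y|)) := by
            rw [mul_pow]; ring
        _ = m * (Real.log N + 1) ^ (m - 1) / N * (1 + |y|) ^ m := by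
            rw [← pow_succ]; congr 3; omega

lemma tendsto_A (m : ℕ) :
    Tendsto (fun N : ℕ => A m N - ((2 / π * Real.log N ^ m : ℝ) : ℂ)) atTop (𝓝 0) := by
  set K := ∫ y : ℝ, (1 + |y|) ^ m / (Real.cosh (π * y)) ^ 2 with hK
  have h1 : Tendsto (fun x : ℝ => (Real.log x + 1) ^ (m - 1) / x) atTop (𝓝 0) := by
    have h2 := Real.isLittleO_pow_log_id_atTop (n := m - 1)
    have h3 : Tendsto (fun x : ℝ => Real.log x ^ (m - 1) / x) atTop (𝓝 0) :=
      h2.tendsto_div_nhds_zero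
    have h4 : Tendsto (fun x : ℝ => Real.exp 1 * x) atTop atTop :=
      tendsto_id.const_mul_atTop (Real.exp_pos 1)
    have h5 := (h3.comp h4).const_mul (Real.exp 1)
    rw [mul_zero] at h5
    refine h5.congr' ?_
    filter_upwards [eventually_gt_atTop 0] with x hx
    simp only [Function.comp]
    rw [Real.log_mul (Real.exp_pos 1).ne' hx.ne', Real.log_exp]
    have := (Real.exp_pos 1).ne'
    field_simp
    ring
  have h2 : Tendsto (fun N : ℕ => m * ((Real.log (N : ℝ) + 1) ^ (m - 1) / (N : ℝ)) * K) atTop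
      (𝓝 0) := by
    have := ((h1.comp tendsto_natCast_atTop_atTop).const_mul (m : ℝ)).mul_const K
    simpa using this
  refine squeeze_zero_norm' ?_ h2
  filter_upwards [eventually_ge_atTop 1] with N hN
  have := A_sub_le m N hN
  rw [← hK] at this
  refine this.trans (le_of_eq ?_)
  ring

/-- Half line integral. -/
noncomputable def J (m : ℕ) : ℂ :=
  ∫ y in Ioi (0 : ℝ), Complex.log (1 / 2 + y * I) ^ m / (Real.cosh (π * y) : ℂ) ^ 2

lemma A_zero_re (m : ℕ) : (A m 0).re = 2 * (J m).re := by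
  have hint : Integrable (fun y : ℝ => Complex.log (1 / 2 + y * I) ^ m /
      (Real.cosh (π * y) : ℂ) ^ 2) := by
    have := (step_A m 0).2.1
    simpa using this
  set f : ℝ → ℂ := fun y => Complex.log (1 / 2 + y * I) ^ m / (Real.cosh (π * y) : ℂ) ^ 2 with hf
  have h1 : (A m 0).re = ∫ y : ℝ, (f y).re := by
    have : A m 0 = ∫ y : ℝ, f y := by simp [A, hf]
    rw [this]
    exact (integral_re hint).symm
  have h2 : (J m).re = ∫ y in Ioi (0 : ℝ), (f y).re := by
    have : J m = ∫ y in Ioi (0 : ℝ), f y := by simp [J, hf]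
    rw [this]
    exact (integral_re hint.integrableOn).symm
  have hconj : ∀ y : ℝ, f (-y) = (starRingEnd ℂ) (f y) := by
    intro y
    simp only [hf, map_div₀, map_pow, Complex.conj_ofReal]
    have e1 : Real.cosh (π * -y) = Real.cosh (π * y) := by
      rw [mul_neg, Real.cosh_neg]
    have e2 : (1 / 2 + ((-y : ℝ) : ℂ) * I) = (starRingEnd ℂ) (1 / 2 + (y : ℂ) * I) := by
      apply Complex.ext <;> simp
    rw [e1, e2, Complex.log_conj]
    intro h
    have h3 := (Complex.arg_eq_pi_iff.1 h).1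
    simp at h3
    norm_num at h3
  have heven : ∀ y : ℝ, (f y).re = (f |y|).re := by
    intro y
    rcases abs_cases y with ⟨h, _⟩ | ⟨h, _⟩
    · rw [h]
    · rw [h, hconj, Complex.conj_re]
  rw [h1, h2]
  have h5 : ∫ y : ℝ, (f y).re = ∫ y : ℝ, (f |y|).re := by
    congr 1; ext y; exact heven y
  rw [h5]
  exact integral_comp_abs (f := fun t : ℝ => (f t).re)

/-- The Stieltjes constants: `γ_{m-1} = -(π/m) Re J_m`. -/
theorem tendsto_stieltjes (n : ℕ) :
    Tendsto (fun N : ℕ => (∑ k ∈ Finset.Icc 1 N, Real.log k ^ n / k) -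
      Real.log N ^ (n + 1) / (n + 1)) atTop (𝓝 (-(π / (n + 1)) * (J (n + 1)).re)) := by
  have h1 := (Complex.continuous_re.tendsto _).comp (tendsto_A (n + 1))
  simp only [Complex.zero_re] at h1
  have h2 : Tendsto (fun N : ℕ => π / (2 * (n + 1)) *
      (A (n + 1) N - ((2 / π * Real.log N ^ (n + 1) : ℝ) : ℂ)).re -
      π / (2 * (n + 1)) * (A (n + 1) 0).re) atTop
      (𝓝 (π / (2 * (n + 1)) * 0 - π / (2 * (n + 1)) * (A (n + 1) 0).re)) :=
    (h1.const_mul _).sub_const _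
  have h3 : π / (2 * ((n : ℝ) + 1)) * 0 - π / (2 * (n + 1)) * (A (n + 1) 0).re =
      -(π / (n + 1)) * (J (n + 1)).re := by
    rw [A_zero_re]
    have : (n : ℝ) + 1 ≠ 0 := by positivity
    field_simp
    ring
  rw [h3] at h2
  refine h2.congr fun N => ?_
  rw [A_eq, Complex.sub_re, Complex.add_re, Complex.ofReal_re, Complex.ofReal_re]
  have hsum : ∑ k ∈ Finset.Icc 1 N, Real.log k ^ n / k =
      ∑ j ∈ Finset.range N, Real.log (j + 1) ^ n / (j + 1) := by
    clear h1 h2 h3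
    induction N with
    | zero => simp
    | succ N ih =>
      rw [Finset.sum_Icc_succ_top (by omega), Finset.sum_range_succ, ih]
      push_cast
      rfl
  rw [hsum]
  have hp := Real.pi_pos.ne'
  have : (n : ℝ) + 1 ≠ 0 := by positivity
  simp only [Nat.add_sub_cancel]
  push_cast
  field_simp
  ring

end Pool.Agent.Stj
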