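import Pool.Agent.Stj.Sad
import Pool.Agent.Stj.Tele
import Pool.Agent.Stj.Gauss

open Complex Set Filter MeasureTheory Topology
open scoped Real

namespace Pool.Agent.Stj

lemma norm_exp_sub_exp_le {p q : ℂ} {B : ℝ} (hp : Real.exp p.re ≤ B) (hq : Real.exp q.re ≤ B) :
    ‖Complex.exp p - Complex.exp q‖ ≤ B * ‖p - q‖ := by
  have hB : 0 < B := (Real.exp_pos _).trans_le hp
  have hs : Convex ℝ {z : ℂ | z.re ≤ Real.log B} := convex_halfSpace_re_le _
  have h1 : ∀ z ∈ {z : ℂ | z.re ≤ Real.log B},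
      HasDerivWithinAt Complex.exp (Complex.exp z) {z : ℂ | z.re ≤ Real.log B} z := by
    intro z _
    exact (Complex.hasDerivAt_exp z).hasDerivWithinAt
  have h2 : ∀ z ∈ {z : ℂ | z.re ≤ Real.log B}, ‖Complex.exp z‖ ≤ B := by
    intro z hz
    rw [Complex.norm_exp]
    exact (Real.le_log_iff_exp_le hB).1 hz
  exact hs.norm_image_sub_le_of_norm_hasDerivWithin_le h1 h2
    ((Real.le_log_iff_exp_le hB).2 hq) ((Real.le_log_iff_exp_le hB).2 hp)

lemma absorb (k : ℕ) {l : ℝ} (hl : 0 < l) (x : ℝ) :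
    |x| ^ k * Real.exp (-(l * |x| / 100)) ≤
      (k.factorial * 200 ^ k) / l ^ k * Real.exp (-(l * |x| / 200)) := by
  have h := Real.pow_div_factorial_le_exp (l * |x| / 200) (by positivity) k
  rw [div_le_iff₀ (by positivity)] at h
  have h1 : |x| ^ k = (l * |x| / 200) ^ k * (200 ^ k / l ^ k) := by
    rw [div_pow, mul_pow]
    field_simp
  have h2 : Real.exp (-(l * |x| / 100)) =
      Real.exp (-(l * |x| / 200)) * Real.exp (-(l * |x| / 200)) := by
    rw [← Real.exp_add]; congr 1; ring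
  have h3 : Real.exp (l * |x| / 200) * Real.exp (-(l * |x| / 200)) = 1 := by
    rw [← Real.exp_add]; simp
  calc |x| ^ k * Real.exp (-(l * |x| / 100))
      = (l * |x| / 200) ^ k * (200 ^ k / l ^ k) *
        (Real.exp (-(l * |x| / 200)) * Real.exp (-(l * |x| / 200))) := by rw [← h1, h2]
    _ ≤ (Real.exp (l * |x| / 200) * k.factorial) * (200 ^ k / l ^ k) *
        (Real.exp (-(l * |x| / 200)) * Real.exp (-(l * |x| / 200))) := by gcongr
    _ = (k.factorial * (200 ^ k / l ^ k)) * Real.exp (-(l * |x| / 200)) *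
        (Real.exp (l * |x| / 200) * Real.exp (-(l * |x| / 200))) := by ring
    _ = _ := by rw [h3]; ring

lemma exp_min_le {l : ℝ} (hl : 1 ≤ l) (x : ℝ) :
    Real.exp (-(l ^ 2 * (1 / 100 * min (x ^ 2) |x|))) ≤ 2 * Real.exp (-(l * |x| / 100)) := by
  have h1 : l * |x| - 1 ≤ l ^ 2 * min (x ^ 2) |x| := by
    rcases min_choice (x ^ 2) |x| with h | h
    · rw [h, ← sq_abs x]
      nlinarith [sq_nonneg (l * |x| - 1), abs_nonneg x]
    · rw [h]
      nlinarith [abs_nonneg x, mul_nonneg (by linarith : (0 : ℝ) ≤ l) (abs_nonneg x)]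
  have h2 : Real.exp (1 / 100) ≤ 2 := by
    have := Real.exp_one_lt_d9
    have h3 : Real.exp (1 / 100) ^ 2 ≤ Real.exp 1 := by
      rw [← Real.exp_nat_mul, Real.exp_le_exp]
      norm_num
    nlinarith [Real.exp_pos (1 / 100)]
  calc Real.exp (-(l ^ 2 * (1 / 100 * min (x ^ 2) |x|)))
      ≤ Real.exp (1 / 100 + -(l * |x| / 100)) := by
        rw [Real.exp_le_exp]; linarith
    _ = Real.exp (1 / 100) * Real.exp (-(l * |x| / 100)) := Real.exp_add _ _
    _ ≤ _ := by gcongr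

namespace Sad

variable {m : ℕ} (S : Sad m)

/-- `√Λ` -/
noncomputable def l : ℝ := √S.L

lemma l_sq : S.l ^ 2 = S.L := Real.sq_sqrt S.L_pos.le

lemma l_ge : 1 ≤ S.l := by
  unfold l
  rw [Real.one_le_sqrt]
  linarith [S.L_ge]

lemma l_pos : 0 < S.l := lt_of_lt_of_le one_pos S.l_ge

/-- imaginary part of the point on the line. -/
noncomputable def t (x : ℝ) : ℝ := S.R * S.e.re + S.R * x

/-- the point on the line. -/
noncomputable def zz (x : ℝ) : ℂ := ((S.R * S.e.im : ℝ) : ℂ) + (S.t x : ℂ) * I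

/-- `κ` -/
noncomputable def κ (x : ℝ) : ℂ := 1 / (1 - Complex.exp (2 * π * I * S.zz x)) ^ 2

lemma norm_p (x : ℝ) : ‖Complex.exp (2 * π * I * S.zz x)‖ = Real.exp (-(2 * π * S.t x)) := by
  rw [Complex.norm_exp]
  congr 1
  simp [zz]

lemma norm_p_le {x : ℝ} (hx : 1 ≤ S.t x) : ‖Complex.exp (2 * π * I * S.zz x)‖ ≤ 1 / 100 := by
  rw [norm_p]
  have h1 : Real.exp 6 ≤ Real.exp (2 * π * S.t x) := by
    rw [Real.exp_le_exp]
    have := Real.pi_gt_three
    nlinarith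
  have h2 : 100 ≤ Real.exp 6 := by
    have h3 : Real.exp 6 = Real.exp 1 ^ 6 := by rw [← Real.exp_nat_mul]; norm_num
    rw [h3]
    have := Real.exp_one_gt_d9
    calc (100 : ℝ) ≤ 2.7 ^ 6 := by norm_num
      _ ≤ _ := by gcongr; linarith
  rw [Real.exp_neg, inv_le_comm₀ (Real.exp_pos _) (by norm_num)]
  norm_num
  linarith

lemma norm_κ_aux {p : ℂ} (hp : ‖p‖ ≤ 1 / 100) :
    ‖1 / (1 - p) ^ 2‖ ≤ 2 ∧ ‖1 / (1 - p) ^ 2 - 1‖ ≤ 4 * ‖p‖ := by
  have h1 : 99 / 100 ≤ ‖1 - p‖ := by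
    have := norm_sub_norm_le 1 p
    rw [norm_one] at this
    linarith
  have h0 : 0 < ‖1 - p‖ := by linarith
  have h2 : (99 / 100 : ℝ) ^ 2 ≤ ‖1 - p‖ ^ 2 := pow_le_pow_left₀ (by norm_num) h1 2
  have hne : (1 - p) ≠ 0 := norm_pos_iff.1 h0
  constructor
  · rw [norm_div, norm_one, norm_pow, div_le_iff₀ (by positivity)]
    norm_num at h2
    linarith
  · have h3 : 1 / (1 - p) ^ 2 - 1 = p * (2 - p) / (1 - p) ^ 2 := by
      field_simp
      ring
    have h4 : ‖(2 : ℂ) - p‖ ≤ 201 / 100 := by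
      refine (norm_sub_le _ _).trans ?_
      norm_num
      linarith
    rw [h3, norm_div, norm_mul, norm_pow, div_le_iff₀ (by positivity)]
    norm_num at h2
    calc ‖p‖ * ‖(2 : ℂ) - p‖ ≤ ‖p‖ * (201 / 100) := by gcongr
      _ ≤ 4 * ‖p‖ * ‖1 - p‖ ^ 2 := by nlinarith [norm_nonneg p]

lemma norm_κ {x : ℝ} (hx : 1 ≤ S.t x) : ‖S.κ x‖ ≤ 2 := (norm_κ_aux (S.norm_p_le hx)).1

lemma t_near {x : ℝ} (hx : |x| ≤ 1 / 4) : S.R / 2 ≤ S.t x := by
  unfold t
  have := S.hre
  have := S.R_pos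
  rw [abs_le] at hx
  nlinarith [hx.1]

lemma κ_near {x : ℝ} (hx : |x| ≤ 1 / 4) : ‖S.κ x - 1‖ ≤ 8 / S.l := by
  have h1 := S.t_near hx
  have hR := S.hR
  refine (norm_κ_aux (S.norm_p_le (by linarith))).2.trans ?_
  rw [norm_p]
  have h2 : Real.exp (-(2 * π * S.t x)) ≤ 2 / S.L := by
    have h3 : S.L / 2 ≤ 2 * π * S.t x := by
      unfold L
      have := Real.pi_pos
      nlinarith
    have h4 : S.L / 2 ≤ Real.exp (2 * π * S.t x) := by
      have := Real.add_one_le_exp (2 * π * S.t x)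
      linarith
    rw [Real.exp_neg]
    have := S.L_pos
    rw [inv_le_comm₀ (Real.exp_pos _) (by positivity)]
    rw [inv_div]
    exact h4
  have h5 : 2 / S.L ≤ 2 / S.l := by
    have := S.l_pos
    have := S.l_ge
    rw [← S.l_sq]
    gcongr
    nlinarith
  calc 4 * Real.exp (-(2 * π * S.t x)) ≤ 4 * (2 / S.l) := by linarith
    _ = 8 / S.l := by ring

lemma re_a : 4 / 5 ≤ S.a.re := by
  unfold a
  have h1 : ((1 : ℂ) / S.U).re = 1 / S.U := by
    rw [← Complex.ofReal_one, ← Complex.ofReal_div, Complex.ofReal_re]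
  rw [Complex.add_re, h1]
  have := S.hre
  have : 0 ≤ 1 / S.U := by have := S.U_pos; positivity
  linarith

/-- the Gaussian. -/
noncomputable def G (x : ℝ) : ℂ := Complex.exp (-(S.L * S.a / 2) * (x : ℂ) ^ 2)

/-- the half-parameter -/
lemma b_re : 0 < (S.L * S.a / 2 : ℂ).re := by
  have h1 : (S.L * S.a / 2 : ℂ).re = S.L * S.a.re / 2 := by
    rw [show (S.L * S.a / 2 : ℂ) = ((S.L / 2 : ℝ) : ℂ) * S.a by push_cast; ring,
      Complex.re_ofReal_mul]
    ring
  rw [h1]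
  have := S.re_a
  have := S.L_pos
  positivity

lemma G_exponent_re (x : ℝ) : (-(S.L * S.a / 2) * (x : ℂ) ^ 2).re = -(S.L * S.a.re / 2 * x ^ 2) := by
  rw [show (-(S.L * S.a / 2) * (x : ℂ) ^ 2) = ((-(S.L / 2 * x ^ 2) : ℝ) : ℂ) * S.a by
    push_cast; ring, Complex.re_ofReal_mul]
  ring

lemma norm_G_le (x : ℝ) : ‖S.G x‖ ≤ 2 * Real.exp (-(S.l * |x| / 100)) := by
  refine le_trans ?_ (exp_min_le S.l_ge x)
  unfold G
  rw [Complex.norm_exp, G_exponent_re, Real.exp_le_exp, S.l_sq]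
  have h1 := S.re_a
  have h2 := S.L_pos
  have h3 : min (x ^ 2) |x| ≤ x ^ 2 := min_le_left _ _
  have h4 : S.L * (1 / 100 * min (x ^ 2) |x|) ≤ S.L * (1 / 100 * x ^ 2) := by gcongr
  have h5 : 0 ≤ S.L * x ^ 2 := by positivity
  nlinarith

lemma norm_W_le' {x : ℝ} (hx : -S.e.re ≤ x) : ‖S.W x‖ ≤ 2 * Real.exp (-(S.l * |x| / 100)) := by
  refine (S.norm_W_le hx).trans ?_
  rw [← S.l_sq]
  exact exp_min_le S.l_ge x

lemma W_eq {x : ℝ} (hx : |x| ≤ 1 / 4) : S.W x = Complex.exp (S.L * S.q x) := by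
  have h1 : ‖S.r x‖ ≤ 1 / 4 := by
    refine (S.norm_r_le ?_).trans hx
    have := S.hre
    rw [abs_le] at hx
    linarith [hx.1]
  have h2 : (1 + S.r x) ≠ 0 := by
    intro h
    have : S.r x = -1 := by linear_combination h
    rw [this] at h1
    norm_num at h1
  unfold W q
  have hm : (m : ℂ) = S.L * S.U := by exact_mod_cast S.m_eq
  rw [show (S.L : ℂ) * (S.U * Complex.log (1 + S.r x) - x) =
    m * Complex.log (1 + S.r x) + (-((S.L * x : ℝ) : ℂ)) by rw [hm]; push_cast; ring,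
    Complex.exp_add, Complex.exp_nat_mul, Complex.exp_log h2]

lemma W_sub_G {x : ℝ} (hx : |x| ≤ 1 / 4) :
    ‖S.W x - S.G x‖ ≤ 2 * Real.exp (-(S.l * |x| / 100)) * (S.L * |x| ^ 3) := by
  have hx' : -S.e.re ≤ x := by
    have := S.hre
    rw [abs_le] at hx
    linarith [hx.1]
  have h1 := S.norm_W_le' hx'
  have h2 := S.norm_G_le x
  rw [S.W_eq hx] at h1 ⊢
  unfold G at h2 ⊢
  rw [Complex.norm_exp] at h1 h2
  refine (norm_exp_sub_exp_le h1 h2).trans ?_
  gcongr
  have h3 : S.L * S.q x - -(S.L * S.a / 2) * (x : ℂ) ^ 2 = S.L * (S.q x + S.a * x ^ 2 / 2) := by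
    ring
  rw [h3, norm_mul, Complex.norm_real, Real.norm_of_nonneg S.L_pos.le]
  have := S.q_near hx
  have := S.L_pos
  gcongr

/-- the integrand `F_j`. -/
noncomputable def F (j : ℕ) (x : ℝ) : ℂ :=
  (Ioi (-S.e.re + 1 / S.R)).indicator (fun x => S.r x ^ j * (S.W x * S.κ x)) x

/-- the model integrand. -/
noncomputable def M (j : ℕ) (x : ℝ) : ℂ := ((x : ℂ) / S.U) ^ j * S.G x

lemma mem_iff (x : ℝ) : x ∈ Ioi (-S.e.re + 1 / S.R) ↔ 1 < S.t x := by
  unfold t
  rw [mem_Ioi]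
  have hR := S.R_pos
  constructor
  · intro h
    have h2 : S.R * (-S.e.re + 1 / S.R) < S.R * x := by gcongr
    have h3 : S.R * (-S.e.re + 1 / S.R) = - (S.R * S.e.re) + 1 := by field_simp
    linarith
  · intro h
    have h3 : S.R * (-S.e.re + 1 / S.R) = - (S.R * S.e.re) + 1 := by field_simp
    have h2 : S.R * (-S.e.re + 1 / S.R) < S.R * x := by linarith
    exact lt_of_mul_lt_mul_left h2 hR.le

lemma norm_M_le (j : ℕ) (x : ℝ) : ‖S.M j x‖ ≤ |x| ^ j * (2 * Real.exp (-(S.l * |x| / 100))) := by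
  unfold M
  rw [norm_mul, norm_pow, norm_div, Complex.norm_real, Complex.norm_real,
    Real.norm_of_nonneg S.U_pos.le, Real.norm_eq_abs]
  have h1 : |x| / S.U ≤ |x| := div_le_self (abs_nonneg _) (by linarith [S.hU])
  have := S.norm_G_le x
  have := S.U_pos
  gcongr

lemma norm_F_le (j : ℕ) (x : ℝ) :
    ‖S.F j x‖ ≤ |x| ^ j * (2 * Real.exp (-(S.l * |x| / 100))) * 2 := by
  unfold F
  by_cases hx : x ∈ Ioi (-S.e.re + 1 / S.R)
  · rw [indicator_of_mem hx]
    have ht := (S.mem_iff x).1 hx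
    have hx' : -S.e.re ≤ x := by
      have h := mem_Ioi.1 hx
      have : 0 < 1 / S.R := one_div_pos.2 S.R_pos
      linarith
    rw [norm_mul, norm_mul, norm_pow, ← mul_assoc]
    have h1 := S.norm_r_le hx'
    have h2 := S.norm_W_le' hx'
    have h3 := S.norm_κ ht.le
    gcongr
  · rw [indicator_of_notMem hx, norm_zero]
    positivity

/-- constants -/
noncomputable def K (j : ℕ) : ℝ :=
  24 * ((j + 1).factorial * 200 ^ (j + 1)) + 4 * ((j + 3).factorial * 200 ^ (j + 3)) +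
    16 * (j.factorial * 200 ^ j)

lemma K_pos (j : ℕ) : 0 < K j := by unfold K; positivity

lemma F_sub_M (j : ℕ) (hj : j ≤ 2) (x : ℝ) :
    ‖S.F j x - S.M j x‖ ≤ K j / S.l ^ (j + 1) * Real.exp (-(S.l * |x| / 200)) := by
  have hl := S.l_pos
  have a1 := absorb (j + 1) hl x
  have a2 := absorb (j + 3) hl x
  have a3 := absorb j hl x
  set E := Real.exp (-(S.l * |x| / 100)) with hE
  have hE0 : 0 < E := Real.exp_pos _
  set E2 := Real.exp (-(S.l * |x| / 200)) with hE2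
  have hE20 : 0 < E2 := Real.exp_pos _
  have hK : K j / S.l ^ (j + 1) * E2 =
      24 * (((j + 1).factorial * 200 ^ (j + 1)) / S.l ^ (j + 1) * E2) +
      4 * S.l ^ 2 * (((j + 3).factorial * 200 ^ (j + 3)) / S.l ^ (j + 3) * E2) +
      16 / S.l * ((j.factorial * 200 ^ j) / S.l ^ j * E2) := by
    unfold K
    field_simp
    ring
  rw [hK]
  rcases le_total |x| (1 / 4) with hx | hx
  · have hx' : -S.e.re ≤ x := by
      have := S.hre
      rw [abs_le] at hx
      linarith [hx.1]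
    have ht : 1 < S.t x := by
      have := S.t_near hx
      linarith [S.hR]
    have hmem := (S.mem_iff x).2 ht
    have hr := S.norm_r_le hx'
    have hr2 := S.r_near hx
    have hW := S.norm_W_le' hx'
    have hG := S.norm_G_le x
    have hWG := S.W_sub_G hx
    have hκ := S.norm_κ ht.le
    have hκ2 := S.κ_near hx
    rw [← hE] at hW hG hWG
    have hxU : ‖(x : ℂ) / S.U‖ ≤ |x| := by
      rw [norm_div, Complex.norm_real, Complex.norm_real,
        Real.norm_of_nonneg S.U_pos.le, Real.norm_eq_abs]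
      exact div_le_self (abs_nonneg _) (by linarith [S.hU])
    have hpow : ‖S.r x ^ j - ((x : ℂ) / S.U) ^ j‖ ≤ 2 * |x| ^ (j + 1) := by
      have h1 := norm_pow_sub_pow_le' j (S.r x) ((x : ℂ) / S.U) |x| hr hxU
      refine h1.trans ?_
      rcases Nat.eq_zero_or_pos j with rfl | hj0
      · simp
      · calc (j : ℝ) * |x| ^ (j - 1) * ‖S.r x - x / S.U‖ ≤ 2 * |x| ^ (j - 1) * |x| ^ 2 := by
              rw [sq_abs]
              gcongr
              exact_mod_cast hj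
          _ = 2 * |x| ^ (j + 1) := by
              rw [mul_assoc, ← pow_add]
              congr 2
              omega
    have key : S.F j x - S.M j x = (S.r x ^ j - ((x : ℂ) / S.U) ^ j) * (S.W x * S.κ x) +
        ((x : ℂ) / S.U) ^ j * ((S.W x - S.G x) * S.κ x) +
        ((x : ℂ) / S.U) ^ j * (S.G x * (S.κ x - 1)) := by
      unfold F M
      rw [indicator_of_mem hmem]
      ring
    rw [key]
    have hLpos := S.L_pos
    calc _ ≤ ‖(S.r x ^ j - ((x : ℂ) / S.U) ^ j) * (S.W x * S.κ x)‖ +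
        ‖((x : ℂ) / S.U) ^ j * ((S.W x - S.G x) * S.κ x)‖ +
        ‖((x : ℂ) / S.U) ^ j * (S.G x * (S.κ x - 1))‖ := norm_add₃_le
      _ ≤ (2 * |x| ^ (j + 1)) * ((2 * E) * 2) + |x| ^ j * ((2 * E * (S.L * |x| ^ 3)) * 2) +
          |x| ^ j * ((2 * E) * (8 / S.l)) := by
          rw [norm_mul, norm_mul, norm_mul, norm_mul, norm_mul, norm_mul, norm_pow]
          gcongr
      _ = 8 * (|x| ^ (j + 1) * E) + 4 * S.l ^ 2 * (|x| ^ (j + 3) * E) +
          16 / S.l * (|x| ^ j * E) := by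
          rw [S.l_sq]
          ring
      _ ≤ 24 * (|x| ^ (j + 1) * E) + 4 * S.l ^ 2 * (|x| ^ (j + 3) * E) +
          16 / S.l * (|x| ^ j * E) := by
          have : 0 ≤ |x| ^ (j + 1) * E := by positivity
          linarith
      _ ≤ _ := by gcongr
  · have h1 := S.norm_F_le j x
    have h2 := S.norm_M_le j x
    rw [← hE] at h1 h2
    have h3 : |x| ^ j ≤ 4 * |x| ^ (j + 1) := by
      rw [pow_succ]
      have : 0 ≤ |x| ^ j := by positivity
      nlinarith
    calc _ ≤ ‖S.F j x‖ + ‖S.M j x‖ := norm_sub_le _ _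
      _ ≤ |x| ^ j * (2 * E) * 2 + |x| ^ j * (2 * E) := by gcongr
      _ = 6 * |x| ^ j * E := by ring
      _ ≤ 6 * (4 * |x| ^ (j + 1)) * E := by gcongr
      _ = 24 * (|x| ^ (j + 1) * E) := by ring
      _ ≤ 24 * (((j + 1).factorial * 200 ^ (j + 1)) / S.l ^ (j + 1) * E2) := by gcongr
      _ ≤ _ := by
        have p1 : 0 ≤ 4 * S.l ^ 2 * (((j + 3).factorial * 200 ^ (j + 3)) / S.l ^ (j + 3) * E2) := by
          positivity
        have p2 : 0 ≤ 16 / S.l * ((j.factorial * 200 ^ j) / S.l ^ j * E2) := by positivity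
        linarith

end Sad

end Pool.Agent.Stj
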