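import Mathlib

open Complex Set Filter MeasureTheory Topology
open scoped Real

namespace Pool.Agent.Stj

lemma log_bound3 {z : ℂ} (hz : ‖z‖ ≤ 1 / 4) :
    ‖Complex.log (1 + z) - (z - z ^ 2 / 2)‖ ≤ 4 / 9 * ‖z‖ ^ 3 := by
  have h := Complex.norm_log_sub_logTaylor_le 2 (z := z) (by linarith)
  have e : Complex.logTaylor (2 + 1) z = z - z ^ 2 / 2 := by
    rw [Complex.logTaylor_succ, Complex.logTaylor_succ, Complex.logTaylor_succ,
      Complex.logTaylor_zero]
    simp
    ring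
  rw [e] at h
  refine h.trans ?_
  have h1 : (1 - ‖z‖)⁻¹ ≤ 4 / 3 := by
    rw [inv_le_comm₀ (by linarith) (by norm_num)]
    norm_num
    linarith
  have h0 : 0 ≤ ‖z‖ ^ 3 := by positivity
  norm_num
  nlinarith

lemma log_bound2 {z : ℂ} (hz : ‖z‖ ≤ 1 / 2) : ‖Complex.log (1 + z) - z‖ ≤ ‖z‖ ^ 2 := by
  have h := Complex.norm_log_one_add_sub_self_le (z := z) (by linarith)
  refine h.trans ?_
  have h1 : (1 - ‖z‖)⁻¹ ≤ 2 := by
    rw [inv_le_comm₀ (by linarith) (by norm_num)]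
    linarith
  have h0 : 0 ≤ ‖z‖ ^ 2 := by positivity
  nlinarith

/-- `log(1 + x e)` -/
noncomputable def ell (e : ℂ) (x : ℝ) : ℂ := Complex.log (1 + x * e)

/-- the function `E`. -/
noncomputable def Ef (e : ℂ) (x : ℝ) : ℝ := (ell e x / e).re - x

section
variable {e : ℂ} (he : ‖e‖ = 1)
include he

lemma norm_xe (x : ℝ) : ‖(x : ℂ) * e‖ = |x| := by
  rw [norm_mul, he, mul_one, Complex.norm_real, Real.norm_eq_abs]

lemma re_sq_add_im_sq : e.re ^ 2 + e.im ^ 2 = 1 := by
  have := Complex.sq_norm e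
  rw [he, Complex.normSq_apply] at this
  nlinarith

lemma e_ne_zero : e ≠ 0 := by
  rintro rfl
  simp at he

lemma ell_near1 {x : ℝ} (hx : |x| ≤ 1 / 4) : ‖ell e x‖ ≤ 3 / 2 * |x| := by
  have := Complex.norm_log_one_add_half_le_self (z := x * e)
    (by rw [norm_xe he]; linarith)
  rwa [norm_xe he] at this

lemma ell_near2 {x : ℝ} (hx : |x| ≤ 1 / 4) : ‖ell e x - x * e‖ ≤ x ^ 2 := by
  have := log_bound2 (z := x * e) (by rw [norm_xe he]; linarith)
  rwa [norm_xe he, sq_abs] at this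

lemma ell_near3 {x : ℝ} (hx : |x| ≤ 1 / 4) :
    ‖ell e x - (x * e - (x * e) ^ 2 / 2)‖ ≤ 4 / 9 * |x| ^ 3 := by
  have := log_bound3 (z := x * e) (by rw [norm_xe he]; linarith)
  rwa [norm_xe he] at this

omit he in
lemma re_one_add (x : ℝ) : (1 + (x : ℂ) * e).re = 1 + x * e.re := by simp

omit he in
lemma im_one_add (x : ℝ) : (1 + (x : ℂ) * e).im = x * e.im := by simp

omit he in
lemma mem_slit (him : 0 < e.im) (x : ℝ) : 1 + (x : ℂ) * e ∈ Complex.slitPlane := by
  rw [Complex.mem_slitPlane_iff, re_one_add, im_one_add]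
  by_cases hx : x = 0
  · left; simp [hx]
  · right; exact mul_ne_zero hx him.ne'

lemma sq_norm_one_add (x : ℝ) : ‖1 + (x : ℂ) * e‖ ^ 2 = 1 + 2 * x * e.re + x ^ 2 := by
  rw [Complex.sq_norm, Complex.normSq_apply, re_one_add, im_one_add]
  have := re_sq_add_im_sq he
  nlinarith

lemma D_pos (him : 0 < e.im) (x : ℝ) : 0 < 1 + 2 * x * e.re + x ^ 2 := by
  rw [← sq_norm_one_add he]
  have : 1 + (x : ℂ) * e ≠ 0 := Complex.slitPlane_ne_zero (mem_slit him x)
  positivity

omit he in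
lemma hasDerivAt_ell (him : 0 < e.im) (x : ℝ) :
    HasDerivAt (fun x : ℝ => ell e x) (e / (1 + x * e)) x := by
  have h1 : HasDerivAt (fun x : ℝ => 1 + (x : ℂ) * e) (1 * e) x :=
    ((Complex.ofRealCLM.hasDerivAt (x := x)).mul_const e).const_add 1
  have := h1.clog_real (mem_slit him x)
  rwa [one_mul] at this

lemma hasDerivAt_Ef (him : 0 < e.im) (x : ℝ) :
    HasDerivAt (Ef e) (-(x * (x + e.re)) / (1 + 2 * x * e.re + x ^ 2)) x := by
  have h1 := (hasDerivAt_ell him x).div_const e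
  have h2 : HasDerivAt (fun x : ℝ => (ell e x / e).re) ((e / (1 + x * e) / e).re) x :=
    Complex.reCLM.hasFDerivAt.comp_hasDerivAt x h1
  have h3 := h2.sub (hasDerivAt_id x)
  refine h3.congr_deriv ?_
  have h4 : e / (1 + x * e) / e = (1 + x * e)⁻¹ := by
    have := e_ne_zero he
    have := Complex.slitPlane_ne_zero (mem_slit him x)
    field_simp
  rw [h4, Complex.inv_re, Complex.normSq_eq_norm_sq, sq_norm_one_add he, re_one_add]
  have hD := (D_pos he him x).ne'
  rw [eq_div_iff hD, sub_mul, div_mul_cancel₀ _ hD]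
  ring

omit he in
lemma Ef_zero : Ef e 0 = 0 := by simp [Ef, ell]

lemma Ef_cont (him : 0 < e.im) : Continuous (Ef e) :=
  continuous_iff_continuousAt.2 fun x => (hasDerivAt_Ef he him x).continuousAt

/-- near zero -/
lemma Ef_near_pos (him : 0 < e.im) (hre : 4 / 5 ≤ e.re) {x : ℝ} (hx0 : 0 ≤ x) (hx : x ≤ 1 / 4) :
    Ef e x ≤ -x ^ 2 / 4 := by
  have hre1 : e.re ≤ 1 := by
    have := re_sq_add_im_sq he
    nlinarith
  have key : AntitoneOn (fun x => Ef e x + x ^ 2 / 4) (Icc 0 (1 / 4)) := by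
    apply antitoneOn_of_hasDerivWithinAt_nonpos (convex_Icc _ _)
      (f' := fun x => -(x * (x + e.re)) / (1 + 2 * x * e.re + x ^ 2) + x / 2)
    · exact ((Ef_cont he him).add (by fun_prop)).continuousOn
    · intro y _
      have h1 : HasDerivAt (fun x : ℝ => x ^ 2 / 4) (y / 2) y := by
        refine ((hasDerivAt_pow 2 y).div_const 4).congr_deriv ?_
        norm_num; ring
      exact ((hasDerivAt_Ef he him y).add h1).hasDerivWithinAt
    · intro y hy
      rw [interior_Icc] at hy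
      have hD := D_pos he him y
      have h2 : y / 2 ≤ y * (y + e.re) / (1 + 2 * y * e.re + y ^ 2) := by
        rw [le_div_iff₀ hD]
        have h3 : 1 + 2 * y * e.re + y ^ 2 ≤ 2 * (y + e.re) := by
          nlinarith [hy.1, hy.2]
        have := hy.1
        nlinarith
      rw [neg_div]
      linarith
  have := key (left_mem_Icc.2 (by norm_num)) ⟨hx0, hx⟩ hx0
  simp only [Ef_zero] at this
  linarith

lemma Ef_near_neg (him : 0 < e.im) (hre : 4 / 5 ≤ e.re) {x : ℝ} (hx0 : x ≤ 0) (hx : -1 / 4 ≤ x) :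
    Ef e x ≤ -x ^ 2 / 4 := by
  have hre1 : e.re ≤ 1 := by
    have := re_sq_add_im_sq he
    nlinarith
  have key : MonotoneOn (fun x => Ef e x + x ^ 2 / 4) (Icc (-1 / 4) 0) := by
    apply monotoneOn_of_hasDerivWithinAt_nonneg (convex_Icc _ _)
      (f' := fun x => -(x * (x + e.re)) / (1 + 2 * x * e.re + x ^ 2) + x / 2)
    · exact ((Ef_cont he him).add (by fun_prop)).continuousOn
    · intro y _
      have h1 : HasDerivAt (fun x : ℝ => x ^ 2 / 4) (y / 2) y := by
        refine ((hasDerivAt_pow 2 y).div_const 4).congr_deriv ?_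
        norm_num; ring
      exact ((hasDerivAt_Ef he him y).add h1).hasDerivWithinAt
    · intro y hy
      rw [interior_Icc] at hy
      have hD := D_pos he him y
      have h2 : y * (y + e.re) / (1 + 2 * y * e.re + y ^ 2) ≤ y / 2 := by
        rw [div_le_iff₀ hD]
        have h3 : 1 + 2 * y * e.re + y ^ 2 ≤ 2 * (y + e.re) := by
          nlinarith [hy.1, hy.2]
        have := hy.2
        nlinarith
      rw [neg_div]
      linarith
  have := key ⟨hx, hx0⟩ (right_mem_Icc.2 (by norm_num)) hx0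
  simp only [Ef_zero] at this
  linarith

lemma Ef_far_pos (him : 0 < e.im) (hre : 4 / 5 ≤ e.re) {x : ℝ} (hx : 1 / 4 ≤ x) :
    Ef e x ≤ -1 / 64 - 3 / 20 * (x - 1 / 4) := by
  have hre1 : e.re ≤ 1 := by
    have := re_sq_add_im_sq he
    nlinarith
  have key : AntitoneOn (fun x => Ef e x + 3 / 20 * x) (Ici (1 / 4)) := by
    apply antitoneOn_of_hasDerivWithinAt_nonpos (convex_Ici _)
      (f' := fun x => -(x * (x + e.re)) / (1 + 2 * x * e.re + x ^ 2) + 3 / 20)
    · exact ((Ef_cont he him).add (by fun_prop)).continuousOn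
    · intro y _
      have h1 : HasDerivAt (fun x : ℝ => 3 / 20 * x) (3 / 20) y := by
        simpa using (hasDerivAt_id y).const_mul (3 / 20 : ℝ)
      exact ((hasDerivAt_Ef he him y).add h1).hasDerivWithinAt
    · intro y hy
      rw [interior_Ici] at hy
      have hy' : 1 / 4 < y := hy
      have hD := D_pos he him y
      have h2 : 3 / 20 ≤ y * (y + e.re) / (1 + 2 * y * e.re + y ^ 2) := by
        rw [le_div_iff₀ hD]
        nlinarith
      rw [neg_div]
      linarith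
  have := key (mem_Ici.2 le_rfl) (mem_Ici.2 hx) hx
  have h3 := Ef_near_pos he him hre (x := 1 / 4) (by norm_num) le_rfl
  simp only at this
  norm_num at h3
  linarith

lemma Ef_far_neg (him : 0 < e.im) (hre : 4 / 5 ≤ e.re) {x : ℝ} (hx : x ≤ -1 / 4)
    (hx2 : -e.re ≤ x) : Ef e x ≤ -1 / 64 := by
  have key : MonotoneOn (Ef e) (Icc (-e.re) 0) := by
    apply monotoneOn_of_hasDerivWithinAt_nonneg (convex_Icc _ _)
      (f' := fun x => -(x * (x + e.re)) / (1 + 2 * x * e.re + x ^ 2))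
    · exact (Ef_cont he him).continuousOn
    · intro y _
      exact (hasDerivAt_Ef he him y).hasDerivWithinAt
    · intro y hy
      rw [interior_Icc] at hy
      have hD := D_pos he him y
      apply div_nonneg _ hD.le
      nlinarith [hy.1, hy.2]
  have := key (a := x) (b := -1 / 4) ⟨hx2, by linarith⟩ ⟨by linarith, by norm_num⟩ hx
  have h3 := Ef_near_neg he him hre (x := -1 / 4) (by norm_num) le_rfl
  norm_num at h3
  linarith

/-- size of `ell`, for `x ≥ 1/4`. -/
lemma ell_far_pos (hre : 4 / 5 ≤ e.re) {x : ℝ} (hx : 1 / 4 ≤ x) :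
    ‖ell e x‖ ^ 2 ≤ 20 * x := by
  have h1 := Complex.norm_le_abs_re_add_abs_im (ell e x)
  unfold ell at h1 ⊢
  rw [Complex.log_re, Complex.log_im] at h1
  have h2 : |Complex.arg (1 + x * e)| ≤ π / 2 := by
    rw [Complex.abs_arg_le_pi_div_two_iff, re_one_add]
    nlinarith
  have h3 : 1 ≤ ‖1 + (x : ℂ) * e‖ := by
    have := Complex.re_le_norm (1 + (x : ℂ) * e)
    rw [re_one_add] at this
    nlinarith
  have h4 : ‖1 + (x : ℂ) * e‖ ≤ 1 + x := by
    refine (norm_add_le _ _).trans ?_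
    rw [norm_xe he, norm_one, abs_of_nonneg (by linarith)]
  have h5 : |Real.log ‖1 + (x : ℂ) * e‖| ≤ 2 * (√(1 + x) - 1) := by
    rw [abs_of_nonneg (Real.log_nonneg h3)]
    have h6 := Real.log_le_log (by linarith) h4
    have h7 : Real.log (1 + x) = 2 * Real.log (√(1 + x)) := by
      rw [Real.log_sqrt (by linarith)]; ring
    have h8 := Real.log_le_sub_one_of_pos (x := √(1 + x)) (Real.sqrt_pos.2 (by linarith))
    linarith
  have hpi := Real.pi_lt_d2
  have h9 : ‖Complex.log (1 + x * e)‖ ≤ 2 * √(1 + x) := by linarith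
  have h10 : √(1 + x) ^ 2 = 1 + x := Real.sq_sqrt (by linarith)
  have h11 : ‖Complex.log (1 + x * e)‖ ^ 2 ≤ (2 * √(1 + x)) ^ 2 :=
    pow_le_pow_left₀ (norm_nonneg _) h9 2
  rw [mul_pow, h10] at h11
  linarith

/-- size of `ell`, for `-e.re ≤ x ≤ -1/4`. -/
lemma ell_far_neg {U : ℝ} (hU : 0 < U) (him : 1 / U ≤ e.im) {x : ℝ}
    (hx : x ≤ 0) (hx2 : -e.re ≤ x) : ‖ell e x‖ ≤ Real.log U + 2 := by
  have h1 := Complex.norm_le_abs_re_add_abs_im (ell e x)
  unfold ell at h1 ⊢
  rw [Complex.log_re, Complex.log_im] at h1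
  have hsq := re_sq_add_im_sq he
  have hre0 : 0 ≤ e.re := by linarith
  have h2 : |Complex.arg (1 + x * e)| ≤ π / 2 := by
    rw [Complex.abs_arg_le_pi_div_two_iff, re_one_add]
    nlinarith [sq_nonneg e.im]
  have h3 : 1 / U ≤ ‖1 + (x : ℂ) * e‖ := by
    have h4 : (1 / U) ^ 2 ≤ ‖1 + (x : ℂ) * e‖ ^ 2 := by
      rw [sq_norm_one_add he]
      have h5 : (1 / U) ^ 2 ≤ e.im ^ 2 := pow_le_pow_left₀ (by positivity) him 2
      nlinarith [sq_nonneg (x + e.re)]
    exact (sq_le_sq₀ (by positivity) (norm_nonneg _)).1 h4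
  have h6 : ‖1 + (x : ℂ) * e‖ ≤ 1 := by
    have h7 : ‖1 + (x : ℂ) * e‖ ^ 2 ≤ 1 ^ 2 := by
      rw [sq_norm_one_add he]
      nlinarith
    exact (sq_le_sq₀ (norm_nonneg _) zero_le_one).1 h7
  have h8 : |Real.log ‖1 + (x : ℂ) * e‖| ≤ Real.log U := by
    have h9 := Real.log_le_log (by positivity) h3
    rw [one_div, Real.log_inv] at h9
    have h10 : Real.log ‖1 + (x : ℂ) * e‖ ≤ 0 := Real.log_nonpos (norm_nonneg _) h6
    rw [abs_of_nonpos h10]
    linarith
  have hpi := Real.pi_lt_d2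
  linarith

end

end Pool.Agent.Stj
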