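import Pool.Agent.Stj.MainInt

open Complex Set Filter MeasureTheory Topology
open scoped Real

namespace Pool.Agent.Stj

lemma ratio_aux {P0 P1 P2 D b e0 e1 e2 : ℂ} {l Q : ℝ} (hQ : 1 ≤ Q) (hl : 4 * Q ≤ l)
    (h0 : P0 = D + e0) (h1 : P1 = P0 + e1) (h2 : P2 - 2 * P1 + P0 = b * D + e2)
    (b0 : ‖e0‖ ≤ Q / l ^ 2) (b1 : ‖e1‖ ≤ Q / l ^ 3) (b2 : ‖e2‖ ≤ Q / l ^ 4)
    (hD1 : 1 / l ≤ ‖D‖) (hD2 : ‖D‖ ≤ 3 / l) (hb : ‖b‖ ≤ 1 / l ^ 2) :
    P0 ≠ 0 ∧ P1 ≠ 0 ∧ 1 / (2 * l) ≤ ‖P0‖ ∧ ‖P2 * P0 / P1 ^ 2 - 1 - b‖ ≤ 48 * Q / l ^ 3 := by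
  have hl0 : 0 < l := by linarith
  have hl1 : 1 ≤ l := by linarith
  have hQl : Q / l ≤ 1 / 4 := by
    rw [div_le_iff₀ hl0]; linarith
  have b0' : ‖e0‖ ≤ 1 / (4 * l) := by
    refine b0.trans ?_
    have : Q / l ^ 2 = (Q / l) * (1 / l) := by field_simp
    rw [this]
    calc Q / l * (1 / l) ≤ 1 / 4 * (1 / l) := by gcongr
      _ = _ := by field_simp
  have b1' : ‖e1‖ ≤ Q / l ^ 2 := by
    refine b1.trans ?_
    apply div_le_div_of_nonneg_left (by linarith) (by positivity)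
    exact pow_le_pow_right₀ hl1 (by norm_num)
  have b1'' : ‖e1‖ ≤ 1 / (4 * l) := by
    refine b1'.trans ?_
    have : Q / l ^ 2 = (Q / l) * (1 / l) := by field_simp
    rw [this]
    calc Q / l * (1 / l) ≤ 1 / 4 * (1 / l) := by gcongr
      _ = _ := by field_simp
  have e14 : 1 / (4 * l) = (1 / l) / 4 := by field_simp
  have e12 : 1 / (2 * l) = (1 / l) / 2 := by field_simp
  have hP0 : 1 / (2 * l) ≤ ‖P0‖ := by
    have := norm_sub_le P0 e0
    rw [h0, add_sub_cancel_right, ← h0] at this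
    rw [e12]
    rw [e14] at b0'
    have : 0 < 1 / l := by positivity
    linarith
  have hP0u : ‖P0‖ ≤ 4 / l := by
    rw [h0]
    refine (norm_add_le _ _).trans ?_
    rw [e14] at b0'
    have e1 : 4 / l = 4 * (1 / l) := by ring
    have e2 : 3 / l = 3 * (1 / l) := by ring
    rw [e1]
    rw [e2] at hD2
    have : 0 < 1 / l := by positivity
    linarith
  have hP1 : 1 / (2 * l) ≤ ‖P1‖ := by
    have h3 : P1 = D + (e0 + e1) := by rw [h1, h0]; ring
    have := norm_sub_le P1 (e0 + e1)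
    rw [h3, add_sub_cancel_right, ← h3] at this
    have h4 := norm_add_le e0 e1
    rw [e12]
    rw [e14] at b0' b1''
    have : 0 < 1 / l := by positivity
    linarith
  have p0 : 0 < 1 / (2 * l) := by positivity
  have hP0n : P0 ≠ 0 := norm_pos_iff.1 (p0.trans_le hP0)
  have hP1n : P1 ≠ 0 := norm_pos_iff.1 (p0.trans_le hP1)
  refine ⟨hP0n, hP1n, hP0, ?_⟩
  have key : P2 * P0 / P1 ^ 2 - 1 - b =
      (-(b * (e0 * P0 + 2 * (P0 * e1) + e1 * e1)) + e2 * P0 - e1 * e1) / P1 ^ 2 := by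
    rw [eq_div_iff (pow_ne_zero 2 hP1n), sub_mul, sub_mul,
      div_mul_cancel₀ _ (pow_ne_zero 2 hP1n)]
    have h3 : P2 = 2 * P1 - P0 + (b * D + e2) := by linear_combination h2
    have h4 : D = P0 - e0 := by linear_combination -h0
    rw [h3, h4, h1]
    ring
  rw [key, norm_div, norm_pow, div_le_iff₀ (by positivity)]
  have hP1sq : 1 / (4 * l ^ 2) ≤ ‖P1‖ ^ 2 := by
    have := pow_le_pow_left₀ p0.le hP1 2
    calc 1 / (4 * l ^ 2) = (1 / (2 * l)) ^ 2 := by field_simp; norm_num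
      _ ≤ _ := this
  have n1 : ‖-(b * (e0 * P0 + 2 * (P0 * e1) + e1 * e1)) + e2 * P0 - e1 * e1‖ ≤
      (1 / l ^ 2) * ((Q / l ^ 2) * (4 / l) + 2 * ((4 / l) * (Q / l ^ 3)) + (Q / l ^ 3) * (Q / l ^ 3)) +
      (Q / l ^ 4) * (4 / l) + (Q / l ^ 3) * (Q / l ^ 3) := by
    calc _ ≤ ‖b * (e0 * P0 + 2 * (P0 * e1) + e1 * e1)‖ + ‖e2 * P0‖ + ‖e1 * e1‖ := by
          refine (norm_sub_le _ _).trans ?_
          gcongr
          refine (norm_add_le _ _).trans ?_
          rw [norm_neg]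
      _ ≤ ‖b‖ * (‖e0‖ * ‖P0‖ + 2 * (‖P0‖ * ‖e1‖) + ‖e1‖ * ‖e1‖) + ‖e2‖ * ‖P0‖ + ‖e1‖ * ‖e1‖ := by
          rw [norm_mul, norm_mul, norm_mul]
          gcongr
          refine norm_add₃_le.trans ?_
          rw [norm_mul, norm_mul, norm_mul, norm_mul]
          simp
      _ ≤ _ := by
          gcongr
  have n2 : (1 / l ^ 2) * ((Q / l ^ 2) * (4 / l) + 2 * ((4 / l) * (Q / l ^ 3)) +
      (Q / l ^ 3) * (Q / l ^ 3)) + (Q / l ^ 4) * (4 / l) + (Q / l ^ 3) * (Q / l ^ 3) ≤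
      12 * Q / l ^ 5 := by
    have hq : Q ≤ l / 4 := by linarith
    have t1 : (Q / l ^ 3) * (Q / l ^ 3) ≤ Q / l ^ 5 := by
      rw [div_mul_div_comm, div_le_div_iff₀ (by positivity) (by positivity)]
      have : Q * l ^ 5 ≤ l * l ^ 5 := by gcongr; linarith
      calc Q * Q * l ^ 5 = Q * (Q * l ^ 5) := by ring
        _ ≤ Q * (l * l ^ 5) := by gcongr
        _ = Q * (l ^ 3 * l ^ 3) := by ring
    have t2 : Q / l ^ 5 ≤ Q / l ^ 3 := by
      apply div_le_div_of_nonneg_left (by linarith) (by positivity)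
      exact pow_le_pow_right₀ hl1 (by norm_num)
    have t3 : (1 / l ^ 2) * ((Q / l ^ 2) * (4 / l) + 2 * ((4 / l) * (Q / l ^ 3)) +
      (Q / l ^ 3) * (Q / l ^ 3)) ≤ (1 / l ^ 2) * (4 * (Q / l ^ 3) + 2 * (Q / l ^ 3) + Q / l ^ 3) := by
      have s1 : (Q / l ^ 2) * (4 / l) = 4 * (Q / l ^ 3) := by field_simp
      have s2 : 2 * ((4 / l) * (Q / l ^ 3)) ≤ 2 * (Q / l ^ 3) := by
        have : 4 / l ≤ 1 := by rw [div_le_iff₀ hl0]; linarith
        have p : 0 ≤ Q / l ^ 3 := by positivity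
        nlinarith
      have s3 := t1.trans t2
      rw [s1]
      gcongr
    have t4 : (1 / l ^ 2) * (4 * (Q / l ^ 3) + 2 * (Q / l ^ 3) + Q / l ^ 3) = 7 * (Q / l ^ 5) := by
      field_simp
      ring
    have t5 : (Q / l ^ 4) * (4 / l) = 4 * (Q / l ^ 5) := by field_simp
    have t6 : 12 * Q / l ^ 5 = 12 * (Q / l ^ 5) := by ring
    rw [t5, t6]
    linarith
  calc _ ≤ 12 * Q / l ^ 5 := n1.trans n2
    _ = 48 * Q / l ^ 3 * (1 / (4 * l ^ 2)) := by field_simp; ring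
    _ ≤ 48 * Q / l ^ 3 * ‖P1‖ ^ 2 := by gcongr

namespace Sad

variable {m : ℕ} (S : Sad m)

lemma re_le_one : S.e.re ≤ 1 := by
  have := re_sq_add_im_sq S.he
  nlinarith [sq_nonneg S.e.im]

lemma R_eq : S.R = Real.exp (S.U * S.e.re) := by
  have h := congrArg norm S.hexp
  rw [Complex.norm_exp, norm_mul, norm_mul, Complex.norm_I, Complex.norm_conj, S.he,
    Complex.norm_real, Real.norm_of_nonneg S.R_pos.le, Complex.re_ofReal_mul] at h
  linarith

lemma R_ge : S.U ≤ S.R := by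
  rw [S.R_eq]
  have h1 := Real.quadratic_le_exp_of_nonneg (x := S.U * S.e.re)
    (mul_nonneg S.U_pos.le (by linarith [S.hre]))
  have h2 := S.hre
  have h3 := S.hU
  have h4 : 4 / 5 * S.U ≤ S.U * S.e.re := by nlinarith [S.U_pos]
  nlinarith

lemma logU_ge : 8 ≤ Real.log S.U := by
  have h1 : Real.log (10 ^ 4) ≤ Real.log S.U := Real.log_le_log (by norm_num) S.hU
  rw [Real.log_pow] at h1
  have h2 : (2 : ℝ) ≤ Real.log 10 := by
    rw [Real.le_log_iff_exp_le (by norm_num)]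
    have h3 : Real.exp 2 = Real.exp 1 ^ 2 := by rw [← Real.exp_nat_mul]; norm_num
    rw [h3]
    have := Real.exp_one_lt_d9
    have := Real.exp_pos 1
    nlinarith
  push_cast at h1
  linarith

lemma X_ge : 1 ≤ S.R * S.e.im := by
  have h1 := S.him
  have h2 := S.R_ge
  have h3 := S.U_pos
  have h4 : S.U * S.e.im ≥ 1 := by
    have := mul_le_mul_of_nonneg_left h1 h3.le
    rwa [mul_one_div_cancel h3.ne'] at this
  have := S.im_pos
  nlinarith

lemma X_le : S.R * S.e.im ≤ S.R * (π / 2) / S.U := by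
  rw [le_div_iff₀ S.U_pos]
  have := S.him2
  have := S.R_pos
  nlinarith

/-- garbage -/
noncomputable def g (j : ℕ) : ℂ :=
  ((∫ t in Ioc (0 : ℝ) 1, ff (m + j) (1 / 2 + t * I)) -
      I * (∫ x : ℝ in (1 / 2 : ℝ)..(S.R * S.e.im), ff (m + j) (x + I))) / (S.C * (S.U * S.e) ^ j)

lemma C_ne : S.C ≠ 0 := by
  unfold C
  have h1 := S.U_ne
  have h2 := S.e_ne
  have h3 : (S.R : ℂ) ≠ 0 := by exact_mod_cast S.R_pos.ne'
  have h4 := Complex.exp_ne_zero (2 * π * I * S.zz 0)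
  have h5 : ((S.U : ℂ) * S.e) ^ m ≠ 0 := pow_ne_zero _ (mul_ne_zero h1 h2)
  simp only [ne_eq, mul_eq_zero, neg_eq_zero, OfNat.ofNat_ne_zero, false_or, not_or]
  exact ⟨⟨h5, h4⟩, h3⟩

lemma norm_C : 4 * S.U ^ m * Real.exp (-S.L) * S.R ≤ ‖S.C‖ := by
  unfold C
  rw [norm_mul, norm_mul, norm_mul, norm_pow, norm_mul, S.he, mul_one, norm_p, norm_neg,
    Complex.norm_ofNat, Complex.norm_real, Complex.norm_real, Real.norm_of_nonneg S.U_pos.le,
    Real.norm_of_nonneg S.R_pos.le]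
  have hU := S.U_pos
  have hR := S.R_pos
  gcongr
  unfold t L
  have := S.re_le_one
  have hpi := Real.pi_pos
  have h2 : S.R * S.e.re ≤ S.R := by nlinarith
  nlinarith

lemma norm_g_le (j : ℕ) : ‖S.g j‖ ≤ Real.exp (-S.L) := by
  have hU := S.U_pos
  have hU4 := S.hU
  have hR := S.R_pos
  have hL := S.L_pos
  have hX1 := S.X_ge
  have hX2 := S.X_le
  have hlog := S.logU_ge
  have hpi := Real.pi_lt_d2
  have hpi0 := Real.pi_gt_three
  set X := S.R * S.e.im with hX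
  set B : ℝ := S.U + 4 - Real.log S.U with hB
  have hlogU : Real.log S.U ≤ S.U - 1 := Real.log_le_sub_one_of_pos hU
  have hB1 : Real.log (X + 1) + 2 ≤ B := by
    have h1 : X + 1 ≤ S.R * (π / S.U) := by
      have : S.R * (π / S.U) = 2 * (S.R * (π / 2) / S.U) := by field_simp
      rw [this]; linarith
    have h2 : Real.log (X + 1) ≤ Real.log (S.R * (π / S.U)) := Real.log_le_log (by linarith) h1
    rw [Real.log_mul hR.ne' (by positivity), Real.log_div (by positivity) hU.ne'] at h2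
    have h3 : Real.log S.R ≤ S.U := by
      rw [S.R_eq, Real.log_exp]
      have := S.re_le_one
      nlinarith
    have h4 : Real.log π ≤ 2 := by
      rw [Real.log_le_iff_le_exp (by positivity)]
      have := Real.add_one_le_exp (2 : ℝ)
      have h5 : Real.exp 2 = Real.exp 1 ^ 2 := by rw [← Real.exp_nat_mul]; norm_num
      have := Real.exp_one_gt_d9
      nlinarith
    linarith
  have hB3 : 3 ≤ B := by linarith
  have hgb := garbage_bound (m + j) X B (by linarith) hB1 hB3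
  unfold g
  rw [norm_div]
  have hden : 4 * S.U ^ (m + j) * Real.exp (-S.L) * S.R ≤ ‖S.C * (S.U * S.e) ^ j‖ := by
    rw [norm_mul, norm_pow, norm_mul, S.he, mul_one, Complex.norm_real,
      Real.norm_of_nonneg hU.le]
    have := S.norm_C
    calc 4 * S.U ^ (m + j) * Real.exp (-S.L) * S.R
        = (4 * S.U ^ m * Real.exp (-S.L) * S.R) * S.U ^ j := by rw [pow_add]; ring
      _ ≤ ‖S.C‖ * S.U ^ j := by gcongr
  have hden0 : 0 < 4 * S.U ^ (m + j) * Real.exp (-S.L) * S.R := by positivity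
  rw [div_le_iff₀ (hden0.trans_le hden)]
  refine hgb.trans ?_
  refine le_trans ?_ (mul_le_mul_of_nonneg_left hden (Real.exp_pos _).le)
  have hXR : X + 1 ≤ S.R := by
    have h1 : S.R * (π / 2) / S.U ≤ S.R / 2 := by
      rw [div_le_iff₀ hU]
      nlinarith
    have := S.hR
    linarith
  have hBU : B ^ (m + j) ≤ S.U ^ (m + j) * Real.exp (-(2 * S.L)) := by
    have h1 : B ≤ S.U * Real.exp (-(2 / S.U)) := by
      have h2 := Real.add_one_le_exp (-(2 / S.U))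
      have h3 : S.U * (-(2 / S.U) + 1) = S.U - 2 := by field_simp; ring
      have h4 : S.U * (-(2 / S.U) + 1) ≤ S.U * Real.exp (-(2 / S.U)) := by gcongr
      linarith
    calc B ^ (m + j) ≤ (S.U * Real.exp (-(2 / S.U))) ^ (m + j) := by gcongr
      _ = S.U ^ (m + j) * Real.exp (-(2 / S.U) * (m + j : ℕ)) := by
          rw [mul_pow, ← Real.exp_nat_mul]
          congr 2
          ring
      _ ≤ S.U ^ (m + j) * Real.exp (-(2 * S.L)) := by
          gcongr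
          push_cast
          rw [S.m_eq]
          have h5 : 2 / S.U * (S.L * S.U + j) = 2 * S.L + 2 / S.U * j := by field_simp
          have h6 : 0 ≤ 2 / S.U * j := by positivity
          linarith
  calc (X + 1) * B ^ (m + j) ≤ S.R * (S.U ^ (m + j) * Real.exp (-(2 * S.L))) := by gcongr
    _ = Real.exp (-S.L) * (S.U ^ (m + j) * Real.exp (-S.L) * S.R) := by
        rw [show -(2 * S.L) = -S.L + -S.L by ring, Real.exp_add]
        ring
    _ ≤ Real.exp (-S.L) * (4 * S.U ^ (m + j) * Real.exp (-S.L) * S.R) := by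
        apply mul_le_mul_of_nonneg_left _ (Real.exp_pos _).le
        have : 0 ≤ S.U ^ (m + j) * Real.exp (-S.L) * S.R := by positivity
        nlinarith

lemma norm_g_le' (j k : ℕ) (hk : k ≤ 4) : ‖S.g j‖ ≤ 2 / S.l ^ k := by
  refine (S.norm_g_le j).trans ?_
  have hl := S.l_pos
  have h1 : Real.exp (-S.L) ≤ 2 / S.l ^ 4 := by
    have h2 := Real.quadratic_le_exp_of_nonneg S.L_pos.le
    have h3 : S.l ^ 4 = S.L ^ 2 := by
      rw [← S.l_sq]; ring
    rw [Real.exp_neg, h3, inv_le_comm₀ (Real.exp_pos _) (by have := S.L_pos; positivity), inv_div]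
    have := S.L_pos
    linarith
  refine h1.trans ?_
  apply div_le_div_of_nonneg_left (by norm_num) (by positivity)
  exact pow_le_pow_right₀ S.l_ge hk

/-- normalised values -/
noncomputable def P (j : ℕ) : ℂ := J (m + j) / (S.C * (S.U * S.e) ^ j)

lemma P_eq (j : ℕ) : S.P j = (∫ x, S.Fs j x) + S.g j := by
  unfold P g
  have h1 := J_eq (m + j) (S.R * S.e.im) (by linarith [S.X_ge])
  rw [S.line_integral j] at h1
  have hne : S.C * (S.U * S.e) ^ j ≠ 0 :=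
    mul_ne_zero S.C_ne (pow_ne_zero _ (mul_ne_zero S.U_ne S.e_ne))
  rw [h1, add_div, add_comm]
  congr 1
  rw [mul_div_assoc, mul_comm, div_mul_cancel₀]
  exact hne

/-- The overall constant. -/
noncomputable def QQ : ℝ := 400 * K 0 + 400 * K 1 + 400 * K 2 + 8

lemma QQ_ge : 1 ≤ QQ := by
  unfold QQ
  have := K_pos 0
  have := K_pos 1
  have := K_pos 2
  linarith

lemma e0_bound : ‖S.P 0 - S.D‖ ≤ QQ / S.l ^ 2 := by
  rw [S.P_eq, S.Fs0]
  have h1 := S.int_F_sub_M 0 (by norm_num)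
  rw [S.int_M0] at h1
  have h2 := S.norm_g_le' 0 2 (by norm_num)
  have e : (∫ x, S.F 0 x) + S.g 0 - S.D = ((∫ x, S.F 0 x) - S.D) + S.g 0 := by ring
  rw [e]
  have hl := S.l_pos
  calc _ ≤ 400 * K 0 / S.l ^ (0 + 2) + 2 / S.l ^ 2 := (norm_add_le _ _).trans (by gcongr)
    _ = (400 * K 0 + 2) / S.l ^ 2 := by simp only [zero_add]; ring
    _ ≤ QQ / S.l ^ 2 := by
        gcongr
        unfold QQ
        have := K_pos 1
        have := K_pos 2
        linarith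

lemma e1_bound : ‖S.P 1 - S.P 0‖ ≤ QQ / S.l ^ 3 := by
  rw [S.P_eq, S.P_eq, S.Fs0, S.Fs1]
  have h1 := S.int_F_sub_M 1 (by norm_num)
  rw [S.int_M1, sub_zero] at h1
  have h2 := S.norm_g_le' 0 3 (by norm_num)
  have h3 := S.norm_g_le' 1 3 (by norm_num)
  have e : (∫ x, S.F 0 x) + (∫ x, S.F 1 x) + S.g 1 - ((∫ x, S.F 0 x) + S.g 0) =
      (∫ x, S.F 1 x) + S.g 1 - S.g 0 := by ring
  rw [e]
  have hl := S.l_pos
  calc _ ≤ 400 * K 1 / S.l ^ (1 + 2) + 2 / S.l ^ 3 + 2 / S.l ^ 3 := by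
        refine (norm_sub_le _ _).trans ?_
        gcongr
        exact (norm_add_le _ _).trans (by gcongr)
    _ = (400 * K 1 + 4) / S.l ^ 3 := by ring
    _ ≤ QQ / S.l ^ 3 := by
        gcongr
        unfold QQ
        have := K_pos 0
        have := K_pos 2
        linarith

lemma e2_bound : ‖S.P 2 - 2 * S.P 1 + S.P 0 - S.bb * S.D‖ ≤ QQ / S.l ^ 4 := by
  rw [S.P_eq, S.P_eq, S.P_eq, S.Fs0, S.Fs1, S.Fs2]
  have h1 := S.int_F_sub_M 2 (by norm_num)
  rw [S.int_M2] at h1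
  have h2 := S.norm_g_le' 0 4 (by norm_num)
  have h3 := S.norm_g_le' 1 4 (by norm_num)
  have h4 := S.norm_g_le' 2 4 (by norm_num)
  have e : (∫ x, S.F 0 x) + 2 * (∫ x, S.F 1 x) + (∫ x, S.F 2 x) + S.g 2 -
      2 * ((∫ x, S.F 0 x) + (∫ x, S.F 1 x) + S.g 1) + ((∫ x, S.F 0 x) + S.g 0) - S.bb * S.D =
      ((∫ x, S.F 2 x) - S.bb * S.D) + S.g 2 - 2 * S.g 1 + S.g 0 := by ring
  rw [e]
  have hl := S.l_pos
  calc _ ≤ 400 * K 2 / S.l ^ (2 + 2) + 2 / S.l ^ 4 + 2 * (2 / S.l ^ 4) + 2 / S.l ^ 4 := by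
        refine (norm_add_le _ _).trans ?_
        gcongr
        refine (norm_sub_le _ _).trans ?_
        rw [norm_mul, Complex.norm_ofNat]
        gcongr
        exact (norm_add_le _ _).trans (by gcongr)
    _ = (400 * K 2 + 8) / S.l ^ 4 := by ring
    _ ≤ QQ / S.l ^ 4 := by
        gcongr
        unfold QQ
        have := K_pos 0
        have := K_pos 1
        linarith

lemma norm_a_le : ‖S.a‖ ≤ 2 := by
  unfold a
  refine (norm_add_le _ _).trans ?_
  rw [S.he, norm_div, norm_one, Complex.norm_real, Real.norm_of_nonneg S.U_pos.le]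
  have : 1 / S.U ≤ 1 := by
    rw [div_le_one S.U_pos]
    linarith [S.hU]
  linarith

lemma norm_a_ge : 4 / 5 ≤ ‖S.a‖ := S.re_a.trans (Complex.re_le_norm _)

lemma norm_D_sq : ‖S.D‖ ^ 2 = 2 * π / (S.L * ‖S.a‖) := by
  rw [← norm_pow]
  unfold D
  rw [half_cpow_sq, norm_div, norm_div, norm_mul, Complex.norm_real, Complex.norm_real,
    Real.norm_of_nonneg S.L_pos.le, Real.norm_of_nonneg Real.pi_pos.le, Complex.norm_ofNat]
  have := S.L_pos
  have := S.norm_a_ge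
  field_simp

lemma norm_D_ge : 1 / S.l ≤ ‖S.D‖ := by
  have hl := S.l_pos
  have h1 : (1 / S.l) ^ 2 ≤ ‖S.D‖ ^ 2 := by
    rw [S.norm_D_sq, ← S.l_sq, div_pow, one_pow]
    have ha := S.norm_a_ge
    have ha2 := S.norm_a_le
    have hpi := Real.pi_gt_three
    rw [div_le_div_iff₀ (by positivity) (by positivity)]
    have : 0 < S.l ^ 2 := by positivity
    nlinarith
  exact (sq_le_sq₀ (by positivity) (norm_nonneg _)).1 h1

lemma norm_D_le : ‖S.D‖ ≤ 3 / S.l := by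
  have hl := S.l_pos
  have h1 : ‖S.D‖ ^ 2 ≤ (3 / S.l) ^ 2 := by
    rw [S.norm_D_sq, ← S.l_sq, div_pow]
    have ha := S.norm_a_ge
    have hpi := Real.pi_lt_d2
    rw [div_le_div_iff₀ (by positivity) (by positivity)]
    have : 0 < S.l ^ 2 := by positivity
    nlinarith
  exact (sq_le_sq₀ (norm_nonneg _) (by positivity)).1 h1

lemma norm_bb : ‖S.bb‖ ≤ 2 / (S.L * S.U ^ 2) := by
  rw [S.bb_eq, norm_div, norm_one, norm_mul, norm_mul, norm_pow, Complex.norm_real,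
    Complex.norm_real, Real.norm_of_nonneg S.L_pos.le, Real.norm_of_nonneg S.U_pos.le]
  have ha := S.norm_a_ge
  have hL := S.L_pos
  have hU := S.U_pos
  rw [div_le_div_iff₀ (by positivity) (by positivity)]
  have : 0 < S.L * S.U ^ 2 := by positivity
  nlinarith

lemma norm_bb' : ‖S.bb‖ ≤ 1 / S.l ^ 2 := by
  refine S.norm_bb.trans ?_
  rw [S.l_sq]
  have hL := S.L_pos
  have hU := S.hU
  rw [div_le_div_iff₀ (by have := S.U_pos; positivity) (by positivity)]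
  have h2 : 2 ≤ S.U ^ 2 := by nlinarith
  nlinarith

/-- the ratio statement -/
lemma ratio (hl : 4 * QQ ≤ S.l) :
    J m ≠ 0 ∧ J (m + 1) ≠ 0 ∧ 1 / (2 * S.l) ≤ ‖S.P 0‖ ∧
    ‖J (m + 2) * J m / J (m + 1) ^ 2 - 1 - S.bb‖ ≤ 48 * QQ / S.l ^ 3 := by
  obtain ⟨h1, h2, h3, h4⟩ := ratio_aux (P0 := S.P 0) (P1 := S.P 1) (P2 := S.P 2) (D := S.D)
    (b := S.bb) (e0 := S.P 0 - S.D) (e1 := S.P 1 - S.P 0)
    (e2 := S.P 2 - 2 * S.P 1 + S.P 0 - S.bb * S.D) QQ_ge hl (by ring) (by ring) (by ring)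
    S.e0_bound S.e1_bound S.e2_bound S.norm_D_ge S.norm_D_le S.norm_bb'
  have hU := S.U_ne
  have he := S.e_ne
  have hC := S.C_ne
  have j0 : S.P 0 * S.C = J m := by
    unfold P
    rw [pow_zero, mul_one, add_zero, div_mul_cancel₀ _ hC]
  have j1 : S.P 1 * (S.C * (S.U * S.e)) = J (m + 1) := by
    unfold P
    rw [pow_one, div_mul_cancel₀ _ (mul_ne_zero hC (mul_ne_zero hU he))]
  have j2 : S.P 2 * (S.C * (S.U * S.e) ^ 2) = J (m + 2) := by
    unfold P
    rw [div_mul_cancel₀ _ (mul_ne_zero hC (pow_ne_zero 2 (mul_ne_zero hU he)))]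
  refine ⟨?_, ?_, h3, ?_⟩
  · rw [← j0]; exact mul_ne_zero h1 hC
  · rw [← j1]; exact mul_ne_zero h2 (mul_ne_zero hC (mul_ne_zero hU he))
  · have : J (m + 2) * J m / J (m + 1) ^ 2 = S.P 2 * S.P 0 / S.P 1 ^ 2 := by
      rw [← j0, ← j1, ← j2]
      field_simp
    rw [this]
    exact h4

end Sad

end Pool.Agent.Stj
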