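import Mathlib

open Complex Set Filter MeasureTheory Topology
open scoped Real

namespace Pool.Agent.Stj

/-! ### Bounds for the kernel -/

lemma exp_le_cosh (x : ℝ) : Real.exp |x| / 2 ≤ Real.cosh x := by
  rw [← Real.cosh_abs, Real.cosh_eq]
  have := Real.exp_pos (-|x|)
  linarith

lemma inv_cosh_sq_le (y : ℝ) : 1 / (Real.cosh (π * y)) ^ 2 ≤ 4 * Real.exp (-(2 * π * |y|)) := by
  have h1 : 0 < Real.cosh (π * y) := Real.cosh_pos _
  have h2 : Real.exp (π * |y|) / 2 ≤ Real.cosh (π * y) := by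
    have := exp_le_cosh (π * y)
    rwa [abs_mul, abs_of_pos Real.pi_pos] at this
  rw [div_le_iff₀ (by positivity)]
  have h3 : (Real.exp (π * |y|) / 2) ^ 2 ≤ Real.cosh (π * y) ^ 2 := by
    apply pow_le_pow_left₀ (by positivity) h2
  have h4 : Real.exp (-(2 * π * |y|)) * (Real.exp (π * |y|)) ^ 2 = 1 := by
    rw [← Real.exp_nat_mul, ← Real.exp_add]
    have : -(2 * π * |y|) + ((2 : ℕ) : ℝ) * (π * |y|) = 0 := by push_cast; ring
    rw [this, Real.exp_zero]
  have h5 := mul_le_mul_of_nonneg_left h3 (Real.exp_pos (-(2 * π * |y|))).le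
  nlinarith [h4, h5]

lemma one_add_pow_le (k : ℕ) (y : ℝ) : (1 + |y|) ^ k ≤ k.factorial * Real.exp (1 + |y|) := by
  have h := Real.pow_div_factorial_le_exp (1 + |y|) (by positivity) k
  rw [div_le_iff₀ (by positivity)] at h
  linarith [h, mul_comm (Real.exp (1 + |y|)) (k.factorial : ℝ)]

lemma kernel_bound (k : ℕ) : ∃ C : ℝ, 0 < C ∧ ∀ y : ℝ,
    (1 + |y|) ^ k / (Real.cosh (π * y)) ^ 2 ≤ C * (1 + y ^ 2)⁻¹ := by
  refine ⟨4 * (k + 2).factorial * Real.exp 1, by positivity, fun y => ?_⟩
  have h1 := inv_cosh_sq_le y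
  have h2 := one_add_pow_le (k + 2) y
  have h3 : (1 + y ^ 2) ≤ (1 + |y|) ^ 2 := by
    nlinarith [abs_nonneg y, sq_abs y]
  have h4 : 0 < 1 + y ^ 2 := by positivity
  rw [← div_eq_mul_inv, le_div_iff₀ h4]
  calc (1 + |y|) ^ k / Real.cosh (π * y) ^ 2 * (1 + y ^ 2)
      ≤ (1 + |y|) ^ k / Real.cosh (π * y) ^ 2 * (1 + |y|) ^ 2 := by gcongr
    _ = (1 + |y|) ^ (k + 2) * (1 / Real.cosh (π * y) ^ 2) := by ring
    _ ≤ ((k + 2).factorial * Real.exp (1 + |y|)) * (4 * Real.exp (-(2 * π * |y|))) := by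
        gcongr
    _ = 4 * (k + 2).factorial * (Real.exp (1 + |y|) * Real.exp (-(2 * π * |y|))) := by ring
    _ ≤ 4 * (k + 2).factorial * Real.exp 1 := by
        gcongr
        rw [← Real.exp_add]
        apply Real.exp_le_exp.2
        have := Real.pi_gt_three
        nlinarith [abs_nonneg y]

lemma integrable_kernel (k : ℕ) :
    Integrable (fun y : ℝ => (1 + |y|) ^ k / (Real.cosh (π * y)) ^ 2) := by
  obtain ⟨C, hC, h⟩ := kernel_bound k
  refine Integrable.mono' (integrable_inv_one_add_sq.const_mul C) ?_ ?_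
  · apply Continuous.aestronglyMeasurable
    apply Continuous.div (by fun_prop) (by fun_prop)
    intro y
    have := Real.cosh_pos (π * y)
    positivity
  · refine ae_of_all _ fun y => ?_
    rw [Real.norm_of_nonneg]
    · exact h y
    · have := Real.cosh_pos (π * y)
      positivity

lemma integral_inv_cosh_sq : ∫ y : ℝ, 1 / (Real.cosh (π * y)) ^ 2 = 2 / π := by
  have hd : ∀ y : ℝ, HasDerivAt (fun y : ℝ => Real.tanh (π * y) / π)
      (1 / (Real.cosh (π * y)) ^ 2) y := by
    intro y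
    have h1 : HasDerivAt (fun y : ℝ => π * y) π y := by
      simpa using (hasDerivAt_id y).const_mul π
    have h2 : HasDerivAt (fun y : ℝ => Real.sinh (π * y) / Real.cosh (π * y)) _ y :=
      (h1.sinh).div (h1.cosh) (Real.cosh_pos _).ne'
    have h3 := h2.div_const π
    have hfun : (fun y : ℝ => Real.tanh (π * y) / π) =
        fun y : ℝ => Real.sinh (π * y) / Real.cosh (π * y) / π := by
      ext y; rw [Real.tanh_eq_sinh_div_cosh]
    rw [hfun]
    refine h3.congr_deriv ?_
    have hc := (Real.cosh_pos (π * y)).ne'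
    have := Real.cosh_sq (π * y)
    have hp := Real.pi_pos.ne'
    field_simp
    linarith [this]
  have htop : Tendsto (fun y : ℝ => Real.tanh (π * y) / π) atTop (𝓝 (1 / π)) := by
    apply Tendsto.div_const
    have : Tendsto (fun y : ℝ => π * y) atTop atTop := tendsto_id.const_mul_atTop Real.pi_pos
    have h2 : Tendsto Real.tanh atTop (𝓝 1) := by
      have hh : Real.tanh = fun x => 1 - 2 / (Real.exp (2 * x) + 1) := by
        ext x
        rw [Real.tanh_eq_sinh_div_cosh, Real.sinh_eq, Real.cosh_eq]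
        have e1 : Real.exp (2 * x) = Real.exp x * Real.exp x := by
          rw [← Real.exp_add]; ring_nf
        have e2 : Real.exp (-x) = 1 / Real.exp x := by
          rw [Real.exp_neg, one_div]
        have e3 := Real.exp_pos x
        rw [e1, e2]
        field_simp
        ring
      rw [hh]
      have h3 : Tendsto (fun x : ℝ => 2 / (Real.exp (2 * x) + 1)) atTop (𝓝 0) := by
        apply Tendsto.div_atTop tendsto_const_nhds
        apply tendsto_atTop_add_const_right
        exact Real.tendsto_exp_atTop.comp (tendsto_id.const_mul_atTop (by norm_num))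
      simpa using h3.const_sub 1
    exact h2.comp this
  have hbot : Tendsto (fun y : ℝ => Real.tanh (π * y) / π) atBot (𝓝 (-(1 / π))) := by
    have h1 : (fun y : ℝ => Real.tanh (π * y) / π) =
        fun y : ℝ => -((fun y : ℝ => Real.tanh (π * y) / π) (-y)) := by
      ext y
      simp only [mul_neg, Real.tanh_neg]
      ring
    rw [h1]
    exact (htop.comp tendsto_neg_atBot_atTop).neg
  have hint : Integrable (fun y : ℝ => 1 / (Real.cosh (π * y)) ^ 2) := by
    simpa using integrable_kernel 0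
  rw [integral_of_hasDerivAt_of_tendsto hd hint hbot htop]
  ring

/-! ### The function sin (π z) / z -/

/-- `sin (π z) / z` with the removable singularity removed. -/
noncomputable def sd (z : ℂ) : ℂ := dslope (fun w : ℂ => Complex.sin (π * w)) 0 z

lemma mul_sd (z : ℂ) : z * sd z = Complex.sin (π * z) := by
  have := sub_smul_dslope (fun w : ℂ => Complex.sin (π * w)) 0 z
  simpa [sd, smul_eq_mul] using this

lemma differentiable_sd : Differentiable ℂ sd := by
  have h : DifferentiableOn ℂ (fun w : ℂ => Complex.sin (π * w)) univ := by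
    apply Differentiable.differentiableOn
    fun_prop
  have := (Complex.differentiableOn_dslope (c := 0) (univ_mem)).2 h
  exact differentiableOn_univ.1 this

lemma sd_ne_zero {z : ℂ} (hz : |z.re| < 1) : sd z ≠ 0 := by
  by_cases h0 : z = 0
  · subst h0
    have h1 : HasDerivAt (fun w : ℂ => Complex.sin (π * w)) (Complex.cos (π * 0) * (π * 1)) 0 := by
      apply HasDerivAt.csin
      exact (hasDerivAt_id (0 : ℂ)).const_mul (π : ℂ)
    have : sd 0 = π := by
      rw [sd, dslope_same, h1.deriv]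
      simp
    rw [this]
    exact_mod_cast Real.pi_pos.ne'
  · intro hs
    have h1 := mul_sd z
    rw [hs, mul_zero] at h1
    obtain ⟨k, hk⟩ := Complex.sin_eq_zero_iff.1 h1.symm
    have h2 : z = k := by
      have hp : (π : ℂ) ≠ 0 := by exact_mod_cast Real.pi_pos.ne'
      apply mul_left_cancel₀ hp
      rw [hk]; ring
    rw [h2] at hz h0
    simp only [Complex.intCast_re] at hz
    have h3 : |k| < 1 := by exact_mod_cast hz
    have h4 : k = 0 := Int.abs_lt_one_iff.1 h3
    exact h0 (by simp [h4])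

lemma norm_sin_sq (x y : ℝ) : ‖Complex.sin (π * (x + y * I))‖ ^ 2 =
    Real.sin (π * x) ^ 2 + Real.sinh (π * y) ^ 2 := by
  have h : (π : ℂ) * (x + y * I) = ((π * x : ℝ) : ℂ) + ((π * y : ℝ) : ℂ) * I := by
    push_cast; ring
  rw [h, Complex.sin_add_mul_I, ← Complex.ofReal_sin, ← Complex.ofReal_cos, ← Complex.ofReal_sinh,
    ← Complex.ofReal_cosh, ← Complex.normSq_eq_norm_sq]
  rw [show ((Real.sin (π * x) : ℝ) : ℂ) * ((Real.cosh (π * y) : ℝ) : ℂ) +
    ((Real.cos (π * x) : ℝ) : ℂ) * ((Real.sinh (π * y) : ℝ) : ℂ) * I =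
    ((Real.sin (π * x) * Real.cosh (π * y) : ℝ) : ℂ) +
    ((Real.cos (π * x) * Real.sinh (π * y) : ℝ) : ℂ) * I by push_cast; ring]
  rw [Complex.normSq_add_mul_I]
  have h1 := Real.cosh_sq (π * y)
  have h2 := Real.sin_sq_add_cos_sq (π * x)
  rw [mul_pow, mul_pow, h1]
  nlinarith [h2]

lemma sin_half_add (y : ℝ) : Complex.sin (π * (1 / 2 + y * I)) = (Real.cosh (π * y) : ℂ) := by
  have h : (π : ℂ) * (1 / 2 + y * I) = ((π * y : ℝ) : ℂ) * I + (π / 2 : ℂ) := by
    push_cast; ring
  rw [h, Complex.sin_add_pi_div_two, Complex.cos_mul_I, Complex.ofReal_cosh]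

lemma sin_neg_half_add (y : ℝ) :
    Complex.sin (π * (-1 / 2 + y * I)) = -(Real.cosh (π * y) : ℂ) := by
  have h : (π : ℂ) * (-1 / 2 + y * I) = ((π * y : ℝ) : ℂ) * I - (π / 2 : ℂ) := by
    push_cast; ring
  rw [h, Complex.sin_sub_pi_div_two, Complex.cos_mul_I, Complex.ofReal_cosh]

end Pool.Agent.Stj
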