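import Pool.Agent.Stj.Qest

open Complex Set Filter MeasureTheory Topology
open scoped Real

namespace Pool.Agent.Stj

/-- Saddle point data. -/
structure Sad (m : ℕ) where
  U : ℝ
  R : ℝ
  e : ℂ
  he : ‖e‖ = 1
  hre : 4 / 5 ≤ e.re
  him : 1 / U ≤ e.im
  hU : 10 ^ 4 ≤ U
  hU2 : (Real.log U + 2) ^ 2 ≤ U / 100
  hR : 100 ≤ R
  hm : (m : ℝ) = 2 * π * R * U
  hexp : Complex.exp (U * e) = R * (I * (starRingEnd ℂ) e)
  him2 : U * e.im < π / 2

namespace Sad

variable {m : ℕ} (S : Sad m)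

lemma U_pos : 0 < S.U := lt_of_lt_of_le (by norm_num) S.hU
lemma R_pos : 0 < S.R := lt_of_lt_of_le (by norm_num) S.hR
lemma im_pos : 0 < S.e.im := lt_of_lt_of_le (one_div_pos.2 S.U_pos) S.him
lemma e_ne : S.e ≠ 0 := e_ne_zero S.he

/-- the ratio `ℓ/u0` -/
noncomputable def r (x : ℝ) : ℂ := ell S.e x / (S.U * S.e)

/-- `Λ` -/
noncomputable def L : ℝ := 2 * π * S.R

lemma L_pos : 0 < S.L := by unfold L; have := S.R_pos; positivity

lemma L_ge : 600 ≤ S.L := by
  unfold L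
  have := S.hR
  have := Real.pi_gt_three
  nlinarith

lemma m_eq : (m : ℝ) = S.L * S.U := S.hm

lemma norm_r (x : ℝ) : ‖S.r x‖ = ‖ell S.e x‖ / S.U := by
  unfold r
  rw [norm_div, norm_mul, S.he, mul_one, Complex.norm_real, Real.norm_of_nonneg S.U_pos.le]

lemma norm_r_le {x : ℝ} (hx : -S.e.re ≤ x) : ‖S.r x‖ ≤ |x| := by
  rw [norm_r, div_le_iff₀ S.U_pos]
  have hU := S.hU
  have hU0 := S.U_pos
  have hx1 : |x| ≤ 1 / 4 ∨ 1 / 4 ≤ x ∨ x ≤ -1 / 4 := by
    rcases le_total |x| (1 / 4) with h | h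
    · left; exact h
    · right
      rcases le_total 0 x with h0 | h0
      · left; rwa [abs_of_nonneg h0] at h
      · right; rw [abs_of_nonpos h0] at h; linarith
  rcases hx1 with h | h | h
  · have := ell_near1 S.he h
    nlinarith [abs_nonneg x]
  · rw [abs_of_nonneg (by linarith)]
    have h1 := ell_far_pos S.he S.hre h
    have h2 : ‖ell S.e x‖ ^ 2 ≤ (x * S.U) ^ 2 := by
      refine h1.trans ?_
      have h3 : 20 * x ≤ x * (x * S.U ^ 2) := by
        have : 20 ≤ x * S.U ^ 2 := by nlinarith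
        nlinarith
      calc 20 * x ≤ x * (x * S.U ^ 2) := h3
        _ = _ := by ring
    exact (sq_le_sq₀ (norm_nonneg _) (by positivity)).1 h2
  · have h1 := ell_far_neg S.he hU0 S.him (by linarith) hx
    rw [abs_of_neg (by linarith)]
    have h2 := S.hU2
    have h4 : (Real.log S.U + 2) ^ 2 ≤ (1 / 4 * S.U) ^ 2 := by nlinarith
    have h5 : Real.log S.U + 2 ≤ 1 / 4 * S.U := by
      exact le_of_sq_le_sq h4 (by positivity)
    nlinarith

lemma r_near {x : ℝ} (hx : |x| ≤ 1 / 4) : ‖S.r x - x / S.U‖ ≤ x ^ 2 := by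
  have h1 := ell_near2 S.he hx
  have hU0 := S.U_pos
  have hU := S.hU
  have he := S.e_ne
  have h2 : S.r x - x / S.U = (ell S.e x - x * S.e) / (S.U * S.e) := by
    unfold r
    have : (S.U : ℂ) ≠ 0 := by exact_mod_cast hU0.ne'
    field_simp
  rw [h2, norm_div, norm_mul, S.he, mul_one, Complex.norm_real, Real.norm_of_nonneg hU0.le,
    div_le_iff₀ hU0]
  nlinarith [sq_nonneg x]

/-- The key bound for the real part. -/
lemma re_bound {x : ℝ} (hx : -S.e.re ≤ x) :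
    Ef S.e x + ‖ell S.e x‖ ^ 2 / (2 * S.U) ≤ -(1 / 100) * min (x ^ 2) |x| := by
  have hU0 := S.U_pos
  have hU := S.hU
  have hre1 : S.e.re ≤ 1 := by
    have := re_sq_add_im_sq S.he
    nlinarith
  have hx1 : |x| ≤ 1 / 4 ∨ 1 / 4 ≤ x ∨ x ≤ -1 / 4 := by
    rcases le_total |x| (1 / 4) with h | h
    · left; exact h
    · right
      rcases le_total 0 x with h0 | h0
      · left; rwa [abs_of_nonneg h0] at h
      · right; rw [abs_of_nonpos h0] at h; linarith
  rcases hx1 with h | h | h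
  · have h1 := ell_near1 S.he h
    have h2 : ‖ell S.e x‖ ^ 2 ≤ (3 / 2 * |x|) ^ 2 := pow_le_pow_left₀ (norm_nonneg _) h1 2
    rw [mul_pow, sq_abs] at h2
    have h3 : Ef S.e x ≤ -x ^ 2 / 4 := by
      rw [abs_le] at h
      rcases le_total 0 x with h0 | h0
      · exact Ef_near_pos S.he S.im_pos S.hre h0 h.2
      · exact Ef_near_neg S.he S.im_pos S.hre h0 (by linarith [h.1])
    have h4 : ‖ell S.e x‖ ^ 2 / (2 * S.U) ≤ x ^ 2 / 100 := by
      rw [div_le_iff₀ (by positivity)]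
      nlinarith [sq_nonneg x]
    have h5 : min (x ^ 2) |x| ≤ x ^ 2 := min_le_left _ _
    nlinarith [sq_nonneg x]
  · have h1 := ell_far_pos S.he S.hre h
    have h2 := Ef_far_pos S.he S.im_pos S.hre h
    have h3 : ‖ell S.e x‖ ^ 2 / (2 * S.U) ≤ x / 1000 := by
      rw [div_le_iff₀ (by positivity)]
      nlinarith
    have h4 : min (x ^ 2) |x| ≤ |x| := min_le_right _ _
    have h6 : |x| = x := abs_of_nonneg (by linarith)
    linarith
  · have h1 := ell_far_neg S.he hU0 S.him (by linarith) hx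
    have h2 := Ef_far_neg S.he S.im_pos S.hre h hx
    have hlog : 0 ≤ Real.log S.U := Real.log_nonneg (by linarith)
    have h3 : ‖ell S.e x‖ ^ 2 ≤ (Real.log S.U + 2) ^ 2 := pow_le_pow_left₀ (norm_nonneg _) h1 2
    have h4 := S.hU2
    have h5 : ‖ell S.e x‖ ^ 2 / (2 * S.U) ≤ 1 / 200 := by
      rw [div_le_iff₀ (by positivity)]
      linarith
    have h6 : min (x ^ 2) |x| ≤ |x| := min_le_right _ _
    rw [abs_of_neg (by linarith)] at h6
    have h7 : min (x ^ 2) |x| ≤ 1 := by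
      rw [abs_of_neg (by linarith)]
      linarith
    linarith

/-- `a = e + 1/U`. -/
noncomputable def a : ℂ := S.e + 1 / S.U

/-- `q = U log(1 + r) - x`. -/
noncomputable def q (x : ℝ) : ℂ := S.U * Complex.log (1 + S.r x) - x

lemma q_near {x : ℝ} (hx : |x| ≤ 1 / 4) : ‖S.q x + S.a * x ^ 2 / 2‖ ≤ |x| ^ 3 := by
  have hU0 := S.U_pos
  have hU := S.hU
  have he := S.e_ne
  have hUc : (S.U : ℂ) ≠ 0 := by exact_mod_cast hU0.ne'
  have h1 := ell_near1 S.he hx
  have h2 := ell_near2 S.he hx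
  have h3 := ell_near3 S.he hx
  have hr : ‖S.r x‖ ≤ 3 / 2 * |x| / S.U := by
    rw [norm_r]
    gcongr
  have hr' : ‖S.r x‖ ≤ 1 / 4 := by
    refine hr.trans ?_
    rw [div_le_iff₀ hU0]
    nlinarith [abs_nonneg x]
  have h4 := log_bound3 hr'
  have key : S.q x + S.a * x ^ 2 / 2 =
      S.U * (Complex.log (1 + S.r x) - (S.r x - S.r x ^ 2 / 2)) +
      (ell S.e x - (x * S.e - (x * S.e) ^ 2 / 2)) / S.e -
      (ell S.e x - x * S.e) * (ell S.e x + x * S.e) / (2 * S.U * S.e ^ 2) := by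
    unfold q a r
    field_simp
    ring
  rw [key]
  have b1 : ‖(S.U : ℂ) * (Complex.log (1 + S.r x) - (S.r x - S.r x ^ 2 / 2))‖ ≤
      1 / 4 * |x| ^ 3 := by
    rw [norm_mul, Complex.norm_real, Real.norm_of_nonneg hU0.le]
    calc S.U * ‖Complex.log (1 + S.r x) - (S.r x - S.r x ^ 2 / 2)‖
        ≤ S.U * (4 / 9 * (3 / 2 * |x| / S.U) ^ 3) := by
          gcongr
          refine h4.trans ?_
          gcongr
      _ = (3 / 2 / S.U ^ 2) * |x| ^ 3 := by
          field_simp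
          ring
      _ ≤ 1 / 4 * |x| ^ 3 := by
          apply mul_le_mul_of_nonneg_right _ (by positivity)
          rw [div_le_iff₀ (by positivity)]
          nlinarith
  have b2 : ‖(ell S.e x - (x * S.e - (x * S.e) ^ 2 / 2)) / S.e‖ ≤ 4 / 9 * |x| ^ 3 := by
    rw [norm_div, S.he, div_one]
    exact h3
  have b3 : ‖(ell S.e x - x * S.e) * (ell S.e x + x * S.e) / (2 * S.U * S.e ^ 2)‖ ≤
      1 / 4 * |x| ^ 3 := by
    have h5 : ‖ell S.e x + x * S.e‖ ≤ 5 / 2 * |x| := by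
      refine (norm_add_le _ _).trans ?_
      rw [norm_xe S.he]
      linarith
    rw [norm_div, norm_mul, norm_mul, norm_pow, S.he, one_pow, mul_one, norm_mul,
      Complex.norm_real, Real.norm_of_nonneg hU0.le, Complex.norm_ofNat,
      div_le_iff₀ (by positivity)]
    calc ‖ell S.e x - x * S.e‖ * ‖ell S.e x + x * S.e‖ ≤ x ^ 2 * (5 / 2 * |x|) := by gcongr
      _ = 5 / 2 * |x| ^ 3 := by rw [← sq_abs x]; ring
      _ ≤ 1 / 4 * |x| ^ 3 * (2 * S.U) := by
          have : 0 ≤ |x| ^ 3 := by positivity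
          nlinarith
  calc _ ≤ ‖(S.U : ℂ) * (Complex.log (1 + S.r x) - (S.r x - S.r x ^ 2 / 2))‖ +
        ‖(ell S.e x - (x * S.e - (x * S.e) ^ 2 / 2)) / S.e‖ +
        ‖(ell S.e x - x * S.e) * (ell S.e x + x * S.e) / (2 * S.U * S.e ^ 2)‖ := by
          refine (norm_sub_le _ _).trans ?_
          gcongr
          exact norm_add_le _ _
    _ ≤ 1 / 4 * |x| ^ 3 + 4 / 9 * |x| ^ 3 + 1 / 4 * |x| ^ 3 := by gcongr
    _ ≤ |x| ^ 3 := by
        have : 0 ≤ |x| ^ 3 := by positivity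
        linarith

/-- the weight `(1+r)^m e^{-Λx}`. -/
noncomputable def W (x : ℝ) : ℂ := (1 + S.r x) ^ m * Complex.exp (-(S.L * x : ℝ))

lemma norm_one_add_le (z : ℂ) : ‖1 + z‖ ≤ Real.exp (z.re + ‖z‖ ^ 2 / 2) := by
  have h1 : ‖1 + z‖ ^ 2 ≤ Real.exp (z.re + ‖z‖ ^ 2 / 2) ^ 2 := by
    rw [← Real.exp_nat_mul, Complex.sq_norm, Complex.normSq_apply]
    have h2 := Real.add_one_le_exp (2 * (z.re + ‖z‖ ^ 2 / 2))
    have h3 : ‖z‖ ^ 2 = z.re ^ 2 + z.im ^ 2 := by
      rw [Complex.sq_norm, Complex.normSq_apply]; ring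
    simp only [Complex.add_re, Complex.one_re, Complex.add_im, Complex.one_im, zero_add]
    push_cast
    refine le_trans (le_of_eq ?_) h2
    rw [h3]
    ring
  exact (sq_le_sq₀ (norm_nonneg _) (Real.exp_pos _).le).1 h1

lemma norm_W_le {x : ℝ} (hx : -S.e.re ≤ x) :
    ‖S.W x‖ ≤ Real.exp (-(S.L * (1 / 100 * min (x ^ 2) |x|))) := by
  have hU0 := S.U_pos
  have hUc : (S.U : ℂ) ≠ 0 := by exact_mod_cast hU0.ne'
  have h1 := norm_one_add_le (S.r x)
  unfold W
  rw [norm_mul, norm_pow, Complex.norm_exp]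
  have h2 : (-((S.L * x : ℝ) : ℂ)).re = -(S.L * x) := by simp
  rw [h2]
  calc ‖1 + S.r x‖ ^ m * Real.exp (-(S.L * x))
      ≤ Real.exp ((S.r x).re + ‖S.r x‖ ^ 2 / 2) ^ m * Real.exp (-(S.L * x)) := by gcongr
    _ = Real.exp (m * ((S.r x).re + ‖S.r x‖ ^ 2 / 2) + -(S.L * x)) := by
        rw [← Real.exp_nat_mul, Real.exp_add]
    _ = Real.exp (S.L * (Ef S.e x + ‖ell S.e x‖ ^ 2 / (2 * S.U))) := by
        congr 1
        rw [S.m_eq, norm_r]
        have h3 : S.U * (S.r x).re = (ell S.e x / S.e).re := by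
          rw [← Complex.re_ofReal_mul]
          congr 1
          unfold r
          have := S.e_ne
          field_simp
        unfold Ef
        rw [← h3]
        field_simp
        ring
    _ ≤ _ := by
        rw [Real.exp_le_exp]
        have := S.re_bound hx
        have := S.L_pos
        nlinarith

end Sad

end Pool.Agent.Stj
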