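import Pool.Agent.Stj.Config
import Pool.Agent.Stj.BP2

open Complex Set Filter MeasureTheory Topology Metric
open scoped Real NNReal

namespace Pool.Agent.Stj

/-- sum of column indices -/
noncomputable def S1 (d : ℕ) : ℕ := ∑ j : Fin (DD d), (j : ℕ)
/-- sum of row degrees -/
noncomputable def S2 (d : ℕ) : ℕ := ∑ j : Fin (DD d), cI d j

lemma DD_eq (d : ℕ) : 2 * DD d = (d + 1) * (d + 2) := by
  rw [card_idx, Fin.sum_univ_eq_sum_range (fun c => c + 1)]
  induction d with
  | zero => simp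
  | succ d ih =>
    rw [Finset.sum_range_succ, mul_add, ih]
    ring

lemma S2_eq (d : ℕ) : 3 * S2 d = d * (d + 1) * (d + 2) := by
  unfold S2 cI
  have h1 : ∑ j : Fin (DD d), ((en d j).1 : ℕ) = ∑ p : Idx d, (p.1 : ℕ) :=
    Equiv.sum_comp (en d) (fun p : Idx d => (p.1 : ℕ))
  have h2 : ∑ p : Idx d, (p.1 : ℕ) = ∑ c : Fin (d + 1), ((c : ℕ) + 1) * c := by
    unfold Idx
    rw [Fintype.sum_sigma]
    simp
  rw [h1, h2, Fin.sum_univ_eq_sum_range (fun c => (c + 1) * c)]
  clear h1 h2
  induction d with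
  | zero => simp
  | succ d ih =>
    rw [Finset.sum_range_succ, mul_add, ih]
    ring

lemma S1_eq (d : ℕ) : 8 * S1 d = d * (d + 1) * (d + 2) * (d + 3) := by
  unfold S1
  rw [Fin.sum_univ_eq_sum_range (fun c => c)]
  have h1 := Finset.sum_range_id_mul_two (DD d)
  have h2 := DD_eq d
  have h3 : 8 * ∑ i ∈ Finset.range (DD d), i = (2 * DD d) * (2 * DD d - 2) := by
    have h4 : (2 * DD d) * (2 * DD d - 2) = 4 * (DD d * (DD d - 1)) := by
      rw [show 2 * DD d - 2 = 2 * (DD d - 1) by omega]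
      ring
    rw [h4, ← h1]
    ring
  rw [h3, h2]
  have h5 : (d + 1) * (d + 2) - 2 = d * (d + 3) := by
    have : (d + 1) * (d + 2) = d * (d + 3) + 2 := by ring
    omega
  rw [h5]
  ring

lemma S_ratio (d : ℕ) : 8 * (S1 d : ℝ) = 3 * (d + 3) * S2 d := by
  have h1 := S1_eq d
  have h2 := S2_eq d
  have h3 : 8 * S1 d = (3 * S2 d) * (d + 3) := by rw [h1, h2]
  have h4 : ((8 * S1 d : ℕ) : ℝ) = (((3 * S2 d) * (d + 3) : ℕ) : ℝ) := by rw [h3]
  push_cast at h4
  linarith

lemma exists_d {δ : ℝ} (hδ : 0 < δ) : ∃ d : ℕ, 1 ≤ d ∧ (S2 d : ℝ) < δ * S1 d := by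
  obtain ⟨d, hd⟩ := exists_nat_gt (8 / δ)
  have hd0 : 0 < d := by
    have : (0 : ℝ) < d := lt_trans (by positivity) hd
    exact_mod_cast this
  refine ⟨d, hd0, ?_⟩
  have h1 := S_ratio d
  have h2 : (0 : ℝ) < S2 d := by
    have h3 := S2_eq d
    have h4 : 0 < 3 * S2 d := by rw [h3]; positivity
    have : 0 < S2 d := by omega
    exact_mod_cast this
  rw [div_lt_iff₀ hδ] at hd
  have h5 : (8 : ℝ) * S2 d < (d * δ) * S2 d := by gcongr
  nlinarith

theorem span (d : ℕ) (δ : ℝ) (hδ0 : 0 < δ) (hd : (S2 d : ℝ) < δ * S1 d) :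
    ∃ M0 : ℕ, ∀ m : ℕ, M0 ≤ m → ∀ mj : Fin (DD d) → ℕ, StrictMono mj → (∀ j, m ≤ mj j) →
      (∀ j, (mj j : ℝ) ≤ m * (1 + (m : ℝ) ^ (-δ))) → (∀ j, mj j ∈ ExP (DD d)) →
      ∀ j0, mj j0 = m → False := by
  obtain ⟨m0, hm0⟩ := exists_loc
  -- real thresholds
  have hlim1 : Tendsto (fun x : ℝ => 5000 * (Real.log x * x ^ (-δ))) atTop (𝓝 0) := by
    have h1 := (isLittleO_log_rpow_atTop hδ0).tendsto_div_nhds_zero
    have h2 := h1.const_mul 5000
    rw [mul_zero] at h2
    refine h2.congr' ?_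
    filter_upwards [eventually_gt_atTop 0] with x hx
    rw [Real.rpow_neg hx.le]
    rfl
  obtain ⟨X1, hX1⟩ := eventually_atTop.1 (hlim1.eventually (ge_mem_nhds one_pos))
  by_contra hcon
  push Not at hcon
  have hsel : ∀ n : ℕ, ∃ m : ℕ, (n + (m0 + ⌈X1⌉₊ + 1)) ≤ m ∧ ∃ mj : Fin (DD d) → ℕ,
      StrictMono mj ∧ (∀ j, m ≤ mj j) ∧ (∀ j, (mj j : ℝ) ≤ m * (1 + (m : ℝ) ^ (-δ))) ∧
      (∀ j, mj j ∈ ExP (DD d)) ∧ ∃ j0, mj j0 = m := by
    intro n
    obtain ⟨m, hm, mj, h1, h2, h3, h4, j0, h5, _⟩ := hcon (n + (m0 + ⌈X1⌉₊ + 1))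
    exact ⟨m, hm, mj, h1, h2, h3, h4, j0, h5⟩
  choose m hmn mj hmono hge hle hex j0 hj0 using hsel
  have hmm0 : ∀ n, m0 ≤ m n := fun n => by have := hmn n; omega
  have hm1 : ∀ n, 1 ≤ m n := fun n => by have := hmn n; omega
  have hmX : ∀ n, X1 ≤ m n := fun n => by
    have h1 : ⌈X1⌉₊ ≤ m n := by have := hmn n; omega
    exact (Nat.le_ceil X1).trans (by exact_mod_cast h1)
  have hT : ∀ n, ∃ T : Loc (m n), True := fun n => by
    obtain ⟨T⟩ := hm0 (m n) (hmm0 n)
    exact ⟨T, trivial⟩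
  choose T _ using hT
  set x : ℕ → ℝ := fun n => (m n : ℝ) with hx
  have hx1 : ∀ n, 1 ≤ x n := fun n => by
    have := hm1 n
    simp only [hx]
    exact_mod_cast this
  have hx0 : ∀ n, 0 < x n := fun n => lt_of_lt_of_le one_pos (hx1 n)
  have hxt : Tendsto x atTop atTop := by
    apply tendsto_atTop_mono (f := fun n : ℕ => (n : ℝ)) _ tendsto_natCast_atTop_atTop
    intro n
    have h1 : n ≤ m n := by have := hmn n; omega
    simp only [hx]
    exact_mod_cast h1
  have hUpos : ∀ n, 0 < (T n).S.U := fun n => (T n).U_pos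
  have hU1 : ∀ n, Real.log (x n) ≤ 1001 / 1000 * (T n).S.U := fun n => (T n).S.logm_le'
  have hU2 : ∀ n, (T n).S.U ≤ 5 / 4 * Real.log (x n) := fun n => by
    have := (T n).S.logm_ge
    simp only [hx]
    linarith
  have hlogt : Tendsto (fun n => Real.log (x n)) atTop atTop := Real.tendsto_log_atTop.comp hxt
  have hUt : Tendsto (fun n => (T n).S.U) atTop atTop := by
    apply tendsto_atTop_mono (f := fun n => 1 / 2 * Real.log (x n)) _
      (hlogt.const_mul_atTop (by norm_num))
    intro n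
    have := hU1 n
    have := hUpos n
    linarith
  have hlogpos : ∀ n, 0 < Real.log (x n) := fun n => by
    have := hU2 n
    have := hUpos n
    linarith
  set h : ℕ → ℝ := fun n => (x n) ^ (-δ) with hh
  have hhpos : ∀ n, 0 < h n := fun n => Real.rpow_pos_of_pos (hx0 n) _
  have hh1 : ∀ n, h n ≤ 1 := fun n => by
    have := Real.rpow_le_one_of_one_le_of_nonpos (hx1 n) (by linarith : -δ ≤ 0)
    exact this
  have hhρ : ∀ n, h n ≤ (T n).ρ / 2 := fun n => by
    have h1 : 5000 * (Real.log (x n) * (x n) ^ (-δ)) ≤ 1 := hX1 (x n) (hmX n)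
    unfold Loc.ρ
    have hU := hUpos n
    have e : 1 / (2000 * (T n).S.U) / 2 = 1 / (4000 * (T n).S.U) := by field_simp; norm_num
    rw [e, le_div_iff₀ (by positivity)]
    have h2 := hU2 n
    have h3 := hhpos n
    calc h n * (4000 * (T n).S.U) ≤ h n * (4000 * (5 / 4 * Real.log (x n))) := by gcongr
      _ = 5000 * (Real.log (x n) * (x n) ^ (-δ)) := by simp only [hh]; ring
      _ ≤ 1 := h1
  have hconf := fun n => (T n).config (hm1 n) (hh1 n) (hhρ n) (DD d) (mj n) (hmono n) (hge n)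
    (hle n) (hex n) (j0 n) (hj0 n)
  choose φ kk hc1 hc2 hc3 hc4 using hconf
  -- limits
  have L2 : ∀ k : ℕ, Tendsto (fun n => (T n).S.U ^ k / x n) atTop (𝓝 0) := by
    intro k
    have h1 := (Real.isLittleO_pow_log_id_atTop (n := k)).tendsto_div_nhds_zero
    have h2 := (h1.comp hxt).const_mul ((5 / 4 : ℝ) ^ k)
    rw [mul_zero] at h2
    refine squeeze_zero (fun n => by have := hUpos n; have := hx0 n; positivity) ?_ h2
    intro n
    have hU := hUpos n
    have hxn := hx0 n
    simp only [Function.comp, id]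
    rw [← mul_div_assoc, ← mul_pow]
    have := hU2 n
    gcongr
  have L3 : Tendsto (fun n => h n * (T n).S.U ^ 2) atTop (𝓝 0) := by
    have h1 := (isLittleO_log_rpow_rpow_atTop 2 hδ0).tendsto_div_nhds_zero
    have h2 := (h1.comp hxt).const_mul ((5 / 4 : ℝ) ^ 2)
    rw [mul_zero] at h2
    refine squeeze_zero (fun n => by have := hUpos n; have := hhpos n; positivity) ?_ h2
    intro n
    have hU := hUpos n
    have hxn := hx0 n
    have hhn := hhpos n
    simp only [Function.comp]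
    have e1 : Real.log (x n) ^ (2 : ℝ) = Real.log (x n) ^ 2 := by
      rw [← Real.rpow_natCast]; norm_num
    rw [e1]
    have e2 : h n = 1 / (x n) ^ δ := by
      simp only [hh]
      rw [Real.rpow_neg hxn.le, one_div]
    have hp : 0 < (x n) ^ δ := Real.rpow_pos_of_pos hxn _
    rw [e2]
    have := hU2 n
    calc 1 / x n ^ δ * (T n).S.U ^ 2 ≤ 1 / x n ^ δ * (5 / 4 * Real.log (x n)) ^ 2 := by gcongr
      _ = _ := by ring
  have L4 : Tendsto (fun n => 1 / (T n).S.U) atTop (𝓝 0) := by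
    simp_rw [one_div]
    exact tendsto_inv_atTop_zero.comp hUt
  have hB := fun n => (T n).B0_lower
  have hBup := fun n => (T n).B0_upper
  have hBne := fun n => (T n).B0_ne
  have hpi := Real.pi_pos
  have hBpos : ∀ n, 0 < |(T n).B0| := fun n => abs_pos.2 (hBne n)
  have hB2 : ∀ n, 1 ≤ 2 * (T n).S.U ^ 2 * |(T n).B0| := fun n => by
    have h1 := hB n
    have hU := hUpos n
    rw [div_le_iff₀ (by positivity)] at h1
    linarith
  have hfin := bp atTop d x h (fun n => (T n).A0 / π) (fun n => (T n).B0 / π) φ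
    (fun n j => Real.log (mj n j / m n)) (fun n j => (mj n j : ℤ)) kk hx1
    (fun n => (hhpos n).le) hc1
    (by
      intro n i j hij
      have h1 : mj n i < mj n j := hmono n hij
      have h2 : 0 < mj n i := lt_of_lt_of_le (hm1 n) (hge n i)
      have h3 : (0 : ℝ) < mj n i := by exact_mod_cast h2
      have h4 : (mj n i : ℝ) < mj n j := by exact_mod_cast h1
      have h5 : (0 : ℝ) < m n := hx0 n
      apply Real.log_lt_log (by positivity)
      gcongr)
    (by
      intro n j
      have h5 : (0 : ℝ) < m n := hx0 n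
      have h6 : (1 : ℝ) ≤ mj n j / m n := by
        rw [le_div_iff₀ h5, one_mul]
        exact_mod_cast hge n j
      refine ⟨Real.log_nonneg h6, ?_⟩
      have h1 := Real.log_le_sub_one_of_pos (x := mj n j / m n) (by linarith)
      have h2 : (mj n j : ℝ) / m n ≤ 1 + h n := by
        rw [div_le_iff₀ h5]
        have := hle n j
        simp only [hh, hx]
        linarith
      linarith)
    (by
      intro n j
      have h5 : (0 : ℝ) < m n := hx0 n
      have h2 : 0 < mj n j := lt_of_lt_of_le (hm1 n) (hge n j)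
      have h3 : (0 : ℝ) < mj n j := by exact_mod_cast h2
      rw [Real.exp_log (by positivity)]
      simp only [hx]
      push_cast
      field_simp)
    (fun n j => hc2 n j) (fun n => hc3 n)
    (by
      intro n
      rw [abs_div, abs_of_pos hpi, div_le_one hpi]
      have := (T n).A0_bound
      linarith)
    (fun n => div_ne_zero (hBne n) hpi.ne')
    (by
      intro n
      rw [abs_div, abs_of_pos hpi, div_le_one hpi]
      have := hBup n
      have := Real.pi_gt_three
      linarith)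
    (by
      have h1 := L3.const_mul (2 * π)
      rw [mul_zero] at h1
      refine squeeze_zero (fun n => by have := hhpos n; positivity) ?_ h1
      intro n
      have h2 := hBpos n
      have h3 := hB2 n
      have h4 := hhpos n
      rw [abs_div, abs_of_pos hpi, div_le_iff₀ (by positivity)]
      calc h n = h n * 1 := (mul_one _).symm
        _ ≤ h n * (2 * (T n).S.U ^ 2 * |(T n).B0|) := by gcongr
        _ = _ := by field_simp)
    (by
      intro k hk ε hε
      set c : ℕ → ℝ := fun n => (2 * k + 4) * 2 * (h n * (T n).S.U ^ 2) +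
        4 * k ^ 2 * (1 / (T n).S.U) +
        ((k - 1).factorial * 4 / (1 / 4 / 4) ^ (k - 1)) * (1 / (T n).S.U) +
        (k.factorial * 3 * 8000 ^ k * 2) * ((T n).S.U ^ (k + 3) / x n) +
        (π * ((DD d : ℝ) ^ (k + 1) * 2 ^ (DD d)) * 2) * ((T n).S.U ^ 2 / x n) with hc
      have hclim : Tendsto c atTop (𝓝 0) := by
        have h1 := ((((L3.const_mul ((2 * (k : ℝ) + 4) * 2)).add
          (L4.const_mul (4 * (k : ℝ) ^ 2))).add
          (L4.const_mul (((k - 1).factorial : ℝ) * 4 / (1 / 4 / 4) ^ (k - 1)))).add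
          ((L2 (k + 3)).const_mul ((k.factorial : ℝ) * 3 * 8000 ^ k * 2))).add
          ((L2 2).const_mul (π * ((DD d : ℝ) ^ (k + 1) * 2 ^ (DD d)) * 2))
        simp only [mul_zero, add_zero] at h1
        exact h1
      filter_upwards [hclim.eventually (ge_mem_nhds hε)] with n hn y hy
      refine (hc4 n k hk y hy).trans ?_
      have hU := hUpos n
      have hxn := hx0 n
      have hb := hBpos n
      have hb2 := hB2 n
      have hhn := hhpos n
      set b := |(T n).B0| with hbdef
      set U := (T n).S.U with hUdef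
      rw [abs_div, abs_of_pos hpi, ← hbdef]
      have t1 : (2 * (k : ℝ) + 4) * y ≤ (2 * k + 4) * 2 * (h n * U ^ 2) * b := by
        calc (2 * (k : ℝ) + 4) * y ≤ (2 * k + 4) * h n * 1 := by
              rw [mul_one]
              have := hy.2
              gcongr
          _ ≤ (2 * k + 4) * h n * (2 * U ^ 2 * b) := by gcongr
          _ = _ := by ring
      have t2 : 4 * (k : ℝ) ^ 2 / U * b = 4 * k ^ 2 * (1 / U) * b := by ring
      have t3 : ((k - 1).factorial : ℝ) * (2 / U ^ 3) / (1 / 4 / 4) ^ (k - 1) ≤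
          ((k - 1).factorial * 4 / (1 / 4 / 4) ^ (k - 1)) * (1 / U) * b := by
        calc ((k - 1).factorial : ℝ) * (2 / U ^ 3) / (1 / 4 / 4) ^ (k - 1)
            = ((k - 1).factorial : ℝ) * (2 / U ^ 3) / (1 / 4 / 4) ^ (k - 1) * 1 := by ring
          _ ≤ ((k - 1).factorial : ℝ) * (2 / U ^ 3) / (1 / 4 / 4) ^ (k - 1) *
              (2 * U ^ 2 * b) := by gcongr
          _ = _ := by field_simp; ring
      have t4 : (k.factorial : ℝ) * (3 * U) / ((T n).ρ / 4) ^ k ≤
          x n * ((k.factorial * 3 * 8000 ^ k * 2) * (U ^ (k + 3) / x n) * b) := by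
        have e1 : (T n).ρ / 4 = 1 / (8000 * U) := by
          unfold Loc.ρ
          rw [← hUdef]
          field_simp
          norm_num
        have e2 : (k.factorial : ℝ) * (3 * U) / ((T n).ρ / 4) ^ k =
            k.factorial * (3 * U) * (8000 * U) ^ k := by
          rw [e1, div_pow, one_pow]
          field_simp
        rw [e2]
        calc (k.factorial : ℝ) * (3 * U) * (8000 * U) ^ k
            = (k.factorial : ℝ) * (3 * U) * (8000 * U) ^ k * 1 := by ring
          _ ≤ (k.factorial : ℝ) * (3 * U) * (8000 * U) ^ k * (2 * U ^ 2 * b) := by gcongr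
          _ = _ := by
              rw [mul_pow]
              field_simp
              ring
      have t5 : π * ((DD d : ℝ) ^ (k + 1) * 2 ^ (DD d)) ≤
          x n * ((π * ((DD d : ℝ) ^ (k + 1) * 2 ^ (DD d)) * 2) * (U ^ 2 / x n) * b) := by
        calc π * ((DD d : ℝ) ^ (k + 1) * 2 ^ (DD d))
            = π * ((DD d : ℝ) ^ (k + 1) * 2 ^ (DD d)) * 1 := by ring
          _ ≤ π * ((DD d : ℝ) ^ (k + 1) * 2 ^ (DD d)) * (2 * U ^ 2 * b) := by gcongr
          _ = _ := by field_simp
      have tot : x n * ((2 * k + 4) * y + 4 * k ^ 2 / U * b +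
          (k - 1).factorial * (2 / U ^ 3) / (1 / 4 / 4) ^ (k - 1)) +
          k.factorial * (3 * U) / ((T n).ρ / 4) ^ k +
          π * ((DD d : ℝ) ^ (k + 1) * 2 ^ (DD d)) ≤ ε * (x n * b) := by
        calc _ ≤ x n * ((2 * k + 4) * 2 * (h n * U ^ 2) * b + 4 * k ^ 2 * (1 / U) * b +
            ((k - 1).factorial * 4 / (1 / 4 / 4) ^ (k - 1)) * (1 / U) * b) +
            x n * ((k.factorial * 3 * 8000 ^ k * 2) * (U ^ (k + 3) / x n) * b) +
            x n * ((π * ((DD d : ℝ) ^ (k + 1) * 2 ^ (DD d)) * 2) * (U ^ 2 / x n) * b) := by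
              rw [t2]
              gcongr
          _ = c n * (x n * b) := by
              simp only [hc]
              ring
          _ ≤ ε * (x n * b) := by gcongr
      have efin : ε * (x n * (b / π)) = 1 / π * (ε * (x n * b)) := by ring
      rw [efin]
      have elhs : 1 / π * (x n * ((2 * k + 4) * y + 4 * k ^ 2 / U * b +
          (k - 1).factorial * (2 / U ^ 3) / (1 / 4 / 4) ^ (k - 1)) +
          k.factorial * (3 * U) / ((T n).ρ / 4) ^ k) + (DD d : ℝ) ^ (k + 1) * 2 ^ (DD d) =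
          1 / π * (x n * ((2 * k + 4) * y + 4 * k ^ 2 / U * b +
          (k - 1).factorial * (2 / U ^ 3) / (1 / 4 / 4) ^ (k - 1)) +
          k.factorial * (3 * U) / ((T n).ρ / 4) ^ k +
          π * ((DD d : ℝ) ^ (k + 1) * 2 ^ (DD d))) := by
        field_simp
      change 1 / π * (x n * ((2 * k + 4) * y + 4 * k ^ 2 / U * b +
          (k - 1).factorial * (2 / U ^ 3) / (1 / 4 / 4) ^ (k - 1)) +
          k.factorial * (3 * U) / ((T n).ρ / 4) ^ k) + (DD d : ℝ) ^ (k + 1) * 2 ^ (DD d) ≤ _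
      rw [elhs]
      gcongr)
    (by
      intro C
      have hneg : 0 < δ * S1 d - S2 d := by linarith
      have h1 := ((tendsto_rpow_neg_atTop hneg).comp hxt).const_mul C
      rw [mul_zero] at h1
      filter_upwards [h1.eventually (gt_mem_nhds one_pos)] with n hn
      have hxn := hx0 n
      have e1 : h n ^ (∑ j : Fin (DD d), (j : ℕ)) * x n ^ (∑ j : Fin (DD d), cI d j) =
          (x n) ^ (-(δ * S1 d - S2 d)) := by
        change (x n ^ (-δ)) ^ (S1 d) * x n ^ (S2 d) = _
        rw [← Real.rpow_natCast, ← Real.rpow_natCast, ← Real.rpow_mul hxn.le,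
          ← Real.rpow_add hxn]
        congr 1
        ring
      rw [e1]
      exact hn)
  obtain ⟨n, hn⟩ := hfin.exists
  exact hn

end Pool.Agent.Stj
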