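import Pool.Agent.Stj.Rep

open Complex Set Filter MeasureTheory Topology
open scoped Real

namespace Pool.Agent.Stj

lemma one_step (H : ℂ → ℂ) (hH : DifferentiableOn ℂ H {z | |z.re| < 1}) (C : ℝ)
    (hC : ∀ z : ℂ, |z.re| ≤ 1 / 2 → ‖H z‖ ≤ C * (1 + |z.im|)) :
    Integrable (fun y : ℝ => H (1 / 2 + y * I) / (Real.cosh (π * y) : ℂ) ^ 2) ∧
    Integrable (fun y : ℝ => H (-1 / 2 + y * I) / (Real.cosh (π * y) : ℂ) ^ 2) ∧
    (∫ y : ℝ, H (1 / 2 + y * I) / (Real.cosh (π * y) : ℂ) ^ 2) -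
    (∫ y : ℝ, H (-1 / 2 + y * I) / (Real.cosh (π * y) : ℂ) ^ 2)
      = ((2 / π : ℝ) : ℂ) * deriv H 0 := by
  have hSo : IsOpen {z : ℂ | |z.re| < 1} :=
    isOpen_lt (continuous_abs.comp Complex.continuous_re) continuous_const
  have hS0 : {z : ℂ | |z.re| < 1} ∈ 𝓝 (0 : ℂ) := hSo.mem_nhds (by simp)
  set S : Set ℂ := {z : ℂ | |z.re| < 1} with hSdef
  have hD1 : DifferentiableOn ℂ (dslope H 0) S := (Complex.differentiableOn_dslope hS0).2 hH
  have hD2 : DifferentiableOn ℂ (dslope (dslope H 0) 0) S :=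
    (Complex.differentiableOn_dslope hS0).2 hD1
  set h1 : ℂ := deriv H 0 with hh1
  have e1 : ∀ z : ℂ, z * z * dslope (dslope H 0) 0 z = H z - H 0 - h1 * z := by
    intro z
    have a1 := sub_smul_dslope H 0 z
    have a2 := sub_smul_dslope (dslope H 0) 0 z
    simp only [sub_zero, smul_eq_mul, dslope_same] at a1 a2
    rw [mul_assoc, a2, mul_sub, a1]
    ring
  set F : ℂ → ℂ := fun z => dslope (dslope H 0) 0 z / sd z ^ 2 with hF
  have hFd : DifferentiableOn ℂ F S := by
    apply DifferentiableOn.div hD2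
    · exact (differentiable_sd.pow 2).differentiableOn
    · intro z hz
      exact pow_ne_zero 2 (sd_ne_zero hz)
  have hFeq : ∀ z : ℂ, Complex.sin (π * z) ≠ 0 →
      F z = (H z - H 0 - h1 * z) / Complex.sin (π * z) ^ 2 := by
    intro z hz
    have hz0 : z ≠ 0 := by
      rintro rfl
      simp at hz
    have hsd : sd z ≠ 0 := by
      intro h
      apply hz
      rw [← mul_sd, h, mul_zero]
    rw [← e1, ← mul_sd]
    simp only [hF]
    field_simp
  -- constants
  have hH0 : ‖H 0‖ ≤ C := by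
    have := hC 0 (by simp)
    simpa using this
  have hC0 : 0 ≤ C := (norm_nonneg _).trans hH0
  set K : ℝ := 2 * C + ‖h1‖ with hK
  have hK0 : 0 ≤ K := by positivity
  have hR : ∀ z : ℂ, |z.re| ≤ 1 / 2 → ‖H z - H 0 - h1 * z‖ ≤ K * (1 + |z.im|) := by
    intro z hz
    have b1 := hC z hz
    have b2 : ‖z‖ ≤ 1 + |z.im| := by
      have := Complex.norm_le_abs_re_add_abs_im z
      linarith
    calc ‖H z - H 0 - h1 * z‖ ≤ ‖H z‖ + ‖H 0‖ + ‖h1 * z‖ := by
          refine (norm_sub_le _ _).trans ?_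
          gcongr
          exact norm_sub_le _ _
      _ ≤ C * (1 + |z.im|) + C * (1 + |z.im|) + ‖h1‖ * (1 + |z.im|) := by
          gcongr
          · refine hH0.trans ?_
            nlinarith [abs_nonneg z.im]
          · rw [norm_mul]
            gcongr
      _ = K * (1 + |z.im|) := by rw [hK]; ring
  -- the vertical sides
  have hcosh : ∀ y : ℝ, (Real.cosh (π * y) : ℂ) ≠ 0 := fun y => by
    exact_mod_cast (Real.cosh_pos (π * y)).ne'
  have hVp : ∀ y : ℝ, F (1 / 2 + y * I) =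
      (H (1 / 2 + y * I) - H 0 - h1 * (1 / 2 + y * I)) / (Real.cosh (π * y) : ℂ) ^ 2 := by
    intro y
    rw [hFeq _ (by rw [sin_half_add]; exact hcosh y), sin_half_add]
  have hVm : ∀ y : ℝ, F (-1 / 2 + y * I) =
      (H (-1 / 2 + y * I) - H 0 - h1 * (-1 / 2 + y * I)) / (Real.cosh (π * y) : ℂ) ^ 2 := by
    intro y
    rw [hFeq _ (by rw [sin_neg_half_add]; exact neg_ne_zero.2 (hcosh y)), sin_neg_half_add, neg_sq]
  -- continuity of line restrictions
  have hline : ∀ (G : ℂ → ℂ), DifferentiableOn ℂ G S → ∀ (c : ℂ), |c.re| < 1 → c.im = 0 →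
      Continuous (fun y : ℝ => G (c + y * I)) := by
    intro G hG c hc hc0
    have : ContinuousOn G S := hG.continuousOn
    refine this.comp_continuous (by fun_prop) ?_
    intro y
    simp only [hSdef, mem_ofPred_eq, Complex.add_re, Complex.mul_re, Complex.ofReal_re, Complex.I_re,
      mul_zero, Complex.ofReal_im, Complex.I_im, mul_one, sub_self, add_zero]
    exact hc
  have hhalf : ((1 : ℂ) / 2).re = 1 / 2 := by norm_num
  have hhalf' : ((1 : ℂ) / 2).im = 0 := by norm_num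
  have hmhalf : ((-1 : ℂ) / 2).re = -1 / 2 := by norm_num
  have hmhalf' : ((-1 : ℂ) / 2).im = 0 := by norm_num
  have hint : ∀ (G : ℂ → ℂ) (hG : DifferentiableOn ℂ G S) (c : ℂ) (hc : |c.re| ≤ 1 / 2)
      (hc0 : c.im = 0) (A : ℝ) (hA : ∀ z : ℂ, |z.re| ≤ 1 / 2 → ‖G z‖ ≤ A * (1 + |z.im|)),
      Integrable (fun y : ℝ => G (c + y * I) / (Real.cosh (π * y) : ℂ) ^ 2) := by
    intro G hG c hc hc0 A hA
    refine Integrable.mono' ((integrable_kernel 1).const_mul A) ?_ ?_
    · apply Continuous.aestronglyMeasurable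
      apply Continuous.div
      · exact hline G hG c (by linarith) hc0
      · fun_prop
      · intro y
        exact pow_ne_zero 2 (hcosh y)
    · refine ae_of_all _ fun y => ?_
      have hre : (c + y * I).re = c.re := by simp
      have him : (c + y * I).im = y := by simp [hc0]
      have := hA (c + y * I) (by rw [hre]; exact hc)
      rw [him] at this
      rw [norm_div, norm_pow, Complex.norm_real, Real.norm_of_nonneg (Real.cosh_pos _).le, pow_one,
        ← mul_div_assoc]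
      gcongr
  have hHp : Integrable (fun y : ℝ => H (1 / 2 + y * I) / (Real.cosh (π * y) : ℂ) ^ 2) :=
    hint H hH (1 / 2) (by rw [hhalf]; norm_num) hhalf' C hC
  have hHm : Integrable (fun y : ℝ => H (-1 / 2 + y * I) / (Real.cosh (π * y) : ℂ) ^ 2) :=
    hint H hH (-1 / 2) (by rw [hmhalf]; norm_num) hmhalf' C hC
  refine ⟨hHp, hHm, ?_⟩
  have hRd : DifferentiableOn ℂ (fun z => H z - H 0 - h1 * z) S := by
    apply DifferentiableOn.sub (hH.sub_const _)
    exact (differentiable_id.const_mul h1).differentiableOn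
  have hFp : Integrable (fun y : ℝ => F (1 / 2 + y * I)) := by
    simp_rw [hVp]
    exact hint (fun z => H z - H 0 - h1 * z) hRd (1 / 2) (by rw [hhalf]; norm_num) hhalf' K hR
  have hFm : Integrable (fun y : ℝ => F (-1 / 2 + y * I)) := by
    simp_rw [hVm]
    exact hint (fun z => H z - H 0 - h1 * z) hRd (-1 / 2) (by rw [hmhalf]; norm_num) hmhalf' K hR
  -- rectangle identity
  have hrect : ∀ T : ℝ, 0 < T →
      (∫ x : ℝ in (-1 / 2)..(1 / 2), F (x + (-T : ℝ) * I)) -
      (∫ x : ℝ in (-1 / 2)..(1 / 2), F (x + (T : ℝ) * I)) +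
      I • (∫ y : ℝ in (-T)..T, F (1 / 2 + y * I)) -
      I • (∫ y : ℝ in (-T)..T, F (-1 / 2 + y * I)) = 0 := by
    intro T hT
    have := Complex.integral_boundary_rect_eq_zero_of_differentiableOn F
      (((-1 / 2 : ℝ) : ℂ) + ((-T : ℝ) : ℂ) * I) (((1 / 2 : ℝ) : ℂ) + ((T : ℝ) : ℂ) * I) ?_
    · simp only [Complex.add_re, Complex.ofReal_re, Complex.mul_re, Complex.I_re, mul_zero,
        Complex.ofReal_im, Complex.I_im, mul_one, sub_self, add_zero, Complex.add_im,
        Complex.mul_im, zero_add] at this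
      have c1 : (((1 / 2 : ℝ)) : ℂ) = 1 / 2 := by push_cast; ring
      have c2 : (((-1 / 2 : ℝ)) : ℂ) = -1 / 2 := by push_cast; ring
      rw [c1, c2] at this
      exact this
    · apply hFd.mono
      intro z hz
      rw [Complex.mem_reProdIm] at hz
      have h := hz.1
      simp only [Complex.add_re, Complex.ofReal_re, Complex.mul_re, Complex.I_re, mul_zero,
        Complex.ofReal_im, Complex.I_im, mul_one, sub_self, add_zero] at h
      rw [uIcc_of_le (by norm_num)] at h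
      simp only [hSdef, mem_ofPred_eq, abs_lt]
      constructor <;> linarith [h.1, h.2]
  -- horizontal sides tend to zero
  have hhor : ∀ (T y : ℝ), 0 < T → |y| = T →
      ‖∫ x : ℝ in (-1 / 2)..(1 / 2), F (x + (y : ℝ) * I)‖ ≤ K * (1 + T) / T ^ 2 := by
    intro T y hT hy
    have hb : ∀ x ∈ Set.uIoc (-1 / 2 : ℝ) (1 / 2), ‖F (x + (y : ℝ) * I)‖ ≤
        K * (1 + T) / T ^ 2 := by
      intro x hx
      rw [uIoc_of_le (by norm_num)] at hx
      have hs : T ^ 2 ≤ ‖Complex.sin (π * (x + y * I))‖ ^ 2 := by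
        rw [norm_sin_sq]
        have h1 : T ≤ |Real.sinh (π * y)| := by
          rw [Real.abs_sinh, abs_mul, hy, abs_of_pos Real.pi_pos]
          have h2 : π * T ≤ Real.sinh (π * T) := by
            rw [Real.self_le_sinh_iff]; positivity
          have := Real.pi_gt_three
          nlinarith
        have h2 : T ^ 2 ≤ Real.sinh (π * y) ^ 2 := by
          rw [← sq_abs (Real.sinh (π * y))]
          exact pow_le_pow_left₀ hT.le h1 2
        nlinarith [sq_nonneg (Real.sin (π * x))]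
      have hne : Complex.sin (π * (x + y * I)) ≠ 0 := by
        intro h
        rw [h, norm_zero] at hs
        nlinarith
      rw [hFeq _ hne, norm_div, norm_pow]
      have hRz := hR (x + y * I) (by simp [abs_le]; constructor <;> linarith [hx.1, hx.2])
      have him : ((x : ℂ) + y * I).im = y := by simp
      rw [him, hy] at hRz
      have : 0 < T ^ 2 := by positivity
      calc _ ≤ K * (1 + T) / ‖Complex.sin (π * (x + y * I))‖ ^ 2 := by gcongr
        _ ≤ K * (1 + T) / T ^ 2 := by gcongr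
    have := intervalIntegral.norm_integral_le_of_norm_le_const hb
    rwa [show (1 / 2 : ℝ) - (-1 / 2) = 1 by norm_num, abs_one, mul_one] at this
  have hlim0 : Tendsto (fun T : ℝ => K * (1 + T) / T ^ 2) atTop (𝓝 0) := by
    have h1 : Tendsto (fun T : ℝ => K * (T⁻¹ ^ 2 + T⁻¹)) atTop (𝓝 (K * (0 ^ 2 + 0))) :=
      ((tendsto_inv_atTop_zero.pow 2).add tendsto_inv_atTop_zero).const_mul K
    simp only [ne_eq, OfNat.ofNat_ne_zero, not_false_eq_true, zero_pow, add_zero, mul_zero] at h1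
    refine h1.congr' ?_
    filter_upwards [eventually_gt_atTop 0] with T hT
    field_simp
  have hb1 : Tendsto (fun T : ℝ => ∫ x : ℝ in (-1 / 2)..(1 / 2), F (x + (-T : ℝ) * I)) atTop
      (𝓝 0) := by
    refine squeeze_zero_norm' ?_ hlim0
    filter_upwards [eventually_gt_atTop 0] with T hT
    exact hhor T (-T) hT (by rw [abs_neg, abs_of_pos hT])
  have hb2 : Tendsto (fun T : ℝ => ∫ x : ℝ in (-1 / 2)..(1 / 2), F (x + (T : ℝ) * I)) atTop
      (𝓝 0) := by
    refine squeeze_zero_norm' ?_ hlim0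
    filter_upwards [eventually_gt_atTop 0] with T hT
    exact hhor T T hT (by rw [abs_of_pos hT])
  have hv1 : Tendsto (fun T : ℝ => ∫ y : ℝ in (-T)..T, F (1 / 2 + y * I)) atTop
      (𝓝 (∫ y : ℝ, F (1 / 2 + y * I))) :=
    intervalIntegral_tendsto_integral hFp tendsto_neg_atTop_atBot tendsto_id
  have hv2 : Tendsto (fun T : ℝ => ∫ y : ℝ in (-T)..T, F (-1 / 2 + y * I)) atTop
      (𝓝 (∫ y : ℝ, F (-1 / 2 + y * I))) :=
    intervalIntegral_tendsto_integral hFm tendsto_neg_atTop_atBot tendsto_id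
  have hlim := ((hb1.sub hb2).add (hv1.const_smul I)).sub (hv2.const_smul I)
  have hzero : (0 : ℂ) - 0 + I • (∫ y : ℝ, F (1 / 2 + y * I)) -
      I • (∫ y : ℝ, F (-1 / 2 + y * I)) = 0 := by
    refine tendsto_nhds_unique hlim ?_
    refine Tendsto.congr' ?_ tendsto_const_nhds
    filter_upwards [eventually_gt_atTop 0] with T hT
    exact (hrect T hT).symm
  have hVV : (∫ y : ℝ, F (1 / 2 + y * I)) = ∫ y : ℝ, F (-1 / 2 + y * I) := by
    have h2 : I * ((∫ y : ℝ, F (1 / 2 + y * I)) - ∫ y : ℝ, F (-1 / 2 + y * I)) = 0 := by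
      rw [mul_sub]
      simpa [smul_eq_mul] using hzero
    rcases mul_eq_zero.1 h2 with h | h
    · exact absurd h I_ne_zero
    · exact sub_eq_zero.1 h
  -- conclusion
  have hk0 : Integrable (fun y : ℝ => (1 : ℂ) / (Real.cosh (π * y) : ℂ) ^ 2) := by
    have := (integrable_kernel 0).ofReal (𝕜 := ℂ)
    simpa using this
  have hki : ∫ y : ℝ, (1 : ℂ) / (Real.cosh (π * y) : ℂ) ^ 2 = ((2 / π : ℝ) : ℂ) := by
    rw [← integral_inv_cosh_sq]
    have : ∀ y : ℝ, (1 : ℂ) / (Real.cosh (π * y) : ℂ) ^ 2 =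
        ((1 / (Real.cosh (π * y)) ^ 2 : ℝ) : ℂ) := by
      intro y
      push_cast
      ring
    simp_rw [this]
    exact integral_ofReal
  have hdiff : (∫ y : ℝ, F (1 / 2 + y * I)) - (∫ y : ℝ, F (-1 / 2 + y * I)) =
      (∫ y : ℝ, H (1 / 2 + y * I) / (Real.cosh (π * y) : ℂ) ^ 2) -
      (∫ y : ℝ, H (-1 / 2 + y * I) / (Real.cosh (π * y) : ℂ) ^ 2) -
      h1 * ∫ y : ℝ, (1 : ℂ) / (Real.cosh (π * y) : ℂ) ^ 2 := by
    calc (∫ y : ℝ, F (1 / 2 + y * I)) - (∫ y : ℝ, F (-1 / 2 + y * I))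
        = ∫ y : ℝ, (F (1 / 2 + y * I) - F (-1 / 2 + y * I)) := (integral_sub hFp hFm).symm
      _ = ∫ y : ℝ, ((H (1 / 2 + y * I) / (Real.cosh (π * y) : ℂ) ^ 2 -
            H (-1 / 2 + y * I) / (Real.cosh (π * y) : ℂ) ^ 2) -
            h1 * ((1 : ℂ) / (Real.cosh (π * y) : ℂ) ^ 2)) := by
          congr 1
          ext y
          rw [hVp, hVm]
          have := hcosh y
          field_simp
          ring
      _ = (∫ y : ℝ, (H (1 / 2 + y * I) / (Real.cosh (π * y) : ℂ) ^ 2 -
            H (-1 / 2 + y * I) / (Real.cosh (π * y) : ℂ) ^ 2)) -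
            ∫ y : ℝ, h1 * ((1 : ℂ) / (Real.cosh (π * y) : ℂ) ^ 2) :=
          integral_sub (hHp.sub hHm) (hk0.const_mul h1)
      _ = _ := by rw [integral_sub hHp hHm, integral_const_mul]
  rw [hVV, sub_self, hki] at hdiff
  linear_combination -hdiff

end Pool.Agent.Stj
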