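import Pool.Agent.Stj.Conf
import Pool.Agent.Stj.Interp

open Set Filter Topology PowerSeries

namespace Pool.Agent.Stj

/-- `T x` is the Taylor series at `x` of a smooth function. -/
def IsT (T : ℝ → PowerSeries ℝ) (u v : ℝ) : Prop :=
  ∀ k, ∀ x ∈ Icc u v, HasDerivAt (fun y => coeff k (T y)) (coeff k (derivative ℝ (T x))) x

lemma IsT.mul {S T : ℝ → PowerSeries ℝ} {u v : ℝ} (hS : IsT S u v) (hT : IsT T u v) :
    IsT (fun x => S x * T x) u v := by
  intro k x hx
  have h1 : derivative ℝ (S x * T x) = S x * derivative ℝ (T x) + derivative ℝ (S x) * T x := by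
    rw [Derivation.leibniz]
    simp only [smul_eq_mul]
    ring
  rw [h1, map_add]
  simp only [coeff_mul]
  rw [← Finset.sum_add_distrib]
  apply HasDerivAt.fun_sum
  intro p _
  have := (hS p.1 x hx).mul (hT p.2 x hx)
  refine this.congr_deriv ?_
  ring

lemma IsT.const (P : ℝ) (u v : ℝ) : IsT (fun _ => PowerSeries.C P) u v := by
  intro k x _
  rw [derivative_C, map_zero]
  exact hasDerivAt_const _ _

lemma IsT.pow {T : ℝ → PowerSeries ℝ} {u v : ℝ} (hT : IsT T u v) (b : ℕ) :
    IsT (fun x => T x ^ b) u v := by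
  induction b with
  | zero =>
    simp only [pow_zero]
    have := IsT.const 1 u v
    simpa using this
  | succ b ih =>
    simp only [pow_succ]
    exact ih.mul hT

lemma IsT.sum {ι : Type*} (s : Finset ι) {T : ι → ℝ → PowerSeries ℝ} {u v : ℝ}
    (hT : ∀ i ∈ s, IsT (T i) u v) : IsT (fun x => ∑ i ∈ s, T i x) u v := by
  intro k x hx
  simp only [map_sum]
  exact HasDerivAt.fun_sum fun i hi => hT i hi k x hx

lemma IsT.chain {T : ℝ → PowerSeries ℝ} {u v : ℝ} (hT : IsT T u v) :
    Chain (fun k x => (k.factorial : ℝ) * coeff k (T x)) u v := by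
  intro k x hx
  refine ((hT k x hx).const_mul (k.factorial : ℝ)).congr_deriv ?_
  simp only [coeff_derivative, Nat.factorial_succ]
  push_cast
  ring

lemma coeff_TE (k a : ℕ) (E : ℝ) : coeff k (TE a E) = E ^ a * (a ^ k / k.factorial) := by
  unfold TE
  rw [coeff_C_mul, coeff_rescale, coeff_exp]
  congr 1
  push_cast
  ring

lemma isT_exp (a : ℕ) (u v : ℝ) : IsT (fun x => TE a (Real.exp x)) u v := by
  intro k x _
  simp only [coeff_TE, coeff_derivative]
  have h1 : HasDerivAt (fun x : ℝ => Real.exp x ^ a) (a * Real.exp x ^ a) x := by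
    have h2 : (fun x : ℝ => Real.exp x ^ a) = fun x : ℝ => Real.exp (a * x) := by
      ext y; rw [← Real.exp_nat_mul]
    rw [h2, ← Real.exp_nat_mul]
    have h3 : HasDerivAt (fun x : ℝ => (a : ℝ) * x) a x := by
      simpa using (hasDerivAt_id x).const_mul (a : ℝ)
    refine h3.exp.congr_deriv ?_
    ring
  refine (h1.mul_const _).congr_deriv ?_
  rw [Nat.factorial_succ, pow_succ (a : ℝ) k]
  push_cast
  have : (k : ℝ) + 1 ≠ 0 := by positivity
  field_simp

lemma isT_chain {φ : ℕ → ℝ → ℝ} {u v : ℝ} (h : Chain φ u v) :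
    IsT (fun x => TJ (fun k => φ k x)) u v := by
  intro k x hx
  simp only [TJ, coeff_mk, coeff_derivative]
  refine ((h k x hx).div_const _).congr_deriv ?_
  rw [Nat.factorial_succ]
  push_cast
  have : (k : ℝ) + 1 ≠ 0 := by positivity
  field_simp

lemma TE_pow (a : ℕ) (E : ℝ) : TE a E = TE 1 E ^ a := by
  unfold TE
  rw [mul_pow, ← map_pow, pow_one]
  congr 1
  have h1 : PowerSeries.rescale ((1 : ℕ) : ℝ) (PowerSeries.exp ℝ) = PowerSeries.exp ℝ := by
    simp
  rw [h1, exp_pow_eq_rescale_exp]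

end Pool.Agent.Stj
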