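import Pool.Agent.Stj.CSad3

open Complex Set Filter MeasureTheory Topology Metric
open scoped Real NNReal

namespace Pool.Agent.Stj

/-- the local inverse of `v + log v`. -/
lemma exists_uu (u1 : ℂ) (hU : 10 ^ 4 ≤ ‖u1‖) (hre : 2 ≤ u1.re) :
    ∃ uu : ℂ → ℂ, uu 0 = u1 ∧ ∀ η, ‖η‖ < 1 / 4 → ‖uu η - u1‖ ≤ 2 * ‖η‖ ∧
      uu η + Complex.log (uu η) = u1 + Complex.log u1 + η ∧
      HasDerivAt uu (uu η / (1 + uu η)) η := by
  set f : ℂ → ℂ := fun v => v + Complex.log v with hf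
  have hball : ∀ v ∈ ball u1 1, 1 < v.re ∧ 9000 ≤ ‖v‖ := by
    intro v hv
    rw [mem_ball, dist_eq_norm] at hv
    have h1 := Complex.abs_re_le_norm (v - u1)
    rw [Complex.sub_re] at h1
    have h2 := neg_abs_le (v.re - u1.re)
    have h3 := norm_sub_norm_le u1 v
    rw [norm_sub_rev] at h3
    norm_num at hU
    constructor
    · linarith
    · linarith
  have hder : ∀ v ∈ ball u1 1, HasDerivAt f (1 + 1 / v) v := by
    intro v hv
    have h1 := (hball v hv).1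
    have h2 : v ∈ Complex.slitPlane := by
      rw [Complex.mem_slitPlane_iff]; left; linarith
    have h3 := Complex.hasDerivAt_log h2
    rw [one_div]
    exact (hasDerivAt_id v).add h3
  have happ : ApproximatesLinearOn f
      ((ContinuousLinearEquiv.refl ℂ ℂ : ℂ ≃L[ℂ] ℂ) : ℂ →L[ℂ] ℂ) (ball u1 1) (1 / 2 : ℝ≥0) := by
    intro x hx y hy
    have h1 : ∀ z ∈ ball u1 1, HasDerivWithinAt (fun v => f v - v) (1 / z) (ball u1 1) z := by
      intro z hz
      have := (hder z hz).sub (hasDerivAt_id z)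
      have h2 : (1 + 1 / z) - 1 = 1 / z := by ring
      rw [h2] at this
      exact this.hasDerivWithinAt
    have h2 : ∀ z ∈ ball u1 1, ‖1 / z‖ ≤ 1 / 2 := by
      intro z hz
      have h3 := (hball z hz).2
      rw [norm_div, norm_one]
      apply div_le_div_of_nonneg_left (by norm_num) (by norm_num)
      linarith
    have h3 := (convex_ball u1 1).norm_image_sub_le_of_norm_hasDerivWithin_le h1 h2 hy hx
    have h4 : f x - f y - ((ContinuousLinearEquiv.refl ℂ ℂ : ℂ ≃L[ℂ] ℂ) : ℂ →L[ℂ] ℂ) (x - y) =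
        f x - x - (f y - y) := by
      simp
      ring
    rw [h4]
    simpa using h3
  have hN : ‖((ContinuousLinearEquiv.refl ℂ ℂ : ℂ ≃L[ℂ] ℂ).symm : ℂ →L[ℂ] ℂ)‖₊ = 1 := by
    have : ((ContinuousLinearEquiv.refl ℂ ℂ : ℂ ≃L[ℂ] ℂ).symm : ℂ →L[ℂ] ℂ) =
      ContinuousLinearMap.id ℂ ℂ := rfl
    rw [this]
    exact ContinuousLinearMap.nnnorm_id
  have hc : Subsingleton ℂ ∨
      (1 / 2 : ℝ≥0) < ‖((ContinuousLinearEquiv.refl ℂ ℂ : ℂ ≃L[ℂ] ℂ).symm : ℂ →L[ℂ] ℂ)‖₊⁻¹ := by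
    right
    rw [hN, inv_one]
    exact NNReal.half_lt_self one_ne_zero
  set P := happ.toOpenPartialHomeomorph f (ball u1 1) hc isOpen_ball with hP
  have hPf : ∀ v, P v = f v := fun v => rfl
  have htar : ∀ η : ℂ, ‖η‖ < 1 / 4 → f u1 + η ∈ P.target := by
    intro η hη
    have h1 := happ.closedBall_subset_target hc isOpen_ball (b := u1) (ε := 1 / 2) (by norm_num)
      (by
        intro z hz
        rw [mem_closedBall] at hz
        rw [mem_ball]
        linarith)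
    apply h1
    rw [mem_closedBall, dist_eq_norm, hN]
    have h2 : f u1 + η - f u1 = η := by ring
    rw [h2]
    push_cast
    norm_num
    linarith
  have hu1 : u1 ∈ P.source := mem_ball_self one_pos
  refine ⟨fun η => P.symm (f u1 + η), ?_, ?_⟩
  · simp only [add_zero]
    have := P.left_inv hu1
    rwa [hPf] at this
  · intro η hη
    have ht := htar η hη
    have hs : P.symm (f u1 + η) ∈ ball u1 1 := P.map_target ht
    have hr : f (P.symm (f u1 + η)) = f u1 + η := by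
      have := P.right_inv ht
      rwa [hPf] at this
    refine ⟨?_, ?_, ?_⟩
    · have h1 := happ _ hs u1 (mem_ball_self one_pos)
      rw [hr] at h1
      have h2 : f u1 + η - f u1 - ((ContinuousLinearEquiv.refl ℂ ℂ : ℂ ≃L[ℂ] ℂ) : ℂ →L[ℂ] ℂ)
          (P.symm (f u1 + η) - u1) = η - (P.symm (f u1 + η) - u1) := by
        simp
      rw [h2] at h1
      have h3 := norm_sub_norm_le (P.symm (f u1 + η) - u1) η
      rw [norm_sub_rev _ η] at h3
      push_cast at h1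
      linarith
    · exact hr
    · have hne : P.symm (f u1 + η) ≠ 0 := by
        intro h
        have := (hball _ hs).2
        rw [h, norm_zero] at this
        norm_num at this
      have hne1 : 1 + P.symm (f u1 + η) ≠ 0 := by
        intro h
        have := (hball _ hs).1
        have h2 := congrArg Complex.re h
        rw [Complex.add_re, Complex.one_re, Complex.zero_re] at h2
        linarith
      have hd := hder _ hs
      have hne2 : (1 + 1 / P.symm (f u1 + η)) ≠ 0 := by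
        intro h
        apply hne1
        have h2 : 1 + P.symm (f u1 + η) = (1 + 1 / P.symm (f u1 + η)) * P.symm (f u1 + η) := by
          field_simp
          ring
        rw [h2, h, zero_mul]
      have h5 := P.hasDerivAt_symm ht hne2 hd
      have h6 : HasDerivAt (fun η : ℂ => f u1 + η) 1 η := by
        exact (hasDerivAt_id η).const_add (f u1)
      have h7 := HasDerivAt.comp η (h₂ := P.symm) (h := fun η : ℂ => f u1 + η) h5 h6
      refine h7.congr_deriv ?_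
      rw [mul_one, eq_div_iff hne1, inv_mul_eq_iff_eq_mul₀ hne2]
      field_simp
      ring

/-- local data for the saddle point function -/
structure UF (u1 : ℂ) where
  uu : ℂ → ℂ
  h0 : uu 0 = u1
  hU : 10 ^ 4 ≤ ‖u1‖
  hre : 2 ≤ u1.re
  hnear : ∀ η, ‖η‖ < 1 / 4 → ‖uu η - u1‖ ≤ 2 * ‖η‖
  heq : ∀ η, ‖η‖ < 1 / 4 → uu η + Complex.log (uu η) = u1 + Complex.log u1 + η
  hder : ∀ η, ‖η‖ < 1 / 4 → HasDerivAt uu (uu η / (1 + uu η)) η

lemma exists_UF (u1 : ℂ) (hU : 10 ^ 4 ≤ ‖u1‖) (hre : 2 ≤ u1.re) : Nonempty (UF u1) := by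
  obtain ⟨uu, h0, h⟩ := exists_uu u1 hU hre
  exact ⟨⟨uu, h0, hU, hre, fun η hη => (h η hη).1, fun η hη => (h η hη).2.1,
    fun η hη => (h η hη).2.2⟩⟩

namespace UF

variable {u1 : ℂ} (Q : UF u1)

include Q in
lemma U_pos : 0 < ‖u1‖ := lt_of_lt_of_le (by norm_num) Q.hU

lemma re_pos {η : ℂ} (hη : ‖η‖ < 1 / 4) : 1 < (Q.uu η).re := by
  have h1 := Q.hnear η hη
  have h2 := Complex.abs_re_le_norm (Q.uu η - u1)
  rw [Complex.sub_re] at h2
  have h3 := neg_abs_le ((Q.uu η).re - u1.re)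
  have := Q.hre
  linarith

lemma norm_ge {η : ℂ} (hη : ‖η‖ < 1 / 4) : 99 / 100 * ‖u1‖ ≤ ‖Q.uu η‖ := by
  have h1 := Q.hnear η hη
  have h3 := norm_sub_norm_le u1 (Q.uu η)
  rw [norm_sub_rev] at h3
  have := Q.hU
  norm_num at this
  linarith

lemma norm_le {η : ℂ} (hη : ‖η‖ < 1 / 4) : ‖Q.uu η‖ ≤ 101 / 100 * ‖u1‖ := by
  have h1 := Q.hnear η hη
  have h3 := norm_sub_norm_le (Q.uu η) u1
  have := Q.hU
  norm_num at this
  linarith

lemma norm_one_add_ge' {v : ℂ} (hv : 0 ≤ v.re) : ‖v‖ ≤ ‖1 + v‖ := by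
  have h1 : ‖v‖ ^ 2 ≤ ‖1 + v‖ ^ 2 := by
    rw [Complex.sq_norm, Complex.sq_norm, Complex.normSq_apply, Complex.normSq_apply,
      Complex.add_re, Complex.add_im, Complex.one_re, Complex.one_im]
    nlinarith
  exact le_of_sq_le_sq h1 (norm_nonneg _)

lemma one_add_ge {η : ℂ} (hη : ‖η‖ < 1 / 4) : 99 / 100 * ‖u1‖ ≤ ‖1 + Q.uu η‖ :=
  (Q.norm_ge hη).trans (norm_one_add_ge' (by linarith [Q.re_pos hη]))

lemma ne_zero {η : ℂ} (hη : ‖η‖ < 1 / 4) : Q.uu η ≠ 0 := by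
  intro h
  have := Q.re_pos hη
  rw [h, Complex.zero_re] at this
  linarith

lemma one_add_ne {η : ℂ} (hη : ‖η‖ < 1 / 4) : 1 + Q.uu η ≠ 0 := by
  have h1 := Q.one_add_ge hη
  have h2 := Q.U_pos
  exact norm_pos_iff.1 (by linarith)

/-- `log u` -/
noncomputable def g (η : ℂ) : ℂ := Complex.log (Q.uu η)

lemma hasDerivAt_g {η : ℂ} (hη : ‖η‖ < 1 / 4) : HasDerivAt Q.g (1 / (1 + Q.uu η)) η := by
  have h1 : Q.uu η ∈ Complex.slitPlane := by
    rw [Complex.mem_slitPlane_iff]; left; linarith [Q.re_pos hη]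
  have h2 := (Q.hder η hη).clog h1
  refine h2.congr_deriv ?_
  have := Q.ne_zero hη
  have := Q.one_add_ne hη
  field_simp

lemma u_exp {η : ℂ} (hη : ‖η‖ < 1 / 4) :
    Q.uu η * Complex.exp (Q.uu η) = u1 * Complex.exp u1 * Complex.exp η := by
  have h1 := Q.heq η hη
  have hu1 : u1 ≠ 0 := norm_pos_iff.1 Q.U_pos
  calc Q.uu η * Complex.exp (Q.uu η) =
        Complex.exp (Complex.log (Q.uu η)) * Complex.exp (Q.uu η) := by
        rw [Complex.exp_log (Q.ne_zero hη)]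
    _ = Complex.exp (Q.uu η + Complex.log (Q.uu η)) := by rw [Complex.exp_add]; ring
    _ = Complex.exp (u1 + Complex.log u1 + η) := by rw [h1]
    _ = _ := by rw [Complex.exp_add, Complex.exp_add, Complex.exp_log hu1]; ring

lemma norm_sub_sub {η : ℂ} (hη : ‖η‖ < 1 / 4) : ‖Q.uu η - u1 - η‖ ≤ 2 / ‖u1‖ * ‖η‖ := by
  have hU := Q.U_pos
  have h1 : ∀ z ∈ ball (0 : ℂ) (1 / 4), HasDerivWithinAt (fun v => Q.uu v - v)
      (-1 / (1 + Q.uu z)) (ball (0 : ℂ) (1 / 4)) z := by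
    intro z hz
    rw [mem_ball_zero_iff] at hz
    have h2 := ((Q.hder z hz).sub (hasDerivAt_id z))
    have h3 : Q.uu z / (1 + Q.uu z) - 1 = -1 / (1 + Q.uu z) := by
      have := Q.one_add_ne hz
      field_simp
      ring
    rw [h3] at h2
    exact h2.hasDerivWithinAt
  have h2 : ∀ z ∈ ball (0 : ℂ) (1 / 4), ‖-1 / (1 + Q.uu z)‖ ≤ 2 / ‖u1‖ := by
    intro z hz
    rw [mem_ball_zero_iff] at hz
    have h3 := Q.one_add_ge hz
    rw [norm_div, norm_neg, norm_one, div_le_div_iff₀ (by linarith) hU]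
    linarith
  have h3 := (convex_ball (0 : ℂ) (1 / 4)).norm_image_sub_le_of_norm_hasDerivWithin_le h1 h2
    (mem_ball_self (by norm_num)) (mem_ball_zero_iff.2 hη)
  rw [Q.h0, sub_zero, sub_zero] at h3
  have h4 : Q.uu η - u1 - η = Q.uu η - η - u1 := by ring
  rw [h4]
  exact h3

/-- quadratic model of `g` -/
noncomputable def p (u1 η : ℂ) : ℂ :=
  Complex.log u1 + (1 / (1 + u1)) * η - (1 / (1 + u1)) ^ 2 / 2 * η ^ 2

lemma g_sub_p {η : ℂ} (hη : ‖η‖ < 1 / 4) : ‖Q.g η - p u1 η‖ ≤ 1 / ‖u1‖ ^ 3 := by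
  have hU := Q.U_pos
  have hU4 := Q.hU
  norm_num at hU4
  have hU1 : ‖u1‖ ≤ ‖1 + u1‖ := norm_one_add_ge' (by linarith [Q.hre])
  have hU1' : ‖1 + u1‖ ≤ 101 / 100 * ‖u1‖ := by
    refine (norm_add_le _ _).trans ?_
    rw [norm_one]
    linarith
  have hne1 : 1 + u1 ≠ 0 := norm_pos_iff.1 (by linarith)
  have h1 : ∀ z ∈ ball (0 : ℂ) (1 / 4), HasDerivWithinAt (fun v => Q.g v - p u1 v)
      ((-(Q.uu z - u1 - z) * (1 + u1) + z * (Q.uu z - u1)) / ((1 + Q.uu z) * (1 + u1) ^ 2))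
      (ball (0 : ℂ) (1 / 4)) z := by
    intro z hz
    rw [mem_ball_zero_iff] at hz
    have d1 : HasDerivAt (fun v : ℂ => p u1 v)
        ((1 / (1 + u1)) * 1 - (1 / (1 + u1)) ^ 2 / 2 * (2 * z)) z := by
      unfold p
      have e1 := ((hasDerivAt_id z).const_mul (1 / (1 + u1))).const_add (Complex.log u1)
      have e2 := (hasDerivAt_pow 2 z).const_mul ((1 / (1 + u1)) ^ 2 / 2)
      have e3 := e1.fun_sub e2
      simpa using e3
    have h2 := (Q.hasDerivAt_g hz).sub d1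
    have h3 : 1 / (1 + Q.uu z) - ((1 / (1 + u1)) * 1 - (1 / (1 + u1)) ^ 2 / 2 * (2 * z)) =
        ((-(Q.uu z - u1 - z) * (1 + u1) + z * (Q.uu z - u1)) /
          ((1 + Q.uu z) * (1 + u1) ^ 2)) := by
      have := Q.one_add_ne hz
      field_simp
      ring
    rw [h3] at h2
    exact h2.hasDerivWithinAt
  have h2 : ∀ z ∈ ball (0 : ℂ) (1 / 4),
      ‖(-(Q.uu z - u1 - z) * (1 + u1) + z * (Q.uu z - u1)) / ((1 + Q.uu z) * (1 + u1) ^ 2)‖ ≤
        2 / ‖u1‖ ^ 3 := by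
    intro z hz
    rw [mem_ball_zero_iff] at hz
    have h3 := Q.one_add_ge hz
    have h4 := Q.norm_sub_sub hz
    have h5 := Q.hnear z hz
    have h6 : ‖-(Q.uu z - u1 - z) * (1 + u1) + z * (Q.uu z - u1)‖ ≤ 1 := by
      calc _ ≤ ‖-(Q.uu z - u1 - z) * (1 + u1)‖ + ‖z * (Q.uu z - u1)‖ := norm_add_le _ _
        _ ≤ (2 / ‖u1‖ * ‖z‖) * (101 / 100 * ‖u1‖) + ‖z‖ * (2 * ‖z‖) := by
            rw [norm_mul, norm_mul, norm_neg]
            gcongr
        _ = 202 / 100 * ‖z‖ + 2 * ‖z‖ ^ 2 := by field_simp; ring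
        _ ≤ 1 := by nlinarith [norm_nonneg z]
    have h7 : ‖u1‖ ^ 3 / 2 ≤ ‖(1 + Q.uu z) * (1 + u1) ^ 2‖ := by
      rw [norm_mul, norm_pow]
      calc ‖u1‖ ^ 3 / 2 ≤ (99 / 100 * ‖u1‖) * ‖u1‖ ^ 2 := by
            have : 0 ≤ ‖u1‖ ^ 3 := by positivity
            nlinarith
        _ ≤ _ := by gcongr
    have h8 : 0 < ‖u1‖ ^ 3 / 2 := by positivity
    rw [norm_div, div_le_div_iff₀ (by linarith) (by positivity)]
    have h9 : 0 ≤ ‖u1‖ ^ 3 := by positivity
    nlinarith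
  have h3 := (convex_ball (0 : ℂ) (1 / 4)).norm_image_sub_le_of_norm_hasDerivWithin_le h1 h2
    (mem_ball_self (by norm_num)) (mem_ball_zero_iff.2 hη)
  have h4 : Q.g 0 - p u1 0 = 0 := by
    unfold g p
    rw [Q.h0]
    ring
  simp only [h4, sub_zero] at h3
  refine h3.trans ?_
  rw [div_mul_eq_mul_div, div_le_div_iff₀ (by positivity) (by positivity)]
  have h9 : 0 < ‖u1‖ ^ 3 := by positivity
  nlinarith

end UF

end Pool.Agent.Stj
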